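import Pool.Agent.Lib.MP_9d59e9_gt.KO3.Spec

/-!
# MP_9d59e9_gt, project KO3, module Adj: skew endomorphisms act skewly
-/

set_option autoImplicit false

namespace Pool.Agent.Lib.MP_9d59e9_gt.KO3

open KO
open scoped BigOperators

private theorem Adj_lin {V : Type} [AddCommGroup V] [Module ℝ V] {h : V → ℝ} (hh : Lin1 h)
    {ι : Type} (s : Finset ι) (r : ι → ℝ) (v : ι → V) :
    h (∑ i ∈ s, r i • v i) = ∑ i ∈ s, r i * h (v i) := by
  classical
  induction s using Finset.induction_on with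
  | empty =>
    have := hh.smul 0 0
    simpa using this
  | insert a s ha ih =>
    rw [Finset.sum_insert ha, Finset.sum_insert ha, hh.add, hh.smul, ih]

private theorem Adj_slot {V : Type} [AddCommGroup V] [Module ℝ V] {B : V → V → ℝ} {n : ℕ}
    {f : Fin n → V} (hB : IP B) (hf : Fr B f) {Φ : V → V}
    (hΦ : ∀ a b, B (Φ a) b = -B a (Φ b)) {h h' : V → ℝ} (hh : Lin1 h) (hh' : Lin1 h') :
    ∑ i, (h (Φ (f i)) * h' (f i) + h (f i) * h' (Φ (f i))) = 0 := by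
  have hsk : ∀ i s, B (Φ (f s)) (f i) = -B (Φ (f i)) (f s) := by
    intro i s
    rw [hΦ, hB.symm]
  have e1 : ∀ i, h (Φ (f i)) = ∑ s, B (Φ (f i)) (f s) * h (f s) := by
    intro i
    conv_lhs => rw [hf.ex (Φ (f i))]
    exact Adj_lin hh _ _ _
  have e2 : ∀ i, h' (Φ (f i)) = ∑ s, B (Φ (f i)) (f s) * h' (f s) := by
    intro i
    conv_lhs => rw [hf.ex (Φ (f i))]
    exact Adj_lin hh' _ _ _
  have e3 : ∑ i, (h (Φ (f i)) * h' (f i) + h (f i) * h' (Φ (f i)))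
      = ∑ i, ∑ s, B (Φ (f i)) (f s) * (h (f s) * h' (f i) + h (f i) * h' (f s)) := by
    refine Finset.sum_congr rfl fun i _ => ?_
    rw [e1, e2, Finset.sum_mul, Finset.mul_sum, ← Finset.sum_add_distrib]
    refine Finset.sum_congr rfl fun s _ => ?_
    ring
  rw [e3]
  have e4 : ∑ i, ∑ s, B (Φ (f i)) (f s) * (h (f s) * h' (f i) + h (f i) * h' (f s))
      = -∑ i, ∑ s, B (Φ (f i)) (f s) * (h (f s) * h' (f i) + h (f i) * h' (f s)) := by
    conv_lhs => rw [Finset.sum_comm]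
    rw [← Finset.sum_neg_distrib]
    refine Finset.sum_congr rfl fun i _ => ?_
    rw [← Finset.sum_neg_distrib]
    refine Finset.sum_congr rfl fun s _ => ?_
    rw [hsk i s]
    ring
  linarith

private theorem Adj_z {n : ℕ} (T : Fin n → Fin n → Fin n → Fin n → ℝ) :
    ((∀ j k l, ∑ i, T i j k l = 0) → ∑ i, ∑ j, ∑ k, ∑ l, T i j k l = 0) ∧
    ((∀ i k l, ∑ j, T i j k l = 0) → ∑ i, ∑ j, ∑ k, ∑ l, T i j k l = 0) ∧
    ((∀ i j l, ∑ k, T i j k l = 0) → ∑ i, ∑ j, ∑ k, ∑ l, T i j k l = 0) ∧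
    ((∀ i j k, ∑ l, T i j k l = 0) → ∑ i, ∑ j, ∑ k, ∑ l, T i j k l = 0) := by
  have h2 : (∀ i k l, ∑ j, T i j k l = 0) → ∀ i, ∑ j, ∑ k, ∑ l, T i j k l = 0 := by
    intro h i
    rw [Finset.sum_comm]
    refine Finset.sum_eq_zero fun k _ => ?_
    rw [Finset.sum_comm]
    exact Finset.sum_eq_zero fun l _ => h i k l
  have h3 : (∀ i j l, ∑ k, T i j k l = 0) → ∀ i j, ∑ k, ∑ l, T i j k l = 0 := by
    intro h i j
    rw [Finset.sum_comm]
    exact Finset.sum_eq_zero fun l _ => h i j l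
  refine ⟨fun h => ?_, fun h => Finset.sum_eq_zero fun i _ => h2 h i,
    fun h => Finset.sum_eq_zero fun i _ => Finset.sum_eq_zero fun j _ => h3 h i j,
    fun h => Finset.sum_eq_zero fun i _ => Finset.sum_eq_zero fun j _ =>
      Finset.sum_eq_zero fun k _ => h i j k⟩
  rw [Finset.sum_comm]
  refine Finset.sum_eq_zero fun j _ => ?_
  rw [Finset.sum_comm]
  refine Finset.sum_eq_zero fun k _ => ?_
  rw [Finset.sum_comm]
  exact Finset.sum_eq_zero fun l _ => h j k l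

theorem tAdj : S_Adj := by
  intro V _ _ B n f hB hf S S' hS hS' Φ hΦ
  have t1 : ∑ i, ∑ j, ∑ k, ∑ l, (S (Φ (f i)) (f j) (f k) (f l) * S' (f i) (f j) (f k) (f l)
      + S (f i) (f j) (f k) (f l) * S' (Φ (f i)) (f j) (f k) (f l)) = 0 := by
    refine (Adj_z fun i j k l => (S (Φ (f i)) (f j) (f k) (f l) * S' (f i) (f j) (f k) (f l)
      + S (f i) (f j) (f k) (f l) * S' (Φ (f i)) (f j) (f k) (f l))).1 fun j k l => ?_
    exact Adj_slot hB hf hΦ (hS.l1 _ _ _) (hS'.l1 _ _ _)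
  have t2 : ∑ i, ∑ j, ∑ k, ∑ l, (S (f i) (Φ (f j)) (f k) (f l) * S' (f i) (f j) (f k) (f l)
      + S (f i) (f j) (f k) (f l) * S' (f i) (Φ (f j)) (f k) (f l)) = 0 := by
    refine (Adj_z fun i j k l => (S (f i) (Φ (f j)) (f k) (f l) * S' (f i) (f j) (f k) (f l)
      + S (f i) (f j) (f k) (f l) * S' (f i) (Φ (f j)) (f k) (f l))).2.1 fun i k l => ?_
    exact Adj_slot hB hf hΦ (hS.l2 _ _ _) (hS'.l2 _ _ _)
  have t3 : ∑ i, ∑ j, ∑ k, ∑ l, (S (f i) (f j) (Φ (f k)) (f l) * S' (f i) (f j) (f k) (f l)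
      + S (f i) (f j) (f k) (f l) * S' (f i) (f j) (Φ (f k)) (f l)) = 0 := by
    refine (Adj_z fun i j k l => (S (f i) (f j) (Φ (f k)) (f l) * S' (f i) (f j) (f k) (f l)
      + S (f i) (f j) (f k) (f l) * S' (f i) (f j) (Φ (f k)) (f l))).2.2.1 fun i j l => ?_
    exact Adj_slot hB hf hΦ (hS.l3 _ _ _) (hS'.l3 _ _ _)
  have t4 : ∑ i, ∑ j, ∑ k, ∑ l, (S (f i) (f j) (f k) (Φ (f l)) * S' (f i) (f j) (f k) (f l)
      + S (f i) (f j) (f k) (f l) * S' (f i) (f j) (f k) (Φ (f l))) = 0 := by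
    refine (Adj_z fun i j k l => (S (f i) (f j) (f k) (Φ (f l)) * S' (f i) (f j) (f k) (f l)
      + S (f i) (f j) (f k) (f l) * S' (f i) (f j) (f k) (Φ (f l)))).2.2.2 fun i j k => ?_
    exact Adj_slot hB hf hΦ (hS.l4 _ _ _) (hS'.l4 _ _ _)
  have e : ∑ i, ∑ j, ∑ k, ∑ l, (act4 Φ S (f i) (f j) (f k) (f l) * S' (f i) (f j) (f k) (f l)
      + S (f i) (f j) (f k) (f l) * act4 Φ S' (f i) (f j) (f k) (f l))
      = -((∑ i, ∑ j, ∑ k, ∑ l, (S (Φ (f i)) (f j) (f k) (f l) * S' (f i) (f j) (f k) (f l)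
          + S (f i) (f j) (f k) (f l) * S' (Φ (f i)) (f j) (f k) (f l)))
        + (∑ i, ∑ j, ∑ k, ∑ l, (S (f i) (Φ (f j)) (f k) (f l) * S' (f i) (f j) (f k) (f l)
          + S (f i) (f j) (f k) (f l) * S' (f i) (Φ (f j)) (f k) (f l)))
        + (∑ i, ∑ j, ∑ k, ∑ l, (S (f i) (f j) (Φ (f k)) (f l) * S' (f i) (f j) (f k) (f l)
          + S (f i) (f j) (f k) (f l) * S' (f i) (f j) (Φ (f k)) (f l)))
        + (∑ i, ∑ j, ∑ k, ∑ l, (S (f i) (f j) (f k) (Φ (f l)) * S' (f i) (f j) (f k) (f l)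
          + S (f i) (f j) (f k) (f l) * S' (f i) (f j) (f k) (Φ (f l))))) := by
    simp only [← Finset.sum_add_distrib, ← Finset.sum_neg_distrib]
    refine Finset.sum_congr rfl fun i _ => Finset.sum_congr rfl fun j _ =>
      Finset.sum_congr rfl fun k _ => Finset.sum_congr rfl fun l _ => ?_
    unfold act4
    ring
  rw [e, t1, t2, t3, t4]
  norm_num

end Pool.Agent.Lib.MP_9d59e9_gt.KO3
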