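import Pool.Agent.Lib.MP_9d59e9_gt.KO3.Spec

/-!
# MP_9d59e9_gt, project KO3: Bi4 (symmetries of the third covariant derivative of `R`)
-/

set_option autoImplicit false

namespace Pool.Agent.Lib.MP_9d59e9_gt.KO3

open scoped BigOperators ContDiff Topology
open KO

noncomputable section

/-- the curve with vanishing covariant derivative -/
private def Bi4_p {n : ℕ} (g : Pt n → Matrix (Fin n) (Fin n) ℝ) (p X v : Pt n) (t : ℝ) : Pt n :=
  v - t • Chr g p X v

private theorem Bi4_ev {n : ℕ} {Ω : Set (Pt n)} (hO : IsOpen Ω) {x : Pt n} (hx : x ∈ Ω)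
    (X : Pt n) : ∀ᶠ t in 𝓝 (0 : ℝ), x + t • X ∈ Ω := by
  have hc : ContinuousAt (fun t : ℝ => x + t • X) 0 := by fun_prop
  apply hc.eventually_mem
  simpa using hO.mem_nhds hx

private theorem Bi4_der (hCvP : S_CvP) {n : ℕ} {g : Pt n → Matrix (Fin n) (Fin n) ℝ}
    {Ω : Set (Pt n)} (hg : IsMetricOn g Ω) {x : Pt n} (hx : x ∈ Ω) (X u a b c d e : Pt n) :
    HasDerivAt (fun t : ℝ => e6 (N2 g) (x + t • X) (Bi4_p g x X u t) (Bi4_p g x X a t)
      (Bi4_p g x X b t) (Bi4_p g x X c t) (Bi4_p g x X d t) (Bi4_p g x X e t))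
      (e7 (N3 g) x X u a b c d e) 0 := by
  obtain ⟨-, -, -, -, h6, -, -, -⟩ := hCvP n g Ω hg x hx X
  obtain ⟨-, -, -, -, -, -, -, hs6, -⟩ := sSmo n g Ω hg
  have hC := (sCvb n g x X).1
  exact h6 _ hs6 _ _ _ _ _ _ _ _ _ _ _ _ (hC u) (hC a) (hC b) (hC c) (hC d) (hC e)

private theorem Bi4_zero {f : ℝ → ℝ} {f' : ℝ} (h : HasDerivAt f f' 0)
    (hz : ∀ᶠ t in 𝓝 (0 : ℝ), f t = 0) : f' = 0 := by
  have h0 : HasDerivAt f 0 0 :=
    (hasDerivAt_const (0 : ℝ) (0 : ℝ)).congr_of_eventuallyEq hz
  exact h.unique h0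

private theorem Bi4_slot2 {n : ℕ} (T : TF n 7) (x y z b c d e : Pt n) :
    Lin1 fun u => e7 T x y z u b c d e := by
  have h := (sLin n x).1 7 T ![y, z, 0, b, c, d, e] 2
  have hu : ∀ u, Function.update ![y, z, 0, b, c, d, e] (2 : Fin 7) u =
      ![y, z, u, b, c, d, e] := by
    intro u
    ext i j
    fin_cases i <;> rfl
  constructor
  · intro u v
    have := h.add u v
    simp only [hu] at this
    exact this
  · intro r u
    have := h.smul r u
    simp only [hu] at this
    exact this

private theorem Bi4_slot3 {n : ℕ} (T : TF n 7) (x y z a c d e : Pt n) :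
    Lin1 fun u => e7 T x y z a u c d e := by
  have h := (sLin n x).1 7 T ![y, z, a, 0, c, d, e] 3
  have hu : ∀ u, Function.update ![y, z, a, 0, c, d, e] (3 : Fin 7) u =
      ![y, z, a, u, c, d, e] := by
    intro u
    ext i j
    fin_cases i <;> rfl
  constructor
  · intro u v
    have := h.add u v
    simp only [hu] at this
    exact this
  · intro r u
    have := h.smul r u
    simp only [hu] at this
    exact this

theorem tBi4 (hCvP : S_CvP) : S_Bi4 := by
  intro n g Ω hg x hx X u
  have hev := Bi4_ev hg.isOpen hx X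
  have dr := fun a b c d e => Bi4_der hCvP hg hx X u a b c d e
  refine ⟨?_, ?_, ?_⟩
  · intro a
    refine ⟨?_, ?_, ?_, ?_, ?_⟩
    · intro b c d
      exact Bi4_slot3 (N3 g) x X u a b c d
    · intro b c d e
      have h := Bi4_zero ((dr a c b d e).add (dr a b c d e)) (by
        filter_upwards [hev] with t ht
        have := ((sBi3 n g Ω hg _ ht (Bi4_p g x X u t)).cur (Bi4_p g x X a t)).a12
          (Bi4_p g x X b t) (Bi4_p g x X c t) (Bi4_p g x X d t) (Bi4_p g x X e t)
        simp only [Pi.add_apply]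
        linarith)
      linarith
    · intro b c d e
      have h := Bi4_zero ((dr a b c e d).add (dr a b c d e)) (by
        filter_upwards [hev] with t ht
        have := ((sBi3 n g Ω hg _ ht (Bi4_p g x X u t)).cur (Bi4_p g x X a t)).a34
          (Bi4_p g x X b t) (Bi4_p g x X c t) (Bi4_p g x X d t) (Bi4_p g x X e t)
        simp only [Pi.add_apply]
        linarith)
      linarith
    · intro b c d e
      have h := Bi4_zero ((dr a d e b c).sub (dr a b c d e)) (by
        filter_upwards [hev] with t ht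
        have := ((sBi3 n g Ω hg _ ht (Bi4_p g x X u t)).cur (Bi4_p g x X a t)).sw
          (Bi4_p g x X b t) (Bi4_p g x X c t) (Bi4_p g x X d t) (Bi4_p g x X e t)
        simp only [Pi.sub_apply]
        linarith)
      linarith
    · intro b c d e
      have h := Bi4_zero (((dr a b c d e).add (dr a c d b e)).add (dr a d b c e)) (by
        filter_upwards [hev] with t ht
        have := ((sBi3 n g Ω hg _ ht (Bi4_p g x X u t)).cur (Bi4_p g x X a t)).bi
          (Bi4_p g x X b t) (Bi4_p g x X c t) (Bi4_p g x X d t) (Bi4_p g x X e t)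
        simp only [Pi.add_apply]
        linarith)
      linarith
  · intro b c d e
    exact Bi4_slot2 (N3 g) x X u b c d e
  · intro a b c d e
    have h := Bi4_zero (((dr a b c d e).add (dr b c a d e)).add (dr c a b d e)) (by
      filter_upwards [hev] with t ht
      have := (sBi3 n g Ω hg _ ht (Bi4_p g x X u t)).bi2 (Bi4_p g x X a t)
        (Bi4_p g x X b t) (Bi4_p g x X c t) (Bi4_p g x X d t) (Bi4_p g x X e t)
      simp only [Pi.add_apply]
      linarith)
    linarith

end

end Pool.Agent.Lib.MP_9d59e9_gt.KO3
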