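import Pool.Agent.Lib.MP_9d59e9_gt.KO3.Spec

/-!
# MP_9d59e9_gt, project KO3: Br3 (from the index formalism to the internal one)
-/

set_option autoImplicit false

namespace Pool.Agent.Lib.MP_9d59e9_gt.KO3

open scoped BigOperators ContDiff
open KO

noncomputable section

private lemma brSw {n : ℕ} (A B : Fin n → ℝ) (C : Fin n → Fin n → ℝ) :
    ∑ e, A e * ∑ s, B s * C e s = ∑ s, B s * ∑ e, A e * C e s := by
  simp only [Finset.mul_sum]
  rw [Finset.sum_comm]
  refine Finset.sum_congr rfl fun s _ => Finset.sum_congr rfl fun e _ => ?_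
  ring

private lemma brPd {n : ℕ} {Ω : Set (Pt n)} (hO : IsOpen Ω) {f : Pt n → ℝ}
    (hf : ContDiffOn ℝ ∞ f Ω) (i : Fin n) : ContDiffOn ℝ ∞ (pd i f) Ω := by
  have h := hf.fderiv_of_isOpen hO (m := ∞) (by simp)
  exact h.clm_apply contDiffOn_const

private lemma brDiff {n : ℕ} {Ω : Set (Pt n)} (hO : IsOpen Ω) {f : Pt n → ℝ}
    (hf : ContDiffOn ℝ ∞ f Ω) {x : Pt n} (hx : x ∈ Ω) : DifferentiableAt ℝ f x :=
  (hf.contDiffAt (hO.mem_nhds hx)).differentiableAt (by simp)

/-- covariant derivative of a lowered vector -/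
private lemma brLow (hMet : S_Met) {n : ℕ} {g : Pt n → Matrix (Fin n) (Fin n) ℝ} {Ω : Set (Pt n)}
    (hg : IsMetricOn g Ω) {x : Pt n} (hx : x ∈ Ω) (F : Fin n → Pt n → ℝ)
    (hF : ∀ e, DifferentiableAt ℝ (F e) x) (c d : Fin n) :
    pd c (fun y => ∑ e, g y e d * F e y) x
      = ∑ e, g x e d * (pd c (F e) x + ∑ s, Gam g e c s x * F s x)
        + ∑ s, Gam g s c d x * ∑ e, g x e s * F e x := by
  have hgd : ∀ e, DifferentiableAt ℝ (fun y => g y e d) x := fun e =>
    brDiff hg.isOpen (hg.smooth e d) hx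
  have h1 : pd c (fun y => ∑ e, g y e d * F e y) x
      = ∑ e, (pd c (fun y => g y e d) x * F e x + g x e d * pd c (F e) x) := by
    unfold pd
    have hs : fderiv ℝ (fun y => ∑ e, g y e d * F e y) x
        = ∑ e, fderiv ℝ (fun y => g y e d * F e y) x :=
      fderiv_fun_sum fun e _ => (hgd e).mul (hF e)
    rw [hs, ContinuousLinearMap.sum_apply]
    refine Finset.sum_congr rfl fun e _ => ?_
    have hm : fderiv ℝ (fun y => g y e d * F e y) x
        = g x e d • fderiv ℝ (F e) x + F e x • fderiv ℝ (fun y => g y e d) x :=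
      fderiv_fun_mul (hgd e) (hF e)
    rw [hm]
    simp only [ContinuousLinearMap.add_apply, ContinuousLinearMap.smul_apply, smul_eq_mul]
    ring
  have hme := (hMet n g Ω hg x hx).2.2.2.2
  rw [h1]
  have h2 : ∀ e, pd c (fun y => g y e d) x * F e x + g x e d * pd c (F e) x
      = g x e d * pd c (F e) x + (F e x * ∑ s, Gam g s c e x * g x s d)
        + F e x * ∑ s, Gam g s c d x * g x e s := by
    intro e
    rw [hme c e d]
    ring
  rw [Finset.sum_congr rfl fun e _ => h2 e]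
  rw [Finset.sum_add_distrib, Finset.sum_add_distrib]
  have h3 : ∑ e, F e x * ∑ s, Gam g s c e x * g x s d
      = ∑ e, g x e d * ∑ s, Gam g e c s x * F s x := by
    simp only [Finset.mul_sum]
    rw [Finset.sum_comm]
    refine Finset.sum_congr rfl fun s _ => Finset.sum_congr rfl fun e _ => ?_
    ring
  have h4 : ∑ e, F e x * ∑ s, Gam g s c d x * g x e s
      = ∑ s, Gam g s c d x * ∑ e, g x e s * F e x := by
    rw [brSw]
    refine Finset.sum_congr rfl fun s _ => ?_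
    congr 1
    refine Finset.sum_congr rfl fun e _ => ?_
    ring
  rw [h3, h4, ← Finset.sum_add_distrib]
  congr 1
  refine Finset.sum_congr rfl fun e _ => ?_
  ring

private lemma brCov3 {n : ℕ} (g : Pt n → Matrix (Fin n) (Fin n) ℝ) (T : Tens n)
    (a c b m p : Fin n) (x : Pt n) :
    cov g T a [c, b, m, p] x = pd c (T a [b, m, p]) x + ∑ s, Gam g a c s x * T s [b, m, p] x
      - (∑ s, Gam g s c b x * T a [s, m, p] x + ∑ s, Gam g s c m x * T a [b, s, p] x
        + ∑ s, Gam g s c p x * T a [b, m, s] x) := by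
  have h : (∑ j : Fin [b, m, p].length, ∑ s, Gam g s c ([b, m, p].get j) x
      * T a ([b, m, p].set j s) x)
      = ∑ s, Gam g s c b x * T a [s, m, p] x + ∑ s, Gam g s c m x * T a [b, s, p] x
        + ∑ s, Gam g s c p x * T a [b, m, s] x :=
    Fin.sum_univ_three (fun j : Fin 3 => ∑ s, Gam g s c ([b, m, p].get j) x
      * T a ([b, m, p].set j s) x)
  rw [← h]
  rfl

private lemma brCov4 {n : ℕ} (g : Pt n → Matrix (Fin n) (Fin n) ℝ) (T : Tens n)
    (a c k b m p : Fin n) (x : Pt n) :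
    cov g T a [c, k, b, m, p] x = pd c (T a [k, b, m, p]) x
      + ∑ s, Gam g a c s x * T s [k, b, m, p] x
      - (∑ s, Gam g s c k x * T a [s, b, m, p] x + ∑ s, Gam g s c b x * T a [k, s, m, p] x
        + ∑ s, Gam g s c m x * T a [k, b, s, p] x + ∑ s, Gam g s c p x * T a [k, b, m, s] x) := by
  have h : (∑ j : Fin [k, b, m, p].length, ∑ s, Gam g s c ([k, b, m, p].get j) x
      * T a ([k, b, m, p].set j s) x)
      = ∑ s, Gam g s c k x * T a [s, b, m, p] x + ∑ s, Gam g s c b x * T a [k, s, m, p] x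
        + ∑ s, Gam g s c m x * T a [k, b, s, p] x + ∑ s, Gam g s c p x * T a [k, b, m, s] x :=
    Fin.sum_univ_four (fun j : Fin 4 => ∑ s, Gam g s c ([k, b, m, p].get j) x
      * T a ([k, b, m, p].set j s) x)
  rw [← h]
  rfl

/-- `R4` in terms of `nablaR g 0` -/
private lemma brR {n : ℕ} (g : Pt n → Matrix (Fin n) (Fin n) ℝ) (I : Fin 4 → Fin n) (x : Pt n) :
    R4 g I x = ∑ e, g x e (I 3) * nablaR g 0 e [I 2, I 0, I 1] x := rfl

/-- `N` in terms of `nablaR g 1` -/
private lemma brN (hSmo : S_Smo) (hMet : S_Met) {n : ℕ} {g : Pt n → Matrix (Fin n) (Fin n) ℝ}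
    {Ω : Set (Pt n)} (hg : IsMetricOn g Ω) {x : Pt n} (hx : x ∈ Ω) (I : Fin 5 → Fin n) :
    N g I x = ∑ e, g x e (I 4) * nablaR g 1 e [I 0, I 3, I 1, I 2] x := by
  obtain ⟨_, _, hC, _⟩ := hSmo n g Ω hg
  have hL := brLow hMet hg hx (fun e y => curv g e (I 3) (I 1) (I 2) y)
    (fun e => brDiff hg.isOpen (hC e (I 3) (I 1) (I 2)) hx) (I 0) (I 4)
  have hD : N g I x = pd (I 0) (fun y => ∑ e, g y e (I 4) * curv g e (I 3) (I 1) (I 2) y) x
      - (∑ s, Gam g s (I 0) (I 1) x * (∑ e, g x e (I 4) * curv g e (I 3) s (I 2) x)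
        + ∑ s, Gam g s (I 0) (I 2) x * (∑ e, g x e (I 4) * curv g e (I 3) (I 1) s x)
        + ∑ s, Gam g s (I 0) (I 3) x * (∑ e, g x e (I 4) * curv g e s (I 1) (I 2) x)
        + ∑ s, Gam g s (I 0) (I 4) x * (∑ e, g x e s * curv g e (I 3) (I 1) (I 2) x)) := by
    have h := Fin.sum_univ_four (fun j : Fin 4 => ∑ s, Gam g s (I 0) (I j.succ) x
      * R4 g (Function.update (Fin.tail I) j s) x)
    unfold N D
    rw [h]
    rfl
  rw [hD, hL]
  have hR : ∀ e, nablaR g 1 e [I 0, I 3, I 1, I 2] x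
      = (pd (I 0) (fun y => curv g e (I 3) (I 1) (I 2) y) x
          + ∑ s, Gam g e (I 0) s x * curv g s (I 3) (I 1) (I 2) x)
        - (∑ s, Gam g s (I 0) (I 3) x * curv g e s (I 1) (I 2) x
          + ∑ s, Gam g s (I 0) (I 1) x * curv g e (I 3) s (I 2) x
          + ∑ s, Gam g s (I 0) (I 2) x * curv g e (I 3) (I 1) s x) := by
    intro e
    exact brCov3 g (curvT g) e (I 0) (I 3) (I 1) (I 2) x
  have q1 := brSw (fun e => g x e (I 4)) (fun s => Gam g s (I 0) (I 1) x)
    (fun e s => curv g e (I 3) s (I 2) x)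
  have q2 := brSw (fun e => g x e (I 4)) (fun s => Gam g s (I 0) (I 2) x)
    (fun e s => curv g e (I 3) (I 1) s x)
  have q3 := brSw (fun e => g x e (I 4)) (fun s => Gam g s (I 0) (I 3) x)
    (fun e s => curv g e s (I 1) (I 2) x)
  simp only [hR, mul_sub, mul_add, Finset.sum_sub_distrib, Finset.sum_add_distrib]
  linarith

private lemma brNs (hSmo : S_Smo) {n : ℕ} {g : Pt n → Matrix (Fin n) (Fin n) ℝ}
    {Ω : Set (Pt n)} (hg : IsMetricOn g Ω) (a c b m p : Fin n) :
    ContDiffOn ℝ ∞ (nablaR g 1 a [c, b, m, p]) Ω := by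
  obtain ⟨_, hG, hC, _⟩ := hSmo n g Ω hg
  have h : nablaR g 1 a [c, b, m, p] = fun x => pd c (curv g a b m p) x
      + ∑ s, Gam g a c s x * curv g s b m p x
      - (∑ s, Gam g s c b x * curv g a s m p x + ∑ s, Gam g s c m x * curv g a b s p x
        + ∑ s, Gam g s c p x * curv g a b m s x) := by
    funext x
    exact brCov3 g (curvT g) a c b m p x
  rw [h]
  have hs : ∀ (A B : Fin n → Pt n → ℝ), (∀ s, ContDiffOn ℝ ∞ (A s) Ω) →
      (∀ s, ContDiffOn ℝ ∞ (B s) Ω) → ContDiffOn ℝ ∞ (fun x => ∑ s, A s x * B s x) Ω :=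
    fun A B hA hB => ContDiffOn.sum fun s _ => (hA s).mul (hB s)
  exact ((brPd hg.isOpen (hC a b m p) c).add (hs _ _ (fun s => hG a c s) fun s => hC s b m p)).sub
    (((hs _ _ (fun s => hG s c b) fun s => hC a s m p).add
      (hs _ _ (fun s => hG s c m) fun s => hC a b s p)).add
      (hs _ _ (fun s => hG s c p) fun s => hC a b m s))

/-- `N2` in terms of `nablaR g 2` -/
private lemma brN2 (hSmo : S_Smo) (hMet : S_Met) {n : ℕ} {g : Pt n → Matrix (Fin n) (Fin n) ℝ}
    {Ω : Set (Pt n)} (hg : IsMetricOn g Ω) {x : Pt n} (hx : x ∈ Ω) (I : Fin 6 → Fin n) :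
    N2 g I x = ∑ e, g x e (I 5) * nablaR g 2 e [I 0, I 1, I 4, I 2, I 3] x := by
  have hL := brLow hMet hg hx (fun e y => nablaR g 1 e [I 1, I 4, I 2, I 3] y)
    (fun e => brDiff hg.isOpen (brNs hSmo hg e (I 1) (I 4) (I 2) (I 3)) hx) (I 0) (I 5)
  have hp : pd (I 0) (N g (Fin.tail I)) x
      = pd (I 0) (fun y => ∑ e, g y e (I 5) * nablaR g 1 e [I 1, I 4, I 2, I 3] y) x := by
    unfold pd
    have he : N g (Fin.tail I) =ᶠ[nhds x]
        fun y => ∑ e, g y e (I 5) * nablaR g 1 e [I 1, I 4, I 2, I 3] y := by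
      filter_upwards [hg.isOpen.mem_nhds hx] with y hy
      exact brN hSmo hMet hg hy (Fin.tail I)
    rw [he.fderiv_eq]
  have hD : N2 g I x = pd (I 0) (N g (Fin.tail I)) x
      - (∑ s, Gam g s (I 0) (I 1) x * N g (Function.update (Fin.tail I) 0 s) x
        + ∑ s, Gam g s (I 0) (I 2) x * N g (Function.update (Fin.tail I) 1 s) x
        + ∑ s, Gam g s (I 0) (I 3) x * N g (Function.update (Fin.tail I) 2 s) x
        + ∑ s, Gam g s (I 0) (I 4) x * N g (Function.update (Fin.tail I) 3 s) x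
        + ∑ s, Gam g s (I 0) (I 5) x * N g (Function.update (Fin.tail I) 4 s) x) := by
    have h := Fin.sum_univ_five (fun j : Fin 5 => ∑ s, Gam g s (I 0) (I j.succ) x
      * N g (Function.update (Fin.tail I) j s) x)
    unfold N2 D
    rw [h]
    rfl
  have hu : ∀ (j : Fin 5) (s : Fin n), N g (Function.update (Fin.tail I) j s) x
      = ∑ e, g x e (Function.update (Fin.tail I) j s 4)
        * nablaR g 1 e [Function.update (Fin.tail I) j s 0, Function.update (Fin.tail I) j s 3,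
          Function.update (Fin.tail I) j s 1, Function.update (Fin.tail I) j s 2] x :=
    fun j s => brN hSmo hMet hg hx _
  have u0 : ∀ s, N g (Function.update (Fin.tail I) 0 s) x
      = ∑ e, g x e (I 5) * nablaR g 1 e [s, I 4, I 2, I 3] x := fun s => hu 0 s
  have u1 : ∀ s, N g (Function.update (Fin.tail I) 1 s) x
      = ∑ e, g x e (I 5) * nablaR g 1 e [I 1, I 4, s, I 3] x := fun s => hu 1 s
  have u2 : ∀ s, N g (Function.update (Fin.tail I) 2 s) x
      = ∑ e, g x e (I 5) * nablaR g 1 e [I 1, I 4, I 2, s] x := fun s => hu 2 s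
  have u3 : ∀ s, N g (Function.update (Fin.tail I) 3 s) x
      = ∑ e, g x e (I 5) * nablaR g 1 e [I 1, s, I 2, I 3] x := fun s => hu 3 s
  have u4 : ∀ s, N g (Function.update (Fin.tail I) 4 s) x
      = ∑ e, g x e s * nablaR g 1 e [I 1, I 4, I 2, I 3] x := fun s => hu 4 s
  rw [hD, hp, hL]
  simp only [u0, u1, u2, u3, u4]
  have hR : ∀ e, nablaR g 2 e [I 0, I 1, I 4, I 2, I 3] x
      = (pd (I 0) (fun y => nablaR g 1 e [I 1, I 4, I 2, I 3] y) x
          + ∑ s, Gam g e (I 0) s x * nablaR g 1 s [I 1, I 4, I 2, I 3] x)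
        - (∑ s, Gam g s (I 0) (I 1) x * nablaR g 1 e [s, I 4, I 2, I 3] x
          + ∑ s, Gam g s (I 0) (I 4) x * nablaR g 1 e [I 1, s, I 2, I 3] x
          + ∑ s, Gam g s (I 0) (I 2) x * nablaR g 1 e [I 1, I 4, s, I 3] x
          + ∑ s, Gam g s (I 0) (I 3) x * nablaR g 1 e [I 1, I 4, I 2, s] x) := by
    intro e
    exact brCov4 g (nablaR g 1) e (I 0) (I 1) (I 4) (I 2) (I 3) x
  have q1 := brSw (fun e => g x e (I 5)) (fun s => Gam g s (I 0) (I 1) x)
    (fun e s => nablaR g 1 e [s, I 4, I 2, I 3] x)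
  have q2 := brSw (fun e => g x e (I 5)) (fun s => Gam g s (I 0) (I 2) x)
    (fun e s => nablaR g 1 e [I 1, I 4, s, I 3] x)
  have q3 := brSw (fun e => g x e (I 5)) (fun s => Gam g s (I 0) (I 3) x)
    (fun e s => nablaR g 1 e [I 1, I 4, I 2, s] x)
  have q4 := brSw (fun e => g x e (I 5)) (fun s => Gam g s (I 0) (I 4) x)
    (fun e s => nablaR g 1 e [I 1, s, I 2, I 3] x)
  simp only [hR, mul_sub, mul_add, Finset.sum_sub_distrib, Finset.sum_add_distrib]
  linarith

/-- evaluation on `cons a v` -/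
private lemma brCons {n k : ℕ} (T : TF n (k + 1)) (x a : Pt n) (v : Fin k → Pt n) :
    ev T x (Fin.cons a v) = ∑ i, a i * ev (fun J y => T (Fin.cons i J) y) x v := by
  unfold ev
  rw [← (Fin.consEquiv fun _ => Fin n).sum_comp, Fintype.sum_prod_type]
  refine Finset.sum_congr rfl fun i _ => ?_
  rw [Finset.mul_sum]
  refine Finset.sum_congr rfl fun J _ => ?_
  change T (Fin.cons i J) x * ∏ j, (Fin.cons a v : Fin (k + 1) → Pt n) j
    ((Fin.cons i J : Fin (k + 1) → Fin n) j) = _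
  rw [Fin.prod_univ_succ]
  simp only [Fin.cons_zero, Fin.cons_succ]
  ring

private lemma brNil {n : ℕ} (T : TF n 0) (x : Pt n) (v : Fin 0 → Pt n) :
    ev T x v = T Fin.elim0 x := by
  unfold ev
  rw [Fintype.sum_unique]
  simp only [Finset.univ_eq_empty, Finset.prod_empty, mul_one]
  congr 1

private lemma brCov5 {n : ℕ} (g : Pt n → Matrix (Fin n) (Fin n) ℝ) (T : Tens n)
    (a c k l b m p : Fin n) (x : Pt n) :
    cov g T a [c, k, l, b, m, p] x = pd c (T a [k, l, b, m, p]) x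
      + ∑ s, Gam g a c s x * T s [k, l, b, m, p] x
      - (∑ s, Gam g s c k x * T a [s, l, b, m, p] x + ∑ s, Gam g s c l x * T a [k, s, b, m, p] x
        + ∑ s, Gam g s c b x * T a [k, l, s, m, p] x
        + ∑ s, Gam g s c m x * T a [k, l, b, s, p] x
        + ∑ s, Gam g s c p x * T a [k, l, b, m, s] x) := by
  have h : (∑ j : Fin [k, l, b, m, p].length, ∑ s, Gam g s c ([k, l, b, m, p].get j) x
      * T a ([k, l, b, m, p].set j s) x)
      = ∑ s, Gam g s c k x * T a [s, l, b, m, p] x + ∑ s, Gam g s c l x * T a [k, s, b, m, p] x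
        + ∑ s, Gam g s c b x * T a [k, l, s, m, p] x
        + ∑ s, Gam g s c m x * T a [k, l, b, s, p] x
        + ∑ s, Gam g s c p x * T a [k, l, b, m, s] x :=
    Fin.sum_univ_five (fun j : Fin 5 => ∑ s, Gam g s c ([k, l, b, m, p].get j) x
      * T a ([k, l, b, m, p].set j s) x)
  rw [← h]
  rfl

private lemma brNs2 (hSmo : S_Smo) {n : ℕ} {g : Pt n → Matrix (Fin n) (Fin n) ℝ}
    {Ω : Set (Pt n)} (hg : IsMetricOn g Ω) (a c k b m p : Fin n) :
    ContDiffOn ℝ ∞ (nablaR g 2 a [c, k, b, m, p]) Ω := by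
  obtain ⟨_, hG, hC, _⟩ := hSmo n g Ω hg
  have h : nablaR g 2 a [c, k, b, m, p] = fun x => pd c (nablaR g 1 a [k, b, m, p]) x
      + ∑ s, Gam g a c s x * nablaR g 1 s [k, b, m, p] x
      - (∑ s, Gam g s c k x * nablaR g 1 a [s, b, m, p] x
        + ∑ s, Gam g s c b x * nablaR g 1 a [k, s, m, p] x
        + ∑ s, Gam g s c m x * nablaR g 1 a [k, b, s, p] x
        + ∑ s, Gam g s c p x * nablaR g 1 a [k, b, m, s] x) := by
    funext x
    exact brCov4 g (nablaR g 1) a c k b m p x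
  rw [h]
  have hs : ∀ (A B : Fin n → Pt n → ℝ), (∀ s, ContDiffOn ℝ ∞ (A s) Ω) →
      (∀ s, ContDiffOn ℝ ∞ (B s) Ω) → ContDiffOn ℝ ∞ (fun x => ∑ s, A s x * B s x) Ω :=
    fun A B hA hB => ContDiffOn.sum fun s _ => (hA s).mul (hB s)
  have hn := fun a c b m p => brNs hSmo hg a c b m p
  exact ((brPd hg.isOpen (hn a k b m p) c).add (hs _ _ (fun s => hG a c s)
    fun s => hn s k b m p)).sub
    ((((hs _ _ (fun s => hG s c k) fun s => hn a s b m p).add
      (hs _ _ (fun s => hG s c b) fun s => hn a k s m p)).add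
      (hs _ _ (fun s => hG s c m) fun s => hn a k b s p)).add
      (hs _ _ (fun s => hG s c p) fun s => hn a k b m s))

/-- `N3` in terms of `nablaR g 3` -/
private lemma brN3 (hSmo : S_Smo) (hMet : S_Met) {n : ℕ} {g : Pt n → Matrix (Fin n) (Fin n) ℝ}
    {Ω : Set (Pt n)} (hg : IsMetricOn g Ω) {x : Pt n} (hx : x ∈ Ω) (I : Fin 7 → Fin n) :
    N3 g I x = ∑ e, g x e (I 6) * nablaR g 3 e [I 0, I 1, I 2, I 5, I 3, I 4] x := by
  have hL := brLow hMet hg hx (fun e y => nablaR g 2 e [I 1, I 2, I 5, I 3, I 4] y)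
    (fun e => brDiff hg.isOpen (brNs2 hSmo hg e (I 1) (I 2) (I 5) (I 3) (I 4)) hx) (I 0) (I 6)
  have hp : pd (I 0) (N2 g (Fin.tail I)) x
      = pd (I 0) (fun y => ∑ e, g y e (I 6) * nablaR g 2 e [I 1, I 2, I 5, I 3, I 4] y) x := by
    unfold pd
    have he : N2 g (Fin.tail I) =ᶠ[nhds x]
        fun y => ∑ e, g y e (I 6) * nablaR g 2 e [I 1, I 2, I 5, I 3, I 4] y := by
      filter_upwards [hg.isOpen.mem_nhds hx] with y hy
      exact brN2 hSmo hMet hg hy (Fin.tail I)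
    rw [he.fderiv_eq]
  have hD : N3 g I x = pd (I 0) (N2 g (Fin.tail I)) x
      - (∑ s, Gam g s (I 0) (I 1) x * N2 g (Function.update (Fin.tail I) 0 s) x
        + ∑ s, Gam g s (I 0) (I 2) x * N2 g (Function.update (Fin.tail I) 1 s) x
        + ∑ s, Gam g s (I 0) (I 3) x * N2 g (Function.update (Fin.tail I) 2 s) x
        + ∑ s, Gam g s (I 0) (I 4) x * N2 g (Function.update (Fin.tail I) 3 s) x
        + ∑ s, Gam g s (I 0) (I 5) x * N2 g (Function.update (Fin.tail I) 4 s) x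
        + ∑ s, Gam g s (I 0) (I 6) x * N2 g (Function.update (Fin.tail I) 5 s) x) := by
    have h := Fin.sum_univ_six (fun j : Fin 6 => ∑ s, Gam g s (I 0) (I j.succ) x
      * N2 g (Function.update (Fin.tail I) j s) x)
    unfold N3 D
    rw [h]
    rfl
  have hu : ∀ (j : Fin 6) (s : Fin n), N2 g (Function.update (Fin.tail I) j s) x
      = ∑ e, g x e (Function.update (Fin.tail I) j s 5)
        * nablaR g 2 e [Function.update (Fin.tail I) j s 0, Function.update (Fin.tail I) j s 1,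
          Function.update (Fin.tail I) j s 4, Function.update (Fin.tail I) j s 2,
          Function.update (Fin.tail I) j s 3] x :=
    fun j s => brN2 hSmo hMet hg hx _
  have u0 : ∀ s, N2 g (Function.update (Fin.tail I) 0 s) x
      = ∑ e, g x e (I 6) * nablaR g 2 e [s, I 2, I 5, I 3, I 4] x := fun s => hu 0 s
  have u1 : ∀ s, N2 g (Function.update (Fin.tail I) 1 s) x
      = ∑ e, g x e (I 6) * nablaR g 2 e [I 1, s, I 5, I 3, I 4] x := fun s => hu 1 s
  have u2 : ∀ s, N2 g (Function.update (Fin.tail I) 2 s) x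
      = ∑ e, g x e (I 6) * nablaR g 2 e [I 1, I 2, I 5, s, I 4] x := fun s => hu 2 s
  have u3 : ∀ s, N2 g (Function.update (Fin.tail I) 3 s) x
      = ∑ e, g x e (I 6) * nablaR g 2 e [I 1, I 2, I 5, I 3, s] x := fun s => hu 3 s
  have u4 : ∀ s, N2 g (Function.update (Fin.tail I) 4 s) x
      = ∑ e, g x e (I 6) * nablaR g 2 e [I 1, I 2, s, I 3, I 4] x := fun s => hu 4 s
  have u5 : ∀ s, N2 g (Function.update (Fin.tail I) 5 s) x
      = ∑ e, g x e s * nablaR g 2 e [I 1, I 2, I 5, I 3, I 4] x := fun s => hu 5 s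
  rw [hD, hp, hL]
  simp only [u0, u1, u2, u3, u4, u5]
  have hR : ∀ e, nablaR g 3 e [I 0, I 1, I 2, I 5, I 3, I 4] x
      = (pd (I 0) (fun y => nablaR g 2 e [I 1, I 2, I 5, I 3, I 4] y) x
          + ∑ s, Gam g e (I 0) s x * nablaR g 2 s [I 1, I 2, I 5, I 3, I 4] x)
        - (∑ s, Gam g s (I 0) (I 1) x * nablaR g 2 e [s, I 2, I 5, I 3, I 4] x
          + ∑ s, Gam g s (I 0) (I 2) x * nablaR g 2 e [I 1, s, I 5, I 3, I 4] x
          + ∑ s, Gam g s (I 0) (I 5) x * nablaR g 2 e [I 1, I 2, s, I 3, I 4] x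
          + ∑ s, Gam g s (I 0) (I 3) x * nablaR g 2 e [I 1, I 2, I 5, s, I 4] x
          + ∑ s, Gam g s (I 0) (I 4) x * nablaR g 2 e [I 1, I 2, I 5, I 3, s] x) := by
    intro e
    exact brCov5 g (nablaR g 2) e (I 0) (I 1) (I 2) (I 5) (I 3) (I 4) x
  have q1 := brSw (fun e => g x e (I 6)) (fun s => Gam g s (I 0) (I 1) x)
    (fun e s => nablaR g 2 e [s, I 2, I 5, I 3, I 4] x)
  have q2 := brSw (fun e => g x e (I 6)) (fun s => Gam g s (I 0) (I 2) x)
    (fun e s => nablaR g 2 e [I 1, s, I 5, I 3, I 4] x)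
  have q3 := brSw (fun e => g x e (I 6)) (fun s => Gam g s (I 0) (I 5) x)
    (fun e s => nablaR g 2 e [I 1, I 2, s, I 3, I 4] x)
  have q4 := brSw (fun e => g x e (I 6)) (fun s => Gam g s (I 0) (I 3) x)
    (fun e s => nablaR g 2 e [I 1, I 2, I 5, s, I 4] x)
  have q5 := brSw (fun e => g x e (I 6)) (fun s => Gam g s (I 0) (I 4) x)
    (fun e s => nablaR g 2 e [I 1, I 2, I 5, I 3, s] x)
  simp only [hR, mul_sub, mul_add, Finset.sum_sub_distrib, Finset.sum_add_distrib]
  linarith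

private lemma brComp {n : ℕ} {g : Pt n → Matrix (Fin n) (Fin n) ℝ} {Ω : Set (Pt n)}
    (hSmo : S_Smo) (hMet : S_Met) (hg : IsMetricOn g Ω) (t : ℕ → List (Fin n) → Pt n → ℝ)
    {x : Pt n} (hx : x ∈ Ω) (hK : KSAt g 3 (fun m l => t m l x) x) (I : Fin 7 → Fin n) :
    N3 g I x + t 1 [I 0] x * N2 g (Fin.tail I) x
      + t 2 [I 0, I 1] x * N g (Fin.tail (Fin.tail I)) x
      + t 3 [I 0, I 1, I 2] x * R4 g (Fin.tail (Fin.tail (Fin.tail I))) x = 0 := by
  have h1 : N2 g (Fin.tail I) x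
      = ∑ e, g x e (I 6) * nablaR g 2 e [I 1, I 2, I 5, I 3, I 4] x :=
    brN2 hSmo hMet hg hx (Fin.tail I)
  have h2 : N g (Fin.tail (Fin.tail I)) x
      = ∑ e, g x e (I 6) * nablaR g 1 e [I 2, I 5, I 3, I 4] x :=
    brN hSmo hMet hg hx (Fin.tail (Fin.tail I))
  have h3 : R4 g (Fin.tail (Fin.tail (Fin.tail I))) x
      = ∑ e, g x e (I 6) * nablaR g 0 e [I 5, I 3, I 4] x := rfl
  rw [brN3 hSmo hMet hg hx I, h1, h2, h3, Finset.mul_sum, Finset.mul_sum, Finset.mul_sum,
    ← Finset.sum_add_distrib, ← Finset.sum_add_distrib, ← Finset.sum_add_distrib]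
  refine Finset.sum_eq_zero fun e _ => ?_
  have h := hK e [I 0, I 1, I 2, I 5, I 3, I 4] rfl
  have hI : Finset.Icc 1 3 = ({1, 2, 3} : Finset ℕ) := by decide
  rw [hI, Finset.sum_insert (by decide), Finset.sum_pair (by norm_num)] at h
  have h' : nablaR g 3 e [I 0, I 1, I 2, I 5, I 3, I 4] x + (t 1 [I 0] x
      * nablaR g 2 e [I 1, I 2, I 5, I 3, I 4] x + (t 2 [I 0, I 1] x
      * nablaR g 1 e [I 2, I 5, I 3, I 4] x + t 3 [I 0, I 1, I 2] x
      * nablaR g 0 e [I 5, I 3, I 4] x)) = 0 := h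
  linear_combination g x e (I 6) * h'

theorem tBr3 : S_Br3 := by
  intro n g Ω hg t hK x hx a b c u v w z
  have hc := brComp sSmo sMet hg t hx (hK x hx)
  have E7 : e7 (N3 g) x a b c u v w z = ∑ i, a i * ∑ j, b j * ∑ k, c k *
      ev (fun J y => N3 g (Fin.cons i (Fin.cons j (Fin.cons k J))) y) x ![u, v, w, z] := by
    have h := brCons (N3 g) x a ![b, c, u, v, w, z]
    refine h.trans (Finset.sum_congr rfl fun i _ => ?_)
    congr 1
    have h' := brCons (fun J y => N3 g (Fin.cons i J) y) x b ![c, u, v, w, z]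
    refine h'.trans (Finset.sum_congr rfl fun j _ => ?_)
    congr 1
    exact brCons (fun J y => N3 g (Fin.cons i (Fin.cons j J)) y) x c ![u, v, w, z]
  have E6 : e6 (N2 g) x b c u v w z = ∑ j, b j * ∑ k, c k *
      ev (fun J y => N2 g (Fin.cons j (Fin.cons k J)) y) x ![u, v, w, z] := by
    have h := brCons (N2 g) x b ![c, u, v, w, z]
    refine h.trans (Finset.sum_congr rfl fun i _ => ?_)
    congr 1
    exact brCons (fun J y => N2 g (Fin.cons i J) y) x c ![u, v, w, z]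
  have E5 : e5 (N g) x c u v w z = ∑ k, c k *
      ev (fun J y => N g (Fin.cons k J) y) x ![u, v, w, z] :=
    brCons (N g) x c ![u, v, w, z]
  have E1 : e1 (fun I : Fin 1 → Fin n => t 1 [I 0]) x a = ∑ i, a i * t 1 [i] x := by
    have h := brCons (fun I : Fin 1 → Fin n => t 1 [I 0]) x a ![]
    refine h.trans (Finset.sum_congr rfl fun i _ => ?_)
    rw [brNil]
    rfl
  have E2 : e2 (fun I : Fin 2 → Fin n => t 2 [I 0, I 1]) x a b
      = ∑ i, a i * ∑ j, b j * t 2 [i, j] x := by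
    have h := brCons (fun I : Fin 2 → Fin n => t 2 [I 0, I 1]) x a ![b]
    refine h.trans (Finset.sum_congr rfl fun i _ => ?_)
    congr 1
    have h' := brCons (fun (J : Fin 1 → Fin n) y =>
      (fun I : Fin 2 → Fin n => t 2 [I 0, I 1]) (Fin.cons i J) y) x b ![]
    refine h'.trans (Finset.sum_congr rfl fun j _ => ?_)
    rw [brNil]
    rfl
  have E3 : e3 (fun I : Fin 3 → Fin n => t 3 [I 0, I 1, I 2]) x a b c
      = ∑ i, a i * ∑ j, b j * ∑ k, c k * t 3 [i, j, k] x := by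
    have h := brCons (fun I : Fin 3 → Fin n => t 3 [I 0, I 1, I 2]) x a ![b, c]
    refine h.trans (Finset.sum_congr rfl fun i _ => ?_)
    congr 1
    have h' := brCons (fun (J : Fin 2 → Fin n) y =>
      (fun I : Fin 3 → Fin n => t 3 [I 0, I 1, I 2]) (Fin.cons i J) y) x b ![c]
    refine h'.trans (Finset.sum_congr rfl fun j _ => ?_)
    congr 1
    have h'' := brCons (fun (J : Fin 1 → Fin n) y =>
      (fun I : Fin 3 → Fin n => t 3 [I 0, I 1, I 2]) (Fin.cons i (Fin.cons j J)) y) x c ![]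
    refine h''.trans (Finset.sum_congr rfl fun k _ => ?_)
    rw [brNil]
    rfl
  have key : ∀ i j k, ev (fun J y => N3 g (Fin.cons i (Fin.cons j (Fin.cons k J))) y) x
        ![u, v, w, z]
      + t 1 [i] x * ev (fun J y => N2 g (Fin.cons j (Fin.cons k J)) y) x ![u, v, w, z]
      + t 2 [i, j] x * ev (fun J y => N g (Fin.cons k J) y) x ![u, v, w, z]
      + t 3 [i, j, k] x * ev (R4 g) x ![u, v, w, z] = 0 := by
    intro i j k
    unfold ev
    rw [Finset.mul_sum, Finset.mul_sum, Finset.mul_sum, ← Finset.sum_add_distrib,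
      ← Finset.sum_add_distrib, ← Finset.sum_add_distrib]
    refine Finset.sum_eq_zero fun J _ => ?_
    have h := hc (Fin.cons i (Fin.cons j (Fin.cons k J)))
    have h' : N3 g (Fin.cons i (Fin.cons j (Fin.cons k J))) x
      + t 1 [i] x * N2 g (Fin.cons j (Fin.cons k J)) x
      + t 2 [i, j] x * N g (Fin.cons k J) x
      + t 3 [i, j, k] x * R4 g J x = 0 := h
    linear_combination (∏ l, (![u, v, w, z] : Fin 4 → Pt n) l (J l)) * h'
  have E4 : e4 (R4 g) x u v w z = ev (R4 g) x ![u, v, w, z] := rfl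
  rw [E7, E6, E5, E1, E2, E3, E4, Finset.sum_mul, Finset.sum_mul, Finset.sum_mul,
    ← Finset.sum_add_distrib, ← Finset.sum_add_distrib, ← Finset.sum_add_distrib]
  refine Finset.sum_eq_zero fun i _ => ?_
  generalize hA : (fun j k => ev (fun J y => N3 g (Fin.cons i (Fin.cons j (Fin.cons k J))) y) x
    ![u, v, w, z]) = A at *
  generalize hB : (fun j k => ev (fun J y => N2 g (Fin.cons j (Fin.cons k J)) y) x
    ![u, v, w, z]) = B at *
  generalize hC : (fun k => ev (fun J y => N g (Fin.cons k J) y) x ![u, v, w, z]) = C at *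
  have hk : ∀ j k, A j k + t 1 [i] x * B j k + t 2 [i, j] x * C k
      + t 3 [i, j, k] x * ev (R4 g) x ![u, v, w, z] = 0 := by
    intro j k
    have h := key i j k
    rw [← hA, ← hB, ← hC]
    exact h
  have h2 : a i * ∑ j, b j * ∑ k, c k * A j k
      + a i * t 1 [i] x * ∑ j, b j * ∑ k, c k * B j k
      + (a i * ∑ j, b j * t 2 [i, j] x) * ∑ k, c k * C k
      + (a i * ∑ j, b j * ∑ k, c k * t 3 [i, j, k] x) * ev (R4 g) x ![u, v, w, z]
      = a i * ∑ j, b j * ∑ k, c k * (A j k + t 1 [i] x * B j k + t 2 [i, j] x * C k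
      + t 3 [i, j, k] x * ev (R4 g) x ![u, v, w, z]) := by
    have hs : (a i * ∑ j, b j * t 2 [i, j] x) * ∑ k, c k * C k
        = a i * ∑ j, b j * ∑ k, c k * (t 2 [i, j] x * C k) := by
      have hs' : ∀ S : ℝ, (a i * ∑ j, b j * t 2 [i, j] x) * S
          = a i * ∑ j, b j * (t 2 [i, j] x * S) := by
        intro S
        rw [mul_assoc, Finset.sum_mul]
        congr 1
        exact Finset.sum_congr rfl fun j _ => by ring
      rw [hs']
      congr 1
      refine Finset.sum_congr rfl fun j _ => ?_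
      congr 1
      rw [Finset.mul_sum]
      exact Finset.sum_congr rfl fun k _ => by ring
    rw [hs]
    simp only [Finset.mul_sum, Finset.sum_mul, ← Finset.sum_add_distrib]
    refine Finset.sum_congr rfl fun j _ => Finset.sum_congr rfl fun k _ => ?_
    ring
  have h3 : a i * ∑ j, b j * ∑ k, c k * A j k
      + a i * t 1 [i] x * ∑ j, b j * ∑ k, c k * B j k
      + (a i * ∑ j, b j * t 2 [i, j] x) * ∑ k, c k * C k
      + (a i * ∑ j, b j * ∑ k, c k * t 3 [i, j, k] x) * ev (R4 g) x ![u, v, w, z] = 0 := by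
    rw [h2]
    simp only [hk, mul_zero, Finset.sum_const_zero]
  rw [← hA, ← hB, ← hC] at h3
  exact h3

end

end Pool.Agent.Lib.MP_9d59e9_gt.KO3
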