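import Pool.Agent.Lib.MP_9d59e9_gt.KO3.Spec

/-!
# MP_9d59e9_gt, project KO3: module CIn

Invariant curvature tensors are multiples of the one of constant curvature.
-/

set_option autoImplicit false

namespace Pool.Agent.Lib.MP_9d59e9_gt.KO3

open scoped BigOperators
open KO

noncomputable section

section
variable {V : Type} [AddCommGroup V] [Module ℝ V]

private theorem CIn_cmb {φ : V → ℝ} (h : Lin1 φ) (r s : ℝ) (a b : V) :
    φ (r • a - s • b) = r * φ a - s * φ b := by
  have e : r • a - s • b = r • a + (-s) • b := by rw [neg_smul, sub_eq_add_neg]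
  rw [e, h.add, h.smul, h.smul]
  ring

private theorem CIn_zero {φ : V → ℝ} (h : Lin1 φ) : φ 0 = 0 := by
  have := h.smul 0 0
  rwa [zero_smul, zero_mul] at this

private theorem CIn_sum {φ : V → ℝ} (h : Lin1 φ) {ι : Type} (s : Finset ι) (c : ι → ℝ)
    (f : ι → V) : φ (∑ i ∈ s, c i • f i) = ∑ i ∈ s, c i * φ (f i) := by
  classical
  induction s using Finset.induction_on with
  | empty => simp [CIn_zero h]
  | insert a s ha ih => rw [Finset.sum_insert ha, Finset.sum_insert ha, h.add, h.smul, ih]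

/-- a linear form which vanishes on a frame vanishes -/
private theorem CIn_ext {B : V → V → ℝ} {n : ℕ} {f : Fin n → V} (hf : Fr B f) {φ : V → ℝ}
    (h : Lin1 φ) (h0 : ∀ i, φ (f i) = 0) (v : V) : φ v = 0 := by
  rw [hf.ex v, CIn_sum h]
  exact Finset.sum_eq_zero fun i _ => by rw [h0 i, mul_zero]

private theorem CIn_l2 {W : V → V → V → V → ℝ} (h : Crvt W) (a c d : V) :
    Lin1 fun b => W a b c d := by
  constructor
  · intro x y
    show W a (x + y) c d = W a x c d + W a y c d
    have := (h.lin a c d).add x y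
    rw [h.a12 (x + y) a, h.a12 x a, h.a12 y a, this]
    ring
  · intro r x
    show W a (r • x) c d = r * W a x c d
    have := (h.lin a c d).smul r x
    rw [h.a12 (r • x) a, h.a12 x a, this]
    ring

private theorem CIn_l3 {W : V → V → V → V → ℝ} (h : Crvt W) (a b d : V) :
    Lin1 fun c => W a b c d := by
  constructor
  · intro x y
    show W a b (x + y) d = W a b x d + W a b y d
    have := (h.lin d a b).add x y
    rw [← h.sw a b (x + y) d, ← h.sw a b x d, ← h.sw a b y d, this]
  · intro r x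
    show W a b (r • x) d = r * W a b x d
    have := (h.lin d a b).smul r x
    rw [← h.sw a b (r • x) d, ← h.sw a b x d, this]

private theorem CIn_l4 {W : V → V → V → V → ℝ} (h : Crvt W) (a b c : V) :
    Lin1 fun d => W a b c d := by
  constructor
  · intro x y
    show W a b c (x + y) = W a b c x + W a b c y
    have := (CIn_l3 h a b c).add x y
    rw [h.a34 a b (x + y) c, h.a34 a b x c, h.a34 a b y c, this]
    ring
  · intro r x
    show W a b c (r • x) = r * W a b c x
    have := (CIn_l3 h a b c).smul r x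
    rw [h.a34 a b (r • x) c, h.a34 a b x c, this]
    ring

private theorem CIn_sub {φ ψ : V → ℝ} (κ : ℝ) (h : Lin1 φ) (k : Lin1 ψ) :
    Lin1 fun v => φ v - κ * ψ v := by
  constructor
  · intro a b
    show φ (a + b) - κ * ψ (a + b) = φ a - κ * ψ a + (φ b - κ * ψ b)
    rw [h.add, k.add]
    ring
  · intro r a
    show φ (r • a) - κ * ψ (r • a) = r * (φ a - κ * ψ a)
    rw [h.smul, k.smul]
    ring

private theorem CIn_pr {φ ψ : V → ℝ} (p q : ℝ) (h : Lin1 φ) (k : Lin1 ψ) :
    Lin1 fun v => p * φ v - q * ψ v := by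
  constructor
  · intro a b
    show p * φ (a + b) - q * ψ (a + b) = p * φ a - q * ψ a + (p * φ b - q * ψ b)
    rw [h.add, k.add]
    ring
  · intro r a
    show p * φ (r • a) - q * ψ (r • a) = r * (p * φ a - q * ψ a)
    rw [h.smul, k.smul]
    ring

private theorem CIn_lc {φ ψ : V → ℝ} (h : Lin1 φ) (e : ∀ v, ψ v = φ v) : Lin1 ψ := by
  have : ψ = φ := funext e
  rw [this]
  exact h

private theorem CIn_first (hCi4 : S_Ci4) (B : V → V → ℝ) (W : V → V → V → V → ℝ)
    (hW : Crvt W) (m : ℕ) (d : Fin m → V) (hm : 2 ≤ m)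
    (hd : ∀ i j, B (d i) (d j) = if i = j then 1 else 0)
    (hi : ∀ i j k l p q, act4 (wd B (d i) (d j)) W (d k) (d l) (d p) (d q) = 0) :
    ∃ κ : ℝ, ∀ k l p q, W (d k) (d l) (d p) (d q) = κ * G0 B (d k) (d l) (d p) (d q) := by
  obtain ⟨κ, hκ⟩ := hCi4 m (fun a b c e => W (d a) (d b) (d c) (d e)) hm
    (fun a b c e => hW.a12 _ _ _ _) (fun a b c e => hW.a34 _ _ _ _)
    (fun a b c e => hW.sw _ _ _ _) (fun a b c e => hW.bi _ _ _ _) (by
      intro i j hij a b c e
      have h := hi i j a b c e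
      have e1 := CIn_cmb (hW.lin (d b) (d c) (d e)) (B (d j) (d a)) (B (d i) (d a)) (d i) (d j)
      have e2 := CIn_cmb (CIn_l2 hW (d a) (d c) (d e)) (B (d j) (d b)) (B (d i) (d b)) (d i) (d j)
      have e3 := CIn_cmb (CIn_l3 hW (d a) (d b) (d e)) (B (d j) (d c)) (B (d i) (d c)) (d i) (d j)
      have e4 := CIn_cmb (CIn_l4 hW (d a) (d b) (d c)) (B (d j) (d e)) (B (d i) (d e)) (d i) (d j)
      simp only [act4, wd] at h
      rw [e1, e2, e3, e4] at h
      simp only [hd] at h
      simp only [rt4]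
      have f : ∀ (k l : Fin m) (x : ℝ), (if l = k then x else 0) = (if k = l then 1 else 0) * x := by
        intro k l x
        by_cases hkl : k = l
        · simp [hkl]
        · have : l ≠ k := fun hh => hkl hh.symm
          simp [hkl, this]
      rw [f i a, f j a, f i b, f j b, f i c, f j c, f i e, f j e]
      linarith)
  refine ⟨κ, fun k l p q => ?_⟩
  have h := hκ k l p q
  rw [h]
  simp only [G0, hd]

end

theorem tCIn (hCi4 : S_Ci4) : S_CIn := by
  refine ⟨fun V _ _ B W _ hW m d hm hd hi => CIn_first hCi4 B W hW m d hm hd hi, ?_⟩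
  intro V _ _ B m W hE hm hW hi
  obtain ⟨e, he⟩ := hE.ex
  obtain ⟨f, hf, -⟩ := hE.fr e he
  obtain ⟨κ, hκ⟩ := CIn_first hCi4 B W hW (m + 1) f (by omega) hf.on
    (fun i j k l p q => hi _ _ _ _ _ _)
  have hB := hE.ip
  have hB2 : ∀ a, Lin1 fun b => B a b := fun a => CIn_lc (hB.lin a) fun v => hB.symm a v
  refine ⟨κ, ?_⟩
  have g1 : ∀ b c d, Lin1 fun a => G0 B a b c d := fun b c d =>
    CIn_lc (CIn_pr (B b c) (B b d) (hB.lin d) (hB.lin c)) fun v => by
      simp only [G0]
      ring
  have g2 : ∀ a c d, Lin1 fun b => G0 B a b c d := fun a c d =>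
    CIn_lc (CIn_pr (B a d) (B a c) (hB.lin c) (hB.lin d)) fun v => by
      simp only [G0]
  have g3 : ∀ a b d, Lin1 fun c => G0 B a b c d := fun a b d =>
    CIn_lc (CIn_pr (B a d) (B b d) (hB2 b) (hB2 a)) fun v => by
      simp only [G0]
      ring
  have g4 : ∀ a b c, Lin1 fun d => G0 B a b c d := fun a b c =>
    CIn_lc (CIn_pr (B b c) (B a c) (hB2 a) (hB2 b)) fun v => by
      simp only [G0]
      ring
  have s4 : ∀ i j k d, W (f i) (f j) (f k) d - κ * G0 B (f i) (f j) (f k) d = 0 := by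
    intro i j k d
    exact CIn_ext hf (CIn_sub κ (CIn_l4 hW (f i) (f j) (f k)) (g4 (f i) (f j) (f k)))
      (fun l => by rw [hκ i j k l]; ring) d
  have s3 : ∀ i j c d, W (f i) (f j) c d - κ * G0 B (f i) (f j) c d = 0 := by
    intro i j c d
    exact CIn_ext hf (CIn_sub κ (CIn_l3 hW (f i) (f j) d) (g3 (f i) (f j) d))
      (fun k => s4 i j k d) c
  have s2 : ∀ i b c d, W (f i) b c d - κ * G0 B (f i) b c d = 0 := by
    intro i b c d
    exact CIn_ext hf (CIn_sub κ (CIn_l2 hW (f i) c d) (g2 (f i) c d)) (fun j => s3 i j c d) b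
  have s1 : ∀ a b c d, W a b c d - κ * G0 B a b c d = 0 := by
    intro a b c d
    exact CIn_ext hf (CIn_sub κ (hW.lin b c d) (g1 b c d)) (fun i => s2 i b c d) a
  intro a b c d
  linarith [s1 a b c d]

end

end Pool.Agent.Lib.MP_9d59e9_gt.KO3
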