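import Pool.Agent.Lib.MP_9d59e9_gt.KO3.Spec

/-!
# MP_9d59e9_gt, project KO3: first part of case A (`S_Ca1`)
-/

set_option autoImplicit false

namespace Pool.Agent.Lib.MP_9d59e9_gt.KO3

open scoped BigOperators ContDiff
open KO

private theorem Ca1_e1 {n : ℕ} (T : TF n 1) (x v : Pt n) :
    e1 T x v = ∑ b, T ![b] x * v b := by
  unfold e1 ev
  rw [← (Equiv.funUnique (Fin 1) (Fin n)).symm.sum_comp]
  refine Finset.sum_congr rfl fun b _ => ?_
  have h : (Equiv.funUnique (Fin 1) (Fin n)).symm b = ![b] := by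
    ext i
    fin_cases i
    rfl
  rw [h]
  simp

private theorem Ca1_e2 {n : ℕ} (T : TF n 2) (x u v : Pt n) :
    e2 T x u v = ∑ b, (∑ a, u a * T ![a, b] x) * v b := by
  unfold e2 ev
  rw [← (finTwoArrowEquiv (Fin n)).symm.sum_comp, Fintype.sum_prod_type, Finset.sum_comm]
  refine Finset.sum_congr rfl fun b _ => ?_
  rw [Finset.sum_mul]
  refine Finset.sum_congr rfl fun a _ => ?_
  have h : (finTwoArrowEquiv (Fin n)).symm (a, b) = ![a, b] := by
    ext i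
    fin_cases i <;> rfl
  rw [h, Fin.prod_univ_two]
  simp only [Matrix.cons_val_zero, Matrix.cons_val_one]
  ring

theorem tCa1 (hUni : S_Uni) (hWlk : S_Wlk) (hRns : S_Rns) (hTwo : S_Two) (hPnt : S_Pnt)
    (hFrm : S_Frm) : S_Ca1 := by
  intro n g U t1 t2 x₀ hn hK hN0 ht2
  have hmet := hK.met
  obtain ⟨τ, hτ⟩ : ∃ τ : TF n 1, τ = fun I x => ∑ a, x₀ a * t2 ![a, I 0] x := ⟨_, rfl⟩
  have hτe : ∀ x v, e1 τ x v = e2 t2 x x₀ v := by
    intro x v
    rw [Ca1_e1, Ca1_e2, hτ]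
    rfl
  have hτs : Sm U τ := by
    intro I
    rw [hτ]
    exact ContDiffOn.sum fun a _ => contDiffOn_const.mul (hK.s2 _)
  obtain ⟨θ, hθ, hs⟩ := hUni n g U hmet τ hτs (fun x hx => by
    obtain ⟨v, hv⟩ := ht2 x hx
    exact ⟨v, by rw [hτe]; exact hv⟩)
  have hW : ∀ x ∈ U, ∀ y z c d p q, WW (e1 θ x) (e5 (N g) x) y z c d p q = 0 := by
    intro x hx y z c d p q
    obtain ⟨s, hs0, hse⟩ := hs x hx
    have h1 := hWlk n g U t1 t2 hK x hx x₀ y z c d p q
    have h2 : ∀ v, e2 t2 x x₀ v = s * e1 θ x v := fun v => by rw [← hτe, hse]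
    unfold WW at h1 ⊢
    rw [h2, h2, h2, h2, h2, h2] at h1
    have h3 : s * (e1 θ x y * e5 (N g) x z c d p q - e1 θ x z * e5 (N g) x y c d p q
      + e1 θ x c * e5 (N g) x d p q y z - e1 θ x d * e5 (N g) x c p q y z
      + e1 θ x p * e5 (N g) x q y z c d - e1 θ x q * e5 (N g) x p y z c d) = 0 := by
      linear_combination h1
    exact (mul_eq_zero.mp h3).resolve_left hs0
  have hD : ∀ x ∈ U, Dcrv (e5 (N g) x) := fun x hx => KO.sBi2 n g U hmet x hx
  have hB : ∀ x ∈ U, ip g x (du g θ x) = e1 θ x := fun x hx =>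
    funext fun v => (hθ.dual x hx v).symm
  refine ⟨θ, hθ, ?_, ?_⟩
  · intro x hx
    obtain ⟨hS1, hS2, -, -⟩ := KO.sSym n g U hmet x hx
    have halg : Alg (ip g x) (n - 1) (e4 (R4 g) x) (Rv g x) :=
      ⟨hFrm n (n - 1) g x (by omega) (hmet.pos x hx), by omega, hS1, hS2, hK.ns x hx⟩
    have h := hPnt (Pt n) (ip g x) (n - 1) (e4 (R4 g) x) (Rv g x) halg (e5 (N g) x) (hD x hx)
      (hN0 x hx) (du g θ x) (e1 t1 x) (hθ.one x hx)
      (by
        intro y z c d p q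
        rw [hB x hx]
        exact hW x hx y z c d p q)
      ((KO.sLin n x).2.2.2.1 t1) (hRns n g U t1 t2 hK x hx)
    rw [hB x hx] at h
    exact h
  · intro x hx a
    refine ⟨e2 t2 x a (du g θ x), fun v => ?_⟩
    by_contra hne
    have h1 : e1 θ x (du g θ x) = 1 := by
      rw [hθ.dual x hx, hθ.one x hx]
    have h0 := hTwo (Pt n) (e5 (N g) x) (hD x hx) (e2 t2 x a) (e1 θ x)
      (((KO.sLin n x).2.2.2.2.1 t2).1 a) ((KO.sLin n x).2.2.2.1 θ)
      (hWlk n g U t1 t2 hK x hx a) (hW x hx)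
      ⟨v, du g θ x, by rw [h1, mul_one]; exact hne⟩
    obtain ⟨z, a', b, c, d, hz⟩ := hN0 x hx
    exact hz (h0 z a' b c d)

end Pool.Agent.Lib.MP_9d59e9_gt.KO3
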