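import Pool.Agent.Lib.MP_9d59e9_gt.KO3.Spec

/-!
# MP_9d59e9_gt, project KO3: case A is impossible (`S_Ca2`)
-/

set_option autoImplicit false

namespace Pool.Agent.Lib.MP_9d59e9_gt.KO3

open scoped BigOperators ContDiff
open KO

theorem tCa2 (hKz : S_Kz) (hOm : S_Om) (hMf : S_Mf) (hRc4 : S_Rc4) (hRcD : S_RcD) (hFA : S_FA)
    (hFB : S_FB) (hPrp : S_Prp) (hFrm : S_Frm) : S_Ca2 := by
  intro n g U t1 t2 θ hn hK hN0 hθ hNF ht2 p hp
  have hmet := hK.met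
  obtain ⟨ψ, hψs, hψ⟩ := hOm n g U θ hn hmet (hKz n g U t1 t2 θ hn hK hθ hNF)
  have hNψ : ∀ x ∈ U, ∀ z a b c d, e5 (N g) x z a b c d = FF (ip g x) (e1 ψ x) z a b c d :=
    fun x hx => (hψ x hx).2
  obtain ⟨κ, hκ⟩ := (hψ p hp).1
  have hκ0 : κ ≠ 0 := by
    intro h0
    obtain ⟨z, a, b, c, d, hz⟩ := hN0 p hp
    apply hz
    rw [hNψ p hp]
    have h1 : ∀ v, e1 ψ p v = 0 := fun v => by rw [hκ v, h0, zero_mul]
    unfold FF
    rw [h1, h1, h1, h1, h1]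
    ring
  obtain ⟨hS1, hS2, -, -⟩ := KO.sSym n g U hmet p hp
  have halg : Alg (ip g p) (n - 1) (e4 (R4 g) p) (Rv g p) :=
    ⟨hFrm n (n - 1) g p (by omega) (hmet.pos p hp), by omega, hS1, hS2, hK.ns p hp⟩
  have hl2 := (KO.sLin n p).2.2.2.2.1 (D g ψ)
  obtain ⟨P, hP, hRP⟩ := hFA (Pt n) (ip g p) (n - 1) (e4 (R4 g) p) (Rv g p) halg
    (e2 (D g ψ) p) hl2.1 hl2.2 (by
      intro x y a b c d
      rw [hRc4 n g U hmet p hp x y a b c d, hMf n g U ψ hmet hψs hNψ p hp x y a b c d,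
        hMf n g U ψ hmet hψs hNψ p hp y x a b c d])
  obtain ⟨s, hs⟩ := halg.eu.ip.riesz (e1 t1 p) ((KO.sLin n p).2.2.2.1 t1)
  obtain ⟨z₀, hz1, hze, hzs⟩ := hPrp (Pt n) (ip g p) (n - 1) halg.eu halg.two (du g θ p) s
  have ht1 : e1 t1 p z₀ = 0 := by rw [← hs, hzs]
  obtain ⟨c, hc⟩ := ht2 p hp z₀
  have hdual : ∀ v, e1 θ p v = ip g p (du g θ p) v := hθ.dual p hp
  have hψB : ∀ a, e1 ψ p a = ip g p (κ • du g θ p) a := by
    intro a
    rw [hκ a, hdual a, (halg.eu.ip.lin a).smul]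
  have hzero : ∀ a, ip g p 0 a = 0 := by
    intro a
    have h := (halg.eu.ip.lin a).smul 0 0
    simpa using h
  refine hFB (Pt n) (ip g p) (n - 1) (e4 (R4 g) p) (Rv g p) halg P hP hRP (e1 ψ p)
    (κ • du g θ p) z₀ (c / κ) (Nv g p z₀) ((KO.sLin n p).2.2.2.1 ψ) hψB ?_ ?_ ?_ ?_ ?_
  · intro h0
    have h1 := hψB (du g θ p)
    rw [h0, hzero, hκ, hdual, hθ.one p hp, mul_one] at h1
    exact hκ0 h1
  · intro h0
    rw [h0, hzero] at hz1
    exact zero_ne_one hz1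
  · rw [hκ, hdual, hze, mul_zero]
  · intro x y a b
    rw [(KO.sOpn n g p (hmet.pos p hp)).1, hNψ p hp]
  · intro x y a b c' d
    have hfun : FF (ip g p) (e1 ψ p) z₀ = e5 (N g) p z₀ := by
      funext a' b' c'' d'
      exact (hNψ p hp z₀ a' b' c'' d').symm
    have h1 := hRcD n g U hmet p hp z₀ x y a b c' d
    have h2 := hK.ks p hp z₀ x y a b c' d
    have h3 := hK.ks p hp z₀ y x a b c' d
    rw [ht1, zero_mul, hc, hNψ p hp] at h2 h3
    rw [hfun, ← h1]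
    have h4 : ∀ v, c / κ * e1 ψ p v = c * e1 θ p v := by
      intro v
      rw [hκ v]
      field_simp
    have h5 := h4 x
    have h6 := h4 y
    linear_combination h2 - h3 + FF (ip g p) (e1 ψ p) y a b c' d * h5
      - FF (ip g p) (e1 ψ p) x a b c' d * h6

end Pool.Agent.Lib.MP_9d59e9_gt.KO3
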