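import Pool.Agent.Lib.MP_9d59e9_gt.KO3.Spec

/-!
# MP_9d59e9_gt, project KO3: Cb1 (curvature operators annihilate the curvature tensor)
-/

set_option autoImplicit false

namespace Pool.Agent.Lib.MP_9d59e9_gt.KO3

open scoped BigOperators ContDiff
open Set
open KO

noncomputable section

private theorem Cb1_upd0 {n : ℕ} (a b c d e f w : Pt n) :
    Function.update (![a, b, c, d, e, f] : Fin 6 → Pt n) 0 w = ![w, b, c, d, e, f] := by
  funext i; fin_cases i <;> rfl

private theorem Cb1_upd1 {n : ℕ} (a b c d e f w : Pt n) :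
    Function.update (![a, b, c, d, e, f] : Fin 6 → Pt n) 1 w = ![a, w, c, d, e, f] := by
  funext i; fin_cases i <;> rfl

private theorem Cb1_upd2 {n : ℕ} (a b c d e f w : Pt n) :
    Function.update (![a, b, c, d, e, f] : Fin 6 → Pt n) 2 w = ![a, b, w, d, e, f] := by
  funext i; fin_cases i <;> rfl

private theorem Cb1_upd3 {n : ℕ} (a b c d e f w : Pt n) :
    Function.update (![a, b, c, d, e, f] : Fin 6 → Pt n) 3 w = ![a, b, c, w, e, f] := by
  funext i; fin_cases i <;> rfl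

private theorem Cb1_upd4 {n : ℕ} (a b c d e f w : Pt n) :
    Function.update (![a, b, c, d, e, f] : Fin 6 → Pt n) 4 w = ![a, b, c, d, w, f] := by
  funext i; fin_cases i <;> rfl

private theorem Cb1_upd5 {n : ℕ} (a b c d e f w : Pt n) :
    Function.update (![a, b, c, d, e, f] : Fin 6 → Pt n) 5 w = ![a, b, c, d, e, w] := by
  funext i; fin_cases i <;> rfl

private theorem Cb1_eta {n : ℕ} (v : Fin 6 → Pt n) :
    v = ![v 0, v 1, v 2, v 3, v 4, v 5] := by
  funext i; fin_cases i <;> rfl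

private theorem Cb1_cons {n : ℕ} (y : Pt n) (v : Fin 6 → Pt n) :
    (Fin.cons y v : Fin 7 → Pt n) = ![y, v 0, v 1, v 2, v 3, v 4, v 5] := by
  funext i; fin_cases i <;> rfl

private theorem Cb1_ml {n : ℕ} (T : TF n 6) (x a b : Pt n) : Ml4 (e6 T x a b) := by
  have h := (KO.sLin n x).1 6 T
  refine ⟨?_, ?_, ?_, ?_⟩
  · intro d e f
    have h1 := h ![a, b, 0, d, e, f] 2
    simp only [Cb1_upd2] at h1
    exact h1
  · intro c e f
    have h1 := h ![a, b, c, 0, e, f] 3
    simp only [Cb1_upd3] at h1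
    exact h1
  · intro c d f
    have h1 := h ![a, b, c, d, 0, f] 4
    simp only [Cb1_upd4] at h1
    exact h1
  · intro c d e
    have h1 := h ![a, b, c, d, e, 0] 5
    simp only [Cb1_upd5] at h1
    exact h1

theorem tCb1 (hRec : S_Rec) (hRc4 : S_Rc4) (hInv : S_Inv) (hFrm : S_Frm) : S_Cb1 := by
  intro n g U t1 t2 hn H h2 p hp
  have hmet := H.met
  obtain ⟨hS1, hS2, -, -⟩ := KO.sSym n g U hmet p hp
  obtain ⟨-, -, -, -, -, -, -, hN2, -⟩ := KO.sSmo n g U hmet
  have hτ : Sm U (fun I x => -(t1 I x) : TF n 1) := fun I => (H.s1 I).neg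
  have hτ1 : ∀ x y, e1 (fun I x => -(t1 I x) : TF n 1) x y = -(e1 t1 x y) := by
    intro x y
    simp only [e1, ev, neg_mul, Finset.sum_neg_distrib]
  have hrec := hRec n g U hmet 6 (N2 g) (fun I x => -(t1 I x)) hN2 hτ (by
    intro x hx y v
    have h := H.ks x hx y (v 0) (v 1) (v 2) (v 3) (v 4) (v 5)
    rw [h2 x hx, zero_mul, add_zero] at h
    rw [hτ1, Cb1_cons]
    have h3 : ev (N2 g) x v = e6 (N2 g) x (v 0) (v 1) (v 2) (v 3) (v 4) (v 5) := by
      conv_lhs => rw [Cb1_eta v]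
      rfl
    rw [h3]
    change e7 (N3 g) x y (v 0) (v 1) (v 2) (v 3) (v 4) (v 5) = _
    linarith) p hp
  have heu : Eu (ip g p) (n - 1) := hFrm n (n - 1) g p (by omega) (hmet.pos p hp)
  refine hInv (Pt n) (ip g p) (n - 1) (e4 (R4 g) p) (Rv g p) heu hS1 hS2 (e6 (N2 g) p)
    (fun x y => Cb1_ml (N2 g) p x y) ?_ ?_
  · intro x y a b c d
    exact hRc4 n g U hmet p hp x y a b c d
  · intro x y a b c d e f
    have h := hrec x y ![a, b, c, d, e, f]
    rw [Fin.sum_univ_six, Cb1_upd0, Cb1_upd1, Cb1_upd2, Cb1_upd3, Cb1_upd4, Cb1_upd5] at h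
    simp only [act6, e6]
    rw [neg_eq_zero]
    exact h

end

end Pool.Agent.Lib.MP_9d59e9_gt.KO3
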