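import Pool.Agent.Lib.MP_9d59e9_gt.KO3.Spec

/-!
# MP_9d59e9_gt, project KO3, module Cb2: semisymmetric with nonsingular curvature operator
-/

set_option autoImplicit false

namespace Pool.Agent.Lib.MP_9d59e9_gt.KO3

open KO
open scoped BigOperators ContDiff

private theorem Cb2_lin {V : Type} [AddCommGroup V] [Module ℝ V] {h : V → ℝ} (hh : Lin1 h)
    {ι : Type} (s : Finset ι) (v : ι → V) : h (∑ i ∈ s, v i) = ∑ i ∈ s, h (v i) := by
  classical
  induction s using Finset.induction_on with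
  | empty =>
    have := hh.smul 0 0
    simpa using this
  | insert a s ha ih =>
    rw [Finset.sum_insert ha, Finset.sum_insert ha, hh.add, ih]

/-- `h (∑ ∑ w • v) = ∑ ∑ w * h v` -/
private theorem Cb2_lin2 {V : Type} [AddCommGroup V] [Module ℝ V] {h : V → ℝ} (hh : Lin1 h)
    {k : ℕ} (w : Fin k → Fin k → ℝ) (v : Fin k → Fin k → V) :
    h (∑ i, ∑ j, w i j • v i j) = ∑ i, ∑ j, w i j * h (v i j) := by
  rw [Cb2_lin hh]
  refine Finset.sum_congr rfl fun i _ => ?_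
  rw [Cb2_lin hh]
  exact Finset.sum_congr rfl fun j _ => hh.smul _ _

/-- `act4` is linear in the endomorphism -/
private theorem Cb2_act {V : Type} [AddCommGroup V] [Module ℝ V] {R : V → V → V → V → ℝ}
    (l1 : ∀ b c d, Lin1 fun a => R a b c d) (l2 : ∀ a c d, Lin1 fun b => R a b c d)
    (l3 : ∀ a b d, Lin1 fun c => R a b c d) (l4 : ∀ a b c, Lin1 fun d => R a b c d)
    {k : ℕ} (w : Fin k → Fin k → ℝ) (Φ : Fin k → Fin k → V → V) (Ψ : V → V)
    (h : ∀ a, Ψ a = ∑ i, ∑ j, w i j • Φ i j a) (hz : ∀ i j a b c d, act4 (Φ i j) R a b c d = 0)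
    (a b c d : V) : act4 Ψ R a b c d = 0 := by
  have e1 : R (Ψ a) b c d = ∑ i, ∑ j, w i j * R (Φ i j a) b c d := by
    rw [h]; exact Cb2_lin2 (l1 b c d) w _
  have e2 : R a (Ψ b) c d = ∑ i, ∑ j, w i j * R a (Φ i j b) c d := by
    rw [h]; exact Cb2_lin2 (l2 a c d) w _
  have e3 : R a b (Ψ c) d = ∑ i, ∑ j, w i j * R a b (Φ i j c) d := by
    rw [h]; exact Cb2_lin2 (l3 a b d) w _
  have e4 : R a b c (Ψ d) = ∑ i, ∑ j, w i j * R a b c (Φ i j d) := by
    rw [h]; exact Cb2_lin2 (l4 a b c) w _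
  have e : act4 Ψ R a b c d = ∑ i, ∑ j, w i j * act4 (Φ i j) R a b c d := by
    unfold act4
    rw [e1, e2, e3, e4]
    simp only [← Finset.sum_add_distrib, ← Finset.sum_neg_distrib]
    refine Finset.sum_congr rfl fun i _ => Finset.sum_congr rfl fun j _ => ?_
    ring
  rw [e]
  refine Finset.sum_eq_zero fun i _ => Finset.sum_eq_zero fun j _ => ?_
  rw [hz, mul_zero]

theorem tCb2 (hGenV : S_GenV) (hCvP : S_CvP) (hCIn : S_CIn) (hDz : S_Dz) (hFrm : S_Frm) :
    S_Cb2 := by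
  intro n g U hn hg hns hact p hp z a b c d
  have hEu : ∀ x ∈ U, Eu (ip g x) (n - 1) := by
    intro x hx
    exact hFrm n (n - 1) g x (by omega) (hg.pos x hx)
  -- all rotations annihilate the curvature tensor
  have hrot : ∀ x ∈ U, ∀ u v a b c d, act4 (wd (ip g x) u v) (e4 (R4 g) x) a b c d = 0 := by
    intro x hx u v a b c d
    have hS := sSym n g U hg x hx
    have hA : Alg (ip g x) (n - 1) (e4 (R4 g) x) (Rv g x) :=
      { eu := hEu x hx
        two := by omega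
        cR := hS.1
        op := hS.2.1
        ns := hns x hx }
    obtain ⟨k, h, w, hw⟩ := hGenV (Pt n) (ip g x) (n - 1) (e4 (R4 g) x) (Rv g x) hA u v
    have hL := (sLin n x).2.2.2.2.2.2.1 (R4 g)
    exact Cb2_act (fun b c d => hL.2.2.2 b c d) (fun a c d => hL.2.2.1 a c d)
      (fun a b d => hL.2.1 a b d) (fun a b c => hL.1 a b c) w
      (fun i j => Rv g x (h i) (h j)) _ hw
      (fun i j a b c d => hact x hx (h i) (h j) a b c d) a b c d
  have hSm : Sm U (R4 g) := (sSmo n g U hg).2.2.2.2.2.1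
  -- the derivative
  have hder : ∀ X u v a b c d, act4 (wd (ip g p) u v) (e5 (N g) p X) a b c d = 0 := by
    intro X u₀ v₀ a₀ b₀ c₀ d₀
    obtain ⟨-, -, h4, -, -, -, hwd, hex⟩ := hCvP n g U hg p hp X
    obtain ⟨u, hu⟩ := hex u₀
    obtain ⟨v, hv⟩ := hex v₀
    obtain ⟨a, ha⟩ := hex a₀
    obtain ⟨b, hb⟩ := hex b₀
    obtain ⟨c, hc⟩ := hex c₀
    obtain ⟨d, hd⟩ := hex d₀
    have d1 := h4 (R4 g) hSm _ _ b b₀ c c₀ d d₀ (hwd u u₀ v v₀ a a₀ hu hv ha) hb hc hd
    have d2 := h4 (R4 g) hSm a a₀ _ _ c c₀ d d₀ ha (hwd u u₀ v v₀ b b₀ hu hv hb) hc hd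
    have d3 := h4 (R4 g) hSm a a₀ b b₀ _ _ d d₀ ha hb (hwd u u₀ v v₀ c c₀ hu hv hc) hd
    have d4 := h4 (R4 g) hSm a a₀ b b₀ c c₀ _ _ ha hb hc (hwd u u₀ v v₀ d d₀ hu hv hd)
    have dd := (((d1.add d2).add d3).add d4).neg
    have hev : ∀ᶠ t in nhds (0 : ℝ), p + t • X ∈ U := by
      have hc0 : ContinuousAt (fun t : ℝ => p + t • X) 0 := by fun_prop
      refine hc0.eventually_mem ?_
      rw [zero_smul, add_zero]
      exact hg.isOpen.mem_nhds hp
    have hz : HasDerivAt (fun _ : ℝ => (0 : ℝ)) 0 0 := hasDerivAt_const _ _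
    have heq := HasDerivAt.congr_of_eventuallyEq dd (f₁ := fun _ : ℝ => (0 : ℝ)) (by
      filter_upwards [hev] with t ht
      have := hrot (p + t • X) ht (u t) (v t) (a t) (b t) (c t) (d t)
      unfold act4 at this
      exact this.symm)
    have h0 := heq.unique hz
    unfold act4
    exact h0
  refine hDz (Pt n) (ip g p) (n - 1) (hEu p hp) (by omega) (e5 (N g) p) (sBi2 n g U hg p hp) ?_ z a b c d
  intro X
  exact hCIn.2 (Pt n) (ip g p) (n - 1) (e5 (N g) p X) (hEu p hp) (by omega)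
    ((sBi2 n g U hg p hp).cur X) (hder X)

end Pool.Agent.Lib.MP_9d59e9_gt.KO3
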