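import Pool.Agent.Lib.MP_9d59e9_gt.KO3.Spec

/-!
# MP_9d59e9_gt, project KO3: invariant curvature arrays
-/

set_option autoImplicit false

namespace Pool.Agent.Lib.MP_9d59e9_gt.KO3

open KO

theorem tCi4 : S_Ci4 := by
  intro m W hm h12 h34 hsw hbi hrt
  have z12 : ∀ a c d, W a a c d = 0 := fun a c d => by have := h12 a a c d; linarith
  have z34 : ∀ a b c, W a b c c = 0 := fun a b c => by have := h34 a b c c; linarith
  have r1 : ∀ i j k, i ≠ j → i ≠ k → j ≠ k → W i j i k = 0 := by
    intro i j k hij hik hjk
    have h := hrt j k hjk i j i j
    simp only [rt4, hij, hik, hjk, if_true, if_false, add_zero, zero_add] at h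
    have h2 := hsw i j i k
    linarith
  have r2 : ∀ i j k, i ≠ j → i ≠ k → j ≠ k → W i j i j = W i k i k := by
    intro i j k hij hik hjk
    have h := hrt j k hjk i j i k
    simp only [rt4, hij, hik, hjk, hjk.symm, if_true, if_false, add_zero, zero_add] at h
    linarith
  have r3 : ∀ i j k l, i ≠ j → i ≠ l → k ≠ j → k ≠ l → j ≠ l → W i j k l = -W i l k j := by
    intro i j k l hij hil hkj hkl hjl
    have h := hrt j l hjl i j k j
    simp only [rt4, hij, hil, hkj, hkl, hjl, if_true, if_false, add_zero, zero_add] at h
    linarith
  have r4 : ∀ i j k l, i ≠ j → i ≠ k → i ≠ l → j ≠ k → j ≠ l → k ≠ l →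
      W j k i l = W i j k l := by
    intro i j k l hij hik hil hjk hjl hkl
    have e1 : W i j k l = W j i l k := by
      have := h12 j i k l
      have := h34 j i l k
      linarith
    have e2 : W j i l k = -W j k l i := r3 j i l k hij.symm hjk hil.symm hkl.symm hik
    have e3 : W j k l i = -W j k i l := h34 j k i l
    linarith
  have r5 : ∀ i j k l, i ≠ j → i ≠ k → i ≠ l → j ≠ k → j ≠ l → k ≠ l → W i j k l = 0 := by
    intro i j k l hij hik hil hjk hjl hkl
    have e1 := r4 i j k l hij hik hil hjk hjl hkl
    have e2 := r4 j k i l hjk hij.symm hjl hik.symm hkl hil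
    have := hbi i j k l
    linarith
  set o : Fin m := ⟨0, by omega⟩ with ho
  set u : Fin m := ⟨1, by omega⟩ with hu
  have hou : o ≠ u := by
    intro h
    rw [ho, hu, Fin.mk.injEq] at h
    exact absurd h (by norm_num)
  have sy : ∀ i j, W i j i j = W j i j i := by
    intro i j
    have := h12 i j i j
    have := h34 j i i j
    linarith
  have c0 : ∀ j, j ≠ o → W o j o j = W o u o u := by
    intro j hj
    by_cases hju : j = u
    · rw [hju]
    · exact r2 o j u hj.symm hou hju
  have c1 : ∀ i j, i ≠ j → W i j i j = W o u o u := by
    intro i j hij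
    by_cases hi : i = o
    · rw [hi]
      exact c0 j fun h => hij (by rw [hi, h])
    · by_cases hj : j = o
      · rw [hj, sy]
        exact c0 i hi
      · rw [r2 i j o hij hi hj, sy]
        exact c0 i hi
  refine ⟨-W o u o u, fun a b c d => ?_⟩
  by_cases hab : a = b
  · subst hab
    rw [z12]
    by_cases hac : a = c
    · simp [hac]
    · by_cases had : a = d
      · simp [had]
      · simp [hac, had]
  · by_cases hcd : c = d
    · subst hcd
      rw [z34]
      by_cases hac : a = c
      · by_cases hbc : b = c
        · exact absurd (hac.trans hbc.symm) hab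
        · simp [hac, hbc]
      · simp [hac]
    · by_cases hac : a = c
      · subst hac
        by_cases hbd : b = d
        · subst hbd
          rw [c1 a b hab]
          simp [hab]
        · rw [r1 a b d hab hcd hbd]
          simp [hcd, hbd]
      · by_cases had : a = d
        · subst had
          by_cases hbc : b = c
          · subst hbc
            rw [h34 a b a b, c1 a b hab]
            simp [hac]
          · rw [h34 a b a c, r1 a b c hab hac hbc]
            simp [hac, hbc]
        · by_cases hbc : b = c
          · subst hbc
            rw [h12 b a b d, r1 b a d (Ne.symm hab) hcd had]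
            simp [hab, had]
          · by_cases hbd : b = d
            · subst hbd
              rw [h12 b a c b, h34 b a b c, r1 b a c (Ne.symm hab) hbc hac]
              simp [hac, had]
            · rw [r5 a b c d hab hac had hbc hbd hcd]
              simp [hac, had]

end Pool.Agent.Lib.MP_9d59e9_gt.KO3
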