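import Pool.Agent.Lib.MP_9d59e9_gt.KO3.Spec

/-!
# MP_9d59e9_gt, project KO3: propagation along a connected set

The determinant of the curvature operator (completed by the identity on symmetric arrays) is stationary
at the points where `∇R = 0`.  So, if `∇R = 0` wherever the curvature operator is injective, the square of
this determinant is locally constant.
-/

set_option autoImplicit false

namespace Pool.Agent.Lib.MP_9d59e9_gt.KO3

open scoped BigOperators ContDiff Kronecker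
open KO

noncomputable section

/-- derivative of the determinant -/
private lemma con_det {ι : Type} [Fintype ι] [DecidableEq ι] (M : ℝ → Matrix ι ι ℝ)
    (M' : Matrix ι ι ℝ) (t : ℝ) (h : ∀ i j, HasDerivAt (fun s => M s i j) (M' i j) t) :
    HasDerivAt (fun s => (M s).det) ((M t).adjugate * M').trace t := by
  have h1 : HasDerivAt (fun s => (M s).det)
      (∑ σ : Equiv.Perm ι, ((Equiv.Perm.sign σ : ℤ) : ℝ) *
        ∑ i, (∏ j ∈ Finset.univ.erase i, M t (σ j) j) * M' (σ i) i) t := by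
    have h2 : (fun s => (M s).det) = fun s => ∑ σ : Equiv.Perm ι,
        ((Equiv.Perm.sign σ : ℤ) : ℝ) * ∏ i, M s (σ i) i := by
      funext s
      rw [Matrix.det_apply']
    rw [h2]
    refine HasDerivAt.fun_sum fun σ _ => HasDerivAt.const_mul _ ?_
    have h3 := HasDerivAt.fun_finsetProd (u := Finset.univ) (f := fun i s => M s (σ i) i)
      (f' := fun i => M' (σ i) i) (x := t) (fun i _ => h (σ i) i)
    simpa [smul_eq_mul] using h3
  have h4 : ((M t).adjugate * M').trace = ∑ σ : Equiv.Perm ι, ((Equiv.Perm.sign σ : ℤ) : ℝ) *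
        ∑ i, (∏ j ∈ Finset.univ.erase i, M t (σ j) j) * M' (σ i) i := by
    have h5 : ∀ i, ((M t).adjugate * M') i i = ((M t).updateCol i (fun k => M' k i)).det := by
      intro i
      have h6 := Matrix.cramer_apply (M t) (fun k => M' k i) i
      rw [← h6, Matrix.cramer_eq_adjugate_mulVec, Matrix.mul_apply]
      rfl
    simp only [Matrix.trace, Matrix.diag_apply, h5, Matrix.det_apply', Finset.mul_sum]
    rw [Finset.sum_comm]
    refine Finset.sum_congr rfl fun σ _ => Finset.sum_congr rfl fun i _ => ?_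
    rw [← Finset.mul_prod_erase Finset.univ _ (Finset.mem_univ i)]
    simp only [Matrix.updateCol_self]
    rw [mul_comm (M' (σ i) i)]
    congr 2
    refine Finset.prod_congr rfl fun j hj => ?_
    rw [Matrix.updateCol_ne (Finset.ne_of_mem_erase hj)]
  rw [h4]
  exact h1

/-- a commutator has trace zero against the adjugate -/
private lemma con_adj {ι : Type} [Fintype ι] [DecidableEq ι] (M G : Matrix ι ι ℝ) :
    (M.adjugate * (M * G - G * M)).trace = 0 := by
  rw [Matrix.mul_sub, Matrix.trace_sub, ← Matrix.mul_assoc, Matrix.adjugate_mul,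
    ← Matrix.mul_assoc, Matrix.trace_mul_comm (M.adjugate * G) M, ← Matrix.mul_assoc,
    Matrix.mul_adjugate, sub_self]

private lemma con_diff {n : ℕ} {f : Pt n → ℝ} {V : Set (Pt n)} {x : Pt n} (hV : IsOpen V)
    (hx : x ∈ V) (hf : ContDiffOn ℝ ∞ f V) : DifferentiableAt ℝ f x :=
  (hf.contDiffAt (hV.mem_nhds hx)).differentiableAt (by simp)

private lemma con_pd_mul {n : ℕ} (i : Fin n) {f h : Pt n → ℝ} {x : Pt n}
    (hf : DifferentiableAt ℝ f x) (hh : DifferentiableAt ℝ h x) :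
    pd i (fun y => f y * h y) x = pd i f x * h x + f x * pd i h x := by
  unfold pd
  rw [fderiv_fun_mul hf hh]
  simp only [add_apply, smul_apply, smul_eq_mul]
  ring

private lemma con_pd_sum {n : ℕ} (i : Fin n) {ι : Type} [Fintype ι] {F : ι → Pt n → ℝ} {x : Pt n}
    (hF : ∀ j, DifferentiableAt ℝ (F j) x) :
    pd i (fun y => ∑ j, F j y) x = ∑ j, pd i (F j) x := by
  unfold pd
  rw [fderiv_fun_sum (fun j _ => hF j)]
  simp only [sum_apply]

/-- product rule for matrices -/
private lemma con_mul {n : ℕ} {ι : Type} [Fintype ι] (c : Fin n) (A B : Pt n → Matrix ι ι ℝ)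
    {x : Pt n} (hA : ∀ i j, DifferentiableAt ℝ (fun y => A y i j) x)
    (hB : ∀ i j, DifferentiableAt ℝ (fun y => B y i j) x) (i j : ι) :
    pd c (fun y => (A y * B y) i j) x =
      ((Matrix.of fun i j => pd c (fun y => A y i j) x) * B x +
        A x * (Matrix.of fun i j => pd c (fun y => B y i j) x)) i j := by
  have h1 : (fun y => (A y * B y) i j) = fun y => ∑ k, A y i k * B y k j := by
    funext y
    rw [Matrix.mul_apply]
  rw [h1, con_pd_sum c (F := fun k y => A y i k * B y k j) (fun k => (hA i k).mul (hB k j)),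
    Matrix.add_apply, Matrix.mul_apply, Matrix.mul_apply, ← Finset.sum_add_distrib]
  refine Finset.sum_congr rfl fun k _ => ?_
  rw [con_pd_mul c (hA i k) (hB k j)]
  rfl

/-- `∂_m g⁻¹ = -g⁻¹ Γᵀ - Γ g⁻¹` -/
private lemma con_inv {n : ℕ} {g : Pt n → Matrix (Fin n) (Fin n) ℝ}
    {V : Set (Pt n)} (hg : IsMetricOn g V)
    (hi : ∀ i j, ContDiffOn ℝ ∞ (fun x => (g x)⁻¹ i j) V) {x : Pt n} (hx : x ∈ V) (m : Fin n) :
    (Matrix.of fun i j => pd m (fun y => (g y)⁻¹ i j) x) =
      -((g x)⁻¹ * (Matrix.of fun s a => Gam g s m a x).transpose) -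
        (Matrix.of fun s a => Gam g s m a x) * (g x)⁻¹ := by
  have hdet : IsUnit (g x).det := (hg.pos x hx).isUnit.map Matrix.detMonoidHom
  have h1 : (Matrix.of fun i j => pd m (fun y => (g y)⁻¹ i j) x) * g x +
      (g x)⁻¹ * (Matrix.of fun i j => pd m (fun y => g y i j) x) = 0 := by
    ext i k
    have hc : pd m (fun y => ((g y)⁻¹ * g y) i k) x = 0 := by
      have he : (fun y => ((g y)⁻¹ * g y) i k) =ᶠ[nhds x]
          fun _ => (1 : Matrix (Fin n) (Fin n) ℝ) i k := by
        filter_upwards [hg.isOpen.mem_nhds hx] with y hy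
        have hdy : IsUnit (g y).det := (hg.pos y hy).isUnit.map Matrix.detMonoidHom
        exact congrFun (congrFun (Matrix.nonsing_inv_mul (g y) hdy) i) k
      unfold pd
      rw [he.fderiv_eq]
      simp
    rw [← con_mul m (fun y => (g y)⁻¹) g (fun i j => con_diff hg.isOpen hx (hi i j))
      (fun i j => con_diff hg.isOpen hx (hg.smooth i j)) i k, hc, Matrix.zero_apply]
  have h2 := congrArg (fun A => A * (g x)⁻¹) h1
  simp only [Matrix.add_mul, Matrix.zero_mul, Matrix.mul_assoc,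
    Matrix.mul_nonsing_inv _ hdet, Matrix.mul_one] at h2
  rw [← Matrix.mul_assoc] at h2
  have h3 := eq_neg_of_add_eq_zero_left h2
  have hQ : (Matrix.of fun i j => pd m (fun y => g y i j) x) =
      (Matrix.of fun s a => Gam g s m a x).transpose * g x +
        g x * (Matrix.of fun s a => Gam g s m a x) := by
    ext i j
    rw [Matrix.of_apply, (sMet n g V hg x hx).2.2.2.2 m i j, Matrix.add_apply, Matrix.mul_apply,
      Matrix.mul_apply]
    congr 1
    refine Finset.sum_congr rfl fun s _ => ?_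
    rw [Matrix.of_apply]
    ring
  rw [h3, hQ, Matrix.mul_add, Matrix.add_mul, Matrix.mul_assoc,
    Matrix.mul_assoc, Matrix.mul_nonsing_inv _ hdet, Matrix.mul_one,
    ← Matrix.mul_assoc (g x)⁻¹ (g x), Matrix.nonsing_inv_mul _ hdet, Matrix.one_mul]
  abel

/-! the matrix -/

/-- curvature as a matrix: rows `(a, b)`, columns `(m, p)` -/
private def cS {n : ℕ} (g : Pt n → Matrix (Fin n) (Fin n) ℝ) (x : Pt n) :
    Matrix (Fin n × Fin n) (Fin n × Fin n) ℝ :=
  Matrix.of fun i j => curv g i.1 i.2 j.1 j.2 x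

/-- the exchange of the two indices -/
private def cJ (n : ℕ) : Matrix (Fin n × Fin n) (Fin n × Fin n) ℝ :=
  Matrix.of fun i j => if i.1 = j.2 ∧ i.2 = j.1 then 1 else 0

/-- Christoffel symbols -/
private def cG {n : ℕ} (g : Pt n → Matrix (Fin n) (Fin n) ℝ) (c : Fin n) (x : Pt n) :
    Matrix (Fin n) (Fin n) ℝ := Matrix.of fun s a => Gam g s c a x

/-- the curvature operator on skew arrays, twice the identity on symmetric arrays -/
private def cM {n : ℕ} (g : Pt n → Matrix (Fin n) (Fin n) ℝ) (x : Pt n) :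
    Matrix (Fin n × Fin n) (Fin n × Fin n) ℝ :=
  ((1 : Matrix (Fin n) (Fin n) ℝ) ⊗ₖ (g x)⁻¹) * cS g x + (1 + cJ n)

private lemma cJ_comm {n : ℕ} (Γ : Matrix (Fin n) (Fin n) ℝ) :
    cJ n * (Γ ⊗ₖ 1 + 1 ⊗ₖ Γ) = (Γ ⊗ₖ 1 + 1 ⊗ₖ Γ) * cJ n := by
  have h1 : ∀ (A : Matrix (Fin n × Fin n) (Fin n × Fin n) ℝ) i j,
      (cJ n * A) i j = A (i.2, i.1) j := by
    intro A i j
    rw [Matrix.mul_apply, Finset.sum_eq_single (i.2, i.1)]
    · simp [cJ]
    · intro b _ hb
      have : ¬ (i.1 = b.2 ∧ i.2 = b.1) := by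
        rintro ⟨h1, h2⟩
        exact hb (Prod.ext h2.symm h1.symm)
      simp [cJ, this]
    · intro h
      exact absurd (Finset.mem_univ _) h
  have h2 : ∀ (A : Matrix (Fin n × Fin n) (Fin n × Fin n) ℝ) i j,
      (A * cJ n) i j = A i (j.2, j.1) := by
    intro A i j
    rw [Matrix.mul_apply, Finset.sum_eq_single (j.2, j.1)]
    · simp [cJ]
    · intro b _ hb
      have : ¬ (b.1 = j.2 ∧ b.2 = j.1) := by
        rintro ⟨h1, h2⟩
        exact hb (Prod.ext h1 h2)
      simp [cJ, this]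
    · intro h
      exact absurd (Finset.mem_univ _) h
  ext i j
  rw [h1, h2]
  simp only [Matrix.add_apply, Matrix.kroneckerMap_apply, Matrix.one_apply]
  ring

private lemma con_k1 {n : ℕ} (Γ : Matrix (Fin n) (Fin n) ℝ)
    (A : Matrix (Fin n × Fin n) (Fin n × Fin n) ℝ) (a b : Fin n) (j : Fin n × Fin n) :
    ((Γ ⊗ₖ (1 : Matrix (Fin n) (Fin n) ℝ)) * A) (a, b) j = ∑ s, Γ a s * A (s, b) j := by
  rw [Matrix.mul_apply, Fintype.sum_prod_type]
  refine Finset.sum_congr rfl fun s _ => ?_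
  rw [Finset.sum_eq_single b]
  · simp [Matrix.kroneckerMap_apply]
  · intro k _ hk
    simp [Matrix.kroneckerMap_apply, Matrix.one_apply_ne (Ne.symm hk)]
  · intro h
    exact absurd (Finset.mem_univ _) h

private lemma con_k2 {n : ℕ} (Γ : Matrix (Fin n) (Fin n) ℝ)
    (A : Matrix (Fin n × Fin n) (Fin n × Fin n) ℝ) (a b : Fin n) (j : Fin n × Fin n) :
    (((1 : Matrix (Fin n) (Fin n) ℝ) ⊗ₖ Γ) * A) (a, b) j = ∑ s, Γ b s * A (a, s) j := by
  rw [Matrix.mul_apply, Fintype.sum_prod_type, Finset.sum_eq_single a]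
  · simp [Matrix.kroneckerMap_apply]
  · intro k _ hk
    simp [Matrix.kroneckerMap_apply, Matrix.one_apply_ne (Ne.symm hk)]
  · intro h
    exact absurd (Finset.mem_univ _) h

private lemma con_k3 {n : ℕ} (Γ : Matrix (Fin n) (Fin n) ℝ)
    (A : Matrix (Fin n × Fin n) (Fin n × Fin n) ℝ) (i : Fin n × Fin n) (m p : Fin n) :
    (A * (Γ ⊗ₖ (1 : Matrix (Fin n) (Fin n) ℝ))) i (m, p) = ∑ s, A i (s, p) * Γ s m := by
  rw [Matrix.mul_apply, Fintype.sum_prod_type]
  refine Finset.sum_congr rfl fun s _ => ?_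
  rw [Finset.sum_eq_single p]
  · simp [Matrix.kroneckerMap_apply]
  · intro k _ hk
    simp [Matrix.kroneckerMap_apply, Matrix.one_apply_ne hk]
  · intro h
    exact absurd (Finset.mem_univ _) h

private lemma con_k4 {n : ℕ} (Γ : Matrix (Fin n) (Fin n) ℝ)
    (A : Matrix (Fin n × Fin n) (Fin n × Fin n) ℝ) (i : Fin n × Fin n) (m p : Fin n) :
    (A * ((1 : Matrix (Fin n) (Fin n) ℝ) ⊗ₖ Γ)) i (m, p) = ∑ s, A i (m, s) * Γ s p := by
  rw [Matrix.mul_apply, Fintype.sum_prod_type, Finset.sum_eq_single m]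
  · simp [Matrix.kroneckerMap_apply]
  · intro k _ hk
    simp [Matrix.kroneckerMap_apply, Matrix.one_apply_ne hk]
  · intro h
    exact absurd (Finset.mem_univ _) h

/-- derivative of the curvature where `∇R = 0` -/
private lemma con_dS {n : ℕ} (g : Pt n → Matrix (Fin n) (Fin n) ℝ) (c : Fin n) (x : Pt n)
    (h0 : ∀ a b m q, nablaR g 1 a [c, b, m, q] x = 0) :
    (Matrix.of fun i j => pd c (fun y => cS g y i j) x) =
      -((cG g c x ⊗ₖ 1) * cS g x) + (1 ⊗ₖ (cG g c x).transpose) * cS g x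
        + cS g x * (cG g c x ⊗ₖ 1 + 1 ⊗ₖ cG g c x) := by
  ext i j
  obtain ⟨a, b⟩ := i
  obtain ⟨m, p⟩ := j
  have h := h0 a b m p
  have h3 : nablaR g 1 a [c, b, m, p] x = pd c (curv g a b m p) x
      + ∑ s, Gam g a c s x * curv g s b m p x
      - (∑ s, Gam g s c b x * curv g a s m p x + ∑ s, Gam g s c m x * curv g a b s p x
        + ∑ s, Gam g s c p x * curv g a b m s x) := by
    have h : (∑ j : Fin [b, m, p].length, ∑ s, Gam g s c ([b, m, p].get j) x
        * curvT g a ([b, m, p].set j s) x)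
        = ∑ s, Gam g s c b x * curv g a s m p x + ∑ s, Gam g s c m x * curv g a b s p x
          + ∑ s, Gam g s c p x * curv g a b m s x :=
      Fin.sum_univ_three (fun j : Fin 3 => ∑ s, Gam g s c ([b, m, p].get j) x
        * curvT g a ([b, m, p].set j s) x)
    rw [← h]
    rfl
  rw [h3] at h
  have hd : pd c (curv g a b m p) x = -∑ s, Gam g a c s x * curv g s b m p x
      + (∑ s, Gam g s c b x * curv g a s m p x + ∑ s, Gam g s c m x * curv g a b s p x
        + ∑ s, Gam g s c p x * curv g a b m s x) := by linarith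
  have e0 : (Matrix.of fun i j => pd c (fun y => cS g y i j) x) (a, b) (m, p) =
      pd c (curv g a b m p) x := rfl
  rw [e0, hd, Matrix.mul_add, Matrix.add_apply, Matrix.add_apply, Matrix.add_apply,
    Matrix.neg_apply, con_k1, con_k2, con_k3, con_k4]
  simp only [cS, cG, Matrix.of_apply, Matrix.transpose_apply]
  rw [add_assoc (-∑ s, Gam g a c s x * curv g s b m p x)]
  congr 1
  rw [add_assoc]
  congr 1
  congr 1
  · exact Finset.sum_congr rfl fun s _ => mul_comm _ _
  · exact Finset.sum_congr rfl fun s _ => mul_comm _ _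

/-- derivative of the matrix where `∇R = 0` -/
private lemma con_dM {n : ℕ} {g : Pt n → Matrix (Fin n) (Fin n) ℝ} {Ω : Set (Pt n)}
    (hg : IsMetricOn g Ω) (c : Fin n) {x : Pt n} (hx : x ∈ Ω)
    (h0 : ∀ a b m q, nablaR g 1 a [c, b, m, q] x = 0) (i j : Fin n × Fin n) :
    pd c (fun y => cM g y i j) x =
      (cM g x * (cG g c x ⊗ₖ 1 + 1 ⊗ₖ cG g c x) - (cG g c x ⊗ₖ 1 + 1 ⊗ₖ cG g c x) * cM g x :
        Matrix (Fin n × Fin n) (Fin n × Fin n) ℝ) i j := by
  obtain ⟨hi, _, hC, _⟩ := sSmo n g Ω hg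
  have hA : ∀ i j : Fin n × Fin n, DifferentiableAt ℝ
      (fun y => ((1 : Matrix (Fin n) (Fin n) ℝ) ⊗ₖ (g y)⁻¹) i j) x := by
    intro i j
    simp only [Matrix.kroneckerMap_apply]
    exact (con_diff hg.isOpen hx (hi i.2 j.2)).const_mul _
  have hB : ∀ i j : Fin n × Fin n, DifferentiableAt ℝ (fun y => cS g y i j) x :=
    fun i j => con_diff hg.isOpen hx (hC i.1 i.2 j.1 j.2)
  have h1 : pd c (fun y => cM g y i j) x =
      pd c (fun y => (((1 : Matrix (Fin n) (Fin n) ℝ) ⊗ₖ (g y)⁻¹) * cS g y) i j) x := by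
    unfold pd
    have : (fun y => cM g y i j) = fun y =>
        (((1 : Matrix (Fin n) (Fin n) ℝ) ⊗ₖ (g y)⁻¹) * cS g y) i j + (1 + cJ n) i j := by
      funext y
      rfl
    rw [this, fderiv_add_const]
  have h2 : (Matrix.of fun i j : Fin n × Fin n => pd c (fun y =>
      ((1 : Matrix (Fin n) (Fin n) ℝ) ⊗ₖ (g y)⁻¹) i j) x) =
      -((1 ⊗ₖ (g x)⁻¹) * (1 ⊗ₖ (cG g c x).transpose)) - (1 ⊗ₖ cG g c x) * (1 ⊗ₖ (g x)⁻¹) := by
    rw [← Matrix.mul_kronecker_mul, ← Matrix.mul_kronecker_mul, Matrix.one_mul]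
    ext i j
    have h3 := congrFun (congrFun (con_inv hg hi hx c) i.2) j.2
    rw [Matrix.of_apply] at h3
    have h4 : pd c (fun y => ((1 : Matrix (Fin n) (Fin n) ℝ) ⊗ₖ (g y)⁻¹) i j) x =
        (1 : Matrix (Fin n) (Fin n) ℝ) i.1 j.1 * pd c (fun y => (g y)⁻¹ i.2 j.2) x := by
      simp only [Matrix.kroneckerMap_apply]
      unfold pd
      rw [fderiv_const_mul (con_diff hg.isOpen hx (hi i.2 j.2))]
      simp
    rw [Matrix.of_apply, h4, h3]
    simp only [Matrix.sub_apply, Matrix.neg_apply, Matrix.kroneckerMap_apply]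
    unfold cG
    ring
  rw [h1, con_mul c _ _ hA hB i j, h2, con_dS g c x h0]
  have h5 : ((1 : Matrix (Fin n) (Fin n) ℝ) ⊗ₖ (g x)⁻¹) * (cG g c x ⊗ₖ 1) =
      (cG g c x ⊗ₖ 1) * ((1 : Matrix (Fin n) (Fin n) ℝ) ⊗ₖ (g x)⁻¹) := by
    rw [← Matrix.mul_kronecker_mul, ← Matrix.mul_kronecker_mul, Matrix.one_mul, Matrix.one_mul,
      Matrix.mul_one, Matrix.mul_one]
  have h6 := cJ_comm (cG g c x)
  unfold cM
  generalize (1 : Matrix (Fin n) (Fin n) ℝ) ⊗ₖ (g x)⁻¹ = A at *
  generalize (1 : Matrix (Fin n) (Fin n) ℝ) ⊗ₖ (cG g c x).transpose = T at *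
  generalize cG g c x ⊗ₖ (1 : Matrix (Fin n) (Fin n) ℝ) = G1 at *
  generalize (1 : Matrix (Fin n) (Fin n) ℝ) ⊗ₖ cG g c x = G2 at *
  generalize cS g x = S at *
  generalize cJ n = J at *
  have h7 : (-(A * T) - G2 * A) * S + A * (-(G1 * S) + T * S + S * (G1 + G2)) =
      (A * S + (1 + J)) * (G1 + G2) - (G1 + G2) * (A * S + (1 + J)) := by
    have e1 : (A * S + (1 + J)) * (G1 + G2) - (G1 + G2) * (A * S + (1 + J)) =
        A * S * (G1 + G2) - (G1 + G2) * (A * S) + (J * (G1 + G2) - (G1 + G2) * J) := by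
      noncomm_ring
    have e2 : (-(A * T) - G2 * A) * S + A * (-(G1 * S) + T * S + S * (G1 + G2)) =
        A * S * (G1 + G2) - G2 * (A * S) - A * G1 * S := by
      noncomm_ring
    rw [e1, e2, h6, h5, sub_self, add_zero, add_mul, ← Matrix.mul_assoc G1]
    noncomm_ring
  rw [h7]

/-- the image of the curvature part is skew -/
private lemma con_skew {n : ℕ} {g : Pt n → Matrix (Fin n) (Fin n) ℝ} {Ω : Set (Pt n)}
    (hg : IsMetricOn g Ω) {x : Pt n} (hx : x ∈ Ω) (a b m p : Fin n) :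
    ∑ s, (g x)⁻¹ b s * curv g a s m p x = -∑ s, (g x)⁻¹ a s * curv g b s m p x := by
  obtain ⟨hR, -, -, h4⟩ := sSym n g Ω hg x hx
  have hdet : IsUnit (g x).det := (hg.pos x hx).isUnit.map Matrix.detMonoidHom
  have hsy : (g x).transpose = g x := by
    have := (hg.pos x hx).isHermitian
    rwa [Matrix.IsHermitian, Matrix.conjTranspose_eq_transpose_of_trivial] at this
  have hsi : ((g x)⁻¹).transpose = (g x)⁻¹ := by
    rw [Matrix.transpose_nonsing_inv, hsy]
  obtain ⟨K, hK⟩ : ∃ K : Matrix (Fin n) (Fin n) ℝ, ∀ a b, K a b = curv g a b m p x :=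
    ⟨Matrix.of fun a b => curv g a b m p x, fun a b => rfl⟩
  have h1 : (g x * K).transpose = -(g x * K) := by
    ext i j
    have e1 : ∀ i j, (g x * K) i j = e4 (R4 g) x (bv m) (bv p) (bv j) (bv i) := by
      intro i j
      rw [← h4 i j m p, Matrix.mul_apply]
      simp only [hK]
    rw [Matrix.transpose_apply, Matrix.neg_apply, e1, e1]
    exact hR.a34 _ _ _ _
  have h2 : (g x)⁻¹ * K.transpose = -(K * (g x)⁻¹) := by
    have e1 : (g x)⁻¹ * (g x * K).transpose * (g x)⁻¹ = -((g x)⁻¹ * (g x * K) * (g x)⁻¹) := by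
      rw [h1]
      noncomm_ring
    rw [Matrix.transpose_mul, hsy, Matrix.mul_assoc, Matrix.mul_assoc K.transpose,
      Matrix.mul_nonsing_inv _ hdet, Matrix.mul_one, ← Matrix.mul_assoc (g x)⁻¹ (g x),
      Matrix.nonsing_inv_mul _ hdet, Matrix.one_mul] at e1
    exact e1
  have h3 := congrFun (congrFun h2 b) a
  rw [Matrix.neg_apply, Matrix.mul_apply, Matrix.mul_apply] at h3
  simp only [Matrix.transpose_apply, hK] at h3
  rw [h3]
  congr 1
  refine Finset.sum_congr rfl fun s _ => ?_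
  have h5 : (g x)⁻¹ s a = (g x)⁻¹ a s := by
    have := congrFun (congrFun hsi a) s
    rwa [Matrix.transpose_apply] at this
  rw [h5, mul_comm]

private lemma con_vec {n : ℕ} (g : Pt n → Matrix (Fin n) (Fin n) ℝ) (x : Pt n)
    (v : Fin n × Fin n → ℝ) (a b : Fin n) :
    (Matrix.mulVec (cM g x) v) (a, b) =
      ∑ s, (g x)⁻¹ b s * (∑ m, ∑ p, v (m, p) * curv g a s m p x) + (v (a, b) + v (b, a)) := by
  have h1 : (Matrix.mulVec (cJ n) v) (a, b) = v (b, a) := by
    unfold Matrix.mulVec dotProduct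
    rw [Finset.sum_eq_single (b, a)]
    · simp [cJ]
    · intro k _ hk
      have : ¬ (a = k.2 ∧ b = k.1) := by
        rintro ⟨h1, h2⟩
        exact hk (Prod.ext h2.symm h1.symm)
      simp [cJ, this]
    · intro h
      exact absurd (Finset.mem_univ _) h
  unfold cM
  rw [Matrix.add_mulVec, Matrix.add_mulVec, Matrix.one_mulVec, Pi.add_apply, Pi.add_apply, h1]
  congr 1
  unfold Matrix.mulVec dotProduct
  simp only [con_k2, cS, Matrix.of_apply]
  rw [Fintype.sum_prod_type]
  have h2 : ∀ m : Fin n, ∑ p, (∑ s, (g x)⁻¹ b s * curv g a s m p x) * v (m, p) =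
      ∑ s, ∑ p, (g x)⁻¹ b s * curv g a s m p x * v (m, p) := by
    intro m
    rw [Finset.sum_comm]
    exact Finset.sum_congr rfl fun p _ => Finset.sum_mul _ _ _
  simp only [h2]
  rw [Finset.sum_comm]
  refine Finset.sum_congr rfl fun s _ => ?_
  rw [Finset.mul_sum]
  refine Finset.sum_congr rfl fun m _ => ?_
  rw [Finset.mul_sum]
  refine Finset.sum_congr rfl fun p _ => ?_
  ring

private lemma con_ns1 {n : ℕ} {g : Pt n → Matrix (Fin n) (Fin n) ℝ} {x : Pt n}
    (h : (cM g x).det ≠ 0) : NonSing g x := by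
  intro w hw h0 m p
  have h1 : Matrix.mulVec (cM g x) (fun i : Fin n × Fin n => w i.1 i.2) = 0 := by
    funext i
    obtain ⟨a, b⟩ := i
    rw [con_vec g x (fun i : Fin n × Fin n => w i.1 i.2) a b]
    simp only [h0, mul_zero, Finset.sum_const_zero, hw b a, Pi.zero_apply]
    ring
  exact congrFun (Matrix.eq_zero_of_mulVec_eq_zero h h1) (m, p)

private lemma con_ns2 {n : ℕ} {g : Pt n → Matrix (Fin n) (Fin n) ℝ} {Ω : Set (Pt n)}
    (hg : IsMetricOn g Ω) {x : Pt n} (hx : x ∈ Ω) (h : NonSing g x) : (cM g x).det ≠ 0 := by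
  intro h0
  obtain ⟨v, hv, hv0⟩ := Matrix.exists_mulVec_eq_zero_iff.mpr h0
  have hdet : IsUnit (g x).det := (hg.pos x hx).isUnit.map Matrix.detMonoidHom
  obtain ⟨q, hq⟩ : ∃ q : Fin n → Fin n → ℝ, ∀ a s, q a s = ∑ m, ∑ p, v (m, p) * curv g a s m p x :=
    ⟨fun a s => ∑ m, ∑ p, v (m, p) * curv g a s m p x, fun a s => rfl⟩
  have h1 : ∀ a b, ∑ s, (g x)⁻¹ b s * q a s + (v (a, b) + v (b, a)) = 0 := by
    intro a b
    have := congrFun hv0 (a, b)
    rw [con_vec] at this
    simpa only [hq, Pi.zero_apply] using this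
  have h2 : ∀ a b, ∑ s, (g x)⁻¹ b s * q a s = -∑ s, (g x)⁻¹ a s * q b s := by
    intro a b
    have e1 : ∀ a b, ∑ s, (g x)⁻¹ b s * q a s =
        ∑ m, ∑ p, v (m, p) * ∑ s, (g x)⁻¹ b s * curv g a s m p x := by
      intro a b
      simp only [hq, Finset.mul_sum]
      rw [Finset.sum_comm]
      refine Finset.sum_congr rfl fun m _ => ?_
      rw [Finset.sum_comm]
      refine Finset.sum_congr rfl fun p _ => Finset.sum_congr rfl fun s _ => ?_
      ring
    rw [e1, e1, ← Finset.sum_neg_distrib]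
    refine Finset.sum_congr rfl fun m _ => ?_
    rw [← Finset.sum_neg_distrib]
    refine Finset.sum_congr rfl fun p _ => ?_
    rw [con_skew hg hx a b m p]
    ring
  have h3 : ∀ a b, v (a, b) = -v (b, a) := by
    intro a b
    have e1 := h1 a b
    have e2 := h1 b a
    have e3 := h2 a b
    linarith
  have h4 : ∀ a b, ∑ s, (g x)⁻¹ b s * q a s = 0 := by
    intro a b
    have e1 := h1 a b
    have e2 := h3 a b
    linarith
  have h5 : ∀ a b, q a b = 0 := by
    intro a b
    have e1 : Matrix.mulVec (g x)⁻¹ (q a) = 0 := by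
      funext b
      exact h4 a b
    have e2 : (g x)⁻¹.det ≠ 0 := by
      rw [Matrix.det_nonsing_inv, Ring.inverse_eq_inv']
      exact inv_ne_zero hdet.ne_zero
    exact congrFun (Matrix.eq_zero_of_mulVec_eq_zero e2 e1) b
  apply hv
  funext i
  obtain ⟨m, p⟩ := i
  exact h (fun m p => v (m, p)) (fun m p => h3 p m) (fun a b => by
    have := h5 a b
    rwa [hq] at this) m p

private lemma con_ent {n : ℕ} {g : Pt n → Matrix (Fin n) (Fin n) ℝ} {Ω : Set (Pt n)}
    (hg : IsMetricOn g Ω) {x : Pt n} (hx : x ∈ Ω) (i j : Fin n × Fin n) :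
    DifferentiableAt ℝ (fun y => cM g y i j) x := by
  obtain ⟨hi, _, hC, _⟩ := sSmo n g Ω hg
  obtain ⟨a, b⟩ := i
  obtain ⟨m, p⟩ := j
  have h2 : (fun y => cM g y (a, b) (m, p)) = fun y =>
      ∑ s, (g y)⁻¹ b s * curv g a s m p y + (1 + cJ n) (a, b) (m, p) := by
    funext y
    unfold cM
    rw [Matrix.add_apply, con_k2]
    rfl
  rw [h2]
  refine DifferentiableAt.add_const _ (DifferentiableAt.fun_sum fun s _ => ?_)
  exact (con_diff hg.isOpen hx (hi b s)).mul (con_diff hg.isOpen hx (hC a s m p))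

/-- the determinant is differentiable -/
private lemma con_smooth {n : ℕ} {g : Pt n → Matrix (Fin n) (Fin n) ℝ} {Ω : Set (Pt n)}
    (hg : IsMetricOn g Ω) {x : Pt n} (hx : x ∈ Ω) :
    DifferentiableAt ℝ (fun y => (cM g y).det) x := by
  have h3 : (fun y => (cM g y).det) = fun y => ∑ σ : Equiv.Perm (Fin n × Fin n),
      ((Equiv.Perm.sign σ : ℤ) : ℝ) * ∏ i, cM g y (σ i) i := by
    funext y
    rw [Matrix.det_apply']
  rw [h3]
  refine DifferentiableAt.fun_sum fun σ _ => DifferentiableAt.const_mul ?_ _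
  exact (HasFDerivAt.finsetProd (u := Finset.univ) (g := fun i y => cM g y (σ i) i)
    (fun i _ => (con_ent hg hx (σ i) i).hasFDerivAt)).differentiableAt

/-- the determinant is stationary where `∇R = 0` -/
private lemma con_stat {n : ℕ} {g : Pt n → Matrix (Fin n) (Fin n) ℝ} {Ω : Set (Pt n)}
    (hg : IsMetricOn g Ω) {x : Pt n} (hx : x ∈ Ω)
    (h0 : ∀ a c b m q, nablaR g 1 a [c, b, m, q] x = 0) :
    fderiv ℝ (fun y => (cM g y).det) x = 0 := by
  have hd := con_smooth hg hx
  have hent := con_ent hg hx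
  have h1 : ∀ c, fderiv ℝ (fun y => (cM g y).det) x (Pi.single c 1) = 0 := by
    intro c
    have hl : HasDerivAt (fun t : ℝ => x + t • (Pi.single c 1 : Pt n)) (Pi.single c 1) 0 := by
      have := ((hasDerivAt_id (0 : ℝ)).smul_const (Pi.single c 1 : Pt n)).const_add x
      simpa using this
    have e1 := hd.hasFDerivAt.comp_hasDerivAt_of_eq (0 : ℝ) hl (by simp)
    have e2 : HasDerivAt (fun t : ℝ => (cM g (x + t • (Pi.single c 1 : Pt n))).det)
        (((cM g (x + (0 : ℝ) • (Pi.single c 1 : Pt n))).adjugate *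
          Matrix.of fun i j => pd c (fun y => cM g y i j) x).trace) 0 := by
      refine con_det (fun t : ℝ => cM g (x + t • (Pi.single c 1 : Pt n))) _ 0 fun i j => ?_
      exact (hent i j).hasFDerivAt.comp_hasDerivAt_of_eq (0 : ℝ) hl (by simp)
    have e3 := e1.unique e2
    rw [e3, zero_smul, add_zero]
    have e4 : (Matrix.of fun i j => pd c (fun y => cM g y i j) x) =
        cM g x * (cG g c x ⊗ₖ 1 + 1 ⊗ₖ cG g c x) - (cG g c x ⊗ₖ 1 + 1 ⊗ₖ cG g c x) * cM g x := by
      ext i j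
      rw [Matrix.of_apply]
      exact con_dM hg c hx (fun a b m q => h0 a c b m q) i j
    rw [e4]
    exact con_adj _ _
  ext v
  rw [zero_apply, ← (Pi.basisFun ℝ (Fin n)).sum_repr v, map_sum]
  refine Finset.sum_eq_zero fun c _ => ?_
  rw [map_smul, Pi.basisFun_apply, h1 c, smul_zero]

/-- **Cnn.** On a connected open set, if `∇R = 0` at every point with injective curvature operator and
there is such a point, then every point is of this kind. -/
theorem tCnn {n : ℕ} {g : Pt n → Matrix (Fin n) (Fin n) ℝ} {Ω : Set (Pt n)}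
    (hg : IsMetricOn g Ω) (hΩ : IsPreconnected Ω)
    (h : ∀ x ∈ Ω, NonSing g x → ∀ a c b m q, nablaR g 1 a [c, b, m, q] x = 0)
    {p : Pt n} (hp : p ∈ Ω) (hns : NonSing g p) :
    ∀ x ∈ Ω, ∀ a c b m q, nablaR g 1 a [c, b, m, q] x = 0 := by
  have hF : DifferentiableOn ℝ (fun y => (cM g y).det * (cM g y).det) Ω := fun x hx =>
    ((con_smooth hg hx).mul (con_smooth hg hx)).differentiableWithinAt
  have hF0 : Set.EqOn (fderiv ℝ (fun y => (cM g y).det * (cM g y).det)) 0 Ω := by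
    intro x hx
    have hd := con_smooth hg hx
    rw [fderiv_fun_mul hd hd, Pi.zero_apply]
    by_cases h0 : (cM g x).det = 0
    · rw [h0, zero_smul, add_zero]
    · rw [con_stat hg hx (h x hx (con_ns1 h0)), smul_zero, add_zero]
  intro x hx
  have e2 : (cM g x).det * (cM g x).det = (cM g p).det * (cM g p).det :=
    hg.isOpen.is_const_of_fderiv_eq_zero hΩ hF hF0 hx hp
  have e3 : (cM g x).det ≠ 0 := by
    intro h0
    rw [h0, mul_zero] at e2
    exact con_ns2 hg hp hns (mul_self_eq_zero.mp e2.symm)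
  exact h x hx (con_ns1 e3)

end

end Pool.Agent.Lib.MP_9d59e9_gt.KO3
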