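import Pool.Agent.Lib.MP_9d59e9_gt.KO3.Spec

/-!
# MP_9d59e9_gt, project KO3: CvP (derivatives along curves with vanishing covariant derivative)
-/

set_option autoImplicit false

namespace Pool.Agent.Lib.MP_9d59e9_gt.KO3

open scoped BigOperators ContDiff
open KO

noncomputable section

private lemma cvp_lin0 {V : Type} [AddCommGroup V] [Module ℝ V] {f : V → ℝ} (h : Lin1 f) :
    f 0 = 0 := by
  have := h.smul 0 0
  simpa using this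

private lemma cvp_e6 {n : ℕ} (g : Pt n → Matrix (Fin n) (Fin n) ℝ) {Ω : Set (Pt n)}
    (hO : IsOpen Ω) {p : Pt n} (hp : p ∈ Ω) (X : Pt n) (T : TF n 6) (hT : Sm Ω T)
    (a : ℝ → Pt n) (a₀ : Pt n) (b : ℝ → Pt n) (b₀ : Pt n) (c : ℝ → Pt n) (c₀ : Pt n)
    (d : ℝ → Pt n) (d₀ : Pt n) (e : ℝ → Pt n) (e₀ : Pt n) (f : ℝ → Pt n) (f₀ : Pt n)
    (ha : Cv g p X a a₀ 0) (hb : Cv g p X b b₀ 0) (hc : Cv g p X c c₀ 0) (hd : Cv g p X d d₀ 0)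
    (he : Cv g p X e e₀ 0) (hf : Cv g p X f f₀ 0) :
    HasDerivAt (fun t : ℝ => e6 T (p + t • X) (a t) (b t) (c t) (d t) (e t) (f t))
      (e7 (D g T) p X a₀ b₀ c₀ d₀ e₀ f₀) 0 := by
  have h := sCrv n g Ω hO 6 T hT p hp X ![a, b, c, d, e, f] ![a₀, b₀, c₀, d₀, e₀, f₀]
    (fun _ => 0) (by
      intro j
      fin_cases j
      · exact ha
      · exact hb
      · exact hc
      · exact hd
      · exact he
      · exact hf)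
  have h1 : (fun t : ℝ => e6 T (p + t • X) (a t) (b t) (c t) (d t) (e t) (f t)) =
      fun t : ℝ => ev T (p + t • X) (fun j => (![a, b, c, d, e, f] : Fin 6 → ℝ → Pt n) j t) := by
    funext t
    unfold e6
    congr 1
    funext j
    fin_cases j <;> rfl
  rw [h1]
  refine h.congr_deriv ?_
  have h2 : ∑ j, ev T p (Function.update ![a₀, b₀, c₀, d₀, e₀, f₀] j 0) = 0 :=
    Finset.sum_eq_zero fun j _ => cvp_lin0 ((sLin n p).1 6 T ![a₀, b₀, c₀, d₀, e₀, f₀] j)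
  rw [h2, add_zero]
  rfl

theorem tCvP : S_CvP := by
  intro n g Ω hg p hp X
  obtain ⟨h1, h2, h4, h5⟩ := sCvE n g Ω hg.isOpen p hp X
  obtain ⟨b1, -, b3, b4⟩ := sCvb n g p X
  have hI : ∀ a a₀ b b₀, Cv g p X a a₀ 0 → Cv g p X b b₀ 0 →
      HasDerivAt (fun t : ℝ => ip g (p + t • X) (a t) (b t)) 0 0 := by
    intro a a₀ b b₀ ha hb
    have h := sCvI n g Ω hg p hp X a a₀ 0 b b₀ 0 ha hb
    have hip := (sOnb n g p (hg.pos p hp)).2.1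
    have e1 : ip g p 0 b₀ = 0 := cvp_lin0 (hip.lin b₀)
    have e2 : ip g p a₀ 0 = 0 := by rw [hip.symm]; exact cvp_lin0 (hip.lin a₀)
    rw [e1, e2, add_zero] at h
    exact h
  refine ⟨?_, ?_, ?_, ?_, ?_, hI, ?_, fun v₀ => ⟨_, b1 v₀⟩⟩
  · intro T hT a a₀ ha
    have h := h1 T hT a a₀ 0 ha
    rw [cvp_lin0 ((sLin n p).2.2.2.1 T), add_zero] at h
    exact h
  · intro T hT a a₀ b b₀ ha hb
    have h := h2 T hT a a₀ 0 b b₀ 0 ha hb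
    obtain ⟨l1, l2⟩ := (sLin n p).2.2.2.2.1 T
    have e1 : e2 T p 0 b₀ = 0 := cvp_lin0 (l2 b₀)
    have e2 : e2 T p a₀ 0 = 0 := cvp_lin0 (l1 a₀)
    rw [e1, e2, add_zero, add_zero] at h
    exact h
  · intro T hT a a₀ b b₀ c c₀ d d₀ ha hb hc hd
    have h := h4 T hT a a₀ 0 b b₀ 0 c c₀ 0 d d₀ 0 ha hb hc hd
    obtain ⟨l4, l3, l2, l1⟩ := (sLin n p).2.2.2.2.2.2.1 T
    have z1 : e4 T p 0 b₀ c₀ d₀ = 0 := cvp_lin0 (l1 b₀ c₀ d₀)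
    have z2 : e4 T p a₀ 0 c₀ d₀ = 0 := cvp_lin0 (l2 a₀ c₀ d₀)
    have z3 : e4 T p a₀ b₀ 0 d₀ = 0 := cvp_lin0 (l3 a₀ b₀ d₀)
    have z4 : e4 T p a₀ b₀ c₀ 0 = 0 := cvp_lin0 (l4 a₀ b₀ c₀)
    rw [z1, z2, z3, z4] at h
    simp only [add_zero] at h
    exact h
  · intro T hT a a₀ b b₀ c c₀ d d₀ e e₀ ha hb hc hd he
    have h := h5 T hT a a₀ 0 b b₀ 0 c c₀ 0 d d₀ 0 e e₀ 0 ha hb hc hd he
    obtain ⟨l5, l4, l3, l2, l1⟩ := (sLin n p).2.2.2.2.2.2.2.1 T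
    have z1 : e5 T p 0 b₀ c₀ d₀ e₀ = 0 := cvp_lin0 (l1 b₀ c₀ d₀ e₀)
    have z2 : e5 T p a₀ 0 c₀ d₀ e₀ = 0 := cvp_lin0 (l2 a₀ c₀ d₀ e₀)
    have z3 : e5 T p a₀ b₀ 0 d₀ e₀ = 0 := cvp_lin0 (l3 a₀ b₀ d₀ e₀)
    have z4 : e5 T p a₀ b₀ c₀ 0 e₀ = 0 := cvp_lin0 (l4 a₀ b₀ c₀ e₀)
    have z5 : e5 T p a₀ b₀ c₀ d₀ 0 = 0 := cvp_lin0 (l5 a₀ b₀ c₀ d₀)
    rw [z1, z2, z3, z4, z5] at h
    simp only [add_zero] at h
    exact h
  · intro T hT a a₀ b b₀ c c₀ d d₀ e e₀ f f₀ ha hb hc hd he hf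
    exact cvp_e6 g hg.isOpen hp X T hT a a₀ b b₀ c c₀ d d₀ e e₀ f f₀ ha hb hc hd he hf
  · intro u u₀ v v₀ a a₀ hu hv ha
    have f1 := hI v v₀ a a₀ hv ha
    have f2 := (hI u u₀ a a₀ hu ha).neg
    have c1 := b4 _ _ u u₀ 0 f1 hu
    have c2 := b4 _ _ v v₀ 0 f2 hv
    have c3 := b3 _ _ _ _ _ _ c1 c2
    have hu0 := hu.1
    have hv0 := hv.1
    have ha0 := ha.1
    simp only [hu0, hv0, ha0, Pi.neg_apply, zero_smul, smul_zero, add_zero, neg_zero] at c3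
    have e1 : (fun t : ℝ => wd (ip g (p + t • X)) (u t) (v t) (a t)) =
        fun t : ℝ => ip g (p + t • X) (v t) (a t) • u t + -ip g (p + t • X) (u t) (a t) • v t := by
      funext t
      unfold wd
      rw [neg_smul, sub_eq_add_neg]
    have e2 : wd (ip g p) u₀ v₀ a₀ = ip g p v₀ a₀ • u₀ + -ip g p u₀ a₀ • v₀ := by
      unfold wd
      rw [neg_smul, sub_eq_add_neg]
    rw [e1, e2]
    exact c3

end

end Pool.Agent.Lib.MP_9d59e9_gt.KO3
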