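import Pool.Agent.Lib.MP_9d59e9_gt.KO3.Spec

/-!
# MP_9d59e9_gt, project KO3: conclusion (En3)
-/

set_option autoImplicit false

namespace Pool.Agent.Lib.MP_9d59e9_gt.KO3

open scoped BigOperators ContDiff
open Set KO

theorem tEn3 (hNsC : S_NsC) (hNsO : S_NsO) (hBr3 : S_Br3) (hT3 : S_T3) (hTh3 : S_Th3) :
    S_En3 := by
  intro n g Ω hn hg t hts hks p hp hns
  have hop : IsOpen {x | x ∈ Ω ∧ NonSing g x} := hNsO n g Ω hg
  have hsub : {x | x ∈ Ω ∧ NonSing g x} ⊆ Ω := fun x hx => hx.1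
  have hg' : IsMetricOn g {x | x ∈ Ω ∧ NonSing g x} :=
    ⟨hop, fun i j => (hg.smooth i j).mono hsub, fun x hx => hg.pos x hx.1⟩
  have hbr := hBr3 n g Ω hg t hks
  have hns' : ∀ x ∈ {x | x ∈ Ω ∧ NonSing g x}, NSi (ip g x) (e4 (R4 g) x) :=
    fun x hx => hNsC n g Ω hg x hx.1 hx.2
  have ht3 := hT3 n g {x | x ∈ Ω ∧ NonSing g x} (fun I => t 1 [I 0])
    (fun I => t 2 [I 0, I 1]) (fun I => t 3 [I 0, I 1, I 2]) hn hg'
    (fun x hx => hbr x hx.1) hns'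
  have hKS : KS3 g {x | x ∈ Ω ∧ NonSing g x} (fun I => t 1 [I 0])
      (fun I => t 2 [I 0, I 1]) :=
    { met := hg'
      s1 := fun I => (hts 1 [I 0]).mono hsub
      s2 := fun I => (hts 2 [I 0, I 1]).mono hsub
      ks := by
        intro x hx a b c u v w z
        have h := hbr x hx.1 a b c u v w z
        rw [ht3 x hx a b c] at h
        linarith
      ns := hns' }
  have hz := hTh3 n g _ _ _ hn hKS p ⟨hp, hns⟩
  intro a c b m q
  by_contra hne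
  obtain ⟨a', u, v, w, z, h⟩ := ((sBrg n g Ω hg).2 p hp).1 ⟨a, c, b, m, q, hne⟩
  exact h (hz a' u v w z)

end Pool.Agent.Lib.MP_9d59e9_gt.KO3
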