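import Pool.Agent.Lib.MP_9d59e9_gt.KO3.Spec

/-!
# MP_9d59e9_gt, project KO3: equivariance of `W` (`S_Eqv`)
-/

set_option autoImplicit false

namespace Pool.Agent.Lib.MP_9d59e9_gt.KO3

open KO

theorem tEqv : S_Eqv := by
  intro V _ _ N θ Φ hW h5 y z c d p q
  have e1 := hW (Φ y) z c d p q
  have e2 := hW y (Φ z) c d p q
  have e3 := hW y z (Φ c) d p q
  have e4 := hW y z c (Φ d) p q
  have e5 := hW y z c d (Φ p) q
  have e6 := hW y z c d p (Φ q)
  have a1 := h5 z c d p q
  have a2 := h5 y c d p q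
  have a3 := h5 d p q y z
  have a4 := h5 c p q y z
  have a5 := h5 q y z c d
  have a6 := h5 p y z c d
  simp only [WW, act5] at *
  linear_combination e1 + e2 + e3 + e4 + e5 + e6 + θ y * a1 - θ z * a2 + θ c * a3 - θ d * a4
    + θ p * a5 - θ q * a6

end Pool.Agent.Lib.MP_9d59e9_gt.KO3
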