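import Pool.Agent.Lib.MP_9d59e9_gt.KO3.Spec

/-!
# MP_9d59e9_gt, project KO3: FA (`R = KN(P)`)
-/

set_option autoImplicit false

namespace Pool.Agent.Lib.MP_9d59e9_gt.KO3

open scoped BigOperators
open KO

noncomputable section

section aux
variable {V : Type} [AddCommGroup V] [Module ℝ V]

private lemma FA_zero {g : V → ℝ} (hg : Lin1 g) : g 0 = 0 := by
  have h := hg.smul 0 0
  simpa using h

private lemma FA_sum {g : V → ℝ} (hg : Lin1 g) {ι : Type} (s : Finset ι) (X : ι → V) :
    g (∑ i ∈ s, X i) = ∑ i ∈ s, g (X i) := by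
  classical
  induction s using Finset.induction_on with
  | empty => simpa using FA_zero hg
  | insert a s ha ih => rw [Finset.sum_insert ha, Finset.sum_insert ha, hg.add, ih]

private lemma FA_sum2 {g : V → ℝ} (hg : Lin1 g) {k : ℕ} (w : Fin k → Fin k → ℝ)
    (X : Fin k → Fin k → V) :
    g (∑ i, ∑ j, w i j • X i j) = ∑ i, ∑ j, w i j * g (X i j) := by
  rw [FA_sum hg]
  refine Finset.sum_congr rfl fun i _ => ?_
  rw [FA_sum hg]
  exact Finset.sum_congr rfl fun j _ => hg.smul _ _

/-- `Crvt` is linear in every slot -/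
private lemma FA_l2 {W : V → V → V → V → ℝ} (h : Crvt W) (a c d : V) :
    Lin1 fun b => W a b c d := by
  have e : (fun b => W a b c d) = fun b => -W b a c d := by
    funext b; rw [h.a12 b a c d]
  rw [e]
  constructor
  · intro x y
    have := (h.lin a c d).add x y
    rw [this]; ring
  · intro r x
    have := (h.lin a c d).smul r x
    rw [this]; ring

private lemma FA_l3 {W : V → V → V → V → ℝ} (h : Crvt W) (a b d : V) :
    Lin1 fun c => W a b c d := by
  have e : (fun c => W a b c d) = fun c => W c d a b := by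
    funext c; rw [h.sw a b c d]
  rw [e]
  exact h.lin d a b

private lemma FA_l4 {W : V → V → V → V → ℝ} (h : Crvt W) (a b c : V) :
    Lin1 fun d => W a b c d := by
  have e : (fun d => W a b c d) = fun d => W c d a b := by
    funext d; rw [h.sw a b c d]
  rw [e]
  exact FA_l2 h c a b

/-- `act4` of a combination of endomorphisms that kill `W` -/
private lemma FA_act {W : V → V → V → V → ℝ} (h : Crvt W) {k : ℕ} (w : Fin k → Fin k → ℝ)
    (Φ : Fin k → Fin k → V → V) (Ψ : V → V) (hΨ : ∀ a, Ψ a = ∑ i, ∑ j, w i j • Φ i j a)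
    (h0 : ∀ i j a b c d, act4 (Φ i j) W a b c d = 0) (a b c d : V) :
    act4 Ψ W a b c d = 0 := by
  have key : act4 Ψ W a b c d = ∑ i, ∑ j, w i j * act4 (Φ i j) W a b c d := by
    unfold act4
    have e1 : W (Ψ a) b c d = ∑ i, ∑ j, w i j * W (Φ i j a) b c d := by
      rw [hΨ a]; exact FA_sum2 (h.lin b c d) w fun i j => Φ i j a
    have e2 : W a (Ψ b) c d = ∑ i, ∑ j, w i j * W a (Φ i j b) c d := by
      rw [hΨ b]; exact FA_sum2 (FA_l2 h a c d) w fun i j => Φ i j b
    have e3 : W a b (Ψ c) d = ∑ i, ∑ j, w i j * W a b (Φ i j c) d := by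
      rw [hΨ c]; exact FA_sum2 (FA_l3 h a b d) w fun i j => Φ i j c
    have e4 : W a b c (Ψ d) = ∑ i, ∑ j, w i j * W a b c (Φ i j d) := by
      rw [hΨ d]; exact FA_sum2 (FA_l4 h a b c) w fun i j => Φ i j d
    rw [e1, e2, e3, e4, ← Finset.sum_add_distrib, ← Finset.sum_add_distrib,
      ← Finset.sum_add_distrib, ← Finset.sum_neg_distrib]
    refine Finset.sum_congr rfl fun i _ => ?_
    rw [← Finset.sum_add_distrib, ← Finset.sum_add_distrib, ← Finset.sum_add_distrib,
      ← Finset.sum_neg_distrib]
    refine Finset.sum_congr rfl fun j _ => ?_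
    ring
  rw [key]
  refine Finset.sum_eq_zero fun i _ => Finset.sum_eq_zero fun j _ => ?_
  rw [h0, mul_zero]

/-- the difference of two curvature tensors -/
private lemma FA_sub {W W' : V → V → V → V → ℝ} (h : Crvt W) (h' : Crvt W') :
    Crvt fun a b c d => W a b c d - W' a b c d := by
  refine ⟨?_, ?_, ?_, ?_, ?_⟩
  · intro b c d
    constructor
    · intro x y
      have e := (h.lin b c d).add x y
      have e' := (h'.lin b c d).add x y
      rw [e, e']; ring
    · intro r x
      have e := (h.lin b c d).smul r x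
      have e' := (h'.lin b c d).smul r x
      rw [e, e']; ring
  · intro a b c d
    rw [h.a12 a b c d, h'.a12 a b c d]; ring
  · intro a b c d
    rw [h.a34 a b c d, h'.a34 a b c d]; ring
  · intro a b c d
    rw [h.sw a b c d, h'.sw a b c d]
  · intro a b c d
    have e := h.bi a b c d
    have e' := h'.bi a b c d
    linarith

/-- the symmetric form `S` -/
private lemma FA_SyB {B : V → V → ℝ} (hB : IP B) {p q : V → ℝ} (hp : Lin1 p) (hq : Lin1 q)
    (r : ℝ) (x y : V) :
    SyB fun a b => r * B a b + B y a * p b + B y b * p a - B x a * q b - B x b * q a := by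
  have sB := hB.symm
  refine ⟨?_, ?_⟩
  · intro b
    constructor
    · intro a a'
      have e1 := (hB.lin b).add a a'
      have e2 := (hB.lin y).add a a'
      have e3 := (hB.lin x).add a a'
      rw [sB y (a + a'), sB x (a + a'), e1, e2, e3, hp.add, hq.add, sB a y, sB a' y, sB a x,
        sB a' x]
      ring
    · intro s a
      have e1 := (hB.lin b).smul s a
      have e2 := (hB.lin y).smul s a
      have e3 := (hB.lin x).smul s a
      rw [sB y (s • a), sB x (s • a), e1, e2, e3, hp.smul, hq.smul, sB a y, sB a x]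
      ring
  · intro a b
    rw [sB a b]; ring

end aux

/-- **FA**: `R = KN(P)` -/
theorem tFA (hKNa : S_KNa) (hKNb : S_KNb) (hGenV : S_GenV) (hCIn : S_CIn) : S_FA := by
  intro V _ _ B m R Ro alg f hf1 hf2 hyp
  have hB : IP B := alg.eu.ip
  obtain ⟨K1, K2, K3, K4⟩ := hKNa V B hB
  obtain ⟨e, he⟩ := alg.eu.ex
  obtain ⟨f', hf', -⟩ := alg.eu.fr e he
  obtain ⟨B1, B2, B3, -, B5⟩ := hKNb V B (m + 1) f' hB hf'
  have hm : (2 : ℝ) ≤ m := by exact_mod_cast alg.two
  -- the form `S`
  set S : V → V → V → V → ℝ := fun x y a b =>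
    (f x y - f y x) * B a b + B y a * f x b + B y b * f x a - B x a * f y b - B x b * f y a with hS
  have SS : ∀ x y, SyB (S x y) := fun x y => FA_SyB hB (hf1 x) (hf1 y) (f x y - f y x) x y
  -- the hypothesis in the form `KN(S)`
  have H : ∀ x y a b c d, act4 (Ro x y) R a b c d = KN B (S x y) a b c d := by
    intro x y a b c d
    rw [hyp x y a b c d, (K3 (f x) (hf1 x) y).2 a b c d, (K3 (f y) (hf1 y) x).2 a b c d]
    simp only [KN, hS]
    ring
  have skew : ∀ x y a b, B (Ro x y a) b = -B a (Ro x y b) := by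
    intro x y a b
    rw [alg.op x y a b, hB.symm a, alg.op x y b a, alg.cR.a34 x y a b, neg_neg]
  -- the Ricci form
  set Ric : V → V → ℝ := fun b c => ∑ i, R (f' i) b c (f' i) with hRic
  have SRic : SyB Ric := B5 R alg.cR
  have n2 : (((m + 1 : ℕ) : ℝ) - 2) = (m : ℝ) - 1 := by push_cast; ring
  have C1 : ∀ x y b c, act2 (Ro x y) Ric b c
      = ((m : ℝ) - 1) * S x y b c + (∑ i, S x y (f' i) (f' i)) * B b c := by
    intro x y b c
    have e1 := B2 R alg.cR (Ro x y) (skew x y) b c
    have e2 := B1 (S x y) (SS x y) b c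
    rw [n2] at e2
    rw [← e2]
    rw [← e1]
    exact Finset.sum_congr rfl fun i _ => H x y (f' i) b c (f' i)
  have C2 : ∀ x y, (∑ i, S x y (f' i) (f' i)) = 0 := by
    intro x y
    have e1 := B3 Ric SRic (Ro x y) (skew x y)
    have e2 : ∑ i, act2 (Ro x y) Ric (f' i) (f' i)
        = ((m : ℝ) - 1) * (∑ i, S x y (f' i) (f' i))
          + (∑ i, S x y (f' i) (f' i)) * ((m : ℝ) + 1) := by
      have e3 : ∀ i, act2 (Ro x y) Ric (f' i) (f' i)
          = ((m : ℝ) - 1) * S x y (f' i) (f' i) + (∑ i, S x y (f' i) (f' i)) := by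
        intro i
        rw [C1 x y (f' i) (f' i), hf'.on i i, if_pos rfl, mul_one]
      rw [Finset.sum_congr rfl fun i _ => e3 i, Finset.sum_add_distrib, ← Finset.mul_sum,
        Finset.sum_const, Finset.card_univ, Fintype.card_fin, nsmul_eq_mul]
      push_cast
      ring
    rw [e1] at e2
    have e4 : (∑ i, S x y (f' i) (f' i)) * (2 * (m : ℝ)) = 0 := by linarith
    rcases mul_eq_zero.1 e4 with h | h
    · exact h
    · exfalso; linarith
  -- the tensor `P₀`
  set P0 : V → V → ℝ := fun a b => ((m : ℝ) - 1)⁻¹ * Ric a b with hP0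
  have SP0 : SyB P0 := by
    refine ⟨?_, ?_⟩
    · intro b
      constructor
      · intro a a'
        have := (SRic.lin b).add a a'
        simp only [hP0]
        rw [this]; ring
      · intro r a
        have := (SRic.lin b).smul r a
        simp only [hP0]
        rw [this]; ring
    · intro a b
      simp only [hP0]
      rw [SRic.symm a b]
  have hm1 : ((m : ℝ) - 1) ≠ 0 := by
    intro h; linarith
  have C3 : ∀ x y, act2 (Ro x y) P0 = S x y := by
    intro x y
    funext b c
    have e1 := C1 x y b c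
    rw [C2 x y, zero_mul, add_zero] at e1
    have e2 : act2 (Ro x y) P0 b c = ((m : ℝ) - 1)⁻¹ * act2 (Ro x y) Ric b c := by
      simp only [act2, hP0]; ring
    rw [e2, e1, ← mul_assoc, inv_mul_cancel₀ hm1, one_mul]
  -- the tensor `W`
  set W : V → V → V → V → ℝ := fun a b c d => R a b c d - KN B P0 a b c d with hW
  have cW : Crvt W := FA_sub alg.cR (K1 P0 SP0)
  have W0 : ∀ x y a b c d, act4 (Ro x y) W a b c d = 0 := by
    intro x y a b c d
    have e1 : act4 (Ro x y) W a b c d
        = act4 (Ro x y) R a b c d - act4 (Ro x y) (KN B P0) a b c d := by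
      simp only [act4, hW]; ring
    rw [e1, H x y a b c d, K2 P0 SP0 (Ro x y) (skew x y) a b c d, C3 x y, sub_self]
  have W1 : ∀ u v a b c d, act4 (wd B u v) W a b c d = 0 := by
    intro u v a b c d
    obtain ⟨k, h, w, hw⟩ := hGenV V B m R Ro alg u v
    exact FA_act cW w (fun i j => Ro (h i) (h j)) (wd B u v) hw
      (fun i j a b c d => W0 (h i) (h j) a b c d) a b c d
  obtain ⟨κ, hκ⟩ := hCIn.2 V B m W alg.eu (le_trans one_le_two alg.two) cW W1
  refine ⟨fun a b => P0 a b + κ / 2 * B a b, ?_, ?_⟩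
  · refine ⟨?_, ?_⟩
    · intro b
      constructor
      · intro a a'
        have e1 := (SP0.lin b).add a a'
        have e2 := (hB.lin b).add a a'
        rw [e1, e2]; ring
      · intro r a
        have e1 := (SP0.lin b).smul r a
        have e2 := (hB.lin b).smul r a
        rw [e1, e2]; ring
    · intro a b
      rw [SP0.symm a b, hB.symm a b]
  · intro a b c d
    have e1 : R a b c d = KN B P0 a b c d + W a b c d := by
      simp only [hW]; ring
    rw [e1, hκ a b c d, ← K4 κ a b c d]
    simp only [KN]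
    ring

end

end Pool.Agent.Lib.MP_9d59e9_gt.KO3
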