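import Pool.Agent.Lib.MP_9d59e9_gt.KO3.Spec

/-!
# MP_9d59e9_gt, project KO3: FB (the contradiction of case A)
-/

set_option autoImplicit false

namespace Pool.Agent.Lib.MP_9d59e9_gt.KO3

open scoped BigOperators
open KO

noncomputable section

section aux
variable {V : Type} [AddCommGroup V] [Module ℝ V]

/-- the form `C'` of the proof -/
private def FB_C (B P : V → V → ℝ) (ψ : V → ℝ) (v z : V) (lam : ℝ) (a b : V) : ℝ :=
  B z b * P a v + ψ b * P a z + B z a * P b v + ψ a * P b z - lam * (ψ a * ψ b)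

/-- the form `D` of the proof -/
private def FB_D (B P : V → V → ℝ) (ψ : V → ℝ) (v z : V) (lam : ℝ) (x y a b : V) : ℝ :=
  FB_C B P ψ v z lam x a * B y b + FB_C B P ψ v z lam x b * B y a
    - FB_C B P ψ v z lam y a * B x b - FB_C B P ψ v z lam y b * B x a

private lemma FB_sy {B P : V → V → ℝ} (hB : IP B) (hP : SyB P) {ψ : V → ℝ} (hψ : Lin1 ψ)
    (v z : V) (lam : ℝ) (x y : V) : SyB (FB_D B P ψ v z lam x y) := by
  refine ⟨fun b => ⟨fun a a' => ?_, fun r a => ?_⟩, fun a b => ?_⟩
  · have e1 : ∀ w, B w (a + a') = B w a + B w a' := fun w => by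
      rw [hB.symm w, (hB.lin w).add a a', hB.symm a, hB.symm a']
    have e2 : ∀ w, P (a + a') w = P a w + P a' w := fun w => (hP.lin w).add a a'
    simp only [FB_D, FB_C, e1, e2, hψ.add]
    ring
  · have e1 : ∀ w, B w (r • a) = r * B w a := fun w => by
      rw [hB.symm w, (hB.lin w).smul r a, hB.symm a]
    have e2 : ∀ w, P (r • a) w = r * P a w := fun w => (hP.lin w).smul r a
    simp only [FB_D, FB_C, e1, e2, hψ.smul]
    ring
  · simp only [FB_D, FB_C]
    ring

/-- the conclusion of the computation: `lam = 0` and `KN(P)(v, z; ·) = 0` -/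
private lemma FB_alg {B P : V → V → ℝ} (hB : IP B) (hP : SyB P) {ψ : V → ℝ}
    (v z y₀ : V) (lam : ℝ) (hψ : ∀ a, ψ a = B v a) (hv : v ≠ 0) (hz : z ≠ 0) (hz0 : ψ z = 0)
    (h1 : B y₀ y₀ = 1) (h2 : B z y₀ = 0) (h3 : B v y₀ = 0)
    (hD : ∀ x y a b, FB_D B P ψ v z lam x y a b = 0) (a b : V) : KN B P v z a b = 0 := by
  have hzz : B z z ≠ 0 := (hB.pos z hz).ne'
  have hvv : B v v ≠ 0 := (hB.pos v hv).ne'
  have hvz : B v z = 0 := by rw [← hψ]; exact hz0
  have hzv : B z v = 0 := by rw [hB.symm]; exact hvz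
  have hψy : ψ y₀ = 0 := by rw [hψ]; exact h3
  have hψv : ψ v = B v v := hψ v
  have cs : ∀ a b, FB_C B P ψ v z lam a b = FB_C B P ψ v z lam b a := fun a b => by
    simp only [FB_C]; ring
  -- (4)
  have s1 : ∀ x y, FB_C B P ψ v z lam x y * B y y = FB_C B P ψ v z lam y y * B x y := by
    intro x y
    have := hD x y y y
    simp only [FB_D] at this
    linarith
  have s2 : ∀ x y, B x y = 0 →
      FB_C B P ψ v z lam x x * B y y = FB_C B P ψ v z lam y y * B x x := by
    intro x y hxy
    have := hD x y x y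
    simp only [FB_D] at this
    rw [hB.symm y x, hxy] at this
    linarith
  have c0 : FB_C B P ψ v z lam y₀ y₀ = 0 := by
    simp only [FB_C, h2, hψy]; ring
  have cz : FB_C B P ψ v z lam z z = 0 := by
    have := s2 z y₀ h2
    rw [h1, c0] at this
    linarith
  have cv : FB_C B P ψ v z lam v v = 0 := by
    have := s2 v y₀ h3
    rw [h1, c0] at this
    linarith
  have xz : ∀ x, FB_C B P ψ v z lam x z = 0 := by
    intro x
    have := s1 x z
    rw [cz, zero_mul] at this
    exact (mul_eq_zero.1 this).resolve_right hzz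
  have xv : ∀ x, FB_C B P ψ v z lam x v = 0 := by
    intro x
    have := s1 x v
    rw [cv, zero_mul] at this
    exact (mul_eq_zero.1 this).resolve_right hvv
  -- (5)
  have A : ∀ x, B z z * P x v + B z x * P z v + ψ x * P z z = 0 := by
    intro x
    have := xz x
    simp only [FB_C, hz0] at this
    linarith
  have Bx : ∀ x, B v v * P x z + B z x * P v v + ψ x * P v z - lam * (ψ x * B v v) = 0 := by
    intro x
    have := xv x
    simp only [FB_C, hzv, hψv] at this
    linarith
  have pzv : P z v = 0 := by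
    have := A z
    rw [hz0] at this
    have h : B z z * P z v = 0 := by linarith
    exact (mul_eq_zero.1 h).resolve_left hzz
  have pvz : P v z = 0 := by rw [hP.symm]; exact pzv
  have l0 : lam = 0 := by
    have := Bx v
    rw [pvz, hzv, hψv] at this
    have h : lam * (B v v * B v v) = 0 := by linarith
    exact (mul_eq_zero.1 h).resolve_right (mul_ne_zero hvv hvv)
  have pxv : ∀ x, P x v = -(P z z / B z z) * ψ x := by
    intro x
    have := A x
    rw [pzv] at this
    field_simp
    linarith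
  have pvv : P v v = -(P z z / B z z) * B v v := by rw [pxv v, hψv]
  have pxz : ∀ x, P x z = P z z / B z z * B z x := by
    intro x
    have := Bx x
    rw [pvz, l0, pvv] at this
    have h : B v v * (P x z - P z z / B z z * B z x) = 0 := by linarith
    have h' := (mul_eq_zero.1 h).resolve_left hvv
    linarith
  -- (6)
  have pvx : ∀ x, P v x = -(P z z / B z z) * ψ x := fun x => by rw [hP.symm, pxv x]
  have pzx : ∀ x, P z x = P z z / B z z * B z x := fun x => by rw [hP.symm, pxz x]
  rw [KN, pvx b, pvx a, pzx a, pzx b, hψ a, hψ b]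
  ring

end aux

/-- **FB**: the contradiction of case A -/
theorem tFB (hKNa : S_KNa) (hKNb : S_KNb) (hPrp : S_Prp) : S_FB := by
  intro V _ _ B m R Ro alg P hP hR ψ v z lam No hψ hψv hv hz hz0 hNo hyp
  have hB : IP B := alg.eu.ip
  obtain ⟨-, K2, K3, -⟩ := hKNa V B hB
  obtain ⟨e, he⟩ := alg.eu.ex
  obtain ⟨f, hf, -⟩ := alg.eu.fr e he
  obtain ⟨-, -, -, B4, -⟩ := hKNb V B (m + 1) f hB hf
  obtain ⟨y₀, h1, h2, h3⟩ := hPrp V B m alg.eu alg.two z v
  -- Riesz
  have hPl : ∀ a, Lin1 (P a) := by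
    intro a
    have h : P a = fun b => P b a := by
      funext b; rw [hP.symm a b]
    rw [h]
    exact hP.lin a
  choose Ph hPh using fun a => hB.riesz (P a) (hPl a)
  have hPh' : ∀ a b, B b (Ph a) = P a b := fun a b => by rw [hB.symm, hPh]
  have hψP : ∀ a, ψ (Ph a) = P a v := fun a => by rw [hψv, hPh']
  have hRf : R = KN B P := by
    funext a b c d; exact hR a b c d
  have hFf : ∀ w, FF B ψ w = KN B (fun a b => ψ w * B a b + B w a * ψ b + B w b * ψ a) := by
    intro w
    funext a b c d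
    exact (K3 ψ hψ w).2 a b c d
  -- skewness
  have skR : ∀ x y a b, B (Ro x y a) b = -B a (Ro x y b) := by
    intro x y a b
    rw [alg.op x y a b, hB.symm a, alg.op x y b a, alg.cR.a34 x y a b, neg_neg]
  have skN : ∀ x y a b, B (No x y a) b = -B a (No x y b) := by
    intro x y a b
    rw [hNo x y a b, hB.symm a, hNo x y b a]
    simp only [FF, G0]
    ring
  -- the form `S`
  have hS : ∀ x y a b, act2 (No x y) P a b
      + act2 (Ro x y) (fun a b => ψ z * B a b + B z a * ψ b + B z b * ψ a) a b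
      + lam * (ψ x * (ψ y * B a b + B y a * ψ b + B y b * ψ a)
        - ψ y * (ψ x * B a b + B x a * ψ b + B x b * ψ a))
      = -FB_D B P ψ v z lam x y a b := by
    intro x y a b
    have n1 : P (No x y a) b = FF B ψ z x y a (Ph b) := by
      rw [← hNo x y a (Ph b), hPh', hP.symm]
    have n2 : P a (No x y b) = FF B ψ z x y b (Ph a) := by
      rw [← hNo x y b (Ph a), hPh']
    have r1 : ∀ c, B z (Ro x y c) = KN B P x y c z := by
      intro c
      rw [hB.symm, alg.op x y c z, hR]
    have r2 : ∀ c, ψ (Ro x y c) = KN B P x y c v := by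
      intro c
      rw [hψv, hB.symm, alg.op x y c v, hR]
    simp only [act2, n1, n2, r1, r2, hz0, zero_mul, zero_add, FF, G0, KN, hPh', hψP, FB_D, FB_C,
      ← hψv, mul_zero]
    have q1 : B x v = ψ x := by rw [hψv, hB.symm]
    have q2 : B y v = ψ y := by rw [hψv, hB.symm]
    have q3 : B x z = B z x := hB.symm _ _
    have q4 : B y z = B z y := hB.symm _ _
    rw [q1, q2, q3, q4, hP.symm b x, hP.symm b y, hP.symm a x, hP.symm a y]
    ring
  have hD : ∀ x y a b, FB_D B P ψ v z lam x y a b = 0 := by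
    intro x y
    refine B4 (by have := alg.two; omega) (FB_D B P ψ v z lam x y)
      (FB_sy hB hP hψ v z lam x y) ?_
    intro a b c d
    have h := hyp x y a b c d
    rw [hRf, hFf z, K2 P hP (No x y) (skN x y) a b c d,
      K2 _ (K3 ψ hψ z).1 (Ro x y) (skR x y) a b c d, hFf x, hFf y] at h
    have e1 : KN B (FB_D B P ψ v z lam x y) a b c d
        = -(KN B (act2 (No x y) P) a b c d
          + KN B (act2 (Ro x y) (fun a b => ψ z * B a b + B z a * ψ b + B z b * ψ a)) a b c d
          + lam * (ψ x * KN B (fun a b => ψ y * B a b + B y a * ψ b + B y b * ψ a) a b c d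
            - ψ y * KN B (fun a b => ψ x * B a b + B x a * ψ b + B x b * ψ a) a b c d)) := by
      have f1 := hS x y b c
      have f2 := hS x y a d
      have f3 := hS x y b d
      have f4 := hS x y a c
      simp only [KN]
      linear_combination B a d * f1 + B b c * f2 - B a c * f3 - B b d * f4
    rw [e1]
    linarith
  have h0 : ∀ a b, R v z a b = 0 := fun a b => by
    rw [hR]
    exact FB_alg hB hP v z y₀ lam hψv hv hz hz0 h1 h2 h3 hD a b
  -- the contradiction
  have pv := hB.pos v hv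
  have pz := hB.pos z hz
  have hsv : Real.sqrt (B v v) ≠ 0 := (Real.sqrt_pos.2 pv).ne'
  have hsz : Real.sqrt (B z z) ≠ 0 := (Real.sqrt_pos.2 pz).ne'
  have hvz : B v z = 0 := by rw [← hψv]; exact hz0
  have sm : ∀ (r s : ℝ) (a b : V), B (r • a) (s • b) = r * s * B a b := by
    intro r s a b
    rw [(hB.lin (s • b)).smul r a, hB.symm a, (hB.lin a).smul s b, hB.symm b]
    ring
  have hR0 : ∀ a b, R ((Real.sqrt (B v v))⁻¹ • v) ((Real.sqrt (B z z))⁻¹ • z) a b = 0 := by
    intro a b
    rw [(alg.cR.lin _ a b).smul, alg.cR.a12, (alg.cR.lin _ a b).smul, alg.cR.a12, h0]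
    ring
  have hR1 : ∀ a b, R ((Real.sqrt (B z z))⁻¹ • z) ((Real.sqrt (B v v))⁻¹ • v) a b = 0 := by
    intro a b
    rw [alg.cR.a12, hR0, neg_zero]
  have key := alg.ns 2 ![(Real.sqrt (B v v))⁻¹ • v, (Real.sqrt (B z z))⁻¹ • z]
    ![![0, 1], ![-1, 0]] ?_ ?_ ?_ 0 1
  · norm_num at key
  · intro i j
    fin_cases i <;> fin_cases j
    · show B ((Real.sqrt (B v v))⁻¹ • v) ((Real.sqrt (B v v))⁻¹ • v) = _
      rw [sm, if_pos rfl]
      rw [← mul_inv, Real.mul_self_sqrt pv.le]
      exact inv_mul_cancel₀ pv.ne'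
    · show B ((Real.sqrt (B v v))⁻¹ • v) ((Real.sqrt (B z z))⁻¹ • z) = _
      rw [sm, hvz, mul_zero]
      simp
    · show B ((Real.sqrt (B z z))⁻¹ • z) ((Real.sqrt (B v v))⁻¹ • v) = _
      rw [sm, hB.symm z v, hvz, mul_zero]
      simp
    · show B ((Real.sqrt (B z z))⁻¹ • z) ((Real.sqrt (B z z))⁻¹ • z) = _
      rw [sm, if_pos rfl]
      rw [← mul_inv, Real.mul_self_sqrt pz.le]
      exact inv_mul_cancel₀ pz.ne'
  · intro i j
    fin_cases i <;> fin_cases j <;> simp
  · intro a b
    simp [Fin.sum_univ_two, hR0, hR1]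

end

end Pool.Agent.Lib.MP_9d59e9_gt.KO3
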