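import Pool.Agent.Lib.MP_9d59e9_gt.KO3.Spec

/-!
# MP_9d59e9_gt, project KO3: Frm (frames)
-/

set_option autoImplicit false

namespace Pool.Agent.Lib.MP_9d59e9_gt.KO3

open scoped BigOperators ContDiff
open KO

noncomputable section

private lemma frm_sum {V : Type} [AddCommGroup V] [Module ℝ V] {f : V → ℝ} (h : Lin1 f)
    {ι : Type} (s : Finset ι) (c : ι → ℝ) (v : ι → V) :
    f (∑ i ∈ s, c i • v i) = ∑ i ∈ s, c i * f (v i) := by
  classical
  induction s using Finset.induction_on with
  | empty =>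
    have := h.smul 0 0
    simpa using this
  | insert a s ha ih => rw [Finset.sum_insert ha, Finset.sum_insert ha, h.add, h.smul, ih]

/-- an orthonormal basis of the coordinate space with a given first vector -/
private lemma frm_basis {m : ℕ} (u : EuclideanSpace ℝ (Fin (m + 1))) (hu : ‖u‖ = 1) :
    ∃ b : OrthonormalBasis (Fin (m + 1)) ℝ (EuclideanSpace ℝ (Fin (m + 1))), b 0 = u := by
  have hv : Orthonormal ℝ (({0} : Set (Fin (m + 1))).domRestrict
      (fun _ : Fin (m + 1) => u)) := by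
    constructor
    · intro i
      exact hu
    · intro i j hij
      exact absurd (Subsingleton.elim i j) hij
  obtain ⟨b, hb⟩ := hv.exists_orthonormalBasis_extension_of_card_eq (by simp)
  exact ⟨b, hb 0 rfl⟩

theorem tFrm : S_Frm := by
  intro n m g x hnm hpos
  subst hnm
  obtain ⟨⟨e', he', hex'⟩, hip, -⟩ := sOnb (m + 1) g x hpos
  refine ⟨hip, ⟨e' 0, by rw [he']; simp⟩, ?_⟩
  intro e he
  -- coordinates
  obtain ⟨u, hu⟩ : ∃ u : EuclideanSpace ℝ (Fin (m + 1)), ∀ k, u k = ip g x e (e' k) :=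
    ⟨WithLp.toLp 2 fun k => ip g x e (e' k), fun k => rfl⟩
  have hlin : ∀ b, Lin1 fun a => ip g x a b := hip.lin
  have hsum : ∀ c : Fin (m + 1) → ℝ, ∀ b, ip g x (∑ k, c k • e' k) b
      = ∑ k, c k * ip g x (e' k) b := fun c b => frm_sum (hlin b) Finset.univ c e'
  have hsum2 : ∀ c d : Fin (m + 1) → ℝ, ip g x (∑ k, c k • e' k) (∑ k, d k • e' k)
      = ∑ k, c k * d k := by
    intro c d
    rw [hsum]
    refine Finset.sum_congr rfl fun k _ => ?_
    rw [hip.symm (e' k), hsum, Finset.sum_eq_single k]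
    · rw [he', if_pos rfl, mul_one]
    · intro l _ hl
      rw [he', if_neg hl, mul_zero]
    · intro h
      exact absurd (Finset.mem_univ _) h
  have hee : e = ∑ k, u k • e' k := by
    conv_lhs => rw [hex' e]
    exact Finset.sum_congr rfl fun k _ => by rw [hu]
  have hu1 : ‖u‖ = 1 := by
    have h1 : ∑ k, u k * u k = 1 := by
      rw [← hsum2 (fun k => u k) (fun k => u k), ← hee, he]
    rw [EuclideanSpace.norm_eq, Real.sqrt_eq_one, ← h1]
    exact Finset.sum_congr rfl fun k _ => by rw [Real.norm_eq_abs, sq_abs, sq]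
  obtain ⟨b, hb⟩ := frm_basis u hu1
  refine ⟨fun i => ∑ k, b i k • e' k, ⟨?_, ?_⟩, ?_⟩
  · intro i j
    rw [hsum2 (fun k => b i k) (fun k => b j k)]
    have h1 := (orthonormal_iff_ite.mp b.orthonormal) i j
    rw [← h1, PiLp.inner_apply]
    refine Finset.sum_congr rfl fun k _ => ?_
    simp [mul_comm]
  · intro v
    obtain ⟨w, hw⟩ : ∃ w : EuclideanSpace ℝ (Fin (m + 1)), ∀ k, w k = ip g x v (e' k) :=
      ⟨WithLp.toLp 2 fun k => ip g x v (e' k), fun k => rfl⟩
    have hv : v = ∑ k, w k • e' k := by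
      conv_lhs => rw [hex' v]
      exact Finset.sum_congr rfl fun k _ => by rw [hw]
    have h1 : ∀ i, ip g x v (∑ k, b i k • e' k) = inner ℝ (b i) w := by
      intro i
      conv_lhs => rw [hv]
      rw [hsum2 (fun k => w k) (fun k => b i k), PiLp.inner_apply]
      refine Finset.sum_congr rfl fun k _ => ?_
      simp
    have h2 : ∀ k, w k = ∑ i, inner ℝ (b i) w * b i k := by
      intro k
      have h3 := congrArg (fun z : EuclideanSpace ℝ (Fin (m + 1)) => z k) (b.sum_repr' w)
      rw [← h3]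
      simp
    conv_lhs => rw [hv]
    simp only [h1, Finset.smul_sum, smul_smul]
    rw [Finset.sum_comm]
    refine Finset.sum_congr rfl fun k _ => ?_
    rw [← Finset.sum_smul, ← h2]
  · change ∑ k, b 0 k • e' k = e
    rw [hb, ← hee]

end

end Pool.Agent.Lib.MP_9d59e9_gt.KO3
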