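import Pool.Agent.Lib.MP_9d59e9_gt.KO3.Spec

set_option autoImplicit false

namespace Pool.Agent.Lib.MP_9d59e9_gt.KO3

open scoped BigOperators
open KO

private lemma GenD_zero {V : Type} [AddCommGroup V] [Module ℝ V] {B : V → V → ℝ} (h : IP B)
    (b : V) : B 0 b = 0 := by
  have := (h.lin b).smul 0 0
  simpa using this

private lemma GenD_sub {V : Type} [AddCommGroup V] [Module ℝ V] {B : V → V → ℝ} (h : IP B)
    (a c b : V) : B (a - c) b = B a b - B c b := by
  have h1 := (h.lin b).add (a - c) c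
  simp only [sub_add_cancel] at h1
  linarith

private lemma GenD_sum {V : Type} [AddCommGroup V] [Module ℝ V] {B : V → V → ℝ} (h : IP B)
    {ι : Type} (s : Finset ι) (f : ι → V) (b : V) : B (∑ i ∈ s, f i) b = ∑ i ∈ s, B (f i) b := by
  classical
  induction s using Finset.induction_on with
  | empty => simpa using GenD_zero h b
  | insert a s ha ih =>
    rw [Finset.sum_insert ha, Finset.sum_insert ha, (h.lin b).add, ih]

private lemma GenD_ext {V : Type} [AddCommGroup V] [Module ℝ V] {B : V → V → ℝ} (h : IP B)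
    (x y : V) (hxy : ∀ b, B x b = B y b) : x = y := by
  by_contra hne
  have h0 : x - y ≠ 0 := sub_ne_zero.mpr hne
  have h1 := h.pos _ h0
  rw [GenD_sub h, hxy, sub_self] at h1
  exact lt_irrefl _ h1

theorem tGenD (hSur : S_Sur) : S_GenD := by
  intro V _ _ B m R Ro hA ν e hν he hRe u v hu hv
  obtain ⟨f, hf, hf0⟩ := hA.eu.fr ν hν
  obtain ⟨f', hf', hf0'⟩ := hA.eu.fr e he
  have IPB := hA.eu.ip
  have horth : ∀ i : Fin m, B ν (f i.succ) = 0 := by
    intro i
    have h1 := hf.on 0 i.succ
    rw [hf0, if_neg (Fin.succ_ne_zero i).symm] at h1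
    exact h1
  have exp : ∀ w, B e w = 0 → w = ∑ k : Fin m, B w (f' k.succ) • f' k.succ := by
    intro w hw
    have h1 := hf'.ex w
    rw [Fin.sum_univ_succ, hf0', IPB.symm w e, hw, zero_smul, zero_add] at h1
    exact h1
  have h3 : ∀ i j : Fin m, ∀ a b, (∀ k : Fin m, B a (f' k.succ) = 0) →
      R (f i.succ) (f j.succ) a b = 0 := by
    intro i j a b ha
    have hae : a = B a e • e := by
      have h1 := hf'.ex a
      rw [Fin.sum_univ_succ, hf0', Finset.sum_eq_zero (fun k _ => by rw [ha k, zero_smul]),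
        add_zero] at h1
      exact h1
    have h1 : R (f i.succ) (f j.succ) e b = 0 := hRe _ _ (horth i) (horth j) b
    rw [hae, ← hA.cR.sw, (hA.cR.lin _ _ _).smul, hA.cR.sw, h1, mul_zero]
  obtain ⟨w, hw⟩ := hSur V B R IPB hA.cR hA.ns m (fun i => f i.succ) (fun k => f' k.succ)
    (by
      intro i j
      have h1 := hf.on i.succ j.succ
      simpa only [Fin.succ_inj] using h1)
    (by
      intro i j
      have h1 := hf'.on i.succ j.succ
      simpa only [Fin.succ_inj] using h1) h3 u v (exp u hu) (exp v hv)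
  refine ⟨m, fun i => f i.succ, w, horth, ?_⟩
  intro a
  apply GenD_ext IPB
  intro b
  rw [← hw a b, GenD_sum IPB]
  refine Finset.sum_congr rfl fun i _ => ?_
  rw [GenD_sum IPB]
  refine Finset.sum_congr rfl fun j _ => ?_
  rw [(IPB.lin b).smul, hA.op]

end Pool.Agent.Lib.MP_9d59e9_gt.KO3
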