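import Pool.Agent.Lib.MP_9d59e9_gt.KO3.Spec

/-!
# GenV: every rotation is a combination of curvature operators
-/

set_option autoImplicit false

namespace Pool.Agent.Lib.MP_9d59e9_gt.KO3

open KO

private theorem GenV_zero {V : Type} [AddCommGroup V] [Module ℝ V] {f : V → ℝ} (h : Lin1 f) :
    f 0 = 0 := by
  have := h.smul 0 0
  rwa [zero_smul, zero_mul] at this

private theorem GenV_sum {V : Type} [AddCommGroup V] [Module ℝ V] {f : V → ℝ} (h : Lin1 f)
    {ι : Type} (s : Finset ι) (w : ι → ℝ) (v : ι → V) :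
    f (∑ i ∈ s, w i • v i) = ∑ i ∈ s, w i * f (v i) := by
  classical
  induction s using Finset.induction_on with
  | empty => rw [Finset.sum_empty, Finset.sum_empty]; exact GenV_zero h
  | insert a s ha ih => rw [Finset.sum_insert ha, Finset.sum_insert ha, h.add, h.smul, ih]

private theorem GenV_sum1 {V : Type} [AddCommGroup V] [Module ℝ V] {f : V → ℝ} (h : Lin1 f)
    {ι : Type} (s : Finset ι) (v : ι → V) :
    f (∑ i ∈ s, v i) = ∑ i ∈ s, f (v i) := by
  have := GenV_sum h s (fun _ => 1) v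
  simpa only [one_smul, one_mul] using this

theorem tGenV (hSur : S_Sur) : S_GenV := by
  intro V _ _ B m R Ro hA u v
  obtain ⟨e, he⟩ := hA.eu.ex
  obtain ⟨f, hf, -⟩ := hA.eu.fr e he
  have hip := hA.eu.ip
  obtain ⟨w, hw⟩ := hSur V B R hip hA.cR hA.ns (m + 1) f f hf.on hf.on (by
    intro i j a b hk
    have h0 : a = 0 := by
      rw [hf.ex a]
      refine Finset.sum_eq_zero fun k _ => ?_
      rw [hk k, zero_smul]
    rw [hA.cR.sw a b (f i) (f j), h0]
    exact GenV_zero (hA.cR.lin b (f i) (f j))) u v (hf.ex u) (hf.ex v)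
  refine ⟨m + 1, f, w, fun a => ?_⟩
  have key : ∀ b, B (∑ i, ∑ j, w i j • Ro (f i) (f j) a) b = B (wd B u v a) b := by
    intro b
    rw [← hw a b, GenV_sum1 (hip.lin b)]
    refine Finset.sum_congr rfl fun i _ => ?_
    rw [GenV_sum (hip.lin b)]
    refine Finset.sum_congr rfl fun j _ => ?_
    rw [hA.op]
  by_contra hne
  have hd : wd B u v a - (∑ i, ∑ j, w i j • Ro (f i) (f j) a) ≠ 0 := sub_ne_zero.2 hne
  have hp := hip.pos _ hd
  have hsub : ∀ b, B (wd B u v a - (∑ i, ∑ j, w i j • Ro (f i) (f j) a)) b = 0 := by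
    intro b
    have h1 := (hip.lin b).add (wd B u v a) ((-1 : ℝ) • ∑ i, ∑ j, w i j • Ro (f i) (f j) a)
    have h2 := (hip.lin b).smul (-1) (∑ i, ∑ j, w i j • Ro (f i) (f j) a)
    rw [neg_one_smul, ← sub_eq_add_neg] at h1
    rw [neg_one_smul] at h2
    rw [h1, h2, key b]
    ring
  rw [hsub] at hp
  exact lt_irrefl _ hp

end Pool.Agent.Lib.MP_9d59e9_gt.KO3
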