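import Pool.Agent.Lib.MP_9d59e9_gt.KO3.Spec

/-!
# MP_9d59e9_gt, project KO3: `S_Inv`

`R(x,y).R = 0` if `R(x,y).R` is the skew part of `∇²R` and `R(x,y).∇²R = 0`.
-/

set_option autoImplicit false

namespace Pool.Agent.Lib.MP_9d59e9_gt.KO3

open scoped BigOperators
open KO

/-- a linear function vanishing on an orthonormal basis is zero -/
private theorem Inv_lin {V : Type} [AddCommGroup V] [Module ℝ V] {B : V → V → ℝ} {n : ℕ}
    {f : Fin n → V} (hf : Fr B f) {φ : V → ℝ} (h : Lin1 φ) (h0 : ∀ i, φ (f i) = 0) (v : V) :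
    φ v = 0 := by
  have hz : φ 0 = 0 := by
    have h1 := h.smul 0 0
    simpa using h1
  have hs : ∀ (s : Finset (Fin n)) (c : Fin n → ℝ), φ (∑ i ∈ s, c i • f i) = 0 := by
    intro s c
    induction s using Finset.induction_on with
    | empty => simpa using hz
    | insert a s ha ih =>
      rw [Finset.sum_insert ha, h.add, h.smul, h0, ih]
      simp
  rw [hf.ex v]
  exact hs _ _

/-- a 4-linear form vanishing on an orthonormal basis is zero -/
private theorem Inv_ml {V : Type} [AddCommGroup V] [Module ℝ V] {B : V → V → ℝ} {n : ℕ}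
    {f : Fin n → V} (hf : Fr B f) {S : V → V → V → V → ℝ} (h : Ml4 S)
    (h0 : ∀ i j k l, S (f i) (f j) (f k) (f l) = 0) (a b c d : V) : S a b c d = 0 := by
  have h1 : ∀ a j k l, S a (f j) (f k) (f l) = 0 := fun a j k l =>
    Inv_lin hf (h.l1 (f j) (f k) (f l)) (fun i => h0 i j k l) a
  have h2 : ∀ a b k l, S a b (f k) (f l) = 0 := fun a b k l =>
    Inv_lin hf (h.l2 a (f k) (f l)) (fun j => h1 a j k l) b
  have h3 : ∀ a b c l, S a b c (f l) = 0 := fun a b c l =>
    Inv_lin hf (h.l3 a b (f l)) (fun k => h2 a b k l) c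
  exact Inv_lin hf (h.l4 a b c) (fun l => h3 a b c l) d

private theorem Inv_crv {V : Type} [AddCommGroup V] [Module ℝ V] {R : V → V → V → V → ℝ}
    (h : Crvt R) : Ml4 R := by
  have h1 := h.lin
  have h2 : ∀ a c d, Lin1 fun b => R a b c d := by
    intro a c d
    constructor
    · intro x y
      have e := (h1 a c d).add x y
      rw [h.a12 x a c d, h.a12 y a c d, h.a12 (x + y) a c d] at *
      linarith [h.a12 a x c d, h.a12 a y c d, h.a12 a (x + y) c d]
    · intro r x
      have e := (h1 a c d).smul r x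
      have e1 := h.a12 a x c d
      have e2 := h.a12 a (r • x) c d
      rw [e1, e2] at e
      linarith
  refine ⟨h1, h2, ?_, ?_⟩
  · intro a b d
    constructor
    · intro x y
      have e := (h1 d a b).add x y
      rw [h.sw a b (x + y) d, h.sw a b x d, h.sw a b y d] at e
      exact e
    · intro r x
      have e := (h1 d a b).smul r x
      rw [h.sw a b (r • x) d, h.sw a b x d] at e
      exact e
  · intro a b c
    constructor
    · intro x y
      have e := (h2 c a b).add x y
      rw [h.sw a b c (x + y), h.sw a b c x, h.sw a b c y] at e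
      exact e
    · intro r x
      have e := (h2 c a b).smul r x
      rw [h.sw a b c (r • x), h.sw a b c x] at e
      exact e

private theorem Inv_sub {V : Type} [AddCommGroup V] [Module ℝ V] {S S' : V → V → V → V → ℝ}
    (h : Ml4 S) (h' : Ml4 S') : Ml4 (fun a b c d => S a b c d - S' a b c d) := by
  have hl : ∀ {φ ψ : V → ℝ}, Lin1 φ → Lin1 ψ → Lin1 fun a => φ a - ψ a := by
    intro φ ψ hφ hψ
    constructor
    · intro a b
      rw [hφ.add, hψ.add]; ring
    · intro r a
      rw [hφ.smul, hψ.smul]; ring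
  exact ⟨fun b c d => hl (h.l1 b c d) (h'.l1 b c d), fun a c d => hl (h.l2 a c d) (h'.l2 a c d),
    fun a b d => hl (h.l3 a b d) (h'.l3 a b d), fun a b c => hl (h.l4 a b c) (h'.l4 a b c)⟩

/-- **Inv**: `R(x,y).R = 0` -/
theorem tInv (hAdj : S_Adj) : S_Inv := by
  intro V _ _ B m R Ro hE hR hop M hM hRic hact x y
  obtain ⟨e, he⟩ := hE.ex
  obtain ⟨f, hf, -⟩ := hE.fr e he
  have hRm : Ml4 R := Inv_crv hR
  -- skewness
  have hsk : ∀ x y a b, B (Ro x y a) b = -B a (Ro x y b) := by
    intro x y a b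
    rw [hop, hE.ip.symm a, hop, hR.a34 x y b a]
  -- `T`
  set T : V → V → V → V → V → V → ℝ := fun x y a b c d => M x y a b c d - M y x a b c d with hT
  have hTm : ∀ x y, Ml4 (T x y) := fun x y => Inv_sub (hM x y) (hM y x)
  have hRT : ∀ x y a b c d, act4 (Ro x y) R a b c d = T x y a b c d := by
    intro x y a b c d
    rw [hRic]
  -- (a)
  have ha : ∀ x y, ∑ i, ∑ j, ∑ k, ∑ l, R (f i) (f j) (f k) (f l)
      * T x y (f i) (f j) (f k) (f l) = 0 := by
    intro x y
    have h := hAdj V B (m + 1) f hE.ip hf R R hRm hRm (Ro x y) (hsk x y)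
    have h2 : ∑ i, ∑ j, ∑ k, ∑ l, (act4 (Ro x y) R (f i) (f j) (f k) (f l)
          * R (f i) (f j) (f k) (f l)
        + R (f i) (f j) (f k) (f l) * act4 (Ro x y) R (f i) (f j) (f k) (f l))
        = 2 * ∑ i, ∑ j, ∑ k, ∑ l, R (f i) (f j) (f k) (f l)
          * T x y (f i) (f j) (f k) (f l) := by
      simp only [Finset.mul_sum]
      refine Finset.sum_congr rfl fun i _ => Finset.sum_congr rfl fun j _ =>
        Finset.sum_congr rfl fun k _ => Finset.sum_congr rfl fun l _ => ?_
      rw [hRT]; ring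
    rw [h2] at h
    linarith
  -- (b)
  have hb : ∀ a b c d, act4 (Ro x y) (T x y) a b c d
      = T (Ro x y x) y a b c d + T x (Ro x y y) a b c d := by
    intro a b c d
    have h1 := hact x y x y a b c d
    have h2 := hact x y y x a b c d
    simp only [act6] at h1 h2
    simp only [act4, hT]
    linarith
  -- (c)
  have hc : ∑ i, ∑ j, ∑ k, ∑ l, T x y (f i) (f j) (f k) (f l)
      * T x y (f i) (f j) (f k) (f l) = 0 := by
    have h := hAdj V B (m + 1) f hE.ip hf R (T x y) hRm (hTm x y) (Ro x y) (hsk x y)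
    have h1 := ha (Ro x y x) y
    have h2 := ha x (Ro x y y)
    have h3 : ∑ i, ∑ j, ∑ k, ∑ l, (act4 (Ro x y) R (f i) (f j) (f k) (f l)
          * T x y (f i) (f j) (f k) (f l)
        + R (f i) (f j) (f k) (f l) * act4 (Ro x y) (T x y) (f i) (f j) (f k) (f l))
        = ∑ i, ∑ j, ∑ k, ∑ l, T x y (f i) (f j) (f k) (f l) * T x y (f i) (f j) (f k) (f l)
        + (∑ i, ∑ j, ∑ k, ∑ l, R (f i) (f j) (f k) (f l)
            * T (Ro x y x) y (f i) (f j) (f k) (f l)
          + ∑ i, ∑ j, ∑ k, ∑ l, R (f i) (f j) (f k) (f l)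
            * T x (Ro x y y) (f i) (f j) (f k) (f l)) := by
      simp only [← Finset.sum_add_distrib]
      refine Finset.sum_congr rfl fun i _ => Finset.sum_congr rfl fun j _ =>
        Finset.sum_congr rfl fun k _ => Finset.sum_congr rfl fun l _ => ?_
      rw [hRT, hb]; ring
    rw [h3, h1, h2] at h
    linarith
  have hz : ∀ i j k l, T x y (f i) (f j) (f k) (f l) = 0 := by
    intro i j k l
    have h4 : ∀ i j k l, 0 ≤ T x y (f i) (f j) (f k) (f l)
      * T x y (f i) (f j) (f k) (f l) := fun i j k l => mul_self_nonneg _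
    have h3 : ∀ i j k, 0 ≤ ∑ l, T x y (f i) (f j) (f k) (f l)
      * T x y (f i) (f j) (f k) (f l) := fun i j k => Finset.sum_nonneg fun l _ => h4 i j k l
    have h2 : ∀ i j, 0 ≤ ∑ k, ∑ l, T x y (f i) (f j) (f k) (f l)
      * T x y (f i) (f j) (f k) (f l) := fun i j => Finset.sum_nonneg fun k _ => h3 i j k
    have h1 : ∀ i, 0 ≤ ∑ j, ∑ k, ∑ l, T x y (f i) (f j) (f k) (f l)
      * T x y (f i) (f j) (f k) (f l) := fun i => Finset.sum_nonneg fun j _ => h2 i j
    have e1 := (Finset.sum_eq_zero_iff_of_nonneg (fun i _ => h1 i)).1 hc i (Finset.mem_univ i)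
    have e2 := (Finset.sum_eq_zero_iff_of_nonneg (fun j _ => h2 i j)).1 e1 j (Finset.mem_univ j)
    have e3 := (Finset.sum_eq_zero_iff_of_nonneg (fun k _ => h3 i j k)).1 e2 k
      (Finset.mem_univ k)
    have e4 := (Finset.sum_eq_zero_iff_of_nonneg (fun l _ => h4 i j k l)).1 e3 l
      (Finset.mem_univ l)
    exact mul_self_eq_zero.1 e4
  intro a b c d
  rw [hRT]
  exact Inv_ml hf (hTm x y) hz a b c d

end Pool.Agent.Lib.MP_9d59e9_gt.KO3
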