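import Pool.Agent.Lib.MP_9d59e9_gt.KO3.Spec

/-!
# MP_9d59e9_gt, project KO3: the Kulkarni–Nomizu product with the metric
-/

set_option autoImplicit false

namespace Pool.Agent.Lib.MP_9d59e9_gt.KO3

open KO

theorem tKNa : S_KNa := by
  intro V _ _ B hB
  refine ⟨fun S hS => ⟨?_, ?_, ?_, ?_, ?_⟩, ?_, ?_, ?_⟩
  · intro b c d
    refine ⟨fun x y => ?_, fun r x => ?_⟩
    · simp only [KN, (hB.lin _).add, (hS.lin _).add]
      ring
    · simp only [KN, (hB.lin _).smul, (hS.lin _).smul]
      ring
  · intro a b c d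
    simp only [KN]
    ring
  · intro a b c d
    simp only [KN]
    ring
  · intro a b c d
    simp only [KN]
    rw [hB.symm c b, hB.symm d a, hB.symm c a, hB.symm d b, hS.symm c b, hS.symm d a, hS.symm c a,
      hS.symm d b]
    ring
  · intro a b c d
    simp only [KN]
    rw [hB.symm b a, hB.symm c a, hB.symm c b, hS.symm b a, hS.symm c a, hS.symm c b]
    ring
  · intro S hS Φ hΦ a b c d
    simp only [act4, act2, KN, hΦ]
    ring
  · intro ψ hψ z
    refine ⟨⟨fun b => ⟨fun x y => ?_, fun r x => ?_⟩, fun a b => ?_⟩, fun a b c d => ?_⟩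
    · simp only [(hB.lin _).add, hB.symm z, hψ.add]
      ring
    · simp only [(hB.lin _).smul, hB.symm z, hψ.smul]
      ring
    · simp only [hB.symm b a]
      ring
    · simp only [FF, KN, G0]
      rw [hB.symm a z, hB.symm b z]
      ring
  · intro κ a b c d
    simp only [KN, G0]
    ring

end Pool.Agent.Lib.MP_9d59e9_gt.KO3
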