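import Pool.Agent.Lib.MP_9d59e9_gt.KO3.Spec

/-!
# MP_9d59e9_gt, project KO3, module `KNb`: contractions of the Kulkarni–Nomizu product
-/

set_option autoImplicit false

namespace Pool.Agent.Lib.MP_9d59e9_gt.KO3

open scoped BigOperators ContDiff
open Set KO

section KNb

variable {V : Type} [AddCommGroup V] [Module ℝ V]

private theorem KNb_zero {g : V → ℝ} (hg : Lin1 g) : g 0 = 0 := by
  have h := hg.smul 0 0
  rw [zero_smul, zero_mul] at h
  exact h

private theorem KNb_sum {g : V → ℝ} (hg : Lin1 g) {n : ℕ} (c : Fin n → ℝ) (f : Fin n → V)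
    (s : Finset (Fin n)) : g (∑ i ∈ s, c i • f i) = ∑ i ∈ s, c i * g (f i) := by
  classical
  induction s using Finset.induction_on with
  | empty => rw [Finset.sum_empty, Finset.sum_empty, KNb_zero hg]
  | insert a s ha ih => rw [Finset.sum_insert ha, Finset.sum_insert ha, hg.add, hg.smul, ih]

/-- expansion in the frame -/
private theorem KNb_ex {B : V → V → ℝ} {n : ℕ} {f : Fin n → V} (hf : Fr B f) {g : V → ℝ}
    (hg : Lin1 g) (v : V) : g v = ∑ i, B v (f i) * g (f i) := by
  conv_lhs => rw [hf.ex v]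
  exact KNb_sum hg _ f Finset.univ

/-- the trace of a skew endomorphism against a bilinear form -/
private theorem KNb_skew {B : V → V → ℝ} {n : ℕ} {f : Fin n → V} (hB : IP B) (hf : Fr B f)
    {h : V → V → ℝ} (h1 : ∀ y, Lin1 fun x => h x y) (h2 : ∀ x, Lin1 (h x)) {Φ : V → V}
    (hΦ : ∀ a b, B (Φ a) b = -B a (Φ b)) :
    ∑ i, (h (Φ (f i)) (f i) + h (f i) (Φ (f i))) = 0 := by
  rw [Finset.sum_add_distrib]
  have e1 : ∑ i, h (Φ (f i)) (f i) = ∑ i, ∑ s, B (Φ (f i)) (f s) * h (f s) (f i) :=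
    Finset.sum_congr rfl fun i _ => KNb_ex hf (h1 (f i)) _
  have e2 : ∑ i, h (f i) (Φ (f i)) = ∑ i, ∑ s, B (Φ (f i)) (f s) * h (f i) (f s) :=
    Finset.sum_congr rfl fun i _ => KNb_ex hf (h2 (f i)) _
  have e3 : ∑ i, ∑ s, B (Φ (f i)) (f s) * h (f i) (f s) =
      ∑ i, ∑ s, -(B (Φ (f i)) (f s) * h (f s) (f i)) := by
    rw [Finset.sum_comm]
    refine Finset.sum_congr rfl fun i _ => Finset.sum_congr rfl fun s _ => ?_
    rw [hΦ (f s) (f i), hB.symm (f s) (Φ (f i))]
    ring
  rw [e1, e2, e3]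
  simp only [Finset.sum_neg_distrib]
  ring

private theorem KNb_l4 {R : V → V → V → V → ℝ} (hR : Crvt R) (a b c : V) : Lin1 (R a b c) := by
  have h : ∀ d, R a b c d = -R d c a b := by
    intro d
    have h1 := hR.a34 a b d c
    have h2 := hR.sw a b d c
    linarith
  have h3 := hR.lin c a b
  refine ⟨fun x y => ?_, fun r x => ?_⟩
  · rw [h, h, h, h3.add]
    ring
  · rw [h, h, h3.smul]
    ring

private theorem KNb_l2 {R : V → V → V → V → ℝ} (hR : Crvt R) (a c d : V) :
    Lin1 fun b => R a b c d := by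
  have h : ∀ b, R a b c d = -R b a c d := fun b => hR.a12 b a c d
  have h3 := hR.lin a c d
  refine ⟨fun x y => ?_, fun r x => ?_⟩
  · show R a (x + y) c d = _
    rw [h, h, h, h3.add]
    ring
  · show R a (r • x) c d = _
    rw [h, h, h3.smul]
    ring

private theorem KNb_one {B : V → V → ℝ} {n : ℕ} {f : Fin n → V} (hB : IP B) (hf : Fr B f)
    (S : V → V → ℝ) (hS : SyB S) (b c : V) : ∑ i, KN B S (f i) b c (f i)
      = ((n : ℝ) - 2) * S b c + (∑ i, S (f i) (f i)) * B b c := by
  have hl : ∀ x, Lin1 (S x) := by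
    intro x
    refine ⟨fun a b => ?_, fun r a => ?_⟩
    · rw [hS.symm x (a + b), (hS.lin x).add, hS.symm a, hS.symm b]
    · rw [hS.symm x (r • a), (hS.lin x).smul, hS.symm a]
  have e1 : ∑ i, B c (f i) * S b (f i) = S b c := (KNb_ex hf (hl b) c).symm
  have e2 : ∑ i, B b (f i) * S (f i) c = S b c := (KNb_ex hf (hS.lin c) b).symm
  have e0 : ∀ i, KN B S (f i) b c (f i) =
      S b c + S (f i) (f i) * B b c - B c (f i) * S b (f i) - B b (f i) * S (f i) c := by
    intro i
    rw [KN, hf.on i i, if_pos rfl, hB.symm (f i) c]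
    ring
  rw [Finset.sum_congr rfl fun i _ => e0 i, Finset.sum_sub_distrib, Finset.sum_sub_distrib,
    Finset.sum_add_distrib, e1, e2, Finset.sum_const, Finset.card_univ, Fintype.card_fin,
    nsmul_eq_mul, ← Finset.sum_mul]
  ring

theorem tKNb : S_KNb := by
  intro V _ _ B n f hB hf
  refine ⟨fun S hS b c => KNb_one hB hf S hS b c, ?_, ?_, ?_, ?_⟩
  · intro R hR Φ hΦ b c
    have h := KNb_skew hB hf (h := fun x y => R x b c y) (fun y => hR.lin b c y)
      (fun x => KNb_l4 hR x b c) hΦ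
    have e : ∀ i, act4 Φ R (f i) b c (f i) =
        -(R (Φ (f i)) b c (f i) + R (f i) b c (Φ (f i))) -
          (R (f i) (Φ b) c (f i) + R (f i) b (Φ c) (f i)) := by
      intro i
      rw [act4]
      ring
    rw [Finset.sum_congr rfl fun i _ => e i, Finset.sum_sub_distrib, Finset.sum_neg_distrib, h,
      act2, Finset.sum_add_distrib]
    ring
  · intro S hS Φ hΦ
    have hl : ∀ x, Lin1 (S x) := by
      intro x
      refine ⟨fun a b => ?_, fun r a => ?_⟩
      · rw [hS.symm x (a + b), (hS.lin x).add, hS.symm a, hS.symm b]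
      · rw [hS.symm x (r • a), (hS.lin x).smul, hS.symm a]
    have h := KNb_skew hB hf (h := S) hS.lin hl hΦ
    have e : ∀ i, act2 Φ S (f i) (f i) = -(S (Φ (f i)) (f i) + S (f i) (Φ (f i))) := fun i => rfl
    rw [Finset.sum_congr rfl fun i _ => e i, Finset.sum_neg_distrib, h, neg_zero]
  · intro hn S hS h0 a b
    have h1 : ∀ b c, ((n : ℝ) - 2) * S b c + (∑ i, S (f i) (f i)) * B b c = 0 := by
      intro b c
      rw [← KNb_one hB hf S hS b c]
      exact Finset.sum_eq_zero fun i _ => h0 _ _ _ _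
    have h2 : ∑ i, (((n : ℝ) - 2) * S (f i) (f i) + (∑ j, S (f j) (f j)) * B (f i) (f i)) = 0 :=
      Finset.sum_eq_zero fun i _ => h1 _ _
    have h3 : ∀ i, ((n : ℝ) - 2) * S (f i) (f i) + (∑ j, S (f j) (f j)) * B (f i) (f i) =
        ((n : ℝ) - 2) * S (f i) (f i) + (∑ j, S (f j) (f j)) := by
      intro i
      rw [hf.on i i, if_pos rfl, mul_one]
    rw [Finset.sum_congr rfl fun i _ => h3 i, Finset.sum_add_distrib, ← Finset.mul_sum,
      Finset.sum_const, Finset.card_univ, Fintype.card_fin, nsmul_eq_mul] at h2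
    have hn' : (3 : ℝ) ≤ n := by exact_mod_cast hn
    have h4 : ∑ j, S (f j) (f j) = 0 := by
      have h5 : (2 * (n : ℝ) - 2) * ∑ j, S (f j) (f j) = 0 := by linarith
      rcases mul_eq_zero.mp h5 with h | h
      · linarith
      · exact h
    have h6 := h1 a b
    rw [h4, zero_mul, add_zero] at h6
    rcases mul_eq_zero.mp h6 with h | h
    · linarith
    · exact h
  · intro R hR
    refine ⟨fun c => ⟨fun x y => ?_, fun r x => ?_⟩, fun b c => ?_⟩
    · rw [← Finset.sum_add_distrib]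
      exact Finset.sum_congr rfl fun i _ => (KNb_l2 hR (f i) c (f i)).add x y
    · rw [Finset.mul_sum]
      exact Finset.sum_congr rfl fun i _ => (KNb_l2 hR (f i) c (f i)).smul r x
    · refine Finset.sum_congr rfl fun i _ => ?_
      have h1 := hR.sw (f i) b c (f i)
      have h2 := hR.a12 (f i) c (f i) b
      have h3 := hR.a34 (f i) c (f i) b
      linarith

end KNb

end Pool.Agent.Lib.MP_9d59e9_gt.KO3
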