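import Pool.Agent.Lib.MP_9d59e9_gt.KO3.Spec

/-!
# MP_9d59e9_gt, project KO3: Ksm (the coefficient `k` is smooth)
-/

set_option autoImplicit false
set_option linter.unusedSimpArgs false

namespace Pool.Agent.Lib.MP_9d59e9_gt.KO3

open scoped BigOperators ContDiff
open Set KO

noncomputable section

private theorem Ksm_sub {V : Type} [AddCommGroup V] [Module ℝ V] {f : V → ℝ} (hf : Lin1 f)
    (a z : V) (r : ℝ) : f (a - r • z) = f a - r * f z := by
  rw [sub_eq_add_neg, ← neg_smul, hf.add, hf.smul]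
  ring

private theorem Ksm_alg {V : Type} [AddCommGroup V] [Module ℝ V] {B : V → V → ℝ} (hB : IP B)
    (θ : V → ℝ) (z a b : V) (hza : B z a = 0) (hzb : B z b = 0) (hab : B a b = 0) :
    FF B θ z z a z b = 0 ∧ TT B θ z z a z b = B z z * (θ z * (θ a * θ b)) := by
  have haz : B a z = 0 := by rw [hB.symm, hza]
  constructor
  · simp only [FF, G0, hza, hzb, hab, haz]
    ring
  · simp only [TT, hza, hzb, hab, haz]
    ring

private theorem Ksm_ev {n k : ℕ} {U : Set (Pt n)} (T : TF n k) (hT : Sm U T) {p : Pt n}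
    (hp : p ∈ U) (v : Fin k → Pt n → Pt n)
    (hv : ∀ j, ContDiffWithinAt ℝ ∞ (v j) U p) :
    ContDiffWithinAt ℝ ∞ (fun x => ev T x (fun j => v j x)) U p := by
  unfold ev
  refine ContDiffWithinAt.sum fun I _ => ?_
  refine (hT I p hp).mul ?_
  refine contDiffWithinAt_prod fun j _ => ?_
  exact contDiffWithinAt_pi.1 (hv j) (I j)

private theorem Ksm_ip {n : ℕ} {g : Pt n → Matrix (Fin n) (Fin n) ℝ} {U : Set (Pt n)}
    (hg : IsMetricOn g U) {p : Pt n} (hp : p ∈ U) {u v : Pt n → Pt n}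
    (hu : ContDiffWithinAt ℝ ∞ u U p) (hv : ContDiffWithinAt ℝ ∞ v U p) :
    ContDiffWithinAt ℝ ∞ (fun x => ip g x (u x) (v x)) U p := by
  unfold ip
  refine ContDiffWithinAt.sum fun i _ => ContDiffWithinAt.sum fun j _ => ?_
  exact (hg.smooth i j p hp).mul
    ((contDiffWithinAt_pi.1 hu i).mul (contDiffWithinAt_pi.1 hv j))

theorem tKsm (hFrm : S_Frm) : S_Ksm := by
  classical
  intro n g U θ hn hg hθ hNF
  obtain ⟨m, rfl⟩ : ∃ m, n = m + 3 := ⟨n - 3, by omega⟩
  choose! κ k hκk using hNF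
  have hIP : ∀ x ∈ U, IP (ip g x) := fun x hx => (sOnb (m + 3) g x (hg.pos x hx)).2.1
  have hval : ∀ x ∈ U, ∀ z a b, Orth g x z a b → e5 (N g) x z z a z b
      = k x * (ip g x z z * (e1 θ x z * (e1 θ x a * e1 θ x b))) := by
    intro x hx z a b h
    obtain ⟨h1, h2⟩ := Ksm_alg (hIP x hx) (e1 θ x) z a b h.1 h.2.1 h.2.2
    rw [hκk x hx, h1, h2]
    ring
  refine ⟨k, ⟨?_, hval⟩, fun x hx => ⟨κ x, hκk x hx⟩⟩
  intro p hp
  -- the frame at `p`
  obtain ⟨f, hf, hf0⟩ := (hFrm (m + 3) (m + 2) g p rfl (hg.pos p hp)).fr _ (hθ.one p hp)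
  have h01 : (0 : Fin (m + 3)) ≠ 1 := by simp [Fin.ext_iff]
  have h02 : (0 : Fin (m + 3)) ≠ 2 := by
    intro h
    have := congrArg Fin.val h
    simp at this
    rw [Nat.mod_eq_of_lt (by omega)] at this
    omega
  have h12 : (1 : Fin (m + 3)) ≠ 2 := by
    intro h
    have := congrArg Fin.val h
    simp at this
    rw [Nat.mod_eq_of_lt (by omega)] at this
    omega
  have hip := hIP p hp
  have hL : ∀ x, Lin1 (e1 θ x) := fun x => (sLin (m + 3) x).2.2.2.1 θ
  have hθf : ∀ i, e1 θ p (f i) = if (0 : Fin (m + 3)) = i then 1 else 0 := by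
    intro i
    rw [hθ.dual p hp, ← hf0, hf.on]
  set z0 : Pt (m + 3) := f 0 + f 1 + f 2 with hz0
  set a0 : Pt (m + 3) := f 0 - (1 : ℝ) • f 1 with ha0
  set b0 : Pt (m + 3) := f 0 + f 1 - (2 : ℝ) • f 2 with hb0
  -- values at `p`
  have hff : ∀ i j, ip g p (f i) (f j) = if i = j then 1 else 0 := hf.on
  have hr : ∀ u, Lin1 (fun a => ip g p u a) := by
    intro u
    constructor
    · intro a b
      simp only [hip.symm u]
      exact (hip.lin u).add a b
    · intro r a
      simp only [hip.symm u]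
      exact (hip.lin u).smul r a
  have ladd : ∀ a b c, ip g p (a + b) c = ip g p a c + ip g p b c :=
    fun a b c => (hip.lin c).add a b
  have lsub : ∀ a b (r : ℝ) c, ip g p (a - r • b) c = ip g p a c - r * ip g p b c :=
    fun a b r c => Ksm_sub (hip.lin c) a b r
  have radd : ∀ a b c, ip g p c (a + b) = ip g p c a + ip g p c b :=
    fun a b c => (hr c).add a b
  have rsub : ∀ a b (r : ℝ) c, ip g p c (a - r • b) = ip g p c a - r * ip g p c b :=
    fun a b r c => Ksm_sub (hr c) a b r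
  have hzz : ip g p z0 z0 = 3 := by
    simp only [hz0, ladd, radd, hff, h01, h01.symm, h02, h02.symm, h12, h12.symm, if_true,
      if_false]
    norm_num
  have haz : ip g p a0 z0 = 0 := by
    simp only [hz0, ha0, ladd, radd, lsub, rsub, hff, h01, h01.symm, h02, h02.symm, h12,
      h12.symm, if_true, if_false]
    norm_num
  have hbz : ip g p b0 z0 = 0 := by
    simp only [hz0, hb0, ladd, radd, lsub, rsub, hff, h01, h01.symm, h02, h02.symm, h12,
      h12.symm, if_true, if_false]
    norm_num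
  have haa : ip g p a0 a0 = 2 := by
    simp only [ha0, ladd, radd, lsub, rsub, hff, h01, h01.symm, h02, h02.symm, h12,
      h12.symm, if_true, if_false]
    norm_num
  have hba : ip g p b0 a0 = 0 := by
    simp only [ha0, hb0, ladd, radd, lsub, rsub, hff, h01, h01.symm, h02, h02.symm, h12,
      h12.symm, if_true, if_false]
    norm_num
  have hθz : e1 θ p z0 = 1 := by
    simp only [hz0, (hL p).add, hθf, h01, h02, if_true, if_false]
    norm_num
  have hθa : e1 θ p a0 = 1 := by
    simp only [ha0, Ksm_sub (hL p), hθf, h01, if_true, if_false]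
    norm_num
  have hθb : e1 θ p b0 = 1 := by
    simp only [hb0, Ksm_sub (hL p), (hL p).add, hθf, h01, h02, if_true, if_false]
    norm_num
  -- the vector fields
  let zz : Pt (m + 3) → ℝ := fun x => ip g x z0 z0
  let al : Pt (m + 3) → ℝ := fun x => ip g x a0 z0 / zz x
  let A : Pt (m + 3) → Pt (m + 3) := fun x => a0 - al x • z0
  let be : Pt (m + 3) → ℝ := fun x => ip g x b0 z0 / zz x
  let aa : Pt (m + 3) → ℝ := fun x => ip g x (A x) (A x)
  let ga : Pt (m + 3) → ℝ := fun x => ip g x b0 (A x) / aa x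
  let C : Pt (m + 3) → Pt (m + 3) := fun x => b0 - be x • z0 - ga x • A x
  let q : Pt (m + 3) → ℝ := fun x => zz x * (e1 θ x z0 * (e1 θ x (A x) * e1 θ x (C x)))
  let F : Pt (m + 3) → ℝ := fun x => e5 (N g) x z0 z0 (A x) z0 (C x)
  have hzzp : zz p = 3 := hzz
  have halp : al p = 0 := by simp [al, haz]
  have hAp : A p = a0 := by simp [A, halp]
  have hbep : be p = 0 := by simp [be, hbz]
  have haap : aa p = 2 := by simp only [aa, hAp]; exact haa
  have hgap : ga p = 0 := by simp [ga, hAp, hba]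
  have hCp : C p = b0 := by simp [C, hbep, hgap]
  have hqp : q p = 3 := by
    simp only [q, hzzp, hAp, hCp, hθz, hθa, hθb]
    norm_num
  -- smoothness
  have hc : ∀ v : Pt (m + 3), ContDiffWithinAt ℝ ∞ (fun _ : Pt (m + 3) => v) U p :=
    fun v => contDiffWithinAt_const
  have szz : ContDiffWithinAt ℝ ∞ zz U p := Ksm_ip hg hp (hc z0) (hc z0)
  have hzz0 : zz p ≠ 0 := by rw [hzzp]; norm_num
  have haa0 : aa p ≠ 0 := by rw [haap]; norm_num
  have hq0 : q p ≠ 0 := by rw [hqp]; norm_num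
  have sal : ContDiffWithinAt ℝ ∞ al U p := (Ksm_ip hg hp (hc a0) (hc z0)).div szz hzz0
  have sA : ContDiffWithinAt ℝ ∞ A U p := (hc a0).sub (sal.smul (hc z0))
  have sbe : ContDiffWithinAt ℝ ∞ be U p := (Ksm_ip hg hp (hc b0) (hc z0)).div szz hzz0
  have saa : ContDiffWithinAt ℝ ∞ aa U p := Ksm_ip hg hp sA sA
  have sga : ContDiffWithinAt ℝ ∞ ga U p := (Ksm_ip hg hp (hc b0) sA).div saa haa0
  have sC : ContDiffWithinAt ℝ ∞ C U p :=
    ((hc b0).sub (sbe.smul (hc z0))).sub (sga.smul sA)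
  have sθ : ∀ v : Pt (m + 3) → Pt (m + 3), ContDiffWithinAt ℝ ∞ v U p →
      ContDiffWithinAt ℝ ∞ (fun x => e1 θ x (v x)) U p := by
    intro v hv
    have h := Ksm_ev θ hθ.sm hp (fun _ : Fin 1 => v) (fun _ => hv)
    have he : (fun x => e1 θ x (v x)) = fun x => ev θ x (fun _ : Fin 1 => v x) := by
      funext x
      unfold e1
      congr 1
      funext j
      fin_cases j
      rfl
    rw [he]
    exact h
  have sq : ContDiffWithinAt ℝ ∞ q U p :=
    szz.mul ((sθ _ (hc z0)).mul ((sθ _ sA).mul (sθ _ sC)))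
  have hsN : Sm U (N g) := (sSmo (m + 3) g U hg).2.2.2.2.2.2.1
  have sF : ContDiffWithinAt ℝ ∞ F U p := by
    have h := Ksm_ev (N g) hsN hp
      (![fun _ => z0, fun _ => z0, A, fun _ => z0, C] : Fin 5 → Pt (m + 3) → Pt (m + 3)) (by
        intro j
        fin_cases j
        · exact hc z0
        · exact hc z0
        · exact sA
        · exact hc z0
        · exact sC)
    have he : F = fun x => ev (N g) x (fun j =>
        (![fun _ => z0, fun _ => z0, A, fun _ => z0, C] : Fin 5 → Pt (m + 3) → Pt (m + 3)) j x) := by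
      funext x
      simp only [F, e5]
      congr 1
      funext j
      fin_cases j <;> rfl
    rw [he]
    exact h
  have hkey : ∀ x ∈ U, zz x ≠ 0 → aa x ≠ 0 → q x ≠ 0 → k x = F x / q x := by
    intro x hx h1 h2 h3
    have hi := hIP x hx
    have lsubx : ∀ a b (r : ℝ) c, ip g x (a - r • b) c = ip g x a c - r * ip g x b c :=
      fun a b r c => Ksm_sub (hi.lin c) a b r
    have hAz : ip g x (A x) z0 = 0 := by
      simp only [A, lsubx]
      change ip g x a0 z0 - ip g x a0 z0 / zz x * zz x = 0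
      field_simp
      ring
    have hCz : ip g x (C x) z0 = 0 := by
      simp only [C, lsubx]
      rw [hAz]
      change ip g x b0 z0 - ip g x b0 z0 / zz x * zz x - ga x * 0 = 0
      field_simp
      ring
    have hCA : ip g x (C x) (A x) = 0 := by
      simp only [C, lsubx]
      rw [hi.symm z0 (A x), hAz]
      change ip g x b0 (A x) - be x * 0 - ip g x b0 (A x) / aa x * aa x = 0
      field_simp
      ring
    have hv := hval x hx z0 (A x) (C x) ⟨by rw [hi.symm]; exact hAz, by
      rw [hi.symm]; exact hCz, by rw [hi.symm]; exact hCA⟩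
    rw [eq_div_iff h3]
    exact hv.symm
  have hev : k =ᶠ[nhdsWithin p U] fun x => F x / q x := by
    have e1 : ∀ᶠ x in nhdsWithin p U, zz x ≠ 0 :=
      szz.continuousWithinAt.tendsto.eventually_ne hzz0
    have e2 : ∀ᶠ x in nhdsWithin p U, aa x ≠ 0 :=
      saa.continuousWithinAt.tendsto.eventually_ne haa0
    have e3 : ∀ᶠ x in nhdsWithin p U, q x ≠ 0 :=
      sq.continuousWithinAt.tendsto.eventually_ne hq0
    filter_upwards [e1, e2, e3, self_mem_nhdsWithin] with x h1 h2 h3 hx
    exact hkey x hx h1 h2 h3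
  exact (sF.div sq hq0).congr_of_eventuallyEq hev (hkey p hp hzz0 haa0 hq0)

end

end Pool.Agent.Lib.MP_9d59e9_gt.KO3
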