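import Pool.Agent.Lib.MP_9d59e9_gt.KO3.Spec

/-!
# MP_9d59e9_gt, project KO3: `S_Kz1`, first derivative of `NO`
-/

set_option autoImplicit false

namespace Pool.Agent.Lib.MP_9d59e9_gt.KO3

open scoped BigOperators ContDiff
open Set KO

theorem tKz1 (hCvP : S_CvP) (hOrC : S_OrC) : S_Kz1 := by
  intro n g U θ k hg hθ hNO x hx X z a b horth hz ha hb
  obtain ⟨h1, -, -, h5, -, hip, -, -⟩ := hCvP n g U hg x hx X
  obtain ⟨ζ, α, β, hζ, hα, hβ, hev⟩ := hOrC n g U hg x hx X z a b horth hz ha hb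
  have hN : Sm U (N g) := (sSmo n g U hg).2.2.2.2.2.2.1
  have hL := h5 (N g) hN ζ z ζ z α a ζ z β b hζ hζ hα hζ hβ
  have hc : HasDerivAt (fun t : ℝ => x + t • X) X 0 := by
    simpa using ((hasDerivAt_id (0 : ℝ)).smul_const X).const_add x
  have hk : HasDerivAt (fun t : ℝ => k (x + t • X)) (fderiv ℝ k x X) 0 := by
    have hd : DifferentiableAt ℝ k x :=
      (hNO.sm.contDiffAt (hg.isOpen.mem_nhds hx)).differentiableAt (by simp)
    have h0 : HasFDerivAt k (fderiv ℝ k x) (x + (0 : ℝ) • X) := by simpa using hd.hasFDerivAt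
    exact h0.comp_hasDerivAt 0 hc
  have hR := hk.mul ((hip ζ z ζ z hζ hζ).mul
    ((h1 θ hθ ζ z hζ).mul ((h1 θ hθ α a hα).mul (h1 θ hθ β b hβ))))
  have hU : ∀ᶠ t : ℝ in nhds (0 : ℝ), x + t • X ∈ U := by
    have h2 : Filter.Tendsto (fun t : ℝ => x + t • X) (nhds 0) (nhds (x + (0 : ℝ) • X)) :=
      hc.continuousAt
    rw [zero_smul, add_zero] at h2
    exact h2.eventually (hg.isOpen.mem_nhds hx)
  have hEq : (fun t : ℝ => e5 (N g) (x + t • X) (ζ t) (ζ t) (α t) (ζ t) (β t)) =ᶠ[nhds 0]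
      fun t : ℝ => k (x + t • X) * (ip g (x + t • X) (ζ t) (ζ t) *
        (e1 θ (x + t • X) (ζ t) * (e1 θ (x + t • X) (α t) * e1 θ (x + t • X) (β t)))) := by
    filter_upwards [hev, hU] with t ht htU
    exact hNO.val _ htU _ _ _ ht.1
  have h := (hL.congr_of_eventuallyEq hEq.symm).unique hR
  rw [show e6 (N2 g) x X z z a z b = e6 (D g (N g)) x X z z a z b from rfl, h]
  simp only [Pi.mul_apply, zero_smul, add_zero, hζ.1, hα.1, hβ.1]
  ring

end Pool.Agent.Lib.MP_9d59e9_gt.KO3
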