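import Pool.Agent.Lib.MP_9d59e9_gt.KO3.Spec

/-!
# MP_9d59e9_gt, project KO3: module Kz2

If the coefficient `k` of the normal form of `∇R` does not vanish then `∇θ = 0`.
-/

set_option autoImplicit false

namespace Pool.Agent.Lib.MP_9d59e9_gt.KO3

open scoped BigOperators ContDiff Topology
open Set KO

noncomputable section

private theorem Kz2_near {n : ℕ} {Ω : Set (Pt n)} (hO : IsOpen Ω) {p : Pt n} (hp : p ∈ Ω)
    (X : Pt n) : ∀ᶠ t in 𝓝 (0 : ℝ), p + t • X ∈ Ω := by
  have h1 : Continuous fun t : ℝ => p + t • X :=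
    continuous_const.add (continuous_id.smul continuous_const)
  have h2 : (fun t : ℝ => p + t • X) 0 ∈ Ω := by simpa using hp
  exact h1.continuousAt.eventually (hO.mem_nhds h2)

/-- product rule for a continuous factor and a factor vanishing at `0` -/
private theorem Kz2_mul {u v : ℝ → ℝ} {v' : ℝ} (hu : ContinuousAt u 0) (hv : HasDerivAt v v' 0)
    (h0 : v 0 = 0) : HasDerivAt (fun t => u t * v t) (u 0 * v') 0 := by
  rw [hasDerivAt_iff_tendsto_slope] at hv ⊢
  have h1 : Filter.Tendsto u (𝓝[≠] 0) (𝓝 (u 0)) := hu.tendsto.mono_left nhdsWithin_le_nhds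
  refine (h1.mul hv).congr fun t => ?_
  simp only [slope_def_field, h0, mul_zero, sub_zero]
  ring

/-- continuity of the derivative of a smooth function along a curve -/
private theorem Kz2_fd {n : ℕ} {U : Set (Pt n)} (hU : IsOpen U) {k : Pt n → ℝ}
    (hk : ContDiffOn ℝ ∞ k U) {x : Pt n} (hx : x ∈ U) (X : Pt n) {ξ : ℝ → Pt n}
    (hξ : ContinuousAt ξ 0) :
    ContinuousAt (fun t : ℝ => fderiv ℝ k (x + t • X) (ξ t)) 0 ∧
      ContinuousAt (fun t : ℝ => k (x + t • X)) 0 := by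
  have h1 : ContDiffOn ℝ ∞ (fderiv ℝ k) U := hk.fderiv_of_isOpen hU (by simp)
  have hl : Continuous fun t : ℝ => x + t • X :=
    continuous_const.add (continuous_id.smul continuous_const)
  have h0 : (fun t : ℝ => x + t • X) 0 = x := by simp
  have h2 : ContinuousAt (fderiv ℝ k) ((fun t : ℝ => x + t • X) 0) := by
    rw [h0]
    exact h1.continuousOn.continuousAt (hU.mem_nhds hx)
  have h3 : ContinuousAt k ((fun t : ℝ => x + t • X) 0) := by
    rw [h0]
    exact hk.continuousOn.continuousAt (hU.mem_nhds hx)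
  have h4 : ContinuousAt (fun t : ℝ => fderiv ℝ k (x + t • X)) 0 :=
    ContinuousAt.comp (f := fun t : ℝ => x + t • X) h2 hl.continuousAt
  exact ⟨h4.clm_apply hξ, ContinuousAt.comp (f := fun t : ℝ => x + t • X) h3 hl.continuousAt⟩

/-- step (1) -/
private theorem Kz2_one (hCvP : S_CvP) (hOrC : S_OrC) (hKz1 : S_Kz1) {n : ℕ}
    {g : Pt n → Matrix (Fin n) (Fin n) ℝ} {U : Set (Pt n)} {t1 : TF n 1} {t2 : TF n 2}
    {θ : TF n 1} {k : Pt n → ℝ} (H : KS3 g U t1 t2) (hθ : Unit1 g U θ) (hN : NO g U θ k)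
    {x : Pt n} (hx : x ∈ U) (hk : k x ≠ 0) (X e a b : Pt n) (he : e = du g θ x) (ha : a ≠ 0)
    (hb : b ≠ 0) (hO : Orth g x e a b) :
    e2 (D g θ) x X a * e2 (D g θ) x X b = 0 := by
  have hee : ip g x e e = 1 := by rw [he]; exact hθ.one x hx
  have hte : e1 θ x e = 1 := by rw [hθ.dual x hx, ← he, hee]
  have hta : e1 θ x a = 0 := by rw [hθ.dual x hx, ← he, hO.1]
  have htb : e1 θ x b = 0 := by rw [hθ.dual x hx, ← he, hO.2.1]
  have he0 : e ≠ 0 := by
    rintro rfl
    have h := (KO.sOnb n g x (H.met.pos x hx)).2.1.lin 0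
    have h2 := h.smul 0 0
    simp only [smul_zero, zero_mul] at h2
    rw [h2] at hee
    exact zero_ne_one hee
  obtain ⟨ζ, α, β, hζ, hα, hβ, hev⟩ := hOrC n g U H.met x hx X e a b hO he0 ha hb
  obtain ⟨h1, h2, -, -, h6, hip, -, hex⟩ := hCvP n g U H.met x hx X
  obtain ⟨ξ, hξ⟩ := hex X
  obtain ⟨-, -, -, hDs, -, -, -, hN2, -⟩ := KO.sSmo n g U H.met
  have hDθ : Sm U (D g θ) := hDs 1 θ hθ.sm
  have hL := h6 (N2 g) hN2 ξ X ζ e ζ e α a ζ e β b hξ hζ hζ hα hζ hβ
  obtain ⟨c1, c2⟩ := Kz2_fd H.met.isOpen hN.sm hx X hξ.2.continuousAt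
  have d1 := (hip ζ e ζ e hζ hζ).continuousAt
  have d2 := (h1 θ hθ.sm ζ e hζ).continuousAt
  have d3 := (h2 (D g θ) hDθ ξ X ζ e hξ hζ).continuousAt
  have d4 := (h2 (D g θ) hDθ ξ X α a hξ hα).continuousAt
  have d5 := (h2 (D g θ) hDθ ξ X β b hξ hβ).continuousAt
  have eα := h1 θ hθ.sm α a hα
  have eβ := h1 θ hθ.sm β b hβ
  have zα : (fun t : ℝ => e1 θ (x + t • X) (α t)) 0 = 0 := by
    simp only [zero_smul, add_zero, hα.1, hta]
  have zβ : (fun t : ℝ => e1 θ (x + t • X) (β t)) 0 = 0 := by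
    simp only [zero_smul, add_zero, hβ.1, htb]
  have cA := ((c1.mul (d1.mul d2)).add (c2.mul (d1.mul d3))).mul eα.continuousAt
  have cB := c2.mul (d1.mul (d2.mul d4))
  have cC := c2.mul (d1.mul (d2.mul d5))
  have hR := ((Kz2_mul cA eβ zβ).add (Kz2_mul cB eβ zβ)).add (Kz2_mul cC eα zα)
  have hL2 : HasDerivAt (fun t : ℝ => fderiv ℝ k (x + t • X) (ξ t)
        * (ip g (x + t • X) (ζ t) (ζ t) * (e1 θ (x + t • X) (ζ t)
          * (e1 θ (x + t • X) (α t) * e1 θ (x + t • X) (β t))))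
      + k (x + t • X) * (ip g (x + t • X) (ζ t) (ζ t)
        * (e2 (D g θ) (x + t • X) (ξ t) (ζ t) * (e1 θ (x + t • X) (α t) * e1 θ (x + t • X) (β t))
          + e1 θ (x + t • X) (ζ t) * (e2 (D g θ) (x + t • X) (ξ t) (α t)
            * e1 θ (x + t • X) (β t)
            + e1 θ (x + t • X) (α t) * e2 (D g θ) (x + t • X) (ξ t) (β t)))))
      (e7 (D g (N2 g)) x X X e e a e b) 0 := by
    refine hL.congr_of_eventuallyEq ?_
    filter_upwards [hev, Kz2_near H.met.isOpen hx X] with t ht htU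
    exact (hKz1 n g U θ k H.met hθ.sm hN _ htU (ξ t) (ζ t) (α t) (β t) ht.1 ht.2.1 ht.2.2.1
      ht.2.2.2).symm
  have hR2 := (hR.congr_of_eventuallyEq (Filter.Eventually.of_forall fun t => by
    simp only [Pi.add_apply, Pi.mul_apply]; ring)).unique hL2
  have hks := H.ks x hx X X e e a e b
  have k1 := hKz1 n g U θ k H.met hθ.sm hN x hx X e a b hO he0 ha hb
  have k2 := hN.val x hx e a b hO
  rw [hta, htb] at k1
  rw [hta] at k2
  have k1' : e6 (N2 g) x X e e a e b = 0 := by rw [k1]; ring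
  have k2' : e5 (N g) x e e a e b = 0 := by rw [k2]; ring
  rw [k1', k2', mul_zero, mul_zero, add_zero, add_zero] at hks
  have hks' : e7 (D g (N2 g)) x X X e e a e b = 0 := hks
  rw [hks'] at hR2
  simp only [zero_smul, add_zero, hζ.1, hξ.1, hα.1, hβ.1, hee, hte, hta, Pi.mul_apply,
    Pi.add_apply] at hR2
  have h3 : k x * (e2 (D g θ) x X a * e2 (D g θ) x X b) = 0 := by linarith
  exact (mul_eq_zero.mp h3).resolve_left hk

/-- linear forms which vanish on suitable pairs of vectors -/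
private theorem Kz2_two {V : Type} [AddCommGroup V] [Module ℝ V] {B : V → V → ℝ} {m : ℕ}
    (hPrp : S_Prp) (hE : Eu B m) (hm : 2 ≤ m) {e : V} {l : V → ℝ}
    (hl : Lin1 l) (h1 : ∀ a b, a ≠ 0 → b ≠ 0 → B e a = 0 → B e b = 0 → B a b = 0 → l a * l b = 0) :
    ∀ a, B e a = 0 → l a = 0 := by
  have hB := hE.ip
  have addl : ∀ a b c, B (a + b) c = B a c + B b c := fun a b c => (hB.lin c).add a b
  have smull : ∀ (r : ℝ) a c, B (r • a) c = r * B a c := fun r a c => (hB.lin c).smul r a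
  have addr : ∀ a b c, B c (a + b) = B c a + B c b := fun a b c => by
    rw [hB.symm, addl, hB.symm a c, hB.symm b c]
  have smulr : ∀ (r : ℝ) a c, B c (r • a) = r * B c a := fun r a c => by
    rw [hB.symm, smull, hB.symm a c]
  have zero : ∀ c, B 0 c = 0 := fun c => by simpa using smull 0 0 c
  intro a ha
  by_cases ha0 : a = 0
  · subst ha0
    simpa using hl.smul 0 0
  have hs := hB.pos a ha0
  obtain ⟨b, hb1, hb2, hb3⟩ := hPrp V B m hE hm e a
  have hr : Real.sqrt (B a a) * Real.sqrt (B a a) = B a a := Real.mul_self_sqrt hs.le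
  set r := Real.sqrt (B a a) with hrdef
  have hr0 : r ≠ 0 := by
    intro h
    rw [h] at hr
    linarith
  have hb0 : b ≠ 0 := by
    rintro rfl
    rw [zero] at hb1
    exact zero_ne_one hb1
  have hrb : B (r • b) (r • b) = B a a := by
    rw [smull, smulr, hb1]
    linarith
  have e1' : B e (r • b) = 0 := by rw [smulr, hb2, mul_zero]
  have e2' : B a (r • b) = 0 := by rw [smulr, hb3, mul_zero]
  have e3' : B (r • b) a = 0 := by rw [hB.symm, e2']
  have hrb0 : r • b ≠ 0 := smul_ne_zero hr0 hb0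
  have q1 := h1 a (r • b) ha0 hrb0 ha e1' e2'
  have e4' : B ((-1 : ℝ) • (r • b)) ((-1 : ℝ) • (r • b)) = B a a := by
    rw [smull, smulr, hrb]
    ring
  have p1 : B (a + r • b) (a + r • b) = 2 * B a a := by
    rw [addl, addr, addr, e2', e3', hrb]
    ring
  have p2 : B (a + (-1 : ℝ) • (r • b)) (a + (-1 : ℝ) • (r • b)) = 2 * B a a := by
    rw [addl, addr, addr, e4', smulr, smull, e2', e3']
    ring
  have n1 : a + r • b ≠ 0 := by
    intro h
    rw [h, zero] at p1
    linarith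
  have n2 : a + (-1 : ℝ) • (r • b) ≠ 0 := by
    intro h
    rw [h, zero] at p2
    linarith
  have q2 := h1 (a + r • b) (a + (-1 : ℝ) • (r • b)) n1 n2 (by rw [addr, ha, e1', add_zero])
    (by rw [addr, smulr, ha, e1']; ring)
    (by rw [addl, addr, addr, smulr (-1) (r • b) a, smulr (-1) (r • b) (r • b), e2', e3', hrb]; ring)
  rw [hl.add, hl.add, hl.smul (-1)] at q2
  have q3 : (l a + l (r • b)) * (l a + -1 * l (r • b)) = l a * l a - l (r • b) * l (r • b) := by
    ring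
  rw [q3] at q2
  rcases mul_eq_zero.mp q1 with h | h
  · exact h
  · rw [h] at q2
    have : l a * l a = 0 := by linarith
    exact mul_self_eq_zero.mp this

/-- step (3) -/
private theorem Kz2_three {n : ℕ} {g : Pt n → Matrix (Fin n) (Fin n) ℝ} {U : Set (Pt n)}
    (hg : IsMetricOn g U) {θ : TF n 1} (hθ : Unit1 g U θ) {x : Pt n} (hx : x ∈ U) (X : Pt n) :
    e2 (D g θ) x X (du g θ x) = 0 := by
  have hC := KO.sCvU n g U hg x hx X 0 θ hθ.sm ![] ![] ![] (fun j => j.elim0)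
  obtain ⟨h1, -⟩ := KO.sCvE n g U hg.isOpen x hx X
  simp only [Finset.univ_eq_empty, Finset.sum_empty, add_zero] at hC
  have hC2 : Cv g x X (fun t => du g θ (x + t • X)) (du g θ x)
      (up g (D g θ) x (Fin.cons X ![])) := by
    have e0 : (fun t : ℝ => du g θ (x + t • X))
        = fun t => up g θ (x + t • X) (fun j => (![] : Fin 0 → ℝ → Pt n) j t) := by
      funext t
      unfold du
      congr 1
      funext j
      exact j.elim0
    rw [e0]
    exact hC
  have hd := h1 θ hθ.sm _ _ _ hC2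
  have hc : HasDerivAt (fun t : ℝ => e1 θ (x + t • X) (du g θ (x + t • X))) 0 0 := by
    refine (hasDerivAt_const (0 : ℝ) (1 : ℝ)).congr_of_eventuallyEq ?_
    filter_upwards [Kz2_near hg.isOpen hx X] with t ht
    rw [hθ.dual _ ht, hθ.one _ ht]
  have h0 := hd.unique hc
  have hB := (KO.sOnb n g x (hg.pos x hx)).2.1
  have hup := (KO.sUp n g x (hg.pos x hx)).1 1 (D g θ) (Fin.cons X ![]) (du g θ x)
  have hs : (Fin.snoc (Fin.cons X ![] : Fin 1 → Pt n) (du g θ x) : Fin 2 → Pt n)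
      = ![X, du g θ x] := by
    funext i
    fin_cases i <;> rfl
  rw [hs] at hup
  rw [hθ.dual x hx (up g (D g θ) x (Fin.cons X ![])), hB.symm, hup] at h0
  have : e2 (D g θ) x X (du g θ x) = ev (D g θ) x ![X, du g θ x] := rfl
  rw [← this] at h0
  linarith

theorem tKz2 (hCvP : S_CvP) (hOrC : S_OrC) (hKz1 : S_Kz1) (hPrp : S_Prp) (hFrm : S_Frm) :
    S_Kz2 := by
  intro n g U t1 t2 θ k hn H hθ hN x hx hk X v
  obtain ⟨m, rfl⟩ : ∃ m, n = m + 1 := ⟨n - 1, by omega⟩
  have hE := hFrm (m + 1) m g x rfl (H.met.pos x hx)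
  have hl : Lin1 (e2 (D g θ) x X) := (KO.sLin (m + 1) x).2.2.2.2.1 (D g θ) |>.1 X
  have hone := hθ.one x hx
  set e := du g θ x with he
  have h2 := Kz2_two (B := ip g x) (e := e) hPrp hE (by omega) hl
    (fun a b ha hb hea heb hab => Kz2_one hCvP hOrC hKz1 H hθ hN hx hk X e a b he ha hb
      ⟨hea, heb, hab⟩)
  have h3 := Kz2_three H.met hθ hx X
  rw [← he] at h3
  have hB := hE.ip
  have hv : v = ip g x e v • e + (v + (-ip g x e v) • e) := by
    rw [add_comm v, ← add_assoc, ← add_smul]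
    simp
  have hv' : ip g x e (v + (-ip g x e v) • e) = 0 := by
    rw [hB.symm, (hB.lin e).add, (hB.lin e).smul, hone, hB.symm v e]
    ring
  rw [hv, hl.add, hl.smul, h3, h2 _ hv']
  ring

end

end Pool.Agent.Lib.MP_9d59e9_gt.KO3
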