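import Pool.Agent.Lib.MP_9d59e9_gt.KO3.Spec

/-!
# MP_9d59e9_gt, project KO3: module Mf

`∇²R` in terms of `∇ψ` when `∇R = FF(ψ)`.
-/

set_option autoImplicit false

namespace Pool.Agent.Lib.MP_9d59e9_gt.KO3

open scoped BigOperators ContDiff
open Set KO Filter

noncomputable section

/-- derivative of `G0` along curves with vanishing covariant derivative -/
private theorem Mf_G0 {n : ℕ} {g : Pt n → Matrix (Fin n) (Fin n) ℝ} {p X : Pt n}
    (hip : ∀ a a₀ b b₀, Cv g p X a a₀ 0 → Cv g p X b b₀ 0 →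
      HasDerivAt (fun t : ℝ => ip g (p + t • X) (a t) (b t)) 0 0)
    {a b c d : ℝ → Pt n} {a₀ b₀ c₀ d₀ : Pt n} (ha : Cv g p X a a₀ 0) (hb : Cv g p X b b₀ 0)
    (hc : Cv g p X c c₀ 0) (hd : Cv g p X d d₀ 0) :
    HasDerivAt (fun t : ℝ => G0 (ip g (p + t • X)) (a t) (b t) (c t) (d t)) 0 0 := by
  have h := ((hip a a₀ d d₀ ha hd).mul (hip b b₀ c c₀ hb hc)).sub
    ((hip a a₀ c c₀ ha hc).mul (hip b b₀ d d₀ hb hd))
  have h2 := h.congr_deriv (g' := 0) (by ring)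
  exact h2

/-- product rule with a factor of derivative zero -/
private theorem Mf_mul {u v : ℝ → ℝ} {u' : ℝ} (hu : HasDerivAt u u' 0) (hv : HasDerivAt v 0 0) :
    HasDerivAt (fun t => u t * v t) (u' * v 0) 0 := by
  exact (hu.mul hv).congr_deriv (by ring)

theorem tMf (hCvP : S_CvP) : S_Mf := by
  intro n g U ψ hg hψ hN x hx X z a b c d
  obtain ⟨h1, -, -, h5, -, hip, -, hex⟩ := hCvP n g U hg x hx X
  obtain ⟨zc, hz⟩ := hex z
  obtain ⟨ac, ha⟩ := hex a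
  obtain ⟨bc, hb⟩ := hex b
  obtain ⟨cc, hc⟩ := hex c
  obtain ⟨dc, hd⟩ := hex d
  have hL := h5 (N g) (KO.sSmo n g U hg).2.2.2.2.2.2.1 zc z ac a bc b cc c dc d hz ha hb hc hd
  have e : ∀ v v₀, Cv g x X v v₀ 0 →
      HasDerivAt (fun t : ℝ => e1 ψ (x + t • X) (v t)) (e2 (D g ψ) x X v₀) 0 :=
    fun v v₀ hv => h1 ψ hψ v v₀ hv
  have hR := ((((Mf_mul ((e zc z hz).const_mul 2) (Mf_G0 hip ha hb hc hd)).add
    (Mf_mul (e ac a ha) (Mf_G0 hip hz hb hc hd))).add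
    (Mf_mul (e bc b hb) (Mf_G0 hip ha hz hc hd))).add
    (Mf_mul (e cc c hc) (Mf_G0 hip ha hb hz hd))).add
    (Mf_mul (e dc d hd) (Mf_G0 hip ha hb hc hz))
  have hev : ∀ᶠ t in nhds (0 : ℝ), x + t • X ∈ U := by
    have hcont : Continuous fun t : ℝ => x + t • X := by fun_prop
    apply hcont.continuousAt.eventually_mem
    simpa using hg.isOpen.mem_nhds hx
  have hL2 := hR.congr_of_eventuallyEq (f₁ := fun t : ℝ =>
    e5 (N g) (x + t • X) (zc t) (ac t) (bc t) (cc t) (dc t)) (by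
      filter_upwards [hev] with t ht
      rw [hN _ ht]
      rfl)
  have := hL.unique hL2
  have e6' : e6 (N2 g) x X z a b c d = e6 (D g (N g)) x X z a b c d := rfl
  rw [e6', this]
  simp only [hz.1, ha.1, hb.1, hc.1, hd.1, zero_smul, add_zero]
  rfl

end

end Pool.Agent.Lib.MP_9d59e9_gt.KO3
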