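import Pool.Agent.Lib.MP_9d59e9_gt.KO3.Spec

/-!
# MP_9d59e9_gt, project KO3: module Nfm

Normal form of a `(3,2)` tensor with `W(e)[N] = 0` which is invariant under the rotations of `e^⊥`.
-/

set_option autoImplicit false

namespace Pool.Agent.Lib.MP_9d59e9_gt.KO3

open scoped BigOperators
open KO

noncomputable section

section
variable {V : Type} [AddCommGroup V] [Module ℝ V]

/-! ## linear forms -/

private theorem Nfm_cmb {φ : V → ℝ} (h : Lin1 φ) (r s : ℝ) (a b : V) :
    φ (r • a - s • b) = r * φ a - s * φ b := by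
  have e : r • a - s • b = r • a + (-s) • b := by rw [neg_smul, sub_eq_add_neg]
  rw [e, h.add, h.smul, h.smul]
  ring

private theorem Nfm_zero {φ : V → ℝ} (h : Lin1 φ) : φ 0 = 0 := by
  have := h.smul 0 0
  rwa [zero_smul, zero_mul] at this

private theorem Nfm_sum {φ : V → ℝ} (h : Lin1 φ) {ι : Type} (s : Finset ι) (c : ι → ℝ)
    (f : ι → V) : φ (∑ i ∈ s, c i • f i) = ∑ i ∈ s, c i * φ (f i) := by
  classical
  induction s using Finset.induction_on with
  | empty => simp [Nfm_zero h]
  | insert a s ha ih => rw [Finset.sum_insert ha, Finset.sum_insert ha, h.add, h.smul, ih]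

private theorem Nfm_ext {B : V → V → ℝ} {n : ℕ} {f : Fin n → V} (hf : Fr B f) {φ : V → ℝ}
    (h : Lin1 φ) (h0 : ∀ i, φ (f i) = 0) (v : V) : φ v = 0 := by
  rw [hf.ex v, Nfm_sum h]
  exact Finset.sum_eq_zero fun i _ => by rw [h0 i, mul_zero]

private theorem Nfm_lc {φ ψ : V → ℝ} (h : Lin1 φ) (e : ∀ v, ψ v = φ v) : Lin1 ψ := by
  have : ψ = φ := funext e
  rw [this]
  exact h

private theorem Nfm_lsub {φ ψ χ : V → ℝ} (r s : ℝ) (h : Lin1 φ) (k : Lin1 ψ) (l : Lin1 χ) :
    Lin1 fun v => φ v - r * ψ v - s * χ v := by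
  constructor
  · intro a b
    show φ (a + b) - r * ψ (a + b) - s * χ (a + b)
      = φ a - r * ψ a - s * χ a + (φ b - r * ψ b - s * χ b)
    rw [h.add, k.add, l.add]
    ring
  · intro t a
    show φ (t • a) - r * ψ (t • a) - s * χ (t • a) = t * (φ a - r * ψ a - s * χ a)
    rw [h.smul, k.smul, l.smul]
    ring

/-! ## tensors with the symmetries of pairs -/

/-- linear in the first slot, antisymmetric in both pairs, symmetric under exchange -/
private structure Nfm_C (T : V → V → V → V → ℝ) : Prop where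
  lin : ∀ b c d, Lin1 fun a => T a b c d
  a12 : ∀ a b c d, T b a c d = -T a b c d
  a34 : ∀ a b c d, T a b d c = -T a b c d
  sw : ∀ a b c d, T c d a b = T a b c d

private theorem Nfm_l2 {T : V → V → V → V → ℝ} (h : Nfm_C T) (a c d : V) :
    Lin1 fun b => T a b c d := by
  constructor
  · intro x y
    show T a (x + y) c d = T a x c d + T a y c d
    have := (h.lin a c d).add x y
    rw [h.a12 (x + y) a, h.a12 x a, h.a12 y a, this]
    ring
  · intro r x
    show T a (r • x) c d = r * T a x c d
    have := (h.lin a c d).smul r x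
    rw [h.a12 (r • x) a, h.a12 x a, this]
    ring

private theorem Nfm_l3 {T : V → V → V → V → ℝ} (h : Nfm_C T) (a b d : V) :
    Lin1 fun c => T a b c d :=
  Nfm_lc (h.lin d a b) fun v => (h.sw a b v d).symm

private theorem Nfm_l4 {T : V → V → V → V → ℝ} (h : Nfm_C T) (a b c : V) :
    Lin1 fun d => T a b c d :=
  Nfm_lc (Nfm_l2 h c a b) fun v => (h.sw a b c v).symm

private theorem Nfm_sub {T S U : V → V → V → V → ℝ} (r s : ℝ) (h : Nfm_C T) (k : Nfm_C S)
    (l : Nfm_C U) : Nfm_C fun a b c d => T a b c d - r * S a b c d - s * U a b c d where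
  lin b c d := Nfm_lsub r s (h.lin b c d) (k.lin b c d) (l.lin b c d)
  a12 a b c d := by
    show T b a c d - r * S b a c d - s * U b a c d = -(T a b c d - r * S a b c d - s * U a b c d)
    rw [h.a12, k.a12, l.a12]
    ring
  a34 a b c d := by
    show T a b d c - r * S a b d c - s * U a b d c = -(T a b c d - r * S a b c d - s * U a b c d)
    rw [h.a34, k.a34, l.a34]
    ring
  sw a b c d := by
    show T c d a b - r * S c d a b - s * U c d a b = T a b c d - r * S a b c d - s * U a b c d
    rw [h.sw, k.sw, l.sw]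

private theorem Nfm_cr {T : V → V → V → V → ℝ} (h : Crvt T) : Nfm_C T :=
  ⟨h.lin, h.a12, h.a34, h.sw⟩

private theorem Nfm_FF {B : V → V → ℝ} (hB : IP B) {ψ : V → ℝ} (hψ : Lin1 ψ) (z : V) :
    Nfm_C (FF B ψ z) := by
  have ha : ∀ x y v, B (x + y) v = B x v + B y v := fun x y v => (hB.lin v).add x y
  have hs : ∀ (r : ℝ) x v, B (r • x) v = r * B x v := fun r x v => (hB.lin v).smul r x
  have g : ∀ a b c d, G0 B c d a b = G0 B a b c d := by
    intro a b c d
    simp only [G0]
    rw [hB.symm c b, hB.symm d a, hB.symm c a, hB.symm d b]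
    ring
  constructor
  · intro b c d
    constructor
    · intro x y
      simp only [FF, G0, ha, hψ.add]
      ring
    · intro r x
      simp only [FF, G0, hs, hψ.smul]
      ring
  · intro a b c d
    simp only [FF, G0]
    ring
  · intro a b c d
    simp only [FF, G0]
    ring
  · intro a b c d
    simp only [FF]
    rw [g a b c d, g a b z d, g a b c z, g z b c d, g a z c d]
    ring

private theorem Nfm_FFz {B : V → V → ℝ} (hB : IP B) {ψ : V → ℝ} (hψ : Lin1 ψ) (a b c d : V) :
    Lin1 fun z => FF B ψ z a b c d := by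
  have ha : ∀ x y v, B (x + y) v = B x v + B y v := fun x y v => (hB.lin v).add x y
  have hs : ∀ (r : ℝ) x v, B (r • x) v = r * B x v := fun r x v => (hB.lin v).smul r x
  have ha2 : ∀ x y v, B v (x + y) = B v x + B v y := fun x y v => by
    rw [hB.symm v, ha, hB.symm x, hB.symm y]
  have hs2 : ∀ (r : ℝ) x v, B v (r • x) = r * B v x := fun r x v => by
    rw [hB.symm v, hs, hB.symm x]
  constructor
  · intro x y
    simp only [FF, G0, ha, ha2, hψ.add]
    ring
  · intro r x
    simp only [FF, G0, hs, hs2, hψ.smul]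
    ring

private theorem Nfm_TT {B : V → V → ℝ} (hB : IP B) {θ : V → ℝ} (hθ : Lin1 θ) (z : V) :
    Nfm_C (TT B θ z) := by
  have ha : ∀ x y v, B (x + y) v = B x v + B y v := fun x y v => (hB.lin v).add x y
  have hs : ∀ (r : ℝ) x v, B (r • x) v = r * B x v := fun r x v => (hB.lin v).smul r x
  constructor
  · intro b c d
    constructor
    · intro x y
      simp only [TT, ha, hθ.add]
      ring
    · intro r x
      simp only [TT, hs, hθ.smul]
      ring
  · intro a b c d
    simp only [TT]
    ring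
  · intro a b c d
    simp only [TT]
    ring
  · intro a b c d
    simp only [TT]
    rw [hB.symm d b, hB.symm c a, hB.symm d a, hB.symm c b]
    ring

private theorem Nfm_TTz {B : V → V → ℝ} {θ : V → ℝ} (hθ : Lin1 θ) (a b c d : V) :
    Lin1 fun z => TT B θ z a b c d := by
  constructor
  · intro x y
    simp only [TT, hθ.add]
    ring
  · intro r x
    simp only [TT, hθ.smul]
    ring

/-- a tensor with these symmetries vanishes on a frame if it vanishes on the three types -/
private theorem Nfm_16 {T : V → V → V → V → ℝ} (h : Nfm_C T) {m : ℕ} (f : Fin (m + 1) → V)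
    (H1 : ∀ i j k l : Fin m, T (f i.succ) (f j.succ) (f k.succ) (f l.succ) = 0)
    (H2 : ∀ j k l : Fin m, T (f 0) (f j.succ) (f k.succ) (f l.succ) = 0)
    (H3 : ∀ j l : Fin m, T (f 0) (f j.succ) (f 0) (f l.succ) = 0) (i j k l : Fin (m + 1)) :
    T (f i) (f j) (f k) (f l) = 0 := by
  have d1 : ∀ a c d, T a a c d = 0 := fun a c d => by
    have := h.a12 a a c d
    linarith
  have d3 : ∀ a b c, T a b c c = 0 := fun a b c => by
    have := h.a34 a b c c
    linarith
  -- first: the second pair from the right with first pair of type (0, j)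
  have K2 : ∀ (j : Fin m) (k l : Fin (m + 1)), T (f 0) (f j.succ) (f k) (f l) = 0 := by
    intro j k l
    refine Fin.cases ?_ (fun k => ?_) k
    · refine Fin.cases ?_ (fun l => ?_) l
      · exact d3 _ _ _
      · exact H3 j l
    · refine Fin.cases ?_ (fun l => ?_) l
      · rw [h.a34, H3 j k, neg_zero]
      · exact H2 j k l
  have K1 : ∀ (i j : Fin m) (k l : Fin (m + 1)), T (f i.succ) (f j.succ) (f k) (f l) = 0 := by
    intro i j k l
    refine Fin.cases ?_ (fun k => ?_) k
    · refine Fin.cases ?_ (fun l => ?_) l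
      · exact d3 _ _ _
      · rw [← h.sw]
        exact H2 l i j
    · refine Fin.cases ?_ (fun l => ?_) l
      · rw [h.a34, ← h.sw, H2 k i j, neg_zero]
      · exact H1 i j k l
  refine Fin.cases ?_ (fun i => ?_) i
  · refine Fin.cases ?_ (fun j => ?_) j
    · exact d1 _ _ _
    · exact K2 j k l
  · refine Fin.cases ?_ (fun j => ?_) j
    · rw [h.a12, K2 i k l, neg_zero]
    · exact K1 i j k l

/-! ## the pair symmetry of `Q` -/

omit [AddCommGroup V] [Module ℝ V] in
private theorem Nfm_pair (Q : V → V → V → V → ℝ) (P : V → Prop)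
    (h12 : ∀ a b c d, P a → P b → P c → P d → Q b a c d = -Q a b c d)
    (h34 : ∀ a b c d, P a → P b → P c → P d → Q a b d c = -Q a b c d)
    (hb : ∀ a b c d, P a → P b → P c → P d → Q a b c d + Q a c d b + Q a d b c = 0)
    (a b c d : V) (ha : P a) (hb' : P b) (hc : P c) (hd : P d) : Q c d a b = Q a b c d := by
  have e1 := hb a b c d ha hb' hc hd
  have e2 := hb b a c d hb' ha hc hd
  have e3 := hb c a b d hc ha hb' hd
  have e4 := hb d a b c hd ha hb' hc
  linarith [h12 a b c d ha hb' hc hd, h12 a b d c ha hb' hd hc, h12 a c b d ha hc hb' hd,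
    h12 a c d b ha hc hd hb', h12 a d b c ha hd hb' hc, h12 a d c b ha hd hc hb',
    h12 b c a d hb' hc ha hd, h12 b c d a hb' hc hd ha, h12 b d a c hb' hd ha hc,
    h12 b d c a hb' hd hc ha, h12 c d a b hc hd ha hb', h12 c d b a hc hd hb' ha,
    h34 a b c d ha hb' hc hd, h34 a c b d ha hc hb' hd, h34 a d b c ha hd hb' hc,
    h34 b a c d hb' ha hc hd, h34 b c a d hb' hc ha hd, h34 b d a c hb' hd ha hc,
    h34 c a b d hc ha hb' hd, h34 c b a d hc hb' ha hd, h34 c d a b hc hd ha hb',
    h34 d a b c hd ha hb' hc, h34 d b a c hd hb' ha hc, h34 d c a b hd hc ha hb']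

end

theorem tNfm (hCi23 : S_Ci23) (hCIn : S_CIn) : S_Nfm := by
  intro V _ _ B m hE hm N hN e he hW hact
  obtain ⟨f, hf, hf0⟩ := hE.fr e he
  have hB := hE.ip
  have hN4 : ∀ z, Nfm_C (N z) := fun z => Nfm_cr (hN.cur z)
  have hBe : Lin1 (B e) := Nfm_lc (hB.lin e) fun v => hB.symm e v
  -- (1), (2)
  have h1 : ∀ z c d p q, B e z = 0 → B e c = 0 → B e d = 0 → B e p = 0 → B e q = 0 →
      N z c d p q = 0 := by
    intro z c d p q hz hc hd hp hq
    have h := hW e z c d p q
    simp only [WW, he, hz, hc, hd, hp, hq] at h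
    linarith
  have h2 : ∀ z d p q, B e z = 0 → B e d = 0 → B e p = 0 → B e q = 0 →
      N z e d p q = -N d e z p q := by
    intro z d p q hz hd hp hq
    have h := hW e z e d p q
    simp only [WW, he, hz, hd, hp, hq] at h
    have s := (hN.cur d).sw e z p q
    linarith
  -- the tensor `Q`
  have q34 : ∀ a b c d, N a e b d c = -N a e b c d := fun a b c d => (hN.cur a).a34 e b c d
  have qb : ∀ a b c d, N a e b c d + N a e c d b + N a e d b c = 0 := by
    intro a b c d
    have h := (hN.cur a).bi e b c d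
    have s1 := (hN.cur a).sw e d b c
    have s2 := (hN.cur a).a12 e c b d
    have s3 := (hN.cur a).a34 e c d b
    linarith
  have qsw : ∀ a b c d, B e a = 0 → B e b = 0 → B e c = 0 → B e d = 0 →
      N c e d a b = N a e b c d :=
    Nfm_pair (fun a b c d => N a e b c d) (fun a => B e a = 0)
      (fun a b c d ha hb hc hd => h2 b a c d hb ha hc hd)
      (fun a b c d _ _ _ _ => q34 a b c d) (fun a b c d _ _ _ _ => qb a b c d)
  -- the projection
  have hπ : ∀ a, B e (a - B e a • e) = 0 := by
    intro a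
    have h := Nfm_cmb hBe 1 (B e a) a e
    rw [one_smul, he] at h
    rw [h]
    ring
  have hπadd : ∀ a b : V, a + b - B e (a + b) • e = (a - B e a • e) + (b - B e b • e) := by
    intro a b
    rw [hBe.add, add_smul]
    abel
  have hπsmul : ∀ (r : ℝ) (a : V), r • a - B e (r • a) • e = r • (a - B e a • e) := by
    intro r a
    rw [hBe.smul, mul_smul, smul_sub]
  have hπD : ∀ a, B e a = 0 → a - B e a • e = a := by
    intro a ha
    rw [ha, zero_smul, sub_zero]
  -- the curvature tensor `Q'`
  have hQ : Crvt fun a b c d => N (a - B e a • e) e (b - B e b • e) (c - B e c • e)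
      (d - B e d • e) := by
    constructor
    · intro b c d
      constructor
      · intro x y
        show N (x + y - B e (x + y) • e) _ _ _ _ = _
        rw [hπadd]
        exact (hN.lin _ _ _ _).add _ _
      · intro r x
        show N (r • x - B e (r • x) • e) _ _ _ _ = _
        rw [hπsmul]
        exact (hN.lin _ _ _ _).smul _ _
    · intro a b c d
      exact h2 _ _ _ _ (hπ b) (hπ a) (hπ c) (hπ d)
    · intro a b c d
      exact q34 _ _ _ _
    · intro a b c d
      exact qsw _ _ _ _ (hπ a) (hπ b) (hπ c) (hπ d)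
    · intro a b c d
      show N (a - B e a • e) e (b - B e b • e) (c - B e c • e) (d - B e d • e)
        + N (b - B e b • e) e (c - B e c • e) (a - B e a • e) (d - B e d • e)
        + N (c - B e c • e) e (a - B e a • e) (b - B e b • e) (d - B e d • e) = 0
      have s1 := qsw _ _ _ _ (hπ a) (hπ b) (hπ c) (hπ d)
      have s2 := qsw _ _ _ _ (hπ b) (hπ c) (hπ a) (hπ d)
      have s3 := qsw _ _ _ _ (hπ c) (hπ a) (hπ b) (hπ d)
      have t1 := h2 (c - B e c • e) (d - B e d • e) (a - B e a • e) (b - B e b • e) (hπ c) (hπ d)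
        (hπ a) (hπ b)
      have t2 := h2 (a - B e a • e) (d - B e d • e) (b - B e b • e) (c - B e c • e) (hπ a) (hπ d)
        (hπ b) (hπ c)
      have t3 := h2 (b - B e b • e) (d - B e d • e) (c - B e c • e) (a - B e a • e) (hπ b) (hπ d)
        (hπ c) (hπ a)
      have u := qb (d - B e d • e) (a - B e a • e) (b - B e b • e) (c - B e c • e)
      linarith
  -- values on the frame
  have hd0 : ∀ i : Fin m, B e (f i.succ) = 0 := by
    intro i
    rw [← hf0, hf.on]
    exact if_neg (Fin.succ_ne_zero i).symm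
  have hdd : ∀ i j : Fin m, B (f i.succ) (f j.succ) = if i = j then 1 else 0 := by
    intro i j
    rw [hf.on]
    by_cases h : i = j
    · rw [h, if_pos rfl, if_pos rfl]
    · rw [if_neg h, if_neg fun h' => h (Fin.succ_injective m h')]
  -- the rotations
  have hwde : ∀ i j : Fin m, wd B (f i.succ) (f j.succ) e = 0 := by
    intro i j
    simp only [wd]
    rw [hB.symm (f j.succ) e, hB.symm (f i.succ) e, hd0 i, hd0 j, zero_smul, zero_smul, sub_zero]
  have hwdD : ∀ (i j : Fin m) (a : V), B e (wd B (f i.succ) (f j.succ) a) = 0 := by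
    intro i j a
    simp only [wd]
    rw [Nfm_cmb hBe, hd0 i, hd0 j]
    ring
  have z1 : ∀ b c d e', N 0 b c d e' = 0 := fun b c d e' => Nfm_zero (hN.lin b c d e')
  have z2 : ∀ a c d e', N a 0 c d e' = 0 := fun a c d e' => Nfm_zero ((hN4 a).lin c d e')
  have z4 : ∀ a b c e', N a b c 0 e' = 0 := fun a b c e' => Nfm_zero (Nfm_l3 (hN4 a) b c e')
  have hda : ∀ i j : Fin m, ∀ z c d p q, act5 (wd B (f i.succ) (f j.succ)) N z c d p q = 0 :=
    fun i j => hact _ _ (hd0 i) (hd0 j)
  obtain ⟨κ, hκ'⟩ := hCIn.1 V B _ hB hQ m (fun i => f i.succ) hm hdd (by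
    intro i j k l p q
    have h := hda i j (f k.succ) e (f l.succ) (f p.succ) (f q.succ)
    simp only [act5, hwde, z2] at h
    simp only [act4]
    rw [hπD _ (hwdD i j (f k.succ)), hπD _ (hwdD i j (f l.succ)), hπD _ (hwdD i j (f p.succ)),
      hπD _ (hwdD i j (f q.succ)), hπD _ (hd0 k), hπD _ (hd0 l), hπD _ (hd0 p), hπD _ (hd0 q)]
    linarith)
  have hκ : ∀ k l p q : Fin m, N (f k.succ) e (f l.succ) (f p.succ) (f q.succ)
      = κ * G0 B (f k.succ) (f l.succ) (f p.succ) (f q.succ) := by
    intro k l p q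
    have h := hκ' k l p q
    rw [hπD _ (hd0 k), hπD _ (hd0 l), hπD _ (hd0 p), hπD _ (hd0 q)] at h
    exact h
  -- (4)
  have h4 : ∀ k l p q : Fin m, N e (f k.succ) (f l.succ) (f p.succ) (f q.succ)
      = 2 * (κ * G0 B (f k.succ) (f l.succ) (f p.succ) (f q.succ)) := by
    intro k l p q
    have h := hN.bi2 e (f k.succ) (f l.succ) (f p.succ) (f q.succ)
    have s1 := (hN.cur (f k.succ)).a12 e (f l.succ) (f p.succ) (f q.succ)
    have s2 := h2 (f l.succ) (f k.succ) (f p.succ) (f q.succ) (hd0 l) (hd0 k) (hd0 p) (hd0 q)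
    have s3 := hκ k l p q
    linarith
  -- linear forms applied to the rotations of frame vectors
  have ite' : ∀ (k l : Fin m) (x : ℝ),
      (if l = k then x else 0) = (if k = l then 1 else 0) * x := by
    intro k l x
    by_cases hkl : k = l
    · rw [if_pos hkl.symm, if_pos hkl, one_mul]
    · rw [if_neg fun h => hkl h.symm, if_neg hkl, zero_mul]
  have ite2 : ∀ (k l : Fin m) (x : ℝ),
      (if l = k then -x else 0) = -((if k = l then 1 else 0) * x) := by
    intro k l x
    rw [ite']
    ring
  have rot : ∀ (φ : V → ℝ), Lin1 φ → ∀ i j a : Fin m,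
      φ (wd B (f i.succ) (f j.succ) (f a.succ))
        = (if a = j then φ (f i.succ) else 0) + if a = i then -φ (f j.succ) else 0 := by
    intro φ hφ i j a
    simp only [wd]
    rw [Nfm_cmb hφ, hdd, hdd, ite' j a, ite2 i a]
    ring
  -- (5)
  have h5 : ∀ a b c : Fin m, N (f a.succ) e (f b.succ) e (f c.succ) = 0 := by
    refine hCi23.2 m (fun a b c => N (f a.succ) e (f b.succ) e (f c.succ)) hm
      (fun a b c => ?_) (fun i j _ a b c => ?_)
    · exact (hN.cur (f a.succ)).sw e (f b.succ) e (f c.succ)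
    · have h := hda i j (f a.succ) e (f b.succ) e (f c.succ)
      simp only [act5, hwde, z2, z4] at h
      have r1 := rot _ (hN.lin e (f b.succ) e (f c.succ)) i j a
      have r2 := rot _ (Nfm_l2 (hN4 (f a.succ)) e e (f c.succ)) i j b
      have r3 := rot _ (Nfm_l4 (hN4 (f a.succ)) e (f b.succ) e) i j c
      rw [r1, r2, r3] at h
      simp only [rt3]
      linarith
  -- (6)
  have h6 : ∀ a b c : Fin m, N e e (f a.succ) (f b.succ) (f c.succ) = 0 := by
    intro c a b
    have h := hN.bi2 e (f a.succ) (f b.succ) e (f c.succ)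
    have s1 := (hN.cur (f a.succ)).a12 e (f b.succ) e (f c.succ)
    have s2 := h5 a b c
    have s3 := h5 b a c
    have s4 := (hN.cur e).sw e (f c.succ) (f a.succ) (f b.succ)
    linarith
  -- (7)
  obtain ⟨h, hh⟩ := hCi23.1 m (fun a b => N e e (f a.succ) e (f b.succ)) hm
    (fun a b => (hN.cur e).sw e (f b.succ) e (f a.succ)) (by
      intro i j _ a b
      have h := hda i j e e (f a.succ) e (f b.succ)
      simp only [act5, hwde, z1, z2, z4] at h
      have r1 := rot _ (Nfm_l2 (hN4 e) e e (f b.succ)) i j a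
      have r2 := rot _ (Nfm_l4 (hN4 e) e (f a.succ) e) i j b
      rw [r1, r2] at h
      simp only [rt2]
      linarith)
  -- (8)
  have hde : ∀ i : Fin m, B (f i.succ) e = 0 := fun i => by rw [hB.symm, hd0 i]
  have hT : ∀ z, Nfm_C fun a b c d => N z a b c d - κ * FF B (B e) z a b c d
      - (h + 4 * κ) * TT B (B e) z a b c d :=
    fun z => Nfm_sub κ (h + 4 * κ) (hN4 z) (Nfm_FF hB hBe z) (Nfm_TT hB hBe z)
  have Tz : ∀ i j k l p : Fin (m + 1), N (f p) (f i) (f j) (f k) (f l)
      - κ * FF B (B e) (f p) (f i) (f j) (f k) (f l)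
      - (h + 4 * κ) * TT B (B e) (f p) (f i) (f j) (f k) (f l) = 0 := by
    intro i j k l p
    revert i j k l
    refine Fin.cases ?_ (fun p => ?_) p
    · rw [hf0]
      intro i j k l
      refine Nfm_16 (hT e) f ?_ ?_ ?_ i j k l
      · intro i j k l
        have s := h4 i j k l
        simp only [FF, TT, hd0, he]
        linarith
      · intro j k l
        have s := h6 j k l
        rw [hf0]
        simp only [FF, TT, G0, hd0, he]
        linarith
      · intro j l
        have s := hh j l
        have t := hdd j l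
        rw [hf0]
        simp only [FF, TT, G0, hd0, he, hde]
        rw [s, t]
        by_cases hjl : j = l
        · rw [if_pos hjl, if_pos hjl]
          ring
        · rw [if_neg hjl, if_neg hjl]
          ring
    · intro i j k l
      refine Nfm_16 (hT (f p.succ)) f ?_ ?_ ?_ i j k l
      · intro i j k l
        have s := h1 (f p.succ) (f i.succ) (f j.succ) (f k.succ) (f l.succ) (hd0 p) (hd0 i)
          (hd0 j) (hd0 k) (hd0 l)
        simp only [FF, TT, hd0]
        linarith
      · intro j k l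
        have s := hκ p j k l
        rw [hf0]
        simp only [FF, TT, hd0, he]
        linarith
      · intro j l
        have s := h5 p j l
        rw [hf0]
        simp only [FF, TT, G0, hd0, he, hde]
        linarith
  -- (9)
  refine ⟨κ, h + 4 * κ, ?_⟩
  have t4 : ∀ p i j k d, N (f p) (f i) (f j) (f k) d - κ * FF B (B e) (f p) (f i) (f j) (f k) d
      - (h + 4 * κ) * TT B (B e) (f p) (f i) (f j) (f k) d = 0 := fun p i j k d =>
    Nfm_ext hf (Nfm_l4 (hT (f p)) (f i) (f j) (f k)) (fun l => Tz i j k l p) d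
  have t3 : ∀ p i j c d, N (f p) (f i) (f j) c d - κ * FF B (B e) (f p) (f i) (f j) c d
      - (h + 4 * κ) * TT B (B e) (f p) (f i) (f j) c d = 0 := fun p i j c d =>
    Nfm_ext hf (Nfm_l3 (hT (f p)) (f i) (f j) d) (fun k => t4 p i j k d) c
  have t2 : ∀ p i b c d, N (f p) (f i) b c d - κ * FF B (B e) (f p) (f i) b c d
      - (h + 4 * κ) * TT B (B e) (f p) (f i) b c d = 0 := fun p i b c d =>
    Nfm_ext hf (Nfm_l2 (hT (f p)) (f i) c d) (fun j => t3 p i j c d) b
  have t1 : ∀ p a b c d, N (f p) a b c d - κ * FF B (B e) (f p) a b c d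
      - (h + 4 * κ) * TT B (B e) (f p) a b c d = 0 := fun p a b c d =>
    Nfm_ext hf ((hT (f p)).lin b c d) (fun i => t2 p i b c d) a
  have t0 : ∀ z a b c d, N z a b c d - κ * FF B (B e) z a b c d
      - (h + 4 * κ) * TT B (B e) z a b c d = 0 := fun z a b c d =>
    Nfm_ext hf (Nfm_lsub κ (h + 4 * κ) (hN.lin a b c d) (Nfm_FFz hB hBe a b c d)
      (Nfm_TTz hBe a b c d)) (fun p => t1 p a b c d) z
  intro z a b c d
  linarith [t0 z a b c d]

end

end Pool.Agent.Lib.MP_9d59e9_gt.KO3
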