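import Pool.Agent.Lib.MP_9d59e9_gt.KO3.Spec

/-!
# MP_9d59e9_gt, project KO3: the hypothesis in the form `NSi`
-/

set_option autoImplicit false

namespace Pool.Agent.Lib.MP_9d59e9_gt.KO3

open scoped BigOperators ContDiff
open KO

private theorem NsC_sum {V : Type} [AddCommGroup V] [Module ℝ V] {f : V → ℝ} (hf : Lin1 f)
    {ι : Type} (s : Finset ι) (v : ι → V) : f (∑ i ∈ s, v i) = ∑ i ∈ s, f (v i) := by
  classical
  induction s using Finset.induction_on with
  | empty =>
    have h := hf.smul 0 0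
    simpa using h
  | insert a s ha ih => rw [Finset.sum_insert ha, Finset.sum_insert ha, hf.add, ih]

private theorem NsC_comm {n m : ℕ} (F : Fin n → Fin n → Fin m → Fin m → ℝ) :
    ∑ a, ∑ c, ∑ i, ∑ j, F a c i j = ∑ i, ∑ j, ∑ a, ∑ c, F a c i j := by
  have h1 : ∑ a, ∑ c, ∑ i, ∑ j, F a c i j = ∑ a, ∑ i, ∑ c, ∑ j, F a c i j :=
    Finset.sum_congr rfl fun a _ => Finset.sum_comm
  have h2 : ∑ a, ∑ i, ∑ c, ∑ j, F a c i j = ∑ a, ∑ i, ∑ j, ∑ c, F a c i j :=
    Finset.sum_congr rfl fun a _ => Finset.sum_congr rfl fun i _ => Finset.sum_comm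
  rw [h1, h2, Finset.sum_comm]
  exact Finset.sum_congr rfl fun i _ => Finset.sum_comm

private theorem NsC_Rv {n : ℕ} (g : Pt n → Matrix (Fin n) (Fin n) ℝ) (x u v : Pt n)
    (a b : Fin n) : Rv g x u v (bv b) a = ∑ m, ∑ p, curv g a b m p x * (u m * v p) := by
  unfold Rv
  rw [Finset.sum_eq_single b]
  · simp
  · intro b' _ hb
    simp [hb]
  · intro h
    exact absurd (Finset.mem_univ _) h

theorem tNsC : S_NsC := by
  intro n g Ω hg x hx hns m h w hon hsk hR
  obtain ⟨-, hop, -, -⟩ := KO.sSym n g Ω hg x hx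
  obtain ⟨-, hip, -⟩ := KO.sOnb n g x (hg.pos x hx)
  have h1 : ∀ a c : Fin n, (∑ i, ∑ j, w i j * (h i c * h j a))
      = -∑ i, ∑ j, w i j * (h i a * h j c) := by
    intro a c
    rw [Finset.sum_comm, ← Finset.sum_neg_distrib]
    refine Finset.sum_congr rfl fun i _ => ?_
    rw [← Finset.sum_neg_distrib]
    refine Finset.sum_congr rfl fun j _ => ?_
    rw [hsk i j]
    ring
  have h2 : ∀ b : Fin n, (∑ i, ∑ j, w i j • Rv g x (h i) (h j) (bv b)) = 0 := by
    intro b
    by_contra hne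
    have hp := hip.pos _ hne
    have hz : ∀ z, ip g x (∑ i, ∑ j, w i j • Rv g x (h i) (h j) (bv b)) z
        = ∑ i, ∑ j, w i j * e4 (R4 g) x (h i) (h j) (bv b) z := by
      intro z
      have hl := hip.lin z
      rw [NsC_sum hl]
      refine Finset.sum_congr rfl fun i _ => ?_
      rw [NsC_sum hl]
      refine Finset.sum_congr rfl fun j _ => ?_
      rw [hl.smul, hop]
    rw [hz, hR] at hp
    exact lt_irrefl _ hp
  have h3 : ∀ a b : Fin n, ∑ c, ∑ p, (∑ i, ∑ j, w i j * (h i c * h j p)) * curv g a b c p x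
      = 0 := by
    intro a b
    have h4 := congrFun (h2 b) a
    simp only [Finset.sum_apply, Pi.smul_apply, smul_eq_mul, NsC_Rv, Pi.zero_apply] at h4
    rw [← h4]
    simp only [Finset.sum_mul, Finset.mul_sum]
    rw [NsC_comm]
    refine Finset.sum_congr rfl fun i _ => Finset.sum_congr rfl fun j _ =>
      Finset.sum_congr rfl fun c _ => Finset.sum_congr rfl fun p _ => ?_
    ring
  have h5 := hns (fun c p => ∑ i, ∑ j, w i j * (h i c * h j p)) (fun a c => h1 a c) h3
  intro k l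
  have h6 : ∀ i k : Fin m, ∑ a, h i a * (∑ b, g x a b * h k b) = if i = k then 1 else 0 := by
    intro i k
    rw [← hon i k]
    unfold ip
    refine Finset.sum_congr rfl fun a _ => ?_
    rw [Finset.mul_sum]
    refine Finset.sum_congr rfl fun b _ => ?_
    ring
  have h7 : w k l = ∑ i, ∑ j, w i j * ((∑ a, h i a * (∑ b, g x a b * h k b))
      * ∑ c, h j c * (∑ b, g x c b * h l b)) := by
    simp only [h6]
    simp
  have h8 : (∑ i, ∑ j, w i j * ((∑ a, h i a * (∑ b, g x a b * h k b))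
      * ∑ c, h j c * (∑ b, g x c b * h l b)))
      = ∑ a, ∑ c, (∑ i, ∑ j, w i j * (h i a * h j c))
        * ((∑ b, g x a b * h k b) * (∑ b, g x c b * h l b)) := by
    have h9 : ∀ (a c : Fin n), (∑ i, ∑ j, w i j * (h i a * h j c))
        * ((∑ b, g x a b * h k b) * (∑ b, g x c b * h l b))
        = ∑ i, ∑ j, w i j * (h i a * h j c)
          * ((∑ b, g x a b * h k b) * (∑ b, g x c b * h l b)) := by
      intro a c
      rw [Finset.sum_mul]
      exact Finset.sum_congr rfl fun i _ => Finset.sum_mul _ _ _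
    simp only [h9]
    rw [NsC_comm]
    refine Finset.sum_congr rfl fun i _ => Finset.sum_congr rfl fun j _ => ?_
    rw [Finset.sum_mul_sum, Finset.mul_sum]
    refine Finset.sum_congr rfl fun a _ => ?_
    rw [Finset.mul_sum]
    refine Finset.sum_congr rfl fun c _ => ?_
    ring
  rw [h7, h8]
  simp only [h5]
  simp

end Pool.Agent.Lib.MP_9d59e9_gt.KO3
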