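import Pool.Agent.Lib.MP_9d59e9_gt.KO3.Spec

/-!
# MP_9d59e9_gt, project KO3: nonsingularity is open
-/

set_option autoImplicit false

namespace Pool.Agent.Lib.MP_9d59e9_gt.KO3

open scoped BigOperators ContDiff
open KO

/-- the linear map whose injectivity is `NonSing` -/
private noncomputable def NsO_L {n : ℕ} (g : Pt n → Matrix (Fin n) (Fin n) ℝ) (x : Pt n) :
    (Fin n → Fin n → ℝ) →ₗ[ℝ] (Fin n → Fin n → ℝ) × (Fin n → Fin n → ℝ) where
  toFun w := (fun a b => ∑ m, ∑ p, w m p * curv g a b m p x, fun m p => w m p + w p m)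
  map_add' u v := by
    ext a b
    · simp only [Pi.add_apply, Prod.fst_add, add_mul, Finset.sum_add_distrib]
    · simp only [Pi.add_apply, Prod.snd_add]
      ring
  map_smul' r u := by
    ext a b
    · simp only [Pi.smul_apply, smul_eq_mul, Prod.smul_fst, RingHom.id_apply, Finset.mul_sum,
        mul_assoc]
    · simp only [Pi.smul_apply, smul_eq_mul, Prod.smul_snd, RingHom.id_apply]
      ring

private theorem NsO_iff {n : ℕ} (g : Pt n → Matrix (Fin n) (Fin n) ℝ) (x : Pt n) :
    Function.Injective (LinearMap.toContinuousLinearMap (NsO_L g x)) ↔ NonSing g x := by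
  have h0 : Function.Injective (LinearMap.toContinuousLinearMap (NsO_L g x))
      ↔ ∀ w, NsO_L g x w = 0 → w = 0 := by
    rw [LinearMap.coe_toContinuousLinearMap']
    exact injective_iff_map_eq_zero (NsO_L g x)
  rw [h0]
  constructor
  · intro h w hw h1 m p
    have h2 : NsO_L g x w = 0 := by
      ext a b
      · exact h1 a b
      · change w a b + w b a = 0
        rw [hw a b]
        ring
    rw [h w h2]
    rfl
  · intro h w hw
    have h1 : ∀ a b, ∑ m, ∑ p, w m p * curv g a b m p x = 0 := fun a b =>
      congrFun (congrFun (congrArg Prod.fst hw) a) b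
    have h2 : ∀ m p, w m p + w p m = 0 := fun m p =>
      congrFun (congrFun (congrArg Prod.snd hw) m) p
    funext m p
    exact h w (fun m p => by linarith [h2 m p]) h1 m p

theorem tNsO : S_NsO := by
  intro n g Ω hg
  obtain ⟨-, -, hc, -⟩ := KO.sSmo n g Ω hg
  have h1 : ContinuousOn (fun x => LinearMap.toContinuousLinearMap (NsO_L g x)) Ω := by
    rw [continuousOn_clm_apply]
    intro w
    have h2 : (fun x => (LinearMap.toContinuousLinearMap (NsO_L g x)) w)
        = fun x => ((fun a b => ∑ m, ∑ p, w m p * curv g a b m p x,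
          fun m p => w m p + w p m) : (Fin n → Fin n → ℝ) × (Fin n → Fin n → ℝ)) := rfl
    rw [h2]
    refine ContinuousOn.prodMk ?_ continuousOn_const
    refine continuousOn_pi.2 fun a => continuousOn_pi.2 fun b => ?_
    refine continuousOn_finsetSum _ fun m _ => continuousOn_finsetSum _ fun p _ => ?_
    exact continuousOn_const.mul (hc a b m p).continuousOn
  have h3 := h1.isOpen_inter_preimage hg.isOpen
    (ContinuousLinearMap.isOpen_injective (𝕜 := ℝ) (E := Fin n → Fin n → ℝ)
      (F := (Fin n → Fin n → ℝ) × (Fin n → Fin n → ℝ)))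
  have h4 : {x | x ∈ Ω ∧ NonSing g x} = Ω ∩ (fun x =>
      LinearMap.toContinuousLinearMap (NsO_L g x)) ⁻¹' {L | Function.Injective L} := by
    ext x
    simp only [Set.mem_ofPred_eq, Set.mem_inter_iff, Set.mem_preimage, NsO_iff]
  rw [h4]
  exact h3

end Pool.Agent.Lib.MP_9d59e9_gt.KO3
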