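import Pool.Agent.Lib.MP_9d59e9_gt.KO3.Spec

/-!
# MP_9d59e9_gt, project KO3: `S_Om`, the smooth 1-form `ψ = κ θ`
-/

set_option autoImplicit false

namespace Pool.Agent.Lib.MP_9d59e9_gt.KO3

open scoped BigOperators ContDiff
open Set KO

private theorem om_ip {n : ℕ} (g : Pt n → Matrix (Fin n) (Fin n) ℝ) (x : Pt n) (i j : Fin n) :
    ip g x (bv i) (bv j) = g x i j := by
  unfold ip
  rw [Finset.sum_eq_single i]
  · rw [Finset.sum_eq_single j]
    · simp
    · intro b _ hb
      simp [Pi.single_eq_of_ne hb]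
    · intro h
      exact absurd (Finset.mem_univ _) h
  · intro b _ hb
    refine Finset.sum_eq_zero fun c _ => ?_
    simp [Pi.single_eq_of_ne hb]
  · intro h
    exact absurd (Finset.mem_univ _) h

private theorem om_neg {n : ℕ} (g : Pt n → Matrix (Fin n) (Fin n) ℝ) (x : Pt n)
    (hx : (g x).PosDef) {i j : Fin n} (hij : j ≠ i) :
    g x i j * g x j i - g x i i * g x j j < 0 := by
  have hI : IP (ip g x) := (sOnb n g x hx).2.1
  have hne : ∀ r : ℝ, (bv i : Pt n) + r • bv j ≠ 0 := by
    intro r h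
    have h1 := congrFun h i
    simp [Pi.single_eq_of_ne hij.symm] at h1
  have hj0 : (bv j : Pt n) ≠ 0 := by
    intro h
    have h1 := congrFun h j
    simp at h1
  have hjj : 0 < g x j j := by
    rw [← om_ip g x j j]
    exact hI.pos _ hj0
  have hl : ∀ (u v w : Pt n) (r : ℝ), ip g x (u + r • v) w = ip g x u w + r * ip g x v w := by
    intro u v w r
    have h1 : ip g x (u + r • v) w = ip g x u w + ip g x (r • v) w := (hI.lin w).add u (r • v)
    have h2 : ip g x (r • v) w = r * ip g x v w := (hI.lin w).smul r v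
    rw [h1, h2]
  have hp := hI.pos _ (hne (-(g x i j / g x j j)))
  rw [hl, hI.symm (bv i) _, hI.symm (bv j) _, hl, hl, om_ip, om_ip, om_ip, om_ip] at hp
  have hs : g x j i = g x i j := by
    rw [← om_ip g x j i, ← om_ip g x i j, hI.symm]
  rw [hs] at hp ⊢
  have h3 : g x i i + -(g x i j / g x j j) * g x i j
      + -(g x i j / g x j j) * (g x i j + -(g x i j / g x j j) * g x j j)
      = (g x i i * g x j j - g x i j * g x i j) / g x j j := by
    field_simp
    ring
  rw [h3, div_pos_iff_of_pos_right hjj] at hp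
  linarith

private theorem om_e5 {n : ℕ} (T : TF n 5) (x : Pt n) (i j : Fin n) :
    e5 T x (bv i) (bv i) (bv j) (bv i) (bv j) = T ![i, i, j, i, j] x := by
  rw [← (sLin n x).2.1 5 T ![i, i, j, i, j]]
  unfold e5
  congr 1
  funext k
  fin_cases k <;> rfl

private theorem om_e1 {n : ℕ} (T : TF n 1) (x : Pt n) (I : Fin 1 → Fin n) :
    e1 T x (bv (I 0)) = T I x := by
  rw [← (sLin n x).2.1 1 T I]
  unfold e1
  congr 1
  funext k
  fin_cases k
  rfl

private theorem om_FF {V : Type} [AddCommGroup V] [Module ℝ V] (B : V → V → ℝ) (φ : V → ℝ)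
    (z p : V) : FF B φ z z p z p = 4 * φ z * (B z p * B p z - B z z * B p p) := by
  unfold FF G0
  ring

theorem tOm : S_Om := by
  intro n g U θ hn hg hN
  have hex : ∀ i : Fin n, ∃ j : Fin n, j ≠ i := by
    intro i
    have : Nontrivial (Fin n) := Fin.nontrivial_iff_two_le.2 (by omega)
    exact exists_ne i
  choose o ho using hex
  let ψ : TF n 1 := fun I x => N g ![I 0, I 0, o (I 0), I 0, o (I 0)] x
    / (4 * (g x (I 0) (o (I 0)) * g x (o (I 0)) (I 0) - g x (I 0) (I 0) * g x (o (I 0)) (o (I 0))))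
  refine ⟨ψ, ?_, ?_⟩
  · intro I
    have hS : Sm U (N g) := (sSmo n g U hg).2.2.2.2.2.2.1
    refine (hS _).div ?_ ?_
    · exact contDiffOn_const.mul (((hg.smooth _ _).mul (hg.smooth _ _)).sub
        ((hg.smooth _ _).mul (hg.smooth _ _)))
    · intro x hx h
      have h1 := om_neg g x (hg.pos x hx) (ho (I 0))
      have h2 : g x (I 0) (o (I 0)) * g x (o (I 0)) (I 0)
          - g x (I 0) (I 0) * g x (o (I 0)) (o (I 0)) = 0 := by linarith
      linarith
  · intro x hx
    obtain ⟨κ, hκ⟩ := hN x hx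
    have hψ : ∀ I, ψ I x = κ * θ I x := by
      intro I
      have h1 := hκ (bv (I 0)) (bv (I 0)) (bv (o (I 0))) (bv (I 0)) (bv (o (I 0)))
      rw [om_e5, om_FF, om_ip, om_ip, om_ip, om_ip, om_e1] at h1
      have h2 := om_neg g x (hg.pos x hx) (ho (I 0))
      show N g ![I 0, I 0, o (I 0), I 0, o (I 0)] x / (4 * (g x (I 0) (o (I 0)) * g x (o (I 0)) (I 0)
        - g x (I 0) (I 0) * g x (o (I 0)) (o (I 0)))) = κ * θ I x
      rw [div_eq_iff (by
        intro h
        linarith), h1]
      ring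
    have he : ∀ v, e1 ψ x v = κ * e1 θ x v := by
      intro v
      unfold e1 ev
      rw [Finset.mul_sum]
      refine Finset.sum_congr rfl fun I _ => ?_
      rw [hψ]
      ring
    refine ⟨⟨κ, he⟩, fun z a b c d => ?_⟩
    rw [hκ]
    unfold FF
    rw [he, he, he, he, he]
    ring

end Pool.Agent.Lib.MP_9d59e9_gt.KO3
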