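import Pool.Agent.Lib.MP_9d59e9_gt.KO3.Spec

/-!
# MP_9d59e9_gt, project KO3: `S_OrC`, orthogonal curves
-/

set_option autoImplicit false

namespace Pool.Agent.Lib.MP_9d59e9_gt.KO3

open scoped BigOperators ContDiff
open Set KO

section
variable {V : Type} [AddCommGroup V] [Module ℝ V] {B : V → V → ℝ}

private theorem orc_lin (hB : IP B) (u v w : V) (r : ℝ) :
    B (u + r • v) w = B u w + r * B v w := by
  have h1 : B (u + r • v) w = B u w + B (r • v) w := (hB.lin w).add u (r • v)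
  have h2 : B (r • v) w = r * B v w := (hB.lin w).smul r v
  rw [h1, h2]

end

private theorem orc_step (hCvP : S_CvP) {n : ℕ} {g : Pt n → Matrix (Fin n) (Fin n) ℝ}
    {Ω : Set (Pt n)} (hg : IsMetricOn g Ω) {p : Pt n} (hp : p ∈ Ω) (X : Pt n) {u v : ℝ → Pt n}
    {u₀ v₀ : Pt n} (hu : Cv g p X u u₀ 0) (hv : Cv g p X v v₀ 0) (hv0 : v₀ ≠ 0)
    (ho : ip g p u₀ v₀ = 0) :
    Cv g p X (fun t => (-(ip g (p + t • X) (u t) (v t) / ip g (p + t • X) (v t) (v t))) • v t)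
      0 0 := by
  obtain ⟨-, -, -, -, -, hip, -, -⟩ := hCvP n g Ω hg p hp X
  have hI : IP (ip g p) := (sOnb n g p (hg.pos p hp)).2.1
  have h0 : ip g (p + (0 : ℝ) • X) (v 0) (v 0) = ip g p v₀ v₀ := by
    rw [zero_smul, add_zero, hv.1]
  have h0' : ip g (p + (0 : ℝ) • X) (u 0) (v 0) = 0 := by
    rw [zero_smul, add_zero, hv.1, hu.1, ho]
  have hne : ip g (p + (0 : ℝ) • X) (v 0) (v 0) ≠ 0 := by
    rw [h0]
    exact (hI.pos v₀ hv0).ne'
  have hd : HasDerivAt (fun t : ℝ => -(ip g (p + t • X) (u t) (v t)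
      / ip g (p + t • X) (v t) (v t))) 0 0 := by
    have h := ((hip u u₀ v v₀ hu hv).div (hip v v₀ v v₀ hv hv) hne).neg
    have h2 : -((0 * ip g (p + (0 : ℝ) • X) (v 0) (v 0) - ip g (p + (0 : ℝ) • X) (u 0) (v 0) * 0)
        / ip g (p + (0 : ℝ) • X) (v 0) (v 0) ^ 2) = 0 := by ring
    rw [h2] at h
    exact h
  have hf0 : -(ip g (p + (0 : ℝ) • X) (u 0) (v 0) / ip g (p + (0 : ℝ) • X) (v 0) (v 0)) = 0 := by
    rw [h0', zero_div, neg_zero]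
  have h : Cv g p X
      (fun t => (-(ip g (p + t • X) (u t) (v t) / ip g (p + t • X) (v t) (v t))) • v t)
      ((-(ip g (p + (0 : ℝ) • X) (u 0) (v 0) / ip g (p + (0 : ℝ) • X) (v 0) (v 0))) • v₀)
      ((0 : ℝ) • v₀ + (-(ip g (p + (0 : ℝ) • X) (u 0) (v 0)
        / ip g (p + (0 : ℝ) • X) (v 0) (v 0))) • (0 : Pt n)) :=
    (sCvb n g p X).2.2.2 _ 0 v v₀ 0 hd hv
  rw [hf0, zero_smul, smul_zero, add_zero] at h
  exact h

private theorem orc_ne {n : ℕ} {g : Pt n → Matrix (Fin n) (Fin n) ℝ} {p X : Pt n} {v : ℝ → Pt n}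
    {v₀ : Pt n} (hv : Cv g p X v v₀ 0) (h0 : v₀ ≠ 0) : ∀ᶠ t : ℝ in nhds (0 : ℝ), v t ≠ 0 :=
  hv.2.continuousAt.eventually_ne (by rw [hv.1]; exact h0)

theorem tOrC (hCvP : S_CvP) : S_OrC := by
  intro n g Ω hg p hp X a b c horth ha hb hc
  obtain ⟨-, -, -, -, -, hip, -, hex⟩ := hCvP n g Ω hg p hp X
  have hI : IP (ip g p) := (sOnb n g p (hg.pos p hp)).2.1
  obtain ⟨α, hα⟩ := hex a
  obtain ⟨β₁, hβ₁⟩ := hex b
  obtain ⟨γ₁, hγ₁⟩ := hex c
  have hadd := (sCvb n g p X).2.2.1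
  obtain ⟨hab, hac, hbc⟩ := horth
  have s1 := orc_step hCvP hg hp X hβ₁ hα ha (by rw [hI.symm]; exact hab)
  have hβ := hadd _ _ _ _ _ _ hβ₁ s1
  rw [add_zero, add_zero] at hβ
  have s2 := orc_step hCvP hg hp X hγ₁ hα ha (by rw [hI.symm]; exact hac)
  have s3 := orc_step hCvP hg hp X hγ₁ hβ hb (by rw [hI.symm]; exact hbc)
  have hγ := hadd _ _ _ _ _ _ (hadd _ _ _ _ _ _ hγ₁ s2) s3
  rw [add_zero, add_zero, add_zero, add_zero] at hγ
  refine ⟨α, _, _, hα, hβ, hγ, ?_⟩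
  have hcx : Filter.Tendsto (fun t : ℝ => p + t • X) (nhds 0) (nhds (p + (0 : ℝ) • X)) := by
    have : Continuous fun t : ℝ => p + t • X := by fun_prop
    exact this.tendsto 0
  rw [zero_smul, add_zero] at hcx
  have hU : ∀ᶠ t : ℝ in nhds (0 : ℝ), p + t • X ∈ Ω := hcx.eventually (hg.isOpen.mem_nhds hp)
  have e1 := orc_ne hα ha
  have e2 := orc_ne hβ hb
  have e3 := orc_ne hγ hc
  filter_upwards [hU, e1, e2, e3] with t htU ht1 ht2 ht3
  refine ⟨?_, ht1, ht2, ht3⟩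
  have hJ : IP (ip g (p + t • X)) := (sOnb n g _ (hg.pos _ htU)).2.1
  have hA : ip g (p + t • X) (α t) (α t) ≠ 0 := (hJ.pos _ ht1).ne'
  have hB := (hJ.pos _ ht2).ne'
  have q1 : ip g (p + t • X) (β₁ t + (-(ip g (p + t • X) (β₁ t) (α t)
      / ip g (p + t • X) (α t) (α t))) • α t) (α t) = 0 := by
    rw [orc_lin hJ]
    field_simp
    ring
  refine ⟨?_, ?_, ?_⟩
  · rw [hJ.symm]
    exact q1
  · rw [hJ.symm, orc_lin hJ, orc_lin hJ, q1]
    field_simp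
    ring
  · rw [hJ.symm, orc_lin hJ, orc_lin hJ]
    rw [hJ.symm (α t) (β₁ t + _), q1]
    field_simp
    ring

end Pool.Agent.Lib.MP_9d59e9_gt.KO3
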