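import Pool.Agent.Lib.MP_9d59e9_gt.KO3.Spec

/-! KO3, module `Pnt`: the normal form of `N` at a point. -/

set_option autoImplicit false

namespace Pool.Agent.Lib.MP_9d59e9_gt.KO3

open scoped BigOperators ContDiff
open Set KO

noncomputable section

section
variable {V : Type} [AddCommGroup V] [Module ℝ V]

private theorem Pnt_zero {f : V → ℝ} (hf : Lin1 f) : f 0 = 0 := by
  have h := hf.smul 0 0
  simpa using h

private theorem Pnt_sum {ι : Type} (s : Finset ι) {f : V → ℝ} (hf : Lin1 f) (g : ι → V) :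
    f (∑ i ∈ s, g i) = ∑ i ∈ s, f (g i) := by
  classical
  induction s using Finset.induction_on with
  | empty => simpa using Pnt_zero hf
  | insert a s ha ih => rw [Finset.sum_insert ha, Finset.sum_insert ha, hf.add, ih]

private theorem Pnt_sum2 {k : ℕ} {f : V → ℝ} (hf : Lin1 f) (w : Fin k → Fin k → ℝ)
    (g : Fin k → Fin k → V) :
    f (∑ i, ∑ j, w i j • g i j) = ∑ i, ∑ j, w i j * f (g i j) := by
  rw [Pnt_sum _ hf]
  refine Finset.sum_congr rfl fun i _ => ?_
  rw [Pnt_sum _ hf]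
  exact Finset.sum_congr rfl fun j _ => hf.smul _ _

private theorem Pnt_c2 {R : V → V → V → V → ℝ} (h : Crvt R) (a c d : V) :
    Lin1 fun b => R a b c d := by
  refine ⟨fun x y => ?_, fun r x => ?_⟩
  · have h1 := h.a12 (x + y) a c d
    have h2 := h.a12 x a c d
    have h3 := h.a12 y a c d
    have h4 := (h.lin a c d).add x y
    linarith
  · have h1 := h.a12 (r • x) a c d
    have h2 := h.a12 x a c d
    have h4 := (h.lin a c d).smul r x
    rw [h1, h2, h4]
    ring

private theorem Pnt_c3 {R : V → V → V → V → ℝ} (h : Crvt R) (a b d : V) :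
    Lin1 fun c => R a b c d := by
  refine ⟨fun x y => ?_, fun r x => ?_⟩
  · have h4 := (h.lin d a b).add x y
    rw [h.sw (x + y) d a b, h.sw x d a b, h.sw y d a b]
    exact h4
  · have h4 := (h.lin d a b).smul r x
    rw [h.sw (r • x) d a b, h.sw x d a b]
    exact h4

private theorem Pnt_c4 {R : V → V → V → V → ℝ} (h : Crvt R) (a b c : V) :
    Lin1 fun d => R a b c d := by
  have h3 := Pnt_c3 h a b c
  refine ⟨fun x y => ?_, fun r x => ?_⟩
  · have h4 := h3.add x y
    rw [h.a34 a b (x + y) c, h.a34 a b x c, h.a34 a b y c, h4]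
    ring
  · have h4 := h3.smul r x
    rw [h.a34 a b (r • x) c, h.a34 a b x c, h4]
    ring

private theorem Pnt_act {N : V → V → V → V → V → ℝ} (hN : Dcrv N) {k : ℕ} (w : Fin k → Fin k → ℝ)
    (Ψ : Fin k → Fin k → V → V) (Φ : V → V) (hΦ : ∀ a, Φ a = ∑ i, ∑ j, w i j • Ψ i j a)
    (z c d p q : V) :
    act5 Φ N z c d p q = ∑ i, ∑ j, w i j * act5 (Ψ i j) N z c d p q := by
  have e1 : N (Φ z) c d p q = ∑ i, ∑ j, w i j * N (Ψ i j z) c d p q := by
    rw [hΦ z]
    exact Pnt_sum2 (f := fun a => N a c d p q) (hN.lin c d p q) w fun i j => Ψ i j z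
  have e2 : N z (Φ c) d p q = ∑ i, ∑ j, w i j * N z (Ψ i j c) d p q := by
    rw [hΦ c]
    exact Pnt_sum2 (f := fun a => N z a d p q) ((hN.cur z).lin d p q) w fun i j => Ψ i j c
  have e3 : N z c (Φ d) p q = ∑ i, ∑ j, w i j * N z c (Ψ i j d) p q := by
    rw [hΦ d]
    exact Pnt_sum2 (f := fun a => N z c a p q) (Pnt_c2 (hN.cur z) c p q) w fun i j => Ψ i j d
  have e4 : N z c d (Φ p) q = ∑ i, ∑ j, w i j * N z c d (Ψ i j p) q := by
    rw [hΦ p]
    exact Pnt_sum2 (f := fun a => N z c d a q) (Pnt_c3 (hN.cur z) c d q) w fun i j => Ψ i j p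
  have e5 : N z c d p (Φ q) = ∑ i, ∑ j, w i j * N z c d p (Ψ i j q) := by
    rw [hΦ q]
    exact Pnt_sum2 (f := fun a => N z c d p a) (Pnt_c4 (hN.cur z) c d p) w fun i j => Ψ i j q
  unfold act5
  rw [e1, e2, e3, e4, e5]
  simp only [← Finset.sum_add_distrib, ← Finset.sum_neg_distrib]
  refine Finset.sum_congr rfl fun i _ => Finset.sum_congr rfl fun j _ => ?_
  ring

end

theorem tPnt (hTwo : S_Two) (hEqv : S_Eqv) (hGenD : S_GenD) (hNfm : S_Nfm) : S_Pnt := by
  intro V _ _ B m R Ro hA N hN hne e σ he hW hσ hact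
  have hip := hA.eu.ip
  have hBe : Lin1 (B e) := by
    refine ⟨fun a b => ?_, fun r a => ?_⟩
    · rw [hip.symm e (a + b), hip.symm e a, hip.symm e b]
      exact (hip.lin e).add a b
    · rw [hip.symm e (r • a), hip.symm e a]
      exact (hip.lin e).smul r a
  -- step 1
  have h1 : ∀ x y, σ x = 0 → σ y = 0 → ∀ a, R x y e a = 0 := by
    intro x y hx hy a
    have hθ : ∀ a, B e (Ro x y a) = R x y a e := fun a => by
      rw [hip.symm e (Ro x y a)]
      exact hA.op x y a e
    have hl : Lin1 fun a => B e (Ro x y a) := by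
      refine ⟨fun a b => ?_, fun r a => ?_⟩
      · rw [hθ, hθ, hθ]
        exact (Pnt_c3 hA.cR x y e).add a b
      · rw [hθ, hθ]
        exact (Pnt_c3 hA.cR x y e).smul r a
    have hW2 := hEqv V N (B e) (Ro x y) hW (hact x y hx hy)
    have hno : ¬ ∃ a b, B e a * B e (Ro x y b) ≠ B e b * B e (Ro x y a) := by
      intro hex
      obtain ⟨z, a, b, c, d, hz⟩ := hne
      exact hz (hTwo V N hN (B e) (fun a => B e (Ro x y a)) hBe hl hW hW2 hex z a b c d)
    push Not at hno
    have h2 := hno a e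
    have h3 : B e (Ro x y e) = 0 := by
      rw [hθ]
      have := hA.cR.a34 x y e e
      linarith
    rw [h3, he] at h2
    have h4 : R x y a e = 0 := by
      rw [← hθ]
      linarith
    have h5 := hA.cR.a34 x y a e
    rw [h5, h4]
    ring
  -- step 2
  have h2 : ∃ ν, B ν ν = 1 ∧ ∀ x, B ν x = 0 → σ x = 0 := by
    obtain ⟨s, hs⟩ := hip.riesz σ hσ
    by_cases hs0 : s = 0
    · refine ⟨e, he, fun x _ => ?_⟩
      rw [← hs x, hs0]
      exact Pnt_zero (hip.lin x)
    · have hp := hip.pos s hs0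
      have hq : 0 < Real.sqrt (B s s) := Real.sqrt_pos.mpr hp
      have hlin : ∀ x, B ((Real.sqrt (B s s))⁻¹ • s) x = (Real.sqrt (B s s))⁻¹ * B s x :=
        fun x => (hip.lin x).smul _ s
      refine ⟨(Real.sqrt (B s s))⁻¹ • s, ?_, fun x hx => ?_⟩
      · rw [hlin, hip.symm s ((Real.sqrt (B s s))⁻¹ • s), hlin]
        have h := Real.mul_self_sqrt hp.le
        have h' : (Real.sqrt (B s s))⁻¹ * ((Real.sqrt (B s s))⁻¹ * (Real.sqrt (B s s) * Real.sqrt (B s s))) = 1 := by
          field_simp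
        rw [h] at h'
        exact h'
      · rw [hlin] at hx
        rw [← hs x]
        rcases mul_eq_zero.mp hx with h | h
        · exact absurd h (inv_pos.mpr hq).ne'
        · exact h
  obtain ⟨ν, hν, hνσ⟩ := h2
  -- step 3
  have h3 : ∀ u v, B e u = 0 → B e v = 0 → ∀ z c d p q, act5 (wd B u v) N z c d p q = 0 := by
    intro u v hu hv z c d p q
    obtain ⟨k, h, w, hh, hw⟩ := hGenD V B m R Ro hA ν e hν he
      (fun x y hx hy a => h1 x y (hνσ x hx) (hνσ y hy) a) u v hu hv
    rw [Pnt_act hN w (fun i j => Ro (h i) (h j)) (wd B u v) hw]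
    refine Finset.sum_eq_zero fun i _ => Finset.sum_eq_zero fun j _ => ?_
    rw [hact (h i) (h j) (hνσ _ (hh i)) (hνσ _ (hh j))]
    ring
  exact hNfm V B m hA.eu hA.two N hN e he hW h3

end

end Pool.Agent.Lib.MP_9d59e9_gt.KO3
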