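import Pool.Agent.Lib.MP_9d59e9_gt.KO3.Spec

/-!
# MP_9d59e9_gt, project KO3: a (3,2) tensor is determined by the values `N(u;u,v,u,v)`
-/

set_option autoImplicit false

namespace Pool.Agent.Lib.MP_9d59e9_gt.KO3

open KO

section Pol
variable {V : Type} [AddCommGroup V] [Module ℝ V] {N : V → V → V → V → V → ℝ}

private theorem Pol_add2 (hN : Dcrv N) (a b b' c d e : V) :
    N a (b + b') c d e = N a b c d e + N a b' c d e :=
  ((hN.cur a).lin c d e).add b b'

private theorem Pol_add3 (hN : Dcrv N) (a b c c' d e : V) :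
    N a b (c + c') d e = N a b c d e + N a b c' d e := by
  have h1 := (hN.cur a).a12 b (c + c') d e
  have h2 := (hN.cur a).a12 b c d e
  have h3 := (hN.cur a).a12 b c' d e
  have h4 := Pol_add2 hN a c c' b d e
  linarith

private theorem Pol_add4 (hN : Dcrv N) (a b c d d' e : V) :
    N a b c (d + d') e = N a b c d e + N a b c d' e := by
  have h1 := (hN.cur a).sw (d + d') e b c
  have h2 := (hN.cur a).sw d e b c
  have h3 := (hN.cur a).sw d' e b c
  have h4 := Pol_add2 hN a d d' e b c
  linarith

private theorem Pol_add5 (hN : Dcrv N) (a b c d e e' : V) :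
    N a b c d (e + e') = N a b c d e + N a b c d e' := by
  have h1 := (hN.cur a).sw d (e + e') b c
  have h2 := (hN.cur a).sw d e b c
  have h3 := (hN.cur a).sw d e' b c
  have h4 := Pol_add3 hN a d e e' b c
  linarith

private theorem Pol_add1 (hN : Dcrv N) (a a' b c d e : V) :
    N (a + a') b c d e = N a b c d e + N a' b c d e :=
  (hN.lin b c d e).add a a'

/-- step (1) -/
private theorem Pol_one (hN : Dcrv N) (h : ∀ u v, N u u v u v = 0) (u v w : V) :
    N u u v u w = 0 := by
  have h0 := h u (v + w)
  rw [Pol_add3 hN, Pol_add5 hN, Pol_add5 hN, h u v, h u w] at h0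
  have h1 := (hN.cur u).sw u v u w
  linarith

/-- step (2) -/
private theorem Pol_two (hN : Dcrv N) (h : ∀ u v w, N u u v u w = 0) (u x v w : V) :
    N x u v u w + N u x v u w + N u u v x w = 0 := by
  have h1 := h (u + x) v w
  have h2 := h (u + x + x) v w
  simp only [Pol_add1 hN, Pol_add2 hN, Pol_add4 hN, h u v w, h x v w] at h1 h2
  linarith

/-- step (3) -/
private theorem Pol_three (hN : Dcrv N) (h : ∀ u v w, N u u v u w = 0) (u x v w : V) :
    N x u v u w = 0 := by
  have key : ∀ x v w : V, 3 * N x u v u w = N v u x u w + N w u x u v := by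
    intro x v w
    have h1 := Pol_two hN h u x v w
    have h2 := hN.bi2 u x v u w
    have h3 := (hN.cur x).a12 u v u w
    have h4 := (hN.cur u).sw u v x w
    have h5 := hN.bi2 u x w u v
    have h6 := (hN.cur x).a12 u w u v
    have h7 := (hN.cur x).sw u v u w
    linarith
  have k1 := key x v w
  have k2 := key v x w
  have k3 := key w x v
  have s1 := (hN.cur x).sw u v u w
  have s2 := (hN.cur v).sw u x u w
  have s3 := (hN.cur w).sw u x u v
  linarith

/-- step (4) -/
private theorem Pol_four (hN : Dcrv N) (h : ∀ u x v w, N x u v u w = 0) (x u u' v w : V) :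
    N x u' v u w = -N x u v u' w := by
  have h1 := h (u + u') x v w
  simp only [Pol_add2 hN, Pol_add4 hN, h u x v w, h u' x v w] at h1
  linarith

end Pol

theorem tPol : S_Pol := by
  intro V _ _ N hN h x a b c d
  have h1 := Pol_one hN h
  have h4 := Pol_four hN (fun u x v w => Pol_three hN h1 u x v w)
  have e1 := h4 x a b c d
  have e2 := h4 x b c a d
  have e3 := h4 x c b a d
  have f1 := (hN.cur x).bi a b c d
  have g1 := (hN.cur x).a12 a c b d
  have g2 := (hN.cur x).a12 b a c d
  have e4 := h4 x a c b d
  linarith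

end Pool.Agent.Lib.MP_9d59e9_gt.KO3
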