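import Pool.Agent.Lib.MP_9d59e9_gt.KO3.Spec

/-!
# MP_9d59e9_gt, project KO3: `Prp`, a unit vector orthogonal to two given vectors
-/

set_option autoImplicit false

namespace Pool.Agent.Lib.MP_9d59e9_gt.KO3

open scoped BigOperators ContDiff
open Set KO

section PrpSection

variable {V : Type} [AddCommGroup V] [Module ℝ V] {B : V → V → ℝ}

private theorem Prp_sl (h : IP B) (r : ℝ) (a b : V) : B (r • a) b = r * B a b :=
  (h.lin b).smul r a

private theorem Prp_sr (h : IP B) (r : ℝ) (a b : V) : B a (r • b) = r * B a b := by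
  rw [h.symm a (r • b), Prp_sl h, h.symm b a]

private theorem Prp_addr (h : IP B) (a b c : V) : B a (b + c) = B a b + B a c := by
  rw [h.symm a (b + c), (h.lin a).add b c, h.symm b a, h.symm c a]

private theorem Prp_addl (h : IP B) (a b c : V) : B (b + c) a = B b a + B c a :=
  (h.lin a).add b c

private theorem Prp_nrm (h : IP B) (a b c : V) (hc : 0 < B c c) (h1 : B a c = 0)
    (h2 : B b c = 0) : ∃ d, B d d = 1 ∧ B a d = 0 ∧ B b d = 0 := by
  have h0 : Real.sqrt (B c c) ≠ 0 := (Real.sqrt_pos.mpr hc).ne'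
  have hs : Real.sqrt (B c c) * Real.sqrt (B c c) = B c c := Real.mul_self_sqrt hc.le
  refine ⟨(Real.sqrt (B c c))⁻¹ • c, ?_, ?_, ?_⟩
  · rw [Prp_sl h, Prp_sr h]
    calc (Real.sqrt (B c c))⁻¹ * ((Real.sqrt (B c c))⁻¹ * B c c)
        = (Real.sqrt (B c c))⁻¹ * ((Real.sqrt (B c c))⁻¹ *
          (Real.sqrt (B c c) * Real.sqrt (B c c))) := by rw [hs]
      _ = 1 := by field_simp
  · rw [Prp_sr h, h1, mul_zero]
  · rw [Prp_sr h, h2, mul_zero]

private theorem Prp_ne {m : ℕ} (h : Eu B m) (hm : 2 ≤ m) (a b : V) (ha : a ≠ 0) :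
    ∃ c, B c c = 1 ∧ B a c = 0 ∧ B b c = 0 := by
  obtain ⟨k, rfl⟩ : ∃ k, m = k + 2 := ⟨m - 2, by omega⟩
  have hp := h.ip.pos a ha
  have hs0 : Real.sqrt (B a a) ≠ 0 := (Real.sqrt_pos.mpr hp).ne'
  have hss : Real.sqrt (B a a) * Real.sqrt (B a a) = B a a := Real.mul_self_sqrt hp.le
  obtain ⟨f, hf, hf0⟩ := h.fr ((Real.sqrt (B a a))⁻¹ • a) (by
    rw [Prp_sl h.ip, Prp_sr h.ip]
    calc (Real.sqrt (B a a))⁻¹ * ((Real.sqrt (B a a))⁻¹ * B a a)
        = (Real.sqrt (B a a))⁻¹ * ((Real.sqrt (B a a))⁻¹ *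
          (Real.sqrt (B a a) * Real.sqrt (B a a))) := by rw [hss]
      _ = 1 := by field_simp)
  obtain ⟨i, hi⟩ : ∃ i : Fin (k + 2 + 1), i = ⟨1, by omega⟩ := ⟨_, rfl⟩
  obtain ⟨j, hj⟩ : ∃ j : Fin (k + 2 + 1), j = ⟨2, by omega⟩ := ⟨_, rfl⟩
  have h0i : (0 : Fin (k + 2 + 1)) ≠ i := by
    rw [hi]; intro e; exact absurd (congrArg Fin.val e) (by simp)
  have h0j : (0 : Fin (k + 2 + 1)) ≠ j := by
    rw [hj]; intro e; exact absurd (congrArg Fin.val e) (by simp)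
  have hij : i ≠ j := by
    rw [hi, hj]; intro e; exact absurd (congrArg Fin.val e) (by simp)
  have a_eq : a = Real.sqrt (B a a) • f 0 := by
    rw [hf0, smul_smul, mul_inv_cancel₀ hs0, one_smul]
  have key : ∀ l, (0 : Fin (k + 2 + 1)) ≠ l → B a (f l) = 0 := by
    intro l hl
    have := Prp_sl h.ip (Real.sqrt (B a a)) (f 0) (f l)
    rw [← a_eq, hf.on, if_neg hl, mul_zero] at this
    exact this
  by_cases hb : B b (f i) = 0
  · exact ⟨f i, by rw [hf.on, if_pos rfl], key i h0i, hb⟩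
  · refine Prp_nrm h.ip a b (B b (f j) • f i + (-B b (f i)) • f j) ?_ ?_ ?_
    · have hb2 : 0 < B b (f i) ^ 2 := by positivity
      have e : B (B b (f j) • f i + (-B b (f i)) • f j) (B b (f j) • f i + (-B b (f i)) • f j)
          = B b (f j) ^ 2 + B b (f i) ^ 2 := by
        rw [Prp_addr h.ip, Prp_addl h.ip, Prp_addl h.ip, Prp_sl h.ip, Prp_sl h.ip, Prp_sr h.ip,
          Prp_sr h.ip, Prp_sl h.ip, Prp_sr h.ip, Prp_sl h.ip, Prp_sr h.ip, hf.on, hf.on, hf.on,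
          hf.on, if_pos rfl, if_pos rfl, if_neg hij, if_neg hij.symm]
        ring
      rw [e]
      nlinarith [sq_nonneg (B b (f j))]
    · rw [Prp_addr h.ip, Prp_sr h.ip, Prp_sr h.ip, key i h0i, key j h0j]; ring
    · rw [Prp_addr h.ip, Prp_sr h.ip, Prp_sr h.ip]; ring

end PrpSection

theorem tPrp : S_Prp := by
  intro V _ _ B m h hm a b
  by_cases ha : a = 0
  · by_cases hb : b = 0
    · obtain ⟨e, he⟩ := h.ex
      have z : ∀ c, B 0 c = 0 := by
        intro c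
        have := Prp_sl h.ip 0 0 c
        simpa using this
      exact ⟨e, he, by rw [ha, z], by rw [hb, z]⟩
    · obtain ⟨c, h1, h2, h3⟩ := Prp_ne h hm b a hb
      exact ⟨c, h1, h3, h2⟩
  · exact Prp_ne h hm a b ha

end Pool.Agent.Lib.MP_9d59e9_gt.KO3
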