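import Pool.Agent.Lib.MP_9d59e9_gt.KO3.Spec

/-!
# MP_9d59e9_gt, project KO3: Rc4 (Ricci identity for the curvature tensor)
-/

set_option autoImplicit false

namespace Pool.Agent.Lib.MP_9d59e9_gt.KO3

open scoped BigOperators ContDiff
open Set
open KO

noncomputable section

private theorem Rc4_upd0 {n : ℕ} (c d e f w : Pt n) :
    Function.update (![c, d, e, f] : Fin 4 → Pt n) 0 w = ![w, d, e, f] := by
  funext i; fin_cases i <;> rfl

private theorem Rc4_upd1 {n : ℕ} (c d e f w : Pt n) :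
    Function.update (![c, d, e, f] : Fin 4 → Pt n) 1 w = ![c, w, e, f] := by
  funext i; fin_cases i <;> rfl

private theorem Rc4_upd2 {n : ℕ} (c d e f w : Pt n) :
    Function.update (![c, d, e, f] : Fin 4 → Pt n) 2 w = ![c, d, w, f] := by
  funext i; fin_cases i <;> rfl

private theorem Rc4_upd3 {n : ℕ} (c d e f w : Pt n) :
    Function.update (![c, d, e, f] : Fin 4 → Pt n) 3 w = ![c, d, e, w] := by
  funext i; fin_cases i <;> rfl

theorem tRc4 : S_Rc4 := by
  intro n g Ω hmet p hp x y c d e f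
  obtain ⟨-, -, -, -, -, hR4, -⟩ := KO.sSmo n g Ω hmet
  have hr := KO.sRic n g Ω hmet p hp 4 (R4 g) hR4 x y ![c, d, e, f]
  have h1 : ev (D g (D g (R4 g))) p (Fin.cons x (Fin.cons y ![c, d, e, f]))
      = e6 (N2 g) p x y c d e f := rfl
  have h2 : ev (D g (D g (R4 g))) p (Fin.cons y (Fin.cons x ![c, d, e, f]))
      = e6 (N2 g) p y x c d e f := rfl
  have h3 : (∑ j, ev (R4 g) p (Function.update ![c, d, e, f] j
      (Rv g p x y ((![c, d, e, f] : Fin 4 → Pt n) j))))
      = -act4 (Rv g p x y) (e4 (R4 g) p) c d e f := by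
    rw [Fin.sum_univ_four, Rc4_upd0, Rc4_upd1, Rc4_upd2, Rc4_upd3]
    simp only [act4, e4, neg_neg]
    rfl
  rw [h1, h2, h3, neg_neg] at hr
  exact hr.symm

end

end Pool.Agent.Lib.MP_9d59e9_gt.KO3
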