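import Pool.Agent.Lib.MP_9d59e9_gt.KO3.Spec

/-!
# MP_9d59e9_gt, project KO3: RcD (the covariant derivative of the Ricci identity for `R`)
-/

set_option autoImplicit false

namespace Pool.Agent.Lib.MP_9d59e9_gt.KO3

open scoped BigOperators ContDiff Topology
open KO

noncomputable section

private theorem RcD_near {n : ℕ} {Ω : Set (Pt n)} (hO : IsOpen Ω) {p : Pt n} (hp : p ∈ Ω)
    (X : Pt n) : ∀ᶠ t in 𝓝 (0 : ℝ), p + t • X ∈ Ω := by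
  have h1 : Continuous fun t : ℝ => p + t • X :=
    continuous_const.add (continuous_id.smul continuous_const)
  have h2 : (fun t : ℝ => p + t • X) 0 ∈ Ω := by simpa using hp
  exact h1.continuousAt.eventually (hO.mem_nhds h2)

private theorem RcD_zero {V : Type} [AddCommGroup V] [Module ℝ V] {f : V → ℝ} (hf : Lin1 f) :
    f 0 = 0 := by
  have h := hf.smul 0 0
  rw [zero_smul, zero_mul] at h
  exact h

/-- the curve `R(x, y) w` for curves with vanishing covariant derivative -/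
private theorem RcD_Rv {n : ℕ} {g : Pt n → Matrix (Fin n) (Fin n) ℝ} {Ω : Set (Pt n)}
    (hg : IsMetricOn g Ω) {p : Pt n} (hp : p ∈ Ω) {Z : Pt n} {x y w : ℝ → Pt n}
    {x₀ y₀ w₀ : Pt n} (hx : Cv g p Z x x₀ 0) (hy : Cv g p Z y y₀ 0) (hw : Cv g p Z w w₀ 0) :
    Cv g p Z (fun t => Rv g (p + t • Z) (x t) (y t) (w t)) (Rv g p x₀ y₀ w₀)
      (Nv g p Z x₀ y₀ w₀) := by
  have h := (sCvR n g Ω hg p hp Z x x₀ 0 x x₀ 0 y y₀ 0 w w₀ 0 hx hx hy hw).1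
  have z1 : Rv g p 0 y₀ w₀ = 0 := by funext a; simp [Rv]
  have z2 : Rv g p x₀ 0 w₀ = 0 := by funext a; simp [Rv]
  have z3 : Rv g p x₀ y₀ 0 = 0 := by funext a; simp [Rv]
  rw [z1, z2, z3, add_zero, add_zero, add_zero] at h
  exact h

theorem tRcD (hRc4 : S_Rc4) (hCvP : S_CvP) : S_RcD := by
  intro n g Ω hg p hp z x₀ y₀ c₀ d₀ e₀ f₀
  obtain ⟨-, -, -, -, h6, -, -, hex⟩ := hCvP n g Ω hg p hp z
  obtain ⟨x, hx⟩ := hex x₀
  obtain ⟨y, hy⟩ := hex y₀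
  obtain ⟨c, hc⟩ := hex c₀
  obtain ⟨d, hd⟩ := hex d₀
  obtain ⟨e, he⟩ := hex e₀
  obtain ⟨f, hf⟩ := hex f₀
  obtain ⟨-, -, -, -, -, hs4, -, hs6, -⟩ := sSmo n g Ω hg
  obtain ⟨-, -, hE, -⟩ := sCvE n g Ω hg.isOpen p hp z
  obtain ⟨l4, l3, l2, l1⟩ := (sLin n p).2.2.2.2.2.2.1 (R4 g)
  have hr := ((h6 _ hs6 _ _ _ _ _ _ _ _ _ _ _ _ hx hy hc hd he hf).sub
    (h6 _ hs6 _ _ _ _ _ _ _ _ _ _ _ _ hy hx hc hd he hf))
  have hl := ((((hE _ hs4 _ _ _ _ _ _ _ _ _ _ _ _ (RcD_Rv hg hp hx hy hc) hd he hf).add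
    (hE _ hs4 _ _ _ _ _ _ _ _ _ _ _ _ hc (RcD_Rv hg hp hx hy hd) he hf)).add
    (hE _ hs4 _ _ _ _ _ _ _ _ _ _ _ _ hc hd (RcD_Rv hg hp hx hy he) hf)).add
    (hE _ hs4 _ _ _ _ _ _ _ _ _ _ _ _ hc hd he (RcD_Rv hg hp hx hy hf))).neg
  have h0 := hl.unique (hr.congr_of_eventuallyEq
    ((RcD_near hg.isOpen hp z).mono fun t ht => hRc4 n g Ω hg _ ht _ _ _ _ _ _))
  have w1 : ∀ b c d, e4 (R4 g) p 0 b c d = 0 := fun b c d => RcD_zero (l1 b c d)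
  have w2 : ∀ a c d, e4 (R4 g) p a 0 c d = 0 := fun a c d => RcD_zero (l2 a c d)
  have w3 : ∀ a b d, e4 (R4 g) p a b 0 d = 0 := fun a b d => RcD_zero (l3 a b d)
  have w4 : ∀ a b c, e4 (R4 g) p a b c 0 = 0 := fun a b c => RcD_zero (l4 a b c)
  simp only [w1, w2, w3, w4, add_zero, zero_add] at h0
  unfold act4 N3 N
  linarith

end

end Pool.Agent.Lib.MP_9d59e9_gt.KO3
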