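import Pool.Agent.Lib.MP_9d59e9_gt.KO3.Spec

/-!
# MP_9d59e9_gt, project KO3: Rec (curvature operators annihilate recurrent tensor fields)
-/

set_option autoImplicit false

namespace Pool.Agent.Lib.MP_9d59e9_gt.KO3

open scoped BigOperators ContDiff
open Set KO

noncomputable section

/-- a slot with the zero vector -/
private theorem Rec_zero {n k : ℕ} (T : TF n k) (x : Pt n) (v : Fin k → Pt n) (j : Fin k) :
    ev T x (Function.update v j 0) = 0 := by
  have h := ((sLin n x).1 k T v j).smul 0 0
  simpa using h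

/-- second covariant derivative of a recurrent tensor field -/
private theorem Rec_second {n : ℕ} (g : Pt n → Matrix (Fin n) (Fin n) ℝ) (U : Set (Pt n))
    (hU : IsMetricOn g U) (k : ℕ) (T : TF n k) (τ : TF n 1) (hT : Sm U T) (hτ : Sm U τ)
    (hrec : ∀ x ∈ U, ∀ (y : Pt n) (v : Fin k → Pt n),
      ev (D g T) x (Fin.cons y v) = e1 τ x y * ev T x v)
    (p : Pt n) (hp : p ∈ U) (X Y : Pt n) (v : Fin k → Pt n) :
    ev (D g (D g T)) p (Fin.cons X (Fin.cons Y v))
      = (e2 (D g τ) p X Y + e1 τ p X * e1 τ p Y) * ev T p v := by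
  have hDT : Sm U (D g T) := (sSmo n g U hU).2.2.2.1 k T hT
  have hcv : ∀ w : Pt n, Cv g p X (fun t => w - t • Chr g p X w) w 0 := (sCvb n g p X).1
  -- the three curves
  have h1 := sCrv n g U hU.isOpen (k + 1) (D g T) hDT p hp X
    (Fin.cons (fun t => Y - t • Chr g p X Y) (fun j t => v j - t • Chr g p X (v j)))
    (Fin.cons Y v) (fun _ => 0) (by
      intro j
      refine Fin.cases ?_ (fun i => ?_) j
      · simpa using hcv Y
      · simpa using hcv (v i))
  have h2 := sCrv n g U hU.isOpen k T hT p hp X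
    (fun j t => v j - t • Chr g p X (v j)) v (fun _ => 0) (fun j => hcv (v j))
  have h3 := (sCvE n g U hU.isOpen p hp X).1 τ hτ _ Y 0 (hcv Y)
  have hz1 : ∑ j, ev (D g T) p (Function.update (Fin.cons Y v : Fin (k + 1) → Pt n) j 0) = 0 :=
    Finset.sum_eq_zero fun j _ => Rec_zero _ _ _ _
  have hz2 : ∑ j, ev T p (Function.update v j 0) = 0 :=
    Finset.sum_eq_zero fun j _ => Rec_zero _ _ _ _
  have hz3 : e1 τ p 0 = 0 := by
    have h := ((sLin n p).2.2.2.1 τ).smul 0 0
    simpa using h
  simp only [hz1, add_zero] at h1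
  simp only [hz2, add_zero] at h2
  simp only [hz3, add_zero] at h3
  have h4 := h3.mul h2
  have hline : ∀ᶠ t in nhds (0 : ℝ), p + t • X ∈ U := by
    have hc : Continuous fun t : ℝ => p + t • X := by fun_prop
    have : (fun t : ℝ => p + t • X) ⁻¹' U ∈ nhds (0 : ℝ) :=
      (hU.isOpen.preimage hc).mem_nhds (by simpa using hp)
    exact this
  have heq : (fun t : ℝ => ev (D g T) (p + t • X)
      (fun j => (Fin.cons (fun t => Y - t • Chr g p X Y)
        (fun j t => v j - t • Chr g p X (v j)) : Fin (k + 1) → ℝ → Pt n) j t))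
      =ᶠ[nhds 0] ((fun t : ℝ => e1 τ (p + t • X) (Y - t • Chr g p X Y)) *
        fun t : ℝ => ev T (p + t • X) (fun j => v j - t • Chr g p X (v j))) := by
    filter_upwards [hline] with t ht
    have hcons : (fun j => (Fin.cons (fun t => Y - t • Chr g p X Y)
        (fun j t => v j - t • Chr g p X (v j)) : Fin (k + 1) → ℝ → Pt n) j t)
        = (Fin.cons (Y - t • Chr g p X Y) (fun j => v j - t • Chr g p X (v j)) :
          Fin (k + 1) → Pt n) := by
      funext j
      refine Fin.cases ?_ (fun i => ?_) j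
      · simp
      · simp
    rw [hcons, hrec _ ht]
    rfl
  have h5 := h1.unique (h4.congr_of_eventuallyEq heq)
  rw [h5, hrec p hp]
  simp only [zero_smul, add_zero, sub_zero]
  ring

theorem tRec : S_Rec := by
  intro n g U hU k T τ hT hτ hrec p hp X Y v
  have hpos := hU.pos p hp
  have hR := sRic n g U hU p hp k T hT X Y
  have hsum : ∀ w : Fin k → Pt n,
      ∑ j, ev T p (Function.update w j (Rv g p X Y (w j)))
        = (e2 (D g τ) p Y X - e2 (D g τ) p X Y) * ev T p w := by
    intro w
    have h := hR w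
    rw [Rec_second g U hU k T τ hT hτ hrec p hp X Y w,
      Rec_second g U hU k T τ hT hτ hrec p hp Y X w] at h
    linarith
  have hskew : ∀ u w, ip g p (Rv g p X Y u) w = -ip g p u (Rv g p X Y w) := by
    intro u w
    have hs := sSym n g U hU p hp
    have hB := (sOnb n g p hpos).2.1
    rw [hs.2.1, hB.symm u, hs.2.1, hs.1.a34]

  rcases sSkw n g p hpos k T (Rv g p X Y) _ hskew hsum with hc | h0
  · rw [hsum, hc, zero_mul]
  · exact Finset.sum_eq_zero fun j _ => h0 _

end

end Pool.Agent.Lib.MP_9d59e9_gt.KO3
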