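import Pool.Agent.Lib.MP_9d59e9_gt.KO3.Spec

/-!
# MP_9d59e9_gt, project KO3: the curvature operators `R(x,y)`, `x, y ∈ ker t₁`, annihilate `∇R`
-/

set_option autoImplicit false

namespace Pool.Agent.Lib.MP_9d59e9_gt.KO3

open KO

private theorem Rns_ipsymm {n : ℕ} {g : Pt n → Matrix (Fin n) (Fin n) ℝ} {x : Pt n}
    (hg : (g x).PosDef) (u v : Pt n) : ip g x u v = ip g x v u := by
  unfold ip
  rw [Finset.sum_comm]
  refine Finset.sum_congr rfl fun i _ => Finset.sum_congr rfl fun j _ => ?_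
  have h : g x j i = g x i j := by
    have h1 := hg.isHermitian.apply i j
    simpa using h1
  rw [h]
  ring

private theorem Rns_cons {n : ℕ} (X Y : Pt n) (v : Fin 5 → Pt n) :
    (Fin.cons X (Fin.cons Y v : Fin 6 → Pt n) : Fin 7 → Pt n)
      = ![X, Y, v 0, v 1, v 2, v 3, v 4] := by
  ext i
  fin_cases i <;> rfl

private theorem Rns_cons6 {n : ℕ} (v : Fin 5 → Pt n) :
    v = ![v 0, v 1, v 2, v 3, v 4] := by
  ext i
  fin_cases i <;> rfl

theorem tRns : S_Rns := by
  intro n g Ω t1 t2 hK p hp x y hx hy z c d e f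
  have hmet := hK.met
  have hpos := hmet.pos p hp
  have hSm : Sm Ω (N g) := (sSmo n g Ω hmet).2.2.2.2.2.2.1
  have hR : ∀ v : Fin 5 → Pt n,
      ∑ j, ev (N g) p (Function.update v j (Rv g p x y (v j))) =
        (e2 t2 p x y - e2 t2 p y x) * ev (N g) p v := by
    intro v
    have h3 := sRic n g Ω hmet p hp 5 (N g) hSm x y v
    rw [Rns_cons, Rns_cons] at h3
    have k1 := hK.ks p hp x y (v 0) (v 1) (v 2) (v 3) (v 4)
    have k2 := hK.ks p hp y x (v 0) (v 1) (v 2) (v 3) (v 4)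
    rw [hx] at k1
    rw [hy] at k2
    have k3 : e5 (N g) p (v 0) (v 1) (v 2) (v 3) (v 4) = ev (N g) p v := by
      unfold e5
      rw [← Rns_cons6]
    rw [k3] at k1 k2
    have k4 : e7 (N3 g) p x y (v 0) (v 1) (v 2) (v 3) (v 4)
        = ev (D g (D g (N g))) p ![x, y, v 0, v 1, v 2, v 3, v 4] := rfl
    have k5 : e7 (N3 g) p y x (v 0) (v 1) (v 2) (v 3) (v 4)
        = ev (D g (D g (N g))) p ![y, x, v 0, v 1, v 2, v 3, v 4] := rfl
    rw [k4] at k1
    rw [k5] at k2
    linear_combination h3 - k1 + k2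
  have hact : act5 (Rv g p x y) (e5 (N g) p) z c d e f =
      -∑ j, ev (N g) p (Function.update ![z, c, d, e, f] j
        (Rv g p x y ((![z, c, d, e, f] : Fin 5 → Pt n) j))) := by
    rw [Fin.sum_univ_five]
    unfold act5 e5
    have q0 : Function.update ![z, c, d, e, f] 0 (Rv g p x y ((![z, c, d, e, f] : Fin 5 → Pt n) 0)) =
      ![Rv g p x y z, c, d, e, f] := by ext i; fin_cases i <;> rfl
    have q1 : Function.update ![z, c, d, e, f] 1 (Rv g p x y ((![z, c, d, e, f] : Fin 5 → Pt n) 1)) =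
      ![z, Rv g p x y c, d, e, f] := by ext i; fin_cases i <;> rfl
    have q2 : Function.update ![z, c, d, e, f] 2 (Rv g p x y ((![z, c, d, e, f] : Fin 5 → Pt n) 2)) =
      ![z, c, Rv g p x y d, e, f] := by ext i; fin_cases i <;> rfl
    have q3 : Function.update ![z, c, d, e, f] 3 (Rv g p x y ((![z, c, d, e, f] : Fin 5 → Pt n) 3)) =
      ![z, c, d, Rv g p x y e, f] := by ext i; fin_cases i <;> rfl
    have q4 : Function.update ![z, c, d, e, f] 4 (Rv g p x y ((![z, c, d, e, f] : Fin 5 → Pt n) 4)) =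
      ![z, c, d, e, Rv g p x y f] := by ext i; fin_cases i <;> rfl
    rw [q0, q1, q2, q3, q4]
  obtain ⟨hcr, hop, -, -⟩ := sSym n g Ω hmet p hp
  have hsk : (e2 t2 p x y - e2 t2 p y x) = 0 ∨ ∀ v, ev (N g) p v = 0 := by
    apply sSkw n g p hpos 5 (N g) (Rv g p x y)
    · intro u v
      rw [hop, Rns_ipsymm hpos u, hop, hcr.a34]
    · intro v
      exact hR v
  rw [hact, hR]
  rcases hsk with h3 | h3
  · rw [h3, zero_mul, neg_zero]
  · rw [h3, mul_zero, neg_zero]

end Pool.Agent.Lib.MP_9d59e9_gt.KO3
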