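import Pool.Agent.Lib.MP_9d59e9_gt.KO3.Spec

/-!
# MP_9d59e9_gt, project KO3: the curvature operator is onto (`S_Sur`)
-/

set_option autoImplicit false

namespace Pool.Agent.Lib.MP_9d59e9_gt.KO3

open scoped BigOperators
open KO

noncomputable section

namespace Sur

variable {V : Type} [AddCommGroup V] [Module ℝ V]

theorem lin_zero {f : V → ℝ} (hf : Lin1 f) : f 0 = 0 := by
  have h := hf.smul 0 0
  rw [zero_smul, zero_mul] at h
  exact h

theorem lin_sum {f : V → ℝ} (hf : Lin1 f) {m : ℕ} (c : Fin m → ℝ) (x : Fin m → V) :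
    f (∑ k, c k • x k) = ∑ k, c k * f (x k) := by
  classical
  have key : ∀ s : Finset (Fin m), f (∑ k ∈ s, c k • x k) = ∑ k ∈ s, c k * f (x k) := by
    intro s
    induction s using Finset.induction_on with
    | empty => simpa using lin_zero hf
    | insert a s ha ih =>
      rw [Finset.sum_insert ha, Finset.sum_insert ha, hf.add, hf.smul, ih]
  exact key Finset.univ

/-- a skew form which vanishes on the orthogonal complement of `d` is determined on `d` -/
theorem det {B : V → V → ℝ} (hB : IP B) {m : ℕ} {d : Fin m → V}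
    (hd : ∀ i j, B (d i) (d j) = if i = j then 1 else 0) {G : V → V → ℝ}
    (hG : ∀ b, Lin1 fun a => G a b) (ha : ∀ a b, G b a = -G a b)
    (h0 : ∀ a b, (∀ k, B a (d k) = 0) → G a b = 0) (a b : V) :
    G a b = ∑ k, ∑ l, B a (d k) * (B b (d l) * G (d k) (d l)) := by
  classical
  have h1 : ∀ a b, G a b = ∑ k, B a (d k) * G (d k) b := by
    intro a b
    have hp : ∀ l, B (∑ k, B a (d k) • d k) (d l) = B a (d l) := by
      intro l
      rw [lin_sum (hB.lin (d l))]
      simp [hd]
    have h2 : G (a + (-1 : ℝ) • ∑ k, B a (d k) • d k) b = 0 := by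
      apply h0
      intro l
      rw [(hB.lin (d l)).add, (hB.lin (d l)).smul, hp l]
      ring
    have h3 := (hG b).add a ((-1 : ℝ) • ∑ k, B a (d k) • d k)
    have h4 := (hG b).smul (-1 : ℝ) (∑ k, B a (d k) • d k)
    have h5 := lin_sum (hG b) (fun k => B a (d k)) d
    rw [← h5]
    linarith
  rw [h1 a b]
  refine Finset.sum_congr rfl fun k _ => ?_
  rw [← Finset.mul_sum]
  congr 1
  rw [ha b (d k), h1 b (d k), ← Finset.sum_neg_distrib]
  refine Finset.sum_congr rfl fun l _ => ?_
  rw [ha (d k) (d l)]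
  ring

/-- skew matrices -/
def Sk (m : ℕ) : Submodule ℝ (Fin m → Fin m → ℝ) where
  carrier := {w | ∀ i j, w j i = -w i j}
  add_mem' := by
    intro a b ha hb i j
    simp only [Pi.add_apply]
    rw [ha i j, hb i j]
    ring
  zero_mem' := by
    intro i j
    simp
  smul_mem' := by
    intro c a ha i j
    simp only [Pi.smul_apply, smul_eq_mul]
    rw [ha i j]
    ring

/-- the form of a matrix -/
def Fm (R : V → V → V → V → ℝ) {m : ℕ} (h : Fin m → V) (w : Fin m → Fin m → ℝ) (a b : V) : ℝ :=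
  ∑ i, ∑ j, w i j * R (h i) (h j) a b

theorem lin3 {R : V → V → V → V → ℝ} (hR : Crvt R) (a b d : V) : Lin1 fun c => R a b c d := by
  refine ⟨fun x y => ?_, fun r x => ?_⟩
  · rw [← hR.sw, ← hR.sw a b x d, ← hR.sw a b y d, (hR.lin d a b).add]
  · rw [← hR.sw, ← hR.sw a b x d, (hR.lin d a b).smul]

theorem Fm_lin {R : V → V → V → V → ℝ} (hR : Crvt R) {m : ℕ} (h : Fin m → V)
    (w : Fin m → Fin m → ℝ) (b : V) : Lin1 fun a => Fm R h w a b := by
  refine ⟨fun x y => ?_, fun r x => ?_⟩
  · simp only [Fm]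
    rw [← Finset.sum_add_distrib]
    refine Finset.sum_congr rfl fun i _ => ?_
    rw [← Finset.sum_add_distrib]
    refine Finset.sum_congr rfl fun j _ => ?_
    rw [(lin3 hR (h i) (h j) b).add]
    ring
  · simp only [Fm]
    rw [Finset.mul_sum]
    refine Finset.sum_congr rfl fun i _ => ?_
    rw [Finset.mul_sum]
    refine Finset.sum_congr rfl fun j _ => ?_
    rw [(lin3 hR (h i) (h j) b).smul]
    ring

theorem Fm_skew {R : V → V → V → V → ℝ} (hR : Crvt R) {m : ℕ} (h : Fin m → V)
    (w : Fin m → Fin m → ℝ) (a b : V) : Fm R h w b a = -Fm R h w a b := by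
  simp only [Fm]
  rw [← Finset.sum_neg_distrib]
  refine Finset.sum_congr rfl fun i _ => ?_
  rw [← Finset.sum_neg_distrib]
  refine Finset.sum_congr rfl fun j _ => ?_
  rw [hR.a34 (h i) (h j) a b]
  ring

/-- the operator -/
def Lm {R : V → V → V → V → ℝ} (hR : Crvt R) {m : ℕ} (h d : Fin m → V) : Sk m →ₗ[ℝ] Sk m where
  toFun w := ⟨fun k l => Fm R h w.1 (d k) (d l), fun k l => Fm_skew hR h w.1 (d k) (d l)⟩
  map_add' := by
    intro x y
    ext k l
    simp only [Fm, Submodule.coe_add, Pi.add_apply]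
    rw [← Finset.sum_add_distrib]
    refine Finset.sum_congr rfl fun i _ => ?_
    rw [← Finset.sum_add_distrib]
    refine Finset.sum_congr rfl fun j _ => ?_
    ring
  map_smul' := by
    intro c x
    ext k l
    simp only [Fm, Submodule.coe_smul, Pi.smul_apply, smul_eq_mul, RingHom.id_apply]
    rw [Finset.mul_sum]
    refine Finset.sum_congr rfl fun i _ => ?_
    rw [Finset.mul_sum]
    refine Finset.sum_congr rfl fun j _ => ?_
    ring

end Sur

open Sur in
theorem tSur : S_Sur := by
  intro V _ _ B R hB hR hN m h d hh hd H u v hu hv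
  have hF0 : ∀ (w : Fin m → Fin m → ℝ) (a b : V), (∀ k, B a (d k) = 0) → Fm R h w a b = 0 := by
    intro w a b ha
    unfold Fm
    refine Finset.sum_eq_zero fun i _ => Finset.sum_eq_zero fun j _ => ?_
    rw [H i j a b ha, mul_zero]
  have hinj : Function.Injective (Lm hR h d) := by
    rw [← LinearMap.ker_eq_bot, LinearMap.ker_eq_bot']
    intro w hw
    have h1 : ∀ k l, Fm R h w.1 (d k) (d l) = 0 := by
      intro k l
      have h2 := congrArg (fun x : Sk m => x.1 k l) hw
      exact h2
    have h3 : ∀ a b, ∑ i, ∑ j, w.1 i j * R (h i) (h j) a b = 0 := by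
      intro a b
      have h4 := det hB hd (Fm_lin hR h w.1) (Fm_skew hR h w.1) (hF0 w.1) a b
      change Fm R h w.1 a b = 0
      rw [h4]
      refine Finset.sum_eq_zero fun k _ => Finset.sum_eq_zero fun l _ => ?_
      rw [h1 k l]
      ring
    have h5 := hN m h w.1 hh w.2 h3
    ext i j
    exact h5 i j
  have hsur := (LinearMap.injective_iff_surjective (f := Lm hR h d)).1 hinj
  have hW : ∀ a b, B (wd B u v a) b = B v a * B u b - B u a * B v b := by
    intro a b
    unfold wd
    rw [sub_eq_add_neg, (hB.lin b).add, (hB.lin b).smul, ← neg_one_smul ℝ, (hB.lin b).smul,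
      (hB.lin b).smul]
    ring
  have hz : ∀ x, x = ∑ k, B x (d k) • d k → ∀ a, (∀ k, B a (d k) = 0) → B x a = 0 := by
    intro x hx a ha
    rw [hx, lin_sum (hB.lin a)]
    refine Finset.sum_eq_zero fun k _ => ?_
    rw [hB.symm (d k) a, ha k, mul_zero]
  have hGl : ∀ b, Lin1 fun a => B (wd B u v a) b := by
    intro b
    refine ⟨fun x y => ?_, fun r x => ?_⟩
    · simp only [hW]
      rw [hB.symm v (x + y), hB.symm u (x + y), (hB.lin v).add, (hB.lin u).add, hB.symm x v,
        hB.symm y v, hB.symm x u, hB.symm y u]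
      ring
    · simp only [hW]
      rw [hB.symm v (r • x), hB.symm u (r • x), (hB.lin v).smul, (hB.lin u).smul, hB.symm x v,
        hB.symm x u]
      ring
  have hGs : ∀ a b, B (wd B u v b) a = -B (wd B u v a) b := by
    intro a b
    rw [hW, hW]
    ring
  have hG0 : ∀ a b, (∀ k, B a (d k) = 0) → B (wd B u v a) b = 0 := by
    intro a b ha
    rw [hW, hz u hu a ha, hz v hv a ha]
    ring
  obtain ⟨w, hw⟩ := hsur ⟨fun k l => B (wd B u v (d k)) (d l), fun k l => hGs (d k) (d l)⟩
  refine ⟨w.1, fun a b => ?_⟩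
  have h1 : ∀ k l, Fm R h w.1 (d k) (d l) = B (wd B u v (d k)) (d l) := by
    intro k l
    have h2 := congrArg (fun x : Sk m => x.1 k l) hw
    exact h2
  change Fm R h w.1 a b = _
  rw [det hB hd (Fm_lin hR h w.1) (Fm_skew hR h w.1) (hF0 w.1) a b, det hB hd hGl hGs hG0 a b]
  refine Finset.sum_congr rfl fun k _ => Finset.sum_congr rfl fun l _ => ?_
  rw [h1 k l]

end

end Pool.Agent.Lib.MP_9d59e9_gt.KO3
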