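import Pool.Agent.Lib.MP_9d59e9_gt.KO3.Spec

/-!
# MP_9d59e9_gt, project KO3: `t₃ = 0`
-/

set_option autoImplicit false

namespace Pool.Agent.Lib.MP_9d59e9_gt.KO3

open KO

private theorem T3_ns {V : Type} {B : V → V → ℝ} {R : V → V → V → V → ℝ} (hns : NSi B R) (u v : V)
    (huu : B u u = 1) (hvv : B v v = 1) (huv : B u v = 0) (hvu : B v u = 0)
    (ha : ∀ a b, R v u a b = -R u v a b) (h0 : ∀ a b, R u v a b = 0) : False := by
  have h := hns 2 ![u, v] (fun i j => if i = j then 0 else if i = 0 then 1 else -1) (by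
      intro i j
      fin_cases i <;> fin_cases j <;> simp [huu, hvv, huv, hvu]) (by
      intro i j
      fin_cases i <;> fin_cases j <;> simp) (by
      intro a b
      simp [Fin.sum_univ_two, h0, ha]) 0 1
  simp at h

theorem tT3 (hBi4 : S_Bi4) (hFrm : S_Frm) : S_T3 := by
  intro n g Ω t1 t2 t3 hn hmet hks hns x hx a b
  have hlin := (sLin n x).2.2.2.2.2.1 t3
  have hB4 := hBi4 n g Ω hmet x hx a b
  have hB3 := sBi3 n g Ω hmet x hx b
  have hB2 := sBi2 n g Ω hmet x hx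
  have hcur := (sSym n g Ω hmet x hx).1
  obtain ⟨m, rfl⟩ : ∃ m, n = m + 1 := ⟨n - 1, by omega⟩
  have hEu := hFrm (m + 1) m g x rfl (hmet.pos x hx)
  have hkey : ∀ c u v w z, e3 t3 x a b c * e4 (R4 g) x u v w z
      + e3 t3 x a b u * e4 (R4 g) x v c w z + e3 t3 x a b v * e4 (R4 g) x c u w z = 0 := by
    intro c u v w z
    have h1 := hks x hx a b c u v w z
    have h2 := hks x hx a b u v c w z
    have h3 := hks x hx a b v c u w z
    have k1 := hB4.bi2 c u v w z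
    have k2 := hB3.bi2 c u v w z
    have k3 := hB2.bi2 c u v w z
    linear_combination h1 + h2 + h3 - k1 - e1 t1 x a * k2 - e2 t2 x a b * k3
  by_contra hcon
  push Not at hcon
  obtain ⟨c₀, hc₀⟩ := hcon
  obtain ⟨T, hT⟩ := hEu.ip.riesz (fun c => e3 t3 x a b c) (hlin.1 a b)
  have hB0 : ∀ v, ip g x 0 v = 0 := by
    intro v
    have := (hEu.ip.lin v).smul 0 0
    simpa using this
  have hT0 : T ≠ 0 := by
    rintro rfl
    exact hc₀ ((hT c₀).symm.trans (hB0 c₀))
  have hpos := hEu.ip.pos T hT0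
  have hsq : Real.sqrt (ip g x T T) * Real.sqrt (ip g x T T) = ip g x T T :=
    Real.mul_self_sqrt hpos.le
  have hs0 : 0 < Real.sqrt (ip g x T T) := Real.sqrt_pos.mpr hpos
  set s := Real.sqrt (ip g x T T) with hs
  have hee : ip g x (s⁻¹ • T) (s⁻¹ • T) = 1 := by
    rw [(hEu.ip.lin (s⁻¹ • T)).smul, hEu.ip.symm, (hEu.ip.lin T).smul, ← hsq]
    field_simp
  obtain ⟨f, hf, hf0⟩ := hEu.fr _ hee
  have hTs : ∀ v, ip g x T v = s * ip g x (f 0) v := by
    intro v
    rw [hf0, (hEu.ip.lin v).smul]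
    field_simp
  have hth : ∀ i : Fin (m + 1), e3 t3 x a b (f i) = s * (if (0 : Fin (m + 1)) = i then 1 else 0) := by
    intro i
    rw [← hf.on 0 i, ← hTs (f i)]
    exact (hT (f i)).symm
  have hi1 : (⟨1, by omega⟩ : Fin (m + 1)) ≠ 0 := by
    intro h
    have := congrArg Fin.val h
    simp at this
  have hi2 : (⟨2, by omega⟩ : Fin (m + 1)) ≠ 0 := by
    intro h
    have := congrArg Fin.val h
    simp at this
  have hi12 : (⟨1, by omega⟩ : Fin (m + 1)) ≠ ⟨2, by omega⟩ := by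
    intro h
    have := congrArg Fin.val h
    simp at this
  have hR : ∀ w z, e4 (R4 g) x (f ⟨1, by omega⟩) (f ⟨2, by omega⟩) w z = 0 := by
    intro w z
    have h := hkey (f 0) (f ⟨1, by omega⟩) (f ⟨2, by omega⟩) w z
    rw [hth 0, hth ⟨1, by omega⟩, hth ⟨2, by omega⟩, if_pos rfl, if_neg hi1.symm,
      if_neg hi2.symm] at h
    have h' : s * e4 (R4 g) x (f ⟨1, by omega⟩) (f ⟨2, by omega⟩) w z = 0 := by
      linear_combination h
    exact (mul_eq_zero.mp h').resolve_left hs0.ne'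
  refine T3_ns (hns x hx) (f ⟨1, by omega⟩) (f ⟨2, by omega⟩) ?_ ?_ ?_ ?_ ?_ hR
  · rw [hf.on, if_pos rfl]
  · rw [hf.on, if_pos rfl]
  · rw [hf.on, if_neg hi12]
  · rw [hf.on, if_neg hi12.symm]
  · intro w z
    exact hcur.a12 _ _ _ _

end Pool.Agent.Lib.MP_9d59e9_gt.KO3
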