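import Pool.Agent.Lib.MP_9d59e9_gt.KO3.Spec

/-!
# MP_9d59e9_gt, project KO3: module Th3 (conclusion)
-/

set_option autoImplicit false

namespace Pool.Agent.Lib.MP_9d59e9_gt.KO3

open KO
open scoped ContDiff

private theorem Th3_met {n : ℕ} {g : Pt n → Matrix (Fin n) (Fin n) ℝ} {Ω U : Set (Pt n)}
    (h : IsMetricOn g Ω) (hU : IsOpen U) (hsub : U ⊆ Ω) : IsMetricOn g U :=
  ⟨hU, fun i j => (h.smooth i j).mono hsub, fun x hx => h.pos x (hsub hx)⟩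

private theorem Th3_restr {n : ℕ} {g : Pt n → Matrix (Fin n) (Fin n) ℝ} {Ω U : Set (Pt n)}
    {t1 : TF n 1} {t2 : TF n 2} (h : KS3 g Ω t1 t2) (hU : IsOpen U) (hsub : U ⊆ Ω) :
    KS3 g U t1 t2 :=
  ⟨Th3_met h.met hU hsub, fun I => (h.s1 I).mono hsub, fun I => (h.s2 I).mono hsub,
    fun x hx => h.ks x (hsub hx), fun x hx => h.ns x (hsub hx)⟩

/-- the set where a family of continuous functions does not vanish identically is open -/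
private theorem Th3_open {n : ℕ} {ι : Type} {Ω : Set (Pt n)} (hΩ : IsOpen Ω) (f : ι → Pt n → ℝ)
    (hf : ∀ i, ContinuousOn (f i) Ω) : IsOpen {x | x ∈ Ω ∧ ∃ i, f i x ≠ 0} := by
  have h : {x | x ∈ Ω ∧ ∃ i, f i x ≠ 0} = ⋃ i, Ω ∩ (f i) ⁻¹' {0}ᶜ := by
    ext x
    simp
  rw [h]
  exact isOpen_iUnion fun i => (hf i).isOpen_inter_preimage hΩ isOpen_compl_singleton

theorem tTh3 (hCb1 : S_Cb1) (hCb2 : S_Cb2) (hCa1 : S_Ca1) (hCa2 : S_Ca2) : S_Th3 := by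
  intro n g Ω t1 t2 hn hK
  have hS := KO.sSmo n g Ω hK.met
  have hNs : Sm Ω (N g) := hS.2.2.2.2.2.2.1
  have hev := hS.2.2.2.2.2.2.2.2.2.2.2
  -- the open set where `∇R ≠ 0`
  let U₀ : Set (Pt n) := {x | x ∈ Ω ∧ ∃ i : Pt n × Pt n × Pt n × Pt n × Pt n,
    e5 (N g) x i.1 i.2.1 i.2.2.1 i.2.2.2.1 i.2.2.2.2 ≠ 0}
  have hU₀ : IsOpen U₀ :=
    Th3_open hK.met.isOpen (fun (i : Pt n × Pt n × Pt n × Pt n × Pt n) x =>
      e5 (N g) x i.1 i.2.1 i.2.2.1 i.2.2.2.1 i.2.2.2.2)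
      fun i => (hev 5 (N g) hNs ![i.1, i.2.1, i.2.2.1, i.2.2.2.1, i.2.2.2.2]).continuousOn
  have hU₀Ω : U₀ ⊆ Ω := fun x hx => hx.1
  have hne : ∀ x ∈ U₀, ∃ z a b c d, e5 (N g) x z a b c d ≠ 0 := by
    rintro x ⟨-, ⟨z, a, b, c, d⟩, h⟩
    exact ⟨z, a, b, c, d, h⟩
  -- `t₂ = 0` on `U₀`
  have ht2 : ∀ q ∈ U₀, ∀ x₀ v, e2 t2 q x₀ v = 0 := by
    intro q hq x₀ v
    by_contra hv
    let U : Set (Pt n) := {x | x ∈ U₀ ∧ ∃ v, e2 t2 x x₀ v ≠ 0}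
    have hU : IsOpen U := by
      refine Th3_open hU₀ (fun (v : Pt n) x => e2 t2 x x₀ v) fun v => ?_
      exact (hev 2 t2 hK.s2 ![x₀, v]).continuousOn.mono hU₀Ω
    have hUU₀ : U ⊆ U₀ := fun x hx => hx.1
    have hKU : KS3 g U t1 t2 := Th3_restr hK hU (hUU₀.trans hU₀Ω)
    have hneU : ∀ x ∈ U, ∃ z a b c d, e5 (N g) x z a b c d ≠ 0 := fun x hx => hne x (hUU₀ hx)
    obtain ⟨θ, h1, h2, h3⟩ := hCa1 n g U t1 t2 x₀ hn hKU hneU fun x hx => hx.2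
    exact hCa2 n g U t1 t2 θ hn hKU hneU h1 h2 h3 q ⟨hq, v, hv⟩
  intro x hx z a b c d
  by_contra hN0
  have hxU : x ∈ U₀ := ⟨hx, (z, a, b, c, d), hN0⟩
  have hK0 : KS3 g U₀ t1 t2 := Th3_restr hK hU₀ hU₀Ω
  exact hN0 (hCb2 n g U₀ hn hK0.met hK0.ns
    (fun p hp x y c d e f => hCb1 n g U₀ t1 t2 hn hK0 (fun x hx a b => ht2 x hx a b) p hp x y c d e f)
    x hxU z a b c d)

end Pool.Agent.Lib.MP_9d59e9_gt.KO3
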