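import Pool.Agent.Lib.MP_9d59e9_gt.KO3.Spec

/-!
# MP_9d59e9_gt, project KO3: two independent forms with `W(θ)[N] = 0` give `N = 0`
-/

set_option autoImplicit false

namespace Pool.Agent.Lib.MP_9d59e9_gt.KO3

open KO

section Two
variable {V : Type} [AddCommGroup V] [Module ℝ V] {N : V → V → V → V → V → ℝ}

private theorem Two_add1 (hN : Dcrv N) (a a' b c d e : V) :
    N (a + a') b c d e = N a b c d e + N a' b c d e :=
  (hN.lin b c d e).add a a'

private theorem Two_add2 (hN : Dcrv N) (a b b' c d e : V) :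
    N a (b + b') c d e = N a b c d e + N a b' c d e :=
  ((hN.cur a).lin c d e).add b b'

private theorem Two_add3 (hN : Dcrv N) (a b c c' d e : V) :
    N a b (c + c') d e = N a b c d e + N a b c' d e := by
  have h1 := (hN.cur a).a12 b (c + c') d e
  have h2 := (hN.cur a).a12 b c d e
  have h3 := (hN.cur a).a12 b c' d e
  have h4 := Two_add2 hN a c c' b d e
  linarith

private theorem Two_add4 (hN : Dcrv N) (a b c d d' e : V) :
    N a b c (d + d') e = N a b c d e + N a b c d' e := by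
  have h1 := (hN.cur a).sw (d + d') e b c
  have h2 := (hN.cur a).sw d e b c
  have h3 := (hN.cur a).sw d' e b c
  have h4 := Two_add2 hN a d d' e b c
  linarith

private theorem Two_add5 (hN : Dcrv N) (a b c d e e' : V) :
    N a b c d (e + e') = N a b c d e + N a b c d e' := by
  have h1 := (hN.cur a).sw d (e + e') b c
  have h2 := (hN.cur a).sw d e b c
  have h3 := (hN.cur a).sw d e' b c
  have h4 := Two_add3 hN a d e e' b c
  linarith

private theorem Two_smul1 (hN : Dcrv N) (r : ℝ) (a b c d e : V) :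
    N (r • a) b c d e = r * N a b c d e :=
  (hN.lin b c d e).smul r a

private theorem Two_smul2 (hN : Dcrv N) (r : ℝ) (a b c d e : V) :
    N a (r • b) c d e = r * N a b c d e :=
  ((hN.cur a).lin c d e).smul r b

private theorem Two_smul3 (hN : Dcrv N) (r : ℝ) (a b c d e : V) :
    N a b (r • c) d e = r * N a b c d e := by
  have h1 := (hN.cur a).a12 b (r • c) d e
  have h2 := (hN.cur a).a12 b c d e
  have h4 := Two_smul2 hN r a c b d e
  rw [h2] at h4
  linarith

private theorem Two_smul4 (hN : Dcrv N) (r : ℝ) (a b c d e : V) :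
    N a b c (r • d) e = r * N a b c d e := by
  have h1 := (hN.cur a).sw (r • d) e b c
  have h2 := (hN.cur a).sw d e b c
  have h4 := Two_smul2 hN r a d e b c
  rw [h2.symm] at h4
  linarith

private theorem Two_smul5 (hN : Dcrv N) (r : ℝ) (a b c d e : V) :
    N a b c d (r • e) = r * N a b c d e := by
  have h1 := (hN.cur a).sw d (r • e) b c
  have h2 := (hN.cur a).sw d e b c
  have h4 := Two_smul3 hN r a d e b c
  rw [h2.symm] at h4
  linarith

/-- the diagonal values of `W(θ)[N]` -/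
private theorem Two_diag (θ : V → ℝ) (h : ∀ y z c d p q, WW θ N y z c d p q = 0)
    (u v : V) : θ u * N v u v u v - θ v * N u u v u v = 0 := by
  have h0 := h u v u v u v
  unfold WW at h0
  linarith

/-- the zero set of a quadratic polynomial with nonzero leading coefficient is finite -/
private theorem Two_dense (α β γ : ℝ) (hγ : γ ≠ 0) :
    Dense {s : ℝ | α + s * β + s * s * γ ≠ 0} := by
  have hfin : {s : ℝ | α + s * β + s * s * γ = 0}.Finite := by
    classical
    set P : Polynomial ℝ := Polynomial.C α + Polynomial.C β * Polynomial.X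
      + Polynomial.C γ * Polynomial.X ^ 2 with hP
    have hP0 : P ≠ 0 := by
      intro h0
      have h1 : P.coeff 2 = 0 := by rw [h0]; simp
      rw [hP] at h1
      simp at h1
      exact hγ h1
    refine (P.roots.toFinset.finite_toSet).subset ?_
    intro s hs
    have hs' : α + s * β + s * s * γ = 0 := hs
    simp only [Finset.mem_coe, Multiset.mem_toFinset]
    rw [Polynomial.mem_roots hP0]
    rw [Polynomial.IsRoot.def, hP]
    simp
    linarith
  have h := hfin.countable.dense_compl ℝ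
  have e : {s : ℝ | α + s * β + s * s * γ = 0}ᶜ = {s : ℝ | α + s * β + s * s * γ ≠ 0} := rfl
  rwa [e] at h

end Two

theorem tTwo (hPol : S_Pol) : S_Two := by
  intro V _ _ N hN θ₁ θ₂ l₁ l₂ h₁ h₂ ⟨u₀, v₀, hD⟩
  refine hPol V N hN ?_
  intro u v
  have key : ∀ s : ℝ,
      ((θ₁ u * θ₂ v - θ₁ v * θ₂ u) + s * (θ₁ u * θ₂ v₀ + θ₁ u₀ * θ₂ v - θ₁ v * θ₂ u₀ - θ₁ v₀ * θ₂ u)
        + s * s * (θ₁ u₀ * θ₂ v₀ - θ₁ v₀ * θ₂ u₀)) *
      N (u + s • u₀) (u + s • u₀) (v + s • v₀) (u + s • u₀) (v + s • v₀) = 0 := by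
    intro s
    have e1 := Two_diag θ₁ h₁ (u + s • u₀) (v + s • v₀)
    have e2 := Two_diag θ₂ h₂ (u + s • u₀) (v + s • v₀)
    rw [l₁.add, l₁.add, l₁.smul, l₁.smul] at e1
    rw [l₂.add, l₂.add, l₂.smul, l₂.smul] at e2
    linear_combination (θ₁ u + s * θ₁ u₀) * (-e2) + (θ₂ u + s * θ₂ u₀) * e1
  have hc : Continuous fun s : ℝ =>
      N (u + s • u₀) (u + s • u₀) (v + s • v₀) (u + s • u₀) (v + s • v₀) := by
    simp only [Two_add1 hN, Two_add2 hN, Two_add3 hN, Two_add4 hN, Two_add5 hN, Two_smul1 hN,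
      Two_smul2 hN, Two_smul3 hN, Two_smul4 hN, Two_smul5 hN]
    fun_prop
  have hd := Two_dense (θ₁ u * θ₂ v - θ₁ v * θ₂ u)
    (θ₁ u * θ₂ v₀ + θ₁ u₀ * θ₂ v - θ₁ v * θ₂ u₀ - θ₁ v₀ * θ₂ u)
    (θ₁ u₀ * θ₂ v₀ - θ₁ v₀ * θ₂ u₀) (sub_ne_zero.mpr hD)
  have hz := Continuous.ext_on hd hc (continuous_const (y := (0 : ℝ))) (by
    intro s hs
    have hs' : (θ₁ u * θ₂ v - θ₁ v * θ₂ u)
      + s * (θ₁ u * θ₂ v₀ + θ₁ u₀ * θ₂ v - θ₁ v * θ₂ u₀ - θ₁ v₀ * θ₂ u)
        + s * s * (θ₁ u₀ * θ₂ v₀ - θ₁ v₀ * θ₂ u₀) ≠ 0 := hs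
    exact (mul_eq_zero.mp (key s)).resolve_left hs')
  have h0 := congrFun hz 0
  simpa using h0

end Pool.Agent.Lib.MP_9d59e9_gt.KO3
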