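import Pool.Agent.Lib.MP_9d59e9_gt.KO3.Spec

/-!
# MP_9d59e9_gt, project KO3: normalisation of a 1-form
-/

set_option autoImplicit false

namespace Pool.Agent.Lib.MP_9d59e9_gt.KO3

open scoped BigOperators ContDiff
open KO

noncomputable section

private theorem Uni_sn {n : ℕ} (v : Pt n) :
    (Fin.snoc (α := fun _ => Pt n) (![] : Fin 0 → Pt n) v : Fin 1 → Pt n) = ![v] := by
  funext i
  have hi : i = Fin.last 0 := by
    apply Fin.ext
    have := i.isLt
    simp only [Fin.val_last]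
    omega
  subst hi
  rw [Fin.snoc_last]
  rfl

private theorem Uni_ev {n : ℕ} (τ : TF n 1) (c : Pt n → ℝ) (x : Pt n) (v : Fin 1 → Pt n) :
    ev (fun I y => τ I y * c y) x v = c x * ev τ x v := by
  unfold ev
  rw [Finset.mul_sum]
  exact Finset.sum_congr rfl fun I _ => by ring

private theorem Uni_du {n : ℕ} (g : Pt n → Matrix (Fin n) (Fin n) ℝ) (τ : TF n 1)
    (c : Pt n → ℝ) (x : Pt n) :
    du g (fun I y => τ I y * c y) x = c x • du g τ x := by
  funext a
  simp only [du, up, Pi.smul_apply, smul_eq_mul]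
  rw [Finset.mul_sum]
  refine Finset.sum_congr rfl fun b _ => ?_
  rw [Uni_ev]
  ring

private theorem Uni_ip {n : ℕ} (g : Pt n → Matrix (Fin n) (Fin n) ℝ) (x u : Pt n) (c : ℝ) :
    ip g x (c • u) (c • u) = c * c * ip g x u u := by
  unfold ip
  rw [Finset.mul_sum]
  refine Finset.sum_congr rfl fun i _ => ?_
  rw [Finset.mul_sum]
  refine Finset.sum_congr rfl fun j _ => ?_
  simp only [Pi.smul_apply, smul_eq_mul]
  ring

/-- normalisation of a 1-form -/
theorem tUni : S_Uni := by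
  intro n g U hg τ hτ hne
  obtain ⟨hinv, -, -, -, -, -, -, -, -, -, -, hev⟩ := KO.sSmo n g U hg
  have hU : ∀ T : TF n 1, ∀ x ∈ U, ∀ v, e1 T x v = ip g x (du g T x) v := by
    intro T x hx v
    have h := (KO.sUp n g x (hg.pos x hx)).1 0 T ![] v
    rw [show e1 T x v = ev T x ![v] from rfl, ← Uni_sn v]
    exact h.symm
  have hq : ∀ x ∈ U, 0 < ip g x (du g τ x) (du g τ x) := by
    intro x hx
    have hIP : IP (ip g x) := (KO.sOnb n g x (hg.pos x hx)).2.1
    refine hIP.pos _ fun h0 => ?_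
    obtain ⟨v, hv⟩ := hne x hx
    apply hv
    rw [hU τ x hx v, h0]
    simp [ip]
  have hdu : ∀ a, ContDiffOn ℝ ∞ (fun x => du g τ x a) U := by
    intro a
    unfold du up
    exact ContDiffOn.sum fun b _ => (hinv a b).mul (hev 1 τ hτ _)
  have hqs : ContDiffOn ℝ ∞ (fun x => ip g x (du g τ x) (du g τ x)) U :=
    ContDiffOn.sum fun i _ => ContDiffOn.sum fun j _ =>
      (hg.smooth i j).mul ((hdu i).mul (hdu j))
  have hcs : ContDiffOn ℝ ∞ (fun x => (Real.sqrt (ip g x (du g τ x) (du g τ x)))⁻¹) U :=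
    (hqs.sqrt fun x hx => (hq x hx).ne').inv fun x hx => (Real.sqrt_pos.2 (hq x hx)).ne'
  refine ⟨fun I x => τ I x * (Real.sqrt (ip g x (du g τ x) (du g τ x)))⁻¹, ⟨?_, ?_, ?_⟩, ?_⟩
  · intro I
    exact (hτ I).mul hcs
  · intro x hx
    rw [Uni_du g τ (fun x => (Real.sqrt (ip g x (du g τ x) (du g τ x)))⁻¹) x, Uni_ip]
    have h1 := Real.mul_self_sqrt (hq x hx).le
    have h2 : Real.sqrt (ip g x (du g τ x) (du g τ x)) ≠ 0 := (Real.sqrt_pos.2 (hq x hx)).ne'
    rw [← mul_inv]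
    rw [h1]
    exact inv_mul_cancel₀ (hq x hx).ne'
  · intro x hx v
    exact hU _ x hx v
  · intro x hx
    have h2 : Real.sqrt (ip g x (du g τ x) (du g τ x)) ≠ 0 := (Real.sqrt_pos.2 (hq x hx)).ne'
    refine ⟨Real.sqrt (ip g x (du g τ x) (du g τ x)), h2, fun v => ?_⟩
    unfold e1
    rw [Uni_ev τ (fun x => (Real.sqrt (ip g x (du g τ x) (du g τ x)))⁻¹) x]
    rw [← mul_assoc, mul_inv_cancel₀ h2, one_mul]

end

end Pool.Agent.Lib.MP_9d59e9_gt.KO3
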