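import Pool.Agent.Lib.MP_9d59e9_gt.KO3.Spec

/-!
# MP_9d59e9_gt, project KO3: Walker's identity (`S_Wkr`)
-/

set_option autoImplicit false

namespace Pool.Agent.Lib.MP_9d59e9_gt.KO3

open KO

theorem tWkr : S_Wkr := by
  intro V _ _ B R Ro hB hR hop y z c d p q
  have key : ∀ y z c d p q : V, act4 (Ro y z) R c d p q
      = B (Ro p q d) (Ro y z c) - B (Ro p q c) (Ro y z d)
        + B (Ro c d q) (Ro y z p) - B (Ro c d p) (Ro y z q) := by
    intro y z c d p q
    have h1 : R (Ro y z c) d p q = -(B (Ro p q d) (Ro y z c)) := by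
      rw [← hR.sw (Ro y z c) d p q, hR.a34 p q d (Ro y z c), hop]
    have h2 : R c (Ro y z d) p q = B (Ro p q c) (Ro y z d) := by
      rw [← hR.sw c (Ro y z d) p q, hop]
    have h3 : R c d (Ro y z p) q = -(B (Ro c d q) (Ro y z p)) := by
      rw [hR.a34 c d q (Ro y z p), hop]
    have h4 : R c d p (Ro y z q) = B (Ro c d p) (Ro y z q) := by
      rw [hop]
    unfold act4
    rw [h1, h2, h3, h4]
    ring
  rw [key y z c d p q, key c d p q y z, key p q y z c d]
  have s1 := hB.symm (Ro p q d) (Ro y z c)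
  have s2 := hB.symm (Ro p q c) (Ro y z d)
  have s3 := hB.symm (Ro c d q) (Ro y z p)
  have s4 := hB.symm (Ro c d p) (Ro y z q)
  have s5 := hB.symm (Ro p q z) (Ro c d y)
  have s6 := hB.symm (Ro p q y) (Ro c d z)
  linarith

end Pool.Agent.Lib.MP_9d59e9_gt.KO3
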