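import Mathlib
import Pool.Agent.Lib.MP_9d59e9_gt.KO3.Pol
import Pool.Agent.Lib.MP_9d59e9_gt.KO3.Two
import Pool.Agent.Lib.MP_9d59e9_gt.KO3.Wkr
import Pool.Agent.Lib.MP_9d59e9_gt.KO3.Eqv
import Pool.Agent.Lib.MP_9d59e9_gt.KO3.Prp
import Pool.Agent.Lib.MP_9d59e9_gt.KO3.Sur
import Pool.Agent.Lib.MP_9d59e9_gt.KO3.GenV
import Pool.Agent.Lib.MP_9d59e9_gt.KO3.GenD
import Pool.Agent.Lib.MP_9d59e9_gt.KO3.Ci4
import Pool.Agent.Lib.MP_9d59e9_gt.KO3.Ci23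
import Pool.Agent.Lib.MP_9d59e9_gt.KO3.CIn
import Pool.Agent.Lib.MP_9d59e9_gt.KO3.Nfm
import Pool.Agent.Lib.MP_9d59e9_gt.KO3.Pnt
import Pool.Agent.Lib.MP_9d59e9_gt.KO3.KNa
import Pool.Agent.Lib.MP_9d59e9_gt.KO3.KNb
import Pool.Agent.Lib.MP_9d59e9_gt.KO3.FA
import Pool.Agent.Lib.MP_9d59e9_gt.KO3.FB
import Pool.Agent.Lib.MP_9d59e9_gt.KO3.Adj
import Pool.Agent.Lib.MP_9d59e9_gt.KO3.Inv
import Pool.Agent.Lib.MP_9d59e9_gt.KO3.Dz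
import Pool.Agent.Lib.MP_9d59e9_gt.KO3.CvP
import Pool.Agent.Lib.MP_9d59e9_gt.KO3.Frm
import Pool.Agent.Lib.MP_9d59e9_gt.KO3.NsC
import Pool.Agent.Lib.MP_9d59e9_gt.KO3.NsO
import Pool.Agent.Lib.MP_9d59e9_gt.KO3.Bi4
import Pool.Agent.Lib.MP_9d59e9_gt.KO3.Br3
import Pool.Agent.Lib.MP_9d59e9_gt.KO3.T3
import Pool.Agent.Lib.MP_9d59e9_gt.KO3.Rc4
import Pool.Agent.Lib.MP_9d59e9_gt.KO3.RcD
import Pool.Agent.Lib.MP_9d59e9_gt.KO3.Wlk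
import Pool.Agent.Lib.MP_9d59e9_gt.KO3.Rns
import Pool.Agent.Lib.MP_9d59e9_gt.KO3.Rec
import Pool.Agent.Lib.MP_9d59e9_gt.KO3.Cb1
import Pool.Agent.Lib.MP_9d59e9_gt.KO3.Cb2
import Pool.Agent.Lib.MP_9d59e9_gt.KO3.Uni
import Pool.Agent.Lib.MP_9d59e9_gt.KO3.OrC
import Pool.Agent.Lib.MP_9d59e9_gt.KO3.Ksm
import Pool.Agent.Lib.MP_9d59e9_gt.KO3.Kz1
import Pool.Agent.Lib.MP_9d59e9_gt.KO3.Kz2
import Pool.Agent.Lib.MP_9d59e9_gt.KO3.Kz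
import Pool.Agent.Lib.MP_9d59e9_gt.KO3.Om
import Pool.Agent.Lib.MP_9d59e9_gt.KO3.Mf
import Pool.Agent.Lib.MP_9d59e9_gt.KO3.Ca1
import Pool.Agent.Lib.MP_9d59e9_gt.KO3.Ca2
import Pool.Agent.Lib.MP_9d59e9_gt.KO3.Th3
import Pool.Agent.Lib.MP_9d59e9_gt.KO3.En3
import Pool.Agent.Lib.MP_9d59e9_gt.KO3.Cnn

/-!
# MP_9d59e9_gt, project KO3: assembly
-/

set_option autoImplicit false

namespace Pool.Agent.Lib.MP_9d59e9_gt.KO3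

open scoped BigOperators ContDiff
open KO

theorem sPol : S_Pol := tPol
theorem sTwo : S_Two := tTwo sPol
theorem sWkr : S_Wkr := tWkr
theorem sEqv : S_Eqv := tEqv
theorem sPrp : S_Prp := tPrp
theorem sSur : S_Sur := tSur
theorem sGenV : S_GenV := tGenV sSur
theorem sGenD : S_GenD := tGenD sSur
theorem sCi4 : S_Ci4 := tCi4
theorem sCi23 : S_Ci23 := tCi23
theorem sCIn : S_CIn := tCIn sCi4
theorem sNfm : S_Nfm := tNfm sCi23 sCIn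
theorem sPnt : S_Pnt := tPnt sTwo sEqv sGenD sNfm
theorem sKNa : S_KNa := tKNa
theorem sKNb : S_KNb := tKNb
theorem sFA : S_FA := tFA sKNa sKNb sGenV sCIn
theorem sFB : S_FB := tFB sKNa sKNb sPrp
theorem sAdj : S_Adj := tAdj
theorem sInv : S_Inv := tInv sAdj
theorem sDz : S_Dz := tDz
theorem sCvP : S_CvP := tCvP
theorem sFrm : S_Frm := tFrm
theorem sNsC : S_NsC := tNsC
theorem sNsO : S_NsO := tNsO
theorem sBi4 : S_Bi4 := tBi4 sCvP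
theorem sBr3 : S_Br3 := tBr3
theorem sT3 : S_T3 := tT3 sBi4 sFrm
theorem sRc4 : S_Rc4 := tRc4
theorem sRcD : S_RcD := tRcD sRc4 sCvP
theorem sWlk : S_Wlk := tWlk sWkr sRc4 sCvP
theorem sRns : S_Rns := tRns
theorem sRec : S_Rec := tRec
theorem sCb1 : S_Cb1 := tCb1 sRec sRc4 sInv sFrm
theorem sCb2 : S_Cb2 := tCb2 sGenV sCvP sCIn sDz sFrm
theorem sUni : S_Uni := tUni
theorem sOrC : S_OrC := tOrC sCvP
theorem sKsm : S_Ksm := tKsm sFrm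
theorem sKz1 : S_Kz1 := tKz1 sCvP sOrC
theorem sKz2 : S_Kz2 := tKz2 sCvP sOrC sKz1 sPrp sFrm
theorem sKz : S_Kz := tKz sKsm sKz2 sFrm
theorem sOm : S_Om := tOm
theorem sMf : S_Mf := tMf sCvP
theorem sCa1 : S_Ca1 := tCa1 sUni sWlk sRns sTwo sPnt sFrm
theorem sCa2 : S_Ca2 := tCa2 sKz sOm sMf sRc4 sRcD sFA sFB sPrp sFrm
theorem sTh3 : S_Th3 := tTh3 sCb1 sCb2 sCa1 sCa2
theorem sEn3 : S_En3 := tEn3 sNsC sNsO sBr3 sT3 sTh3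

/-- the statement of the hand-in -/
theorem sFin3 {n : ℕ} (hn : 3 ≤ n) (g : Pt n → Matrix (Fin n) (Fin n) ℝ) (Ω : Set (Pt n))
    (hg : IsMetricOn g Ω) (hΩ : IsPreconnected Ω) (t : ℕ → List (Fin n) → Pt n → ℝ)
    (ht : ∀ m l, ContDiffOn ℝ ∞ (t m l) Ω)
    (hKS : ∀ x ∈ Ω, KSAt g 3 (fun m l => t m l x) x)
    (p : Pt n) (hp : p ∈ Ω) (hns : NonSing g p) :
    ∀ x ∈ Ω, ∀ a c b m q, nablaR g 1 a [c, b, m, q] x = 0 :=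
  tCnn hg hΩ (fun q hq hnq => sEn3 n g Ω hn hg t ht hKS q hq hnq) hp hns

end Pool.Agent.Lib.MP_9d59e9_gt.KO3
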