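import Pool.Agent.Lib.MP_9d59e9_gt.KO3.Spec

set_option autoImplicit false

namespace Pool.Agent.Lib.MP_9d59e9_gt.KO3

open scoped BigOperators
open KO

private lemma Ci23_two {m : ℕ} {S : Fin m → Fin m → Fin m → ℝ}
    (hS : ∀ a b c, S a c b = S a b c) (hr : ∀ i j, i ≠ j → ∀ a b c, rt3 i j S a b c = 0)
    {u v : Fin m} (huv : u ≠ v) : S u u u = 0 ∧ S v u v = 0 ∧ S u v v = 0 ∧ S v v u = 0 := by
  have hvu := huv.symm
  have h1 := hr u v huv v u u
  have h2 := hr u v huv u u v
  have h3 := hr u v huv v v v
  have s1 := hS v u v
  have s2 := hS u u v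
  simp only [rt3, if_true, if_neg huv, if_neg hvu] at h1 h2 h3
  refine ⟨?_, ?_, ?_, ?_⟩ <;> linarith

theorem tCi23 : S_Ci23 := by
  refine ⟨?_, ?_⟩
  · intro m h hm hs hr
    have hoff : ∀ i j, i ≠ j → h i j = 0 := by
      intro i j hij
      have h1 := hr i j hij i i
      have h2 := hs i j
      simp only [rt2, if_true, if_neg hij] at h1
      linarith
    have hdiag : ∀ i j, h i i = h j j := by
      intro i j
      by_cases hij : i = j
      · rw [hij]
      · have h1 := hr i j hij i j
        simp only [rt2, if_true, if_neg hij, if_neg (Ne.symm hij)] at h1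
        linarith
    refine ⟨h ⟨0, by omega⟩ ⟨0, by omega⟩, ?_⟩
    intro a b
    by_cases hab : a = b
    · rw [if_pos hab, hab]; exact hdiag _ _
    · rw [if_neg hab]; exact hoff a b hab
  · intro m S hm hS hr a b c
    by_cases hab : a = b
    · subst hab
      by_cases hac : a = c
      · subst hac
        -- all three equal: choose a different index
        have hex : ∃ v : Fin m, a ≠ v := by
          by_cases h0 : a = ⟨0, by omega⟩
          · refine ⟨⟨1, by omega⟩, ?_⟩
            rw [h0]
            simp
          · exact ⟨⟨0, by omega⟩, h0⟩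
        obtain ⟨v, hv⟩ := hex
        exact (Ci23_two hS hr hv).1
      · -- S a a c, a ≠ c
        have h1 := (Ci23_two hS hr (u := c) (v := a) (Ne.symm hac)).2.2.2
        exact h1
    · by_cases hac : a = c
      · subst hac
        -- S a b a
        exact (Ci23_two hS hr (u := b) (v := a) (Ne.symm hab)).2.1
      · by_cases hbc : b = c
        · subst hbc
          exact (Ci23_two hS hr (u := a) (v := b) hab).2.2.1
        · -- distinct
          have anti : ∀ u v w : Fin m, u ≠ v → u ≠ w → v ≠ w → S v u w = -S u v w := by
            intro u v w huv huw hvw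
            have h1 := hr u v huv u u w
            simp only [rt3, if_true, if_neg huv, if_neg (Ne.symm huw), if_neg (Ne.symm hvw)] at h1
            linarith
          have e1 := anti a b c hab hac hbc
          have e2 := anti a c b hac hab (Ne.symm hbc)
          have e3 := anti b c a hbc (Ne.symm hab) (Ne.symm hac)
          have s1 := hS a b c
          have s2 := hS b a c
          have s3 := hS c a b
          linarith

end Pool.Agent.Lib.MP_9d59e9_gt.KO3
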