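import Pool.Agent.Lib.MP_9d59e9_gt.KO.All

/-!
# MP_9d59e9_gt, project KO3: definitions

The definitions of project KO are used (`KO/Defs.lean`: `Pt`, `curv`, `nablaR`, `KSAt`, `IsMetricOn`,
`TF`, `Sm`, `ev`, `e1, …, e6`, `D`, `ip`, `Rv`, `R4`, `N`, `N2`, `up`, `Nv`, `Cv`, `Lin1`, `IP`,
`Crvt`, `Dcrv`, `act4`, `act5`).

First part: the only new definition of the final statement.  Second part: internal formalism.
-/

set_option autoImplicit false

namespace Pool.Agent.Lib.MP_9d59e9_gt.KO3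

open scoped BigOperators ContDiff
open KO

noncomputable section

/-! ## part 1: final statement -/

/-- the curvature operator `w ↦ w^{mp} R^a_{b m p}` on 2-vectors is injective at `x` -/
def NonSing {n : ℕ} (g : Pt n → Matrix (Fin n) (Fin n) ℝ) (x : Pt n) : Prop :=
  ∀ w : Fin n → Fin n → ℝ, (∀ m p, w p m = -w m p) →
    (∀ a b, ∑ m, ∑ p, w m p * curv g a b m p x = 0) → ∀ m p, w m p = 0

/-! ## part 2: tensor fields -/

/-- `∇³R` -/
def N3 {n : ℕ} (g : Pt n → Matrix (Fin n) (Fin n) ℝ) : TF n 7 := D g (N2 g)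

/-- evaluation of tensor fields of rank `7` -/
def e7 {n : ℕ} (T : TF n 7) (x a b c d e f h : Pt n) : ℝ := ev T x ![a, b, c, d, e, f, h]

/-- the dual vector of a 1-form -/
def du {n : ℕ} (g : Pt n → Matrix (Fin n) (Fin n) ℝ) (θ : TF n 1) (x : Pt n) : Pt n :=
  up g θ x ![]

/-! ## part 3: algebra -/

section algebra
variable {V : Type} [AddCommGroup V] [Module ℝ V]

/-- linear map -/
structure LinE (Φ : V → V) : Prop where
  add : ∀ a b, Φ (a + b) = Φ a + Φ b
  smul : ∀ (r : ℝ) a, Φ (r • a) = r • Φ a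

/-- nonsingular curvature operator -/
def NSi (B : V → V → ℝ) (R : V → V → V → V → ℝ) : Prop :=
  ∀ (m : ℕ) (h : Fin m → V) (w : Fin m → Fin m → ℝ),
    (∀ i j, B (h i) (h j) = if i = j then 1 else 0) → (∀ i j, w j i = -w i j) →
    (∀ a b, ∑ i, ∑ j, w i j * R (h i) (h j) a b = 0) → ∀ i j, w i j = 0

/-- orthonormal basis -/
structure Fr (B : V → V → ℝ) {n : ℕ} (f : Fin n → V) : Prop where
  on : ∀ i j, B (f i) (f j) = if i = j then 1 else 0
  ex : ∀ v, v = ∑ i, B v (f i) • f i

/-- inner product on a space of dimension `m + 1`: every unit vector is the first vector of an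
orthonormal basis -/
structure Eu (B : V → V → ℝ) (m : ℕ) : Prop where
  ip : IP B
  ex : ∃ e, B e e = 1
  fr : ∀ e, B e e = 1 → ∃ f : Fin (m + 1) → V, Fr B f ∧ f 0 = e

/-- the endomorphism `u ∧ v : a ↦ ⟨v, a⟩ u - ⟨u, a⟩ v` -/
def wd (B : V → V → ℝ) (u v a : V) : V := B v a • u - B u a • v

/-- the curvature tensor of constant curvature one -/
def G0 (B : V → V → ℝ) (a b c d : V) : ℝ := B a d * B b c - B a c * B b d

/-- the 5-tensor `F(ψ)(z; a, b, c, d)` -/
def FF (B : V → V → ℝ) (ψ : V → ℝ) (z a b c d : V) : ℝ :=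
  2 * ψ z * G0 B a b c d + ψ a * G0 B z b c d + ψ b * G0 B a z c d + ψ c * G0 B a b z d
    + ψ d * G0 B a b c z

/-- the 5-tensor `Θ(θ)(z; a, b, c, d)` -/
def TT (B : V → V → ℝ) (θ : V → ℝ) (z a b c d : V) : ℝ :=
  θ z * (θ a * θ c * B b d + θ b * θ d * B a c - θ a * θ d * B b c - θ b * θ c * B a d)

/-- the Walker type expression `W(θ)[N](y, z, c, d, p, q)` -/
def WW (θ : V → ℝ) (N : V → V → V → V → V → ℝ) (y z c d p q : V) : ℝ :=
  θ y * N z c d p q - θ z * N y c d p q + θ c * N d p q y z - θ d * N c p q y z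
    + θ p * N q y z c d - θ q * N p y z c d

/-- action of an endomorphism on a 2-tensor -/
def act2 (Φ : V → V) (S : V → V → ℝ) (a b : V) : ℝ := -(S (Φ a) b + S a (Φ b))

/-- action of an endomorphism on a 6-tensor -/
def act6 (Φ : V → V) (M : V → V → V → V → V → V → ℝ) (a b c d e f : V) : ℝ :=
  -(M (Φ a) b c d e f + M a (Φ b) c d e f + M a b (Φ c) d e f + M a b c (Φ d) e f
    + M a b c d (Φ e) f + M a b c d e (Φ f))

/-- Kulkarni–Nomizu product with the metric -/
def KN (B : V → V → ℝ) (S : V → V → ℝ) (a b c d : V) : ℝ :=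
  B a d * S b c + S a d * B b c - B a c * S b d - S a c * B b d

/-- symmetric bilinear form -/
structure SyB (S : V → V → ℝ) : Prop where
  lin : ∀ b, Lin1 fun a => S a b
  symm : ∀ a b, S a b = S b a

/-- 4-linear form -/
structure Ml4 (S : V → V → V → V → ℝ) : Prop where
  l1 : ∀ b c d, Lin1 fun a => S a b c d
  l2 : ∀ a c d, Lin1 fun b => S a b c d
  l3 : ∀ a b d, Lin1 fun c => S a b c d
  l4 : ∀ a b c, Lin1 fun d => S a b c d

/-- the algebraic situation at a point: curvature tensor with its operator, nonsingular -/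
structure Alg (B : V → V → ℝ) (m : ℕ) (R : V → V → V → V → ℝ) (Ro : V → V → V → V) : Prop where
  eu : Eu B m
  two : 2 ≤ m
  cR : Crvt R
  op : ∀ u v w z, B (Ro u v w) z = R u v w z
  ns : NSi B R

end algebra

/-- infinitesimal rotation in the plane `i, j` (`e_i ↦ -e_j`, `e_j ↦ e_i`) on arrays with two
indices -/
def rt2 {m : ℕ} (i j : Fin m) (h : Fin m → Fin m → ℝ) (a b : Fin m) : ℝ :=
  ((if a = i then -h j b else 0) + if a = j then h i b else 0)
    + ((if b = i then -h a j else 0) + if b = j then h a i else 0)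

/-- the same on arrays with three indices -/
def rt3 {m : ℕ} (i j : Fin m) (S : Fin m → Fin m → Fin m → ℝ) (a b c : Fin m) : ℝ :=
  ((if a = i then -S j b c else 0) + if a = j then S i b c else 0)
    + ((if b = i then -S a j c else 0) + if b = j then S a i c else 0)
    + ((if c = i then -S a b j else 0) + if c = j then S a b i else 0)

/-- the same on arrays with four indices -/
def rt4 {m : ℕ} (i j : Fin m) (W : Fin m → Fin m → Fin m → Fin m → ℝ) (a b c d : Fin m) : ℝ :=
  ((if a = i then -W j b c d else 0) + if a = j then W i b c d else 0)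
    + ((if b = i then -W a j c d else 0) + if b = j then W a i c d else 0)
    + ((if c = i then -W a b j d else 0) + if c = j then W a b i d else 0)
    + ((if d = i then -W a b c j else 0) + if d = j then W a b c i else 0)

/-! ## part 4: the geometric data -/

/-- the data of the theorem in the internal formalism (`t₃` is already known to be `0`) -/
structure KS3 {n : ℕ} (g : Pt n → Matrix (Fin n) (Fin n) ℝ) (Ω : Set (Pt n)) (t1 : TF n 1)
    (t2 : TF n 2) : Prop where
  met : IsMetricOn g Ω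
  s1 : Sm Ω t1
  s2 : Sm Ω t2
  ks : ∀ x ∈ Ω, ∀ a b c u v w z, e7 (N3 g) x a b c u v w z
    + e1 t1 x a * e6 (N2 g) x b c u v w z + e2 t2 x a b * e5 (N g) x c u v w z = 0
  ns : ∀ x ∈ Ω, NSi (ip g x) (e4 (R4 g) x)

/-- `θ` is a smooth 1-form of length one on `U` -/
structure Unit1 {n : ℕ} (g : Pt n → Matrix (Fin n) (Fin n) ℝ) (U : Set (Pt n)) (θ : TF n 1) :
    Prop where
  sm : Sm U θ
  one : ∀ x ∈ U, ip g x (du g θ x) (du g θ x) = 1
  dual : ∀ x ∈ U, ∀ v, e1 θ x v = ip g x (du g θ x) v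

/-- normal form of `∇R` on `U` (the two coefficients are not assumed to be smooth) -/
def NF {n : ℕ} (g : Pt n → Matrix (Fin n) (Fin n) ℝ) (U : Set (Pt n)) (θ : TF n 1) : Prop :=
  ∀ x ∈ U, ∃ κ k : ℝ, ∀ z a b c d, e5 (N g) x z a b c d
    = κ * FF (ip g x) (e1 θ x) z a b c d + k * TT (ip g x) (e1 θ x) z a b c d

/-- mutually orthogonal -/
def Orth {n : ℕ} (g : Pt n → Matrix (Fin n) (Fin n) ℝ) (x a b c : Pt n) : Prop :=
  ip g x a b = 0 ∧ ip g x a c = 0 ∧ ip g x b c = 0

/-- the values of `∇R` on orthogonal triples, with a smooth coefficient -/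
structure NO {n : ℕ} (g : Pt n → Matrix (Fin n) (Fin n) ℝ) (U : Set (Pt n)) (θ : TF n 1)
    (k : Pt n → ℝ) : Prop where
  sm : ContDiffOn ℝ ∞ k U
  val : ∀ x ∈ U, ∀ z a b, Orth g x z a b → e5 (N g) x z z a z b
    = k x * (ip g x z z * (e1 θ x z * (e1 θ x a * e1 θ x b)))

end

end Pool.Agent.Lib.MP_9d59e9_gt.KO3
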