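import Pool.Agent.Lib.MP_9d59e9_gt.KO3.Spec

/-!
# MP_9d59e9_gt, project KO3: module Dz (Schur)
-/

set_option autoImplicit false

namespace Pool.Agent.Lib.MP_9d59e9_gt.KO3

open KO

theorem tDz : S_Dz := by
  intro V _ _ B m hEu hm N hN hκ z a b c d
  obtain ⟨κ, hκz⟩ := hκ z
  by_cases hz : z = 0
  · have h := (hN.lin a b c d).smul 0 z
    simp only [zero_smul, zero_mul] at h
    rw [hz]
    exact h
  · have hpos : 0 < B z z := hEu.ip.pos z hz
    have hr : 0 < Real.sqrt (B z z) := Real.sqrt_pos.mpr hpos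
    have hrr : Real.sqrt (B z z) * Real.sqrt (B z z) = B z z := Real.mul_self_sqrt hpos.le
    have hee : B ((Real.sqrt (B z z))⁻¹ • z) ((Real.sqrt (B z z))⁻¹ • z) = 1 := by
      have h1 : ∀ r : ℝ, B (r • z) (r • z) = r * (r * B z z) := by
        intro r
        rw [(hEu.ip.lin (r • z)).smul, hEu.ip.symm z (r • z), (hEu.ip.lin z).smul]
      rw [h1]
      have h2 : (Real.sqrt (B z z))⁻¹ * ((Real.sqrt (B z z))⁻¹
          * (Real.sqrt (B z z) * Real.sqrt (B z z))) = 1 := by
        field_simp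
      rwa [hrr] at h2
    obtain ⟨f, hf, hf0⟩ := hEu.fr _ hee
    have hzf : z = Real.sqrt (B z z) • f 0 := by
      rw [hf0, smul_smul, mul_inv_cancel₀ hr.ne', one_smul]
    let i1 : Fin (m + 1) := ⟨1, by omega⟩
    let i2 : Fin (m + 1) := ⟨2, by omega⟩
    have h01 : (0 : Fin (m + 1)) ≠ i1 := by
      intro h
      have := congrArg Fin.val h
      simp [i1] at this
    have h02 : (0 : Fin (m + 1)) ≠ i2 := by
      intro h
      have := congrArg Fin.val h
      simp [i2] at this
    have h12 : i1 ≠ i2 := by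
      intro h
      have := congrArg Fin.val h
      simp [i1, i2] at this
    have hz1 : B z (f i1) = 0 := by
      have h := (hEu.ip.lin (f i1)).smul (Real.sqrt (B z z)) (f 0)
      simp only [← hzf] at h
      rw [h, hf.on, if_neg h01, mul_zero]
    have hz2 : B z (f i2) = 0 := by
      have h := (hEu.ip.lin (f i2)).smul (Real.sqrt (B z z)) (f 0)
      simp only [← hzf] at h
      rw [h, hf.on, if_neg h02, mul_zero]
    have h11 : B (f i1) (f i1) = 1 := by rw [hf.on, if_pos rfl]
    have h22 : B (f i2) (f i2) = 1 := by rw [hf.on, if_pos rfl]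
    have hx12 : B (f i1) (f i2) = 0 := by rw [hf.on, if_neg h12]
    have hx21 : B (f i2) (f i1) = 0 := by rw [hf.on, if_neg h12.symm]
    obtain ⟨κ1, hκ1⟩ := hκ (f i1)
    obtain ⟨κ2, hκ2⟩ := hκ (f i2)
    have hb := hN.bi2 z (f i1) (f i2) (f i2) (f i1)
    rw [hκz, hκ1, hκ2] at hb
    simp only [G0, hz1, hz2, h11, h22, hx12, hx21] at hb
    have hk : κ = 0 := by linarith
    rw [hκz, hk, zero_mul]

end Pool.Agent.Lib.MP_9d59e9_gt.KO3
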