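import Pool.Agent.Lib.MP_9d59e9_gt.KO3.Spec

/-!
# MP_9d59e9_gt, project KO3: module Kz

The second coefficient of the normal form of `∇R` vanishes.
-/

set_option autoImplicit false

namespace Pool.Agent.Lib.MP_9d59e9_gt.KO3

open scoped BigOperators ContDiff Topology
open Set KO

noncomputable section

/-- if all values of a tensor field of rank two vanish at a point, so do its components -/
private theorem Kz_comp {n : ℕ} (T : TF n 2) (x : Pt n) (h : ∀ X v, e2 T x X v = 0)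
    (I : Fin 2 → Fin n) : T I x = 0 := by
  obtain ⟨-, -, h3, -⟩ := KO.sLin n x
  refine (h3 2 T).1 (fun v => ?_) I
  have h4 : v = ![v 0, v 1] := by
    ext i j
    fin_cases i <;> rfl
  rw [h4]
  exact h (v 0) (v 1)

/-- the covariant derivative of a tensor field vanishing near a point -/
private theorem Kz_D {n k : ℕ} (g : Pt n → Matrix (Fin n) (Fin n) ℝ) (T : TF n k) (x : Pt n)
    (h : ∀ I, ∀ᶠ y in 𝓝 x, T I y = 0) (v : Fin (k + 1) → Pt n) : ev (D g T) x v = 0 := by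
  unfold ev
  refine Finset.sum_eq_zero fun I _ => ?_
  have h1 : D g T I x = 0 := by
    unfold D pd
    have h2 : T (Fin.tail I) =ᶠ[𝓝 x] fun _ => (0 : ℝ) := h (Fin.tail I)
    rw [h2.fderiv_eq]
    have h3 : ∑ j : Fin k, ∑ s, Gam g s (I 0) (I j.succ) x
        * T (Function.update (Fin.tail I) j s) x = 0 := by
      refine Finset.sum_eq_zero fun j _ => Finset.sum_eq_zero fun s _ => ?_
      rw [(h (Function.update (Fin.tail I) j s)).self_of_nhds, mul_zero]
    rw [h3]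
    simp
  rw [h1, zero_mul]

theorem tKz (hKsm : S_Ksm) (hKz2 : S_Kz2) (hFrm : S_Frm) : S_Kz := by
  intro n g U t1 t2 θ hn H hθ hNF x hx
  obtain ⟨k, hNO, hk⟩ := hKsm n g U θ hn H.met hθ hNF
  obtain ⟨κ, hκ⟩ := hk x hx
  by_cases h0 : k x = 0
  · refine ⟨κ, fun z a b c d => ?_⟩
    rw [hκ z a b c d, h0]
    ring
  exfalso
  have hU : ∀ᶠ y in 𝓝 x, y ∈ U := H.met.isOpen.mem_nhds hx
  have hkc : ContinuousAt k x := hNO.sm.continuousOn.continuousAt hU
  have hkn : ∀ᶠ y in 𝓝 x, k y ≠ 0 := hkc.eventually_ne h0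
  have hD1 : ∀ I, ∀ᶠ y in 𝓝 x, D g θ I y = 0 := by
    intro I
    filter_upwards [hU, hkn] with y hy hky
    exact Kz_comp (D g θ) y (fun X v => hKz2 n g U t1 t2 θ k hn H hθ hNO y hy hky X v) I
  have hD2 := Kz_D g (D g θ) x hD1
  have hR1 : ∀ X Y w, e1 θ x (Rv g x X Y w) = 0 := by
    intro X Y w
    have h1 := KO.sRic n g U H.met x hx 1 θ hθ.sm X Y ![w]
    rw [hD2, hD2, Fin.sum_univ_one] at h1
    have h2 : Function.update (![w] : Fin 1 → Pt n) 0 (Rv g x X Y ((![w] : Fin 1 → Pt n) 0))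
        = ![Rv g x X Y w] := by
      ext i j
      fin_cases i
      rfl
    rw [h2] at h1
    unfold e1
    linarith
  obtain ⟨hC, hop, -, -⟩ := KO.sSym n g U H.met x hx
  have hEu : Eu (ip g x) (n - 1) := hFrm n (n - 1) g x (by omega) (H.met.pos x hx)
  have he1 : ip g x (du g θ x) (du g θ x) = 1 := hθ.one x hx
  have hR2 : ∀ X Y w, e4 (R4 g) x X Y w (du g θ x) = 0 := by
    intro X Y w
    rw [← hop X Y w (du g θ x), hEu.ip.symm, ← hθ.dual x hx]
    exact hR1 X Y w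
  have hR3 : ∀ w X Y, e4 (R4 g) x w (du g θ x) X Y = 0 := by
    intro w X Y
    rw [hC.sw X Y w (du g θ x)]
    exact hR2 X Y w
  have hR4 : ∀ w X Y, e4 (R4 g) x (du g θ x) w X Y = 0 := by
    intro w X Y
    rw [hC.a12 w (du g θ x) X Y, hR3, neg_zero]
  obtain ⟨f, hf, hf0⟩ := hEu.fr _ he1
  have hlt : 1 < n - 1 + 1 := by omega
  have h01 : (0 : Fin (n - 1 + 1)) ≠ ⟨1, hlt⟩ := by
    intro h
    have := congrArg Fin.val h
    simp at this
  have e01 : ip g x (du g θ x) (f ⟨1, hlt⟩) = 0 := by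
    rw [← hf0, hf.on, if_neg h01]
  have e10 : ip g x (f ⟨1, hlt⟩) (du g θ x) = 0 := by
    rw [hEu.ip.symm, e01]
  have e11 : ip g x (f ⟨1, hlt⟩) (f ⟨1, hlt⟩) = 1 := by
    rw [hf.on, if_pos rfl]
  have hfin := H.ns x hx 2 ![du g θ x, f ⟨1, hlt⟩] ![![0, 1], ![-1, 0]] (by
    intro i j
    fin_cases i <;> fin_cases j <;> simp [he1, e01, e10, e11]) (by
    intro i j
    fin_cases i <;> fin_cases j <;> simp) (by
    intro a b
    simp [Fin.sum_univ_two, hR3, hR4]) 0 1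
  simp at hfin

end

end Pool.Agent.Lib.MP_9d59e9_gt.KO3
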