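import Pool.Agent.Lib.MP_9d59e9_gt.KO3.Defs

/-!
# MP_9d59e9_gt, project KO3 (owner helper51): order 3, nonsingular curvature operator

THEOREM (`S_En3`).  Let `n ≥ 3`, `g` a smooth Riemannian metric on an open set `Ω ⊆ ℝⁿ` with
`∇³R + t¹ ⊗ ∇²R + t² ⊗ ∇R + t³ ⊗ R = 0` on `Ω` for some smooth `t¹, t², t³`.  Then `∇R = 0` at every
point at which the curvature operator `Λ² → Λ²` is injective.

Every `S_X` is a statement with its complete proof in the docstring; it is to be proved as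
`theorem tX (h… : the statements listed as Available, in that order) : S_X` in the file `X.lean` of
this directory.  The theorems of project KO are proved and can be used directly: `KO.sSmo`, `KO.sLin`,
`KO.sCrv`, `KO.sCvb`, `KO.sCvE`, `KO.sMet`, `KO.sOnb`, `KO.sUp`, `KO.sCvI`, `KO.sCvU`, `KO.sRic`,
`KO.sSym`, `KO.sCvR`, `KO.sOpn`, `KO.sBi2`, `KO.sBi3`, `KO.sBrg`, `KO.sSkw` (statements and proofs in
`KO/Spec.lean` and in the files of `KO/`).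

Notation: `R(u,v,w,z) = e4 (R4 g) x u v w z = g(R(u,v)w, z)`, `N(a;u,v,w,z) = (∇_a R)(u,v,w,z)`,
`M(a,b;…) = e6 (N2 g) x a b … = ∇²R`, `A(a,b,c;…) = e7 (N3 g) x a b c … = ∇³R`, `σ = -t₁`, so `ks` is
`A(a,b,c;…) = σ(a) M(b,c;…) - t₂(a,b) N(c;…)`.  `⟨a,b⟩ = B a b`.  For a covariant tensor `T` and a skew
endomorphism `Φ` the tensor `Φ.T` is `act Φ T`.

PLAN.  `T3`: `t₃ = 0`.  `Wlk`: every 1-form `θ = t₂(a,·)` satisfies `W(θ)[N] = 0`; two independent such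
forms give `N = 0` (`Two`).  If `t₂ = 0` on an open set: `R(x,y).∇²R = 0` (`Rec`), so `R(x,y).R = 0`
(`Inv`), so constant curvature (`Cb2`).  Otherwise there is a unit 1-form `θ` (dual `e`) with
`t₂ = c ⊗ θ`, `R(x,y)e = 0` for `x, y ∈ ker σ`, these `R(x,y)` generate `so(e^⊥)`, which kills `N`, so
`N = κ F(θ) + k Θ(θ)` (`Pnt`); second derivatives give `k = 0` (`Kz`); then `N = F(ψ)` and
`R = KN(P)` (`FA`), and one more identity gives a contradiction (`FB`).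
-/

set_option autoImplicit false

namespace Pool.Agent.Lib.MP_9d59e9_gt.KO3

open scoped BigOperators ContDiff
open Set KO

noncomputable section

/-! ## A. algebra of `N` -/

/-- **Pol** (a `(3,2)` tensor is determined by `N(u;u,v,u,v)`).  Proof.  (1) `N(u;u,v,u,w) = 0`:
replace `v` by `v + w`, the two mixed terms are equal by `sw`.  (2) Replace `u` by `u + s x` in (1): a
polynomial in `s` of degree 3 which vanishes for `s = 1, -1, 2` and without constant term, so its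
coefficients vanish; the coefficient of `s` is
`N(x;u,v,u,w) + N(u;x,v,u,w) + N(u;u,v,x,w) = 0`.   (a)
(3) Put `P(x;v,w) = N(x;u,v,u,w)`, symmetric in `v, w` (`sw`).  `bi2` for `(u,x,v)` on `(u,w)`:
`N(u;x,v,u,w) = -N(x;v,u,u,w) - N(v;u,x,u,w) = P(x;v,w) - P(v;x,w)`, and
`N(u;u,v,x,w) = N(u;x,w,u,v) = P(x;w,v) - P(w;x,v)`.  So (a) says `3 P(x;v,w) = P(v;x,w) + P(w;x,v)`.
With `a = P(x;v,w)`, `b = P(v;x,w)`, `c = P(w;x,v)`: `3a = b + c`, `3b = a + c`, `3c = a + b`, so all are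
`0`.  (4) So `N(x;u,v,u,w) = 0`, hence (replace `u` by `u + u'`) `N(x;u,v,u',w) = -N(x;u',v,u,w)`; with
`a12`: `N(x;a,c,b,d) = -N(x;c,a,b,d) = N(x;b,a,c,d) = -N(x;a,b,c,d)`, so in
`N(x;a,b,c,d) + N(x;b,c,a,d) + N(x;c,a,b,d) = 0` all three terms are equal
(`N(x;b,c,a,d) = -N(x;a,c,b,d)`, `N(x;c,a,b,d) = -N(x;a,c,b,d)`). -/
def S_Pol : Prop :=
  ∀ (V : Type) [AddCommGroup V] [Module ℝ V] (N : V → V → V → V → V → ℝ), Dcrv N →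
    (∀ u v, N u u v u v = 0) → ∀ a b c d e, N a b c d e = 0

/-- **Two** (two independent forms).  Available: `S_Pol`.  Proof.  `W(θ)[N](u,v,u,v,u,v) =
3 (θ(u) N(v;u,v,u,v) - θ(v) N(u;u,v,u,v))`.  So if `Δ(u,v) = θ₁(u)θ₂(v) - θ₁(v)θ₂(u) ≠ 0` then
`N(u;u,v,u,v) = 0`.  For arbitrary `u, v` choose `u₀, v₀` with `Δ(u₀,v₀) ≠ 0`, put `u_s = u + s u₀`,
`v_s = v + s v₀`: `Δ(u_s,v_s) = Δ(u,v) + s (Δ(u₀,v) + Δ(u,v₀)) + s² Δ(u₀,v₀)` is a nonzero polynomial in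
`s`, so `Δ(u_s,v_s) ≠ 0` and hence `f(s) = N(u_s;u_s,v_s,u_s,v_s) = 0` for all but finitely many `s`; `f`
is a polynomial in `s` (expand by multilinearity), so continuous and `f(0) = 0`.  `S_Pol`. -/
def S_Two : Prop :=
  ∀ (V : Type) [AddCommGroup V] [Module ℝ V] (N : V → V → V → V → V → ℝ), Dcrv N →
    ∀ θ₁ θ₂ : V → ℝ, Lin1 θ₁ → Lin1 θ₂ → (∀ y z c d p q, WW θ₁ N y z c d p q = 0) →
      (∀ y z c d p q, WW θ₂ N y z c d p q = 0) → (∃ a b, θ₁ a * θ₂ b ≠ θ₁ b * θ₂ a) →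
      ∀ a b c d e, N a b c d e = 0

/-- **Wkr** (Walker's identity).  Proof.  Write `yz a = Ro y z a`.  `R(a,d,e,f) = R(e,f,a,d) =
⟨ef a, d⟩` and `⟨ef a, d⟩ = -⟨a, ef d⟩`.  So
`act4 (Ro y z) R (c,d,e,f) = ⟨yz c, ef d⟩ - ⟨ef c, yz d⟩ + ⟨yz e, cd f⟩ - ⟨cd e, yz f⟩`.
Add the same with `(yz, cd, ef)` replaced by `(cd, ef, yz)` and `(ef, yz, cd)`: everything cancels
(symmetry of `B`). -/
def S_Wkr : Prop :=
  ∀ (V : Type) [AddCommGroup V] [Module ℝ V] (B : V → V → ℝ) (R : V → V → V → V → ℝ)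
    (Ro : V → V → V → V), IP B → Crvt R → (∀ u v w z, B (Ro u v w) z = R u v w z) →
    ∀ y z c d p q, act4 (Ro y z) R c d p q + act4 (Ro c d) R p q y z
      + act4 (Ro p q) R y z c d = 0

/-- **Eqv** (equivariance of `W`).  Proof.  Add the six equations `W(θ)[N](Φy,z,c,d,p,q) = 0`, …,
`W(θ)[N](y,z,c,d,p,Φq) = 0`.  In the term `θ(y) N(z;c,d,p,q)` of `W` the insertion of `Φ` at `y` gives
`θ(Φy) N(z;c,d,p,q)` and the sum of the other five insertions is `-θ(y) act5 Φ N (z,c,d,p,q) = 0`; the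
same for the other five terms.  So the sum is `W(θ ∘ Φ)[N](y,z,c,d,p,q)`. -/
def S_Eqv : Prop :=
  ∀ (V : Type) [AddCommGroup V] [Module ℝ V] (N : V → V → V → V → V → ℝ) (θ : V → ℝ)
    (Φ : V → V), (∀ y z c d p q, WW θ N y z c d p q = 0) →
    (∀ z c d p q, act5 Φ N z c d p q = 0) →
    ∀ y z c d p q, WW (fun a => θ (Φ a)) N y z c d p q = 0

/-- **Prp** (a unit vector orthogonal to two given vectors, dimension `m + 1 ≥ 3`).  Proof.  If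
`a = 0` exchange `a` and `b`; if both are `0` take the vector `e` of `Eu.ex`.  So let `a ≠ 0`,
`e = a/√⟨a,a⟩`, `f` a frame with `f 0 = e`.  If `⟨b, f 1⟩ = 0` take `c = f 1`; otherwise
`c' = ⟨b, f 2⟩ f 1 - ⟨b, f 1⟩ f 2` is orthogonal to `a` and `b` and `⟨c',c'⟩ = ⟨b,f 2⟩² + ⟨b,f 1⟩² > 0`;
normalise. -/
def S_Prp : Prop :=
  ∀ (V : Type) [AddCommGroup V] [Module ℝ V] (B : V → V → ℝ) (m : ℕ), Eu B m → 2 ≤ m →
    ∀ a b, ∃ c, B c c = 1 ∧ B a c = 0 ∧ B b c = 0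

/-- **Sur** (the curvature operator is onto).  Let `h, d` be orthonormal families of the same length
`m`, and suppose that the operators `R(h_i,h_j)` live on the span of `d`.  Proof.  On the space `Sk` of
skew `m × m` matrices (a finite dimensional submodule of the matrices) consider the linear map
`L(w)_{kl} = ∑_{ij} w_{ij} R(h_i,h_j,d_k,d_l)` to `Sk`.  It is injective: let `L(w) = 0`.  Decompose
`a = a' + a''`, `a' = ∑ ⟨a,d_k⟩ d_k`, `a''` orthogonal to all `d_k`; by hypothesis (and `a34`)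
`R(h_i,h_j,a,b) = R(h_i,h_j,a',b')`, so `∑ w_{ij} R(h_i,h_j,a,b) = 0` for all `a, b` and `w = 0` by
`NSi`.  So `L` is surjective (`LinearMap.injective_iff_surjective`).  For the skew matrix
`Y_{kl} = ⟨(u∧v) d_k, d_l⟩ = ⟨v,d_k⟩⟨u,d_l⟩ - ⟨u,d_k⟩⟨v,d_l⟩` choose `w` with `L(w) = Y`.  For arbitrary `a, b`
both sides only depend on `a', b'` (`u, v` are in the span of `d`, so `⟨u,a''⟩ = 0 = ⟨v,a''⟩` and
`⟨(u∧v)a, b''⟩ = 0`), and they agree there by bilinearity. -/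
def S_Sur : Prop :=
  ∀ (V : Type) [AddCommGroup V] [Module ℝ V] (B : V → V → ℝ) (R : V → V → V → V → ℝ),
    IP B → Crvt R → NSi B R → ∀ (m : ℕ) (h d : Fin m → V),
      (∀ i j, B (h i) (h j) = if i = j then 1 else 0) →
      (∀ i j, B (d i) (d j) = if i = j then 1 else 0) →
      (∀ i j a b, (∀ k, B a (d k) = 0) → R (h i) (h j) a b = 0) →
      ∀ u v, u = ∑ k, B u (d k) • d k → v = ∑ k, B v (d k) • d k →
        ∃ w : Fin m → Fin m → ℝ, ∀ a b,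
          ∑ i, ∑ j, w i j * R (h i) (h j) a b = B (wd B u v a) b

/-- **GenV** (every rotation is a combination of curvature operators).  Available: `S_Sur`.
Proof: `S_Sur` with `h = d = f` a frame (`Eu.ex`, `Eu.fr`); a vector orthogonal to all `f k` is `0`
(`Fr.ex`).  Then `⟨(u∧v)a, b⟩ = ⟨∑ w_{ij} Ro (f i) (f j) a, b⟩` for all `b`, so the vectors agree. -/
def S_GenV : Prop :=
  ∀ (V : Type) [AddCommGroup V] [Module ℝ V] (B : V → V → ℝ) (m : ℕ) (R : V → V → V → V → ℝ)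
    (Ro : V → V → V → V), Alg B m R Ro → ∀ u v, ∃ (k : ℕ) (h : Fin k → V)
      (w : Fin k → Fin k → ℝ), ∀ a, wd B u v a = ∑ i, ∑ j, w i j • Ro (h i) (h j) a

/-- **GenD** (relative version).  Available: `S_Sur`.  Proof: frames `f` with `f 0 = ν` and `f'` with
`f' 0 = e` (`Eu.fr`); `S_Sur` with `h i = f i.succ`, `d k = f' k.succ` (length `m`).  If `a` is orthogonal
to all `d k` then `a = ⟨a,e⟩ e` and `R(h_i,h_j,a,b) = ⟨a,e⟩ R(h_i,h_j,e,b) = 0`.  `u, v ⊥ e` are in the span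
of `d`. -/
def S_GenD : Prop :=
  ∀ (V : Type) [AddCommGroup V] [Module ℝ V] (B : V → V → ℝ) (m : ℕ) (R : V → V → V → V → ℝ)
    (Ro : V → V → V → V), Alg B m R Ro → ∀ ν e, B ν ν = 1 → B e e = 1 →
      (∀ x y, B ν x = 0 → B ν y = 0 → ∀ a, R x y e a = 0) →
      ∀ u v, B e u = 0 → B e v = 0 → ∃ (k : ℕ) (h : Fin k → V) (w : Fin k → Fin k → ℝ),
        (∀ i, B ν (h i) = 0) ∧ ∀ a, wd B u v a = ∑ i, ∑ j, w i j • Ro (h i) (h j) a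

/-- **Ci4** (invariant curvature arrays).  Proof (`i, j, k, l` distinct).  (1) `rt4 j k` at
`(i,j,i,j)`: `-W_{ikij} - W_{ijik} = 0`, so `W_{ijik} = 0`.  (2) `rt4 j k` at `(i,j,i,k)`:
`W_{ijij} = W_{ikik}`.  (3) `rt4 j l` at `(i,j,k,j)`: `W_{ijkl} = -W_{ilkj}` (antisymmetric in slots 2, 4),
hence also in slots 1, 3: `W_{ijkl} = W_{jilk} = -W_{jkli} = -W_{kjil}`.  So
`W_{jkil} = -W_{kjil} = W_{ijkl}`, `W_{kijl} = -W_{ikjl} = W_{jkil} = W_{ijkl}`, and the Bianchi identity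
`W_{ijkl} + W_{jkil} + W_{kijl} = 0` gives `W_{ijkl} = 0`.  (4) By (2) and `W_{ijij} = W_{jiji}` all
`W_{ijij}`, `i ≠ j`, agree; call this `-κ` (`m ≥ 2`).  (5) By the symmetries all components are
determined: `0` if `i = j` or `k = l` or `{i,j} ≠ {k,l}`. -/
def S_Ci4 : Prop :=
  ∀ (m : ℕ) (W : Fin m → Fin m → Fin m → Fin m → ℝ), 2 ≤ m →
    (∀ a b c d, W b a c d = -W a b c d) → (∀ a b c d, W a b d c = -W a b c d) →
    (∀ a b c d, W c d a b = W a b c d) →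
    (∀ a b c d, W a b c d + W b c a d + W c a b d = 0) →
    (∀ i j, i ≠ j → ∀ a b c d, rt4 i j W a b c d = 0) →
    ∃ κ : ℝ, ∀ a b c d, W a b c d = κ * ((if a = d then 1 else 0) * (if b = c then 1 else 0)
      - (if a = c then 1 else 0) * (if b = d then 1 else 0))

/-- **Ci23** (invariant arrays with two and three indices).  Proof.  First statement (`i ≠ j`):
`rt2 i j` at `(i,j)`: `-h_{jj} + h_{ii} = 0`; at `(i,i)`: `-2 h_{ij} = 0`.  Second statement: for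
`u ≠ v`, `rt3 u v` at `(v,u,u)`: `S_{uuu} = 2 S_{vuv}` (symmetry in the last two); at `(u,u,v)`:
`-S_{vuv} - S_{uvv} + S_{uuu} = 0`; at `(v,v,v)`: `S_{uvv} + 2 S_{vuv} = 0`.  So `S_{uvv} = S_{vuv}`,
`3 S_{vuv} = 0`, and all components with at most two different indices vanish (also exchange `u` and
`v`).  For `u, v, w` distinct `rt3 u v` at `(u,u,w)`: `S_{vuw} = -S_{uvw}`: antisymmetric in slots 1, 2
and symmetric in slots 2, 3, so `S_{uvw} = -S_{vuw} = -S_{vwu} = S_{wvu} = S_{wuv} = -S_{uwv} = -S_{uvw}`. -/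
def S_Ci23 : Prop :=
  (∀ (m : ℕ) (h : Fin m → Fin m → ℝ), 2 ≤ m → (∀ a b, h a b = h b a) →
    (∀ i j, i ≠ j → ∀ a b, rt2 i j h a b = 0) →
    ∃ k : ℝ, ∀ a b, h a b = if a = b then k else 0) ∧
  ∀ (m : ℕ) (S : Fin m → Fin m → Fin m → ℝ), 2 ≤ m → (∀ a b c, S a c b = S a b c) →
    (∀ i j, i ≠ j → ∀ a b c, rt3 i j S a b c = 0) → ∀ a b c, S a b c = 0

/-- **CIn** (invariant curvature tensors).  Available: `S_Ci4`.  Proof.  First statement: the array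
`W (d a) (d b) (d c) (d d')`; for `i ≠ j`, `wd B (d i) (d j) (d a) = ⟨d_j,d_a⟩ d_i - ⟨d_i,d_a⟩ d_j` is `-d_j`
for `a = i`, `d_i` for `a = j` and `0` otherwise, so `rt4 i j` of the array is `-act4 (d_i ∧ d_j) W = 0`.
Second statement: the first one for a frame `f` (`Eu.ex`, `Eu.fr`, length `m + 1 ≥ 2`), and
multilinearity (both sides are curvature tensors; expand every vector by `Fr.ex`). -/
def S_CIn : Prop :=
  (∀ (V : Type) [AddCommGroup V] [Module ℝ V] (B : V → V → ℝ) (W : V → V → V → V → ℝ),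
    IP B → Crvt W → ∀ (m : ℕ) (d : Fin m → V), 2 ≤ m →
      (∀ i j, B (d i) (d j) = if i = j then 1 else 0) →
      (∀ i j k l p q, act4 (wd B (d i) (d j)) W (d k) (d l) (d p) (d q) = 0) →
      ∃ κ : ℝ, ∀ k l p q, W (d k) (d l) (d p) (d q) = κ * G0 B (d k) (d l) (d p) (d q)) ∧
  ∀ (V : Type) [AddCommGroup V] [Module ℝ V] (B : V → V → ℝ) (m : ℕ)
    (W : V → V → V → V → ℝ), Eu B m → 1 ≤ m → Crvt W →
      (∀ u v a b c d, act4 (wd B u v) W a b c d = 0) →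
      ∃ κ : ℝ, ∀ a b c d, W a b c d = κ * G0 B a b c d

/-- **Nfm** (normal form of `N`).  Available: `S_Ci23`, `S_CIn`.  Let `f` be a frame with `f 0 = e`,
`d_i = f i.succ` (`i : Fin m`), `D = e^⊥`, `W = W(B e)[N]`.  Proof.
(1) `z,c,d,p,q ∈ D`: `W(e,z,c,d,p,q) = 0` says `N(z;c,d,p,q) = 0`.
(2) `z,d,p,q ∈ D`: `W(e,z,e,d,p,q) = 0` says `N(z;e,d,p,q) = -N(d;p,q,e,z) = -N(d;e,z,p,q)`.
(3) `Q(z,q;c,d) = N(z;e,q,c,d)` on `D` is antisymmetric in `(z,q)` by (2) and in `(c,d)`, and the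
first Bianchi identity of `N(z;·)` for `(e,q,c,d)` says
`Q(z,q;c,d) + Q(z,c;d,q) + Q(z,d;q,c) = 0`.  These imply pair symmetry (add the identity for
`z|q,c,d` and `d|z,q,c`, subtract those for `q|z,c,d` and `c|z,q,d`: `2Q(z,q;c,d) - 2Q(c,d;z,q) = 0`).  So
`Q'(a,b,c,d) = N(πa;e,πb,πc,πd)`, `πa = a - ⟨e,a⟩ e`, is a curvature tensor; for `u, v ∈ D`
`(u∧v)e = 0`, so `act4 (u∧v) Q' = 0` on `D`; `S_CIn` (first part): `Q(a,b;c,d) = κ G0(a,b,c,d)` on the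
`d_i`.  (4) `bi2` for `(e,p,q)` on `(c,d)`: `N(e;p,q,c,d) = -N(p;q,e,c,d) - N(q;e,p,c,d) =
Q(p,q;c,d) - Q(q,p;c,d) = 2 Q(p,q;c,d)`.
(5) `S_{abc} = N(d_a;e,d_b,e,d_c)` is symmetric in `b, c` and `rt3 i j S = 0` (`act5 (d_i∧d_j) N = 0`),
so `S = 0` (`S_Ci23`).  (6) `bi2` for `(e,a,b)` on `(e,c)`: `N(e;a,b,e,c) = -N(a;b,e,e,c) - N(b;e,a,e,c) = 0`
on `D`, by `sw` `N(e;e,c,a,b) = 0`.  (7) `h_{ab} = N(e;e,d_a,e,d_b)` is symmetric and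
`rt2 i j h = 0`, so `h_{ab} = h δ_{ab}`; put `k = h + 4κ`.
(8) Compare `N` and `κ FF + k TT` on frame vectors.  Both sides have the symmetries `a12`, `a34`, `sw` in
the last four slots, so these cases are enough (`z,a,b,c,d` in `D` unless they are `e`):
`(z;a,b,c,d)`: `0`; `(z;e,b,c,d)`: `κ G0(z,b,c,d)`; `(z;e,b,e,d)`: `0`; `(e;a,b,c,d)`: `2κ G0(a,b,c,d)`;
`(e;e,b,c,d)`: `0`; `(e;e,b,e,d)`: `h⟨b,d⟩ = κ·(-4⟨b,d⟩) + k⟨b,d⟩`; two `e` in the same pair: `0`.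
(9) Multilinearity. -/
def S_Nfm : Prop :=
  ∀ (V : Type) [AddCommGroup V] [Module ℝ V] (B : V → V → ℝ) (m : ℕ), Eu B m → 2 ≤ m →
    ∀ N : V → V → V → V → V → ℝ, Dcrv N → ∀ e, B e e = 1 →
      (∀ y z c d p q, WW (B e) N y z c d p q = 0) →
      (∀ u v, B e u = 0 → B e v = 0 → ∀ z c d p q, act5 (wd B u v) N z c d p q = 0) →
      ∃ κ k : ℝ, ∀ z a b c d, N z a b c d = κ * FF B (B e) z a b c d + k * TT B (B e) z a b c d

/-- **Pnt** (normal form at a point).  Available: `S_Two`, `S_Eqv`, `S_GenD`, `S_Nfm`.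
Proof.  (1) Let `σ(x) = σ(y) = 0` and `Φ = Ro x y`; `Φ` is linear and skew (`⟨Φa,b⟩ = R(x,y,a,b)`,
nondegeneracy).  By `S_Eqv` `W(⟨e,Φ·⟩)[N] = 0`; as `N ≠ 0`, `S_Two` gives
`⟨e,Φa⟩⟨e,b⟩ = ⟨e,Φb⟩⟨e,a⟩` for all `a, b`; with `b = e`: `⟨e,Φa⟩ = ⟨e,Φe⟩⟨e,a⟩ = 0` (`R(x,y,e,e) = 0`).  So
`R(x,y,a,e) = 0` and `R(x,y,e,a) = 0` for all `a`.  (2) By Riesz `σ = ⟨s,·⟩`; let `ν = s/√⟨s,s⟩` if
`s ≠ 0` and `ν = e` if `s = 0`: `⟨ν,x⟩ = 0` implies `σ(x) = 0`.  (3) `S_GenD`: for `u, v ⊥ e`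
`u∧v = ∑ w_{ij} Ro (h i) (h j)` with `σ(h i) = 0`; `act5` is linear in the endomorphism because `N` is
linear in each slot, so `act5 (u∧v) N = ∑ w_{ij} act5 (Ro (h i) (h j)) N = 0`.  (4) `S_Nfm`. -/
def S_Pnt : Prop :=
  ∀ (V : Type) [AddCommGroup V] [Module ℝ V] (B : V → V → ℝ) (m : ℕ) (R : V → V → V → V → ℝ)
    (Ro : V → V → V → V), Alg B m R Ro → ∀ N : V → V → V → V → V → ℝ, Dcrv N →
      (∃ z a b c d, N z a b c d ≠ 0) → ∀ (e : V) (σ : V → ℝ), B e e = 1 →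
      (∀ y z c d p q, WW (B e) N y z c d p q = 0) → Lin1 σ →
      (∀ x y, σ x = 0 → σ y = 0 → ∀ z c d p q, act5 (Ro x y) N z c d p q = 0) →
      ∃ κ k : ℝ, ∀ z a b c d, N z a b c d = κ * FF B (B e) z a b c d + k * TT B (B e) z a b c d

/-! ## B. algebra of the Kulkarni–Nomizu product, conclusion of case A -/

/-- **KNa**.  Proof: all identities are expansions (`unfold`, `ring`, after rewriting with the symmetry
of `B` and `S`).  (2): `act4 Φ (KN B S)(a,b,c,d) = -(∑ over the four slots)`; the terms with `Φ` inside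
`B` cancel in pairs by skewness, e.g. `⟨Φa,d⟩ S(b,c) + ⟨a,Φd⟩ S(b,c) = 0`.  (3): with
`Q(a,b) = ψ(z)⟨a,b⟩ + ⟨z,a⟩ψ(b) + ⟨z,b⟩ψ(a)` compare coefficients of `ψ(z), ψ(a), ψ(b), ψ(c), ψ(d)`. -/
def S_KNa : Prop :=
  ∀ (V : Type) [AddCommGroup V] [Module ℝ V] (B : V → V → ℝ), IP B →
    (∀ S, SyB S → Crvt (KN B S)) ∧
    (∀ S, SyB S → ∀ Φ : V → V, (∀ a b, B (Φ a) b = -B a (Φ b)) →
      ∀ a b c d, act4 Φ (KN B S) a b c d = KN B (act2 Φ S) a b c d) ∧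
    (∀ ψ : V → ℝ, Lin1 ψ → ∀ z, SyB (fun a b => ψ z * B a b + B z a * ψ b + B z b * ψ a) ∧
      ∀ a b c d, FF B ψ z a b c d
        = KN B (fun a b => ψ z * B a b + B z a * ψ b + B z b * ψ a) a b c d) ∧
    ∀ (κ : ℝ) a b c d, KN B (fun a b => κ / 2 * B a b) a b c d = κ * G0 B a b c d

/-- **KNb** (contractions).  Let `f` be a frame, `n` its length, `tr S = ∑ S(f_i,f_i)`,
`Ric(b,c) = ∑ R(f_i,b,c,f_i)`.  Proof.  (1) `∑_i (⟨f_i,f_i⟩ S(b,c) + S(f_i,f_i)⟨b,c⟩ - ⟨f_i,c⟩ S(b,f_i)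
- S(f_i,c)⟨b,f_i⟩) = n S(b,c) + tr S ⟨b,c⟩ - S(b,c) - S(b,c)` (`c = ∑ ⟨c,f_i⟩ f_i`).  (2) With
`Φ_{si} = ⟨Φf_i,f_s⟩ = -Φ_{is}`, `Φf_i = ∑_s Φ_{si} f_s`:
`∑_i (R(Φf_i,b,c,f_i) + R(f_i,b,c,Φf_i)) = ∑_{i,s} Φ_{si} (R(f_s,b,c,f_i) + R(f_i,b,c,f_s)) = 0`.
(3) the same for `S`.  (4) `KN(S) = 0` gives by (1) `(n-2) S + tr S ⟨·,·⟩ = 0`; the trace:
`(2n-2) tr S = 0`, so `tr S = 0` and `S = 0`.  (5) symmetries of `R`: `R(f,b,c,f) = R(c,f,f,b) =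
R(f,c,b,f)`. -/
def S_KNb : Prop :=
  ∀ (V : Type) [AddCommGroup V] [Module ℝ V] (B : V → V → ℝ) (n : ℕ) (f : Fin n → V), IP B →
    Fr B f →
    (∀ S, SyB S → ∀ b c, ∑ i, KN B S (f i) b c (f i)
      = ((n : ℝ) - 2) * S b c + (∑ i, S (f i) (f i)) * B b c) ∧
    (∀ R : V → V → V → V → ℝ, Crvt R → ∀ Φ : V → V, (∀ a b, B (Φ a) b = -B a (Φ b)) →
      ∀ b c, ∑ i, act4 Φ R (f i) b c (f i) = act2 Φ (fun b c => ∑ i, R (f i) b c (f i)) b c) ∧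
    (∀ S, SyB S → ∀ Φ : V → V, (∀ a b, B (Φ a) b = -B a (Φ b)) →
      ∑ i, act2 Φ S (f i) (f i) = 0) ∧
    (3 ≤ n → ∀ S, SyB S → (∀ a b c d, KN B S a b c d = 0) → ∀ a b, S a b = 0) ∧
    ∀ R : V → V → V → V → ℝ, Crvt R → SyB fun b c => ∑ i, R (f i) b c (f i)

/-- **FA** (`R = KN(P)`).  Available: `S_KNa`, `S_KNb`, `S_GenV`, `S_CIn`.  Let `f'` be a frame
(length `n = m + 1`), `Φ = Ro x y` (skew).  Proof.  By `S_KNa` (3) the right side of the hypothesis is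
`KN(S)` with `S(a,b) = (f x y - f y x)⟨a,b⟩ + ⟨y,a⟩ f x b + ⟨y,b⟩ f x a - ⟨x,a⟩ f y b - ⟨x,b⟩ f y a`, `S`
symmetric bilinear.  Contract (`S_KNb` (2), (1)): `act2 Φ Ric = (n-2) S + tr S ⟨·,·⟩`.  Trace
(`S_KNb` (3)): `0 = (n-2) tr S + n tr S`, so `tr S = 0` (`n ≥ 2`) and `act2 Φ Ric = (n-2) S`.  Put
`P₀ = Ric/(n-2)`: `act4 Φ (R - KN(P₀)) = KN(S) - KN(act2 Φ P₀) = 0` (`S_KNa` (2)).  `W = R - KN(P₀)` is a
curvature tensor with `act4 (Ro x y) W = 0` for all `x, y`, so by `S_GenV` (`act4` is linear in the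
endomorphism) `act4 (u∧v) W = 0` for all `u, v`; `S_CIn` (second part): `W = κ G0 = KN(κ/2 ⟨·,·⟩)`
(`S_KNa` (4)), and `R = KN(P₀ + κ/2 ⟨·,·⟩)`. -/
def S_FA : Prop :=
  ∀ (V : Type) [AddCommGroup V] [Module ℝ V] (B : V → V → ℝ) (m : ℕ) (R : V → V → V → V → ℝ)
    (Ro : V → V → V → V), Alg B m R Ro → ∀ f : V → V → ℝ, (∀ x, Lin1 (f x)) →
      (∀ y, Lin1 fun x => f x y) →
      (∀ x y a b c d, act4 (Ro x y) R a b c d
        = FF B (f x) y a b c d - FF B (f y) x a b c d) →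
      ∃ P, SyB P ∧ ∀ a b c d, R a b c d = KN B P a b c d

/-- **FB** (the contradiction of case A).  Available: `S_KNa`, `S_KNb`, `S_Prp`.
Notation: `P(a,b) = ⟨P̂a,b⟩` (Riesz), `Q_z(a,b) = ψ(z)⟨a,b⟩ + ⟨z,a⟩ψ(b) + ⟨z,b⟩ψ(a)`, which for
`ψ(z) = 0` is `⟨Q̂a,b⟩` with `Q̂a = ⟨z,a⟩ v + ψ(a) z`.
Proof.  (1) `FF ψ y = KN(Q_y)`.  `Ro x y a = P(y,a)x + ⟨y,a⟩P̂x - P(x,a)y - ⟨x,a⟩P̂y` and
`No x y a = Q_z(y,a)x + ⟨y,a⟩Q̂x - Q_z(x,a)y - ⟨x,a⟩Q̂y` (both sides have the same inner products); both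
are skew in `a`.  By `S_KNa` (2) the hypothesis says `KN(S) = 0` for the symmetric bilinear form
`S = act2 (No x y) P + act2 (Ro x y) Q_z + lam (ψ(x) Q_y - ψ(y) Q_x)`, so `S = 0` (`S_KNb` (4)).
(2) Put `C(a,b) = ⟨P̂a,Q̂b⟩ + ⟨Q̂a,P̂b⟩`, symmetric.  In `act2 (No x y) P + act2 (Ro x y) Q_z` the terms
without a factor `⟨x,·⟩` or `⟨y,·⟩` cancel, and it is
`-(C(x,a)⟨y,b⟩ + C(x,b)⟨y,a⟩ - C(y,a)⟨x,b⟩ - C(y,b)⟨x,a⟩)`.  So with
`C'(a,b) = C(a,b) - lam ψ(a)ψ(b)`: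
`C'(x,a)⟨y,b⟩ + C'(x,b)⟨y,a⟩ - C'(y,a)⟨x,b⟩ - C'(y,b)⟨x,a⟩ = 0` for all `x,y,a,b`.   (3)
(4) `a = b = y` in (3): `C'(x,y)⟨y,y⟩ = C'(y,y)⟨x,y⟩` for all `x, y`.  `a = x`, `b = y`, `x ⊥ y`:
`C'(x,x)⟨y,y⟩ = C'(y,y)⟨x,x⟩`.  So for three mutually orthogonal nonzero vectors `y₁,y₂,y₃` there is one
`μ` with `C'(x,y_i) = μ⟨x,y_i⟩` for all `x`, that is `P̂Q̂y_i + Q̂P̂y_i - lam ψ(y_i) v = μ y_i`.
(5) Apply this to `z`, `v`, `y₀` with a unit vector `y₀` orthogonal to `z` and `v` (`S_Prp`);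
`⟨z,v⟩ = ψ(z) = 0`.  `y₀`: `Q̂y₀ = 0`, so `⟨z,P̂y₀⟩ v + ψ(P̂y₀) z = μ y₀`, hence `μ = 0`,
`P(z,y₀) = 0 = P(v,y₀)`.  `z`: `|z|² P̂v + P(z,z) v + P(v,z) z = 0`; inner product with `z`:
`2|z|² P(v,z) = 0`; so `P(v,z) = 0` and `P̂v = α v`, `α = -P(z,z)/|z|²`.  `v`:
`|v|² P̂z + P(z,v) v + P(v,v) z - lam |v|² v = 0`; inner product with `v`: `lam = 0`; so
`P̂z = -α z` (`P(v,v) = α|v|²`).
(6) `R(v,z,a,b) = KN(P)(v,z,a,b) = ⟨v,b⟩P(z,a) + P(v,b)⟨z,a⟩ - ⟨v,a⟩P(z,b) - P(v,a)⟨z,b⟩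
= -α⟨v,b⟩⟨z,a⟩ + α⟨v,b⟩⟨z,a⟩ + α⟨v,a⟩⟨z,b⟩ - α⟨v,a⟩⟨z,b⟩ = 0` for all `a, b`: contradiction to `NSi` for the
orthonormal pair `v/|v|, z/|z|` and the matrix `w = (0 1; -1 0)`. -/
def S_FB : Prop :=
  ∀ (V : Type) [AddCommGroup V] [Module ℝ V] (B : V → V → ℝ) (m : ℕ) (R : V → V → V → V → ℝ)
    (Ro : V → V → V → V), Alg B m R Ro → ∀ P : V → V → ℝ, SyB P →
      (∀ a b c d, R a b c d = KN B P a b c d) →
      ∀ (ψ : V → ℝ) (v z : V) (lam : ℝ) (No : V → V → V → V), Lin1 ψ → (∀ a, ψ a = B v a) →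
        v ≠ 0 → z ≠ 0 → ψ z = 0 → (∀ x y a b, B (No x y a) b = FF B ψ z x y a b) →
        (∀ x y a b c d, act4 (No x y) R a b c d + act4 (Ro x y) (FF B ψ z) a b c d
          = -(lam * (ψ x * FF B ψ y a b c d - ψ y * FF B ψ x a b c d))) → False

/-! ## C. algebra of case B -/

/-- **Adj** (skew endomorphisms act skewly).  Proof: slot by slot.  For the first slot:
`Φf_i = ∑_s Φ_{si} f_s`, `Φ_{si} = ⟨Φf_i,f_s⟩ = -Φ_{is}`, so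
`∑_{i,j,k,l} (S(Φf_i,…) S'(f_i,…) + S(f_i,…) S'(Φf_i,…)) = ∑_{i,s,…} Φ_{si} (S(f_s,…) S'(f_i,…) +
S(f_i,…) S'(f_s,…)) = 0` (symmetric in `i, s`). -/
def S_Adj : Prop :=
  ∀ (V : Type) [AddCommGroup V] [Module ℝ V] (B : V → V → ℝ) (n : ℕ) (f : Fin n → V), IP B →
    Fr B f → ∀ S S' : V → V → V → V → ℝ, Ml4 S → Ml4 S' →
    ∀ Φ : V → V, (∀ a b, B (Φ a) b = -B a (Φ b)) →
    ∑ i, ∑ j, ∑ k, ∑ l, (act4 Φ S (f i) (f j) (f k) (f l) * S' (f i) (f j) (f k) (f l)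
      + S (f i) (f j) (f k) (f l) * act4 Φ S' (f i) (f j) (f k) (f l)) = 0

/-- **Inv** (`R(x,y).R = 0`).  Available: `S_Adj`.  Let `T(x,y) = act4 (Ro x y) R = M(x,y) - M(y,x)`, a
4-tensor, and let `⟨S,S'⟩` be the sum over a frame of the products of the values.  Proof.
(a) `⟨T(x,y),R⟩ = 0`: `S_Adj` with `S = S' = R`.  (b) For `Φ = Ro x y`:
`0 = act6 Φ M (a,b,…) = -M(Φa,b;…) - M(a,Φb;…) + act4 Φ (M(a,b;·))(…)`; subtract the same with `a, b`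
exchanged: `act4 Φ (T(a,b)) = T(Φa,b) + T(a,Φb)`.  (c) `⟨T(x,y),T(x,y)⟩ = ⟨act4 Φ R, T(x,y)⟩ =
-⟨R, act4 Φ (T(x,y))⟩ = -⟨R, T(Φx,y) + T(x,Φy)⟩ = 0` by `S_Adj`, (b) with `a = x`, `b = y`, and (a).  So
`T(x,y)` vanishes on frame vectors, hence everywhere (multilinear). -/
def S_Inv : Prop :=
  ∀ (V : Type) [AddCommGroup V] [Module ℝ V] (B : V → V → ℝ) (m : ℕ) (R : V → V → V → V → ℝ)
    (Ro : V → V → V → V), Eu B m → Crvt R → (∀ u v w z, B (Ro u v w) z = R u v w z) →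
    ∀ M : V → V → V → V → V → V → ℝ, (∀ x y, Ml4 (M x y)) →
      (∀ x y a b c d, act4 (Ro x y) R a b c d = M x y a b c d - M y x a b c d) →
      (∀ x y a b c d e f, act6 (Ro x y) M a b c d e f = 0) →
      ∀ x y a b c d, act4 (Ro x y) R a b c d = 0

/-- **Dz** (Schur).  Proof.  Let `N(z;·) = κ_z G0`.  If `z = 0` then `N(z;·) = 0` by linearity.  Otherwise
let `f` be a frame with `f 0 = z/√⟨z,z⟩` and evaluate `bi2` for `(z, f 1, f 2)` on `(f 2, f 1)`: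
`κ_z G0(f₁,f₂,f₂,f₁) + κ_{f₁} G0(f₂,z,f₂,f₁) + κ_{f₂} G0(z,f₁,f₂,f₁) = κ_z = 0`. -/
def S_Dz : Prop :=
  ∀ (V : Type) [AddCommGroup V] [Module ℝ V] (B : V → V → ℝ) (m : ℕ), Eu B m → 2 ≤ m →
    ∀ N : V → V → V → V → V → ℝ, Dcrv N →
      (∀ z, ∃ κ : ℝ, ∀ a b c d, N z a b c d = κ * G0 B a b c d) →
      ∀ z a b c d, N z a b c d = 0

/-! ## D. geometry: basic facts -/

/-- **CvP** (derivatives along curves of vectors with vanishing covariant derivative).  Proof: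
`KO.sCvE` with vanishing `α, β, …` for the ranks 1, 2, 4, 5 (`e_k` of a tuple with a zero vector is `0`
by `KO.sLin`), the curve lemma `KO.sCrv` for rank 6; `KO.sCvI` for the inner product; for `wd`: the
rules `KO.sCvb` and the inner products; the curve `v₀ - t • Chr g p X v₀` of `KO.sCvb`. -/
def S_CvP : Prop :=
  ∀ (n : ℕ) (g : Pt n → Matrix (Fin n) (Fin n) ℝ) (Ω : Set (Pt n)), IsMetricOn g Ω →
    ∀ p ∈ Ω, ∀ X : Pt n,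
    (∀ T : TF n 1, Sm Ω T → ∀ a a₀, Cv g p X a a₀ 0 →
      HasDerivAt (fun t : ℝ => e1 T (p + t • X) (a t)) (e2 (D g T) p X a₀) 0) ∧
    (∀ T : TF n 2, Sm Ω T → ∀ a a₀ b b₀, Cv g p X a a₀ 0 → Cv g p X b b₀ 0 →
      HasDerivAt (fun t : ℝ => e2 T (p + t • X) (a t) (b t)) (e3 (D g T) p X a₀ b₀) 0) ∧
    (∀ T : TF n 4, Sm Ω T → ∀ a a₀ b b₀ c c₀ d d₀, Cv g p X a a₀ 0 → Cv g p X b b₀ 0 →
      Cv g p X c c₀ 0 → Cv g p X d d₀ 0 →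
      HasDerivAt (fun t : ℝ => e4 T (p + t • X) (a t) (b t) (c t) (d t))
        (e5 (D g T) p X a₀ b₀ c₀ d₀) 0) ∧
    (∀ T : TF n 5, Sm Ω T → ∀ a a₀ b b₀ c c₀ d d₀ e e₀, Cv g p X a a₀ 0 → Cv g p X b b₀ 0 →
      Cv g p X c c₀ 0 → Cv g p X d d₀ 0 → Cv g p X e e₀ 0 →
      HasDerivAt (fun t : ℝ => e5 T (p + t • X) (a t) (b t) (c t) (d t) (e t))
        (e6 (D g T) p X a₀ b₀ c₀ d₀ e₀) 0) ∧
    (∀ T : TF n 6, Sm Ω T → ∀ a a₀ b b₀ c c₀ d d₀ e e₀ f f₀, Cv g p X a a₀ 0 →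
      Cv g p X b b₀ 0 → Cv g p X c c₀ 0 → Cv g p X d d₀ 0 → Cv g p X e e₀ 0 →
      Cv g p X f f₀ 0 →
      HasDerivAt (fun t : ℝ => e6 T (p + t • X) (a t) (b t) (c t) (d t) (e t) (f t))
        (e7 (D g T) p X a₀ b₀ c₀ d₀ e₀ f₀) 0) ∧
    (∀ a a₀ b b₀, Cv g p X a a₀ 0 → Cv g p X b b₀ 0 →
      HasDerivAt (fun t : ℝ => ip g (p + t • X) (a t) (b t)) 0 0) ∧
    (∀ u u₀ v v₀ a a₀, Cv g p X u u₀ 0 → Cv g p X v v₀ 0 → Cv g p X a a₀ 0 →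
      Cv g p X (fun t => wd (ip g (p + t • X)) (u t) (v t) (a t)) (wd (ip g p) u₀ v₀ a₀) 0) ∧
    ∀ v₀, ∃ v, Cv g p X v v₀ 0

/-- **Frm** (frames).  Proof.  `KO.sOnb` gives `IP (ip g x)` and one orthonormal basis `e'`.  Let `e` be a
unit vector; its coordinate vector `(⟨e,e'_i⟩)_i` in `EuclideanSpace ℝ (Fin n)` has length one, so it is
the vector `b 0` of an orthonormal basis `b` of `EuclideanSpace ℝ (Fin (m + 1))`
(`Orthonormal.exists_orthonormalBasis_extension_of_card_eq` for the set `{0}`).  Put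
`f i = ∑_k (b i)_k e'_k`.  `Eu.ex`: `e = e' 0`. -/
def S_Frm : Prop :=
  ∀ (n m : ℕ) (g : Pt n → Matrix (Fin n) (Fin n) ℝ) (x : Pt n), n = m + 1 → (g x).PosDef →
    Eu (ip g x) m

/-- **NsC** (the hypothesis in the form `NSi`).  Proof.  Given `h`, `w`, put
`W_{mp} = ∑_{ij} w_{ij} (h_i)_m (h_j)_p`, skew.  `R(h_i,h_j,bv b,bv a') = ∑_{m,p} (h_i)_m (h_j)_p ∑_e g_{a'e}
curv^e_{bmp}` (multilinearity, last statement of `KO.sSym`), so for all `a', b`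
`∑_e g_{a'e} (∑_{m,p} W_{mp} curv^e_{bmp}) = 0`; `g` is invertible, so `W = 0` by `NonSing`.  Then
`w_{kl} = ∑_{ij} w_{ij} ⟨h_i,h_k⟩⟨h_j,h_l⟩ = ∑ W_{mp} (g h_k)_m (g h_l)_p = 0`. -/
def S_NsC : Prop :=
  ∀ (n : ℕ) (g : Pt n → Matrix (Fin n) (Fin n) ℝ) (Ω : Set (Pt n)), IsMetricOn g Ω →
    ∀ x ∈ Ω, NonSing g x → NSi (ip g x) (e4 (R4 g) x)

/-- **NsO** (nonsingularity is open).  Proof.  For `x ∈ Ω` let `L_x` be the linear map from the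
functions `w : Fin n → Fin n → ℝ` to pairs of such functions,
`L_x(w) = ((∑_{m,p} w_{mp} curv^a_{bmp}(x))_{ab}, (w_{mp} + w_{pm})_{mp})`.  It is injective if and only if
`NonSing g x`.  Its entries are continuous on `Ω` (`KO.sSmo`), and the injective linear maps between
finite dimensional spaces form an open set (`ContinuousLinearMap.isOpen_injective`; or: if
`x_k → x`, `L_{x_k} w_k = 0`, `|w_k| = 1`, then a subsequence of `w_k` converges to a unit vector `w` with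
`L_x w = 0`). -/
def S_NsO : Prop :=
  ∀ (n : ℕ) (g : Pt n → Matrix (Fin n) (Fin n) ℝ) (Ω : Set (Pt n)), IsMetricOn g Ω →
    IsOpen {x | x ∈ Ω ∧ NonSing g x}

/-- **Bi4** (symmetries of `∇³R` in the last five slots).  Available: `S_CvP`.  Proof: differentiate
the identities of `KO.sBi3` (for `M(b,…)`) along curves with vanishing covariant derivative
(`S_CvP`, rank 6); linearity by `KO.sLin` (rank 7: `ev` is linear in each slot). -/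
def S_Bi4 : Prop :=
  ∀ (n : ℕ) (g : Pt n → Matrix (Fin n) (Fin n) ℝ) (Ω : Set (Pt n)), IsMetricOn g Ω → ∀ x ∈ Ω,
    ∀ a b, Dcrv (e7 (N3 g) x a b)

/-- **Br3** (from the index formalism to the internal one).  Proof: as in `KO/Brg.lean` (the auxiliary
lemmas there are private: copy them), one step further: `N3 g I x = ∑_e g_{e, I 6} nablaR g 3 e
[I 0, I 1, I 2, I 5, I 3, I 4] x`.  The equation `KSAt g 3` for `e` and the list `[c,c',c'',b,m,p]`,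
multiplied by `g_{ed}` and summed over `e` (`Finset.Icc 1 3 = {1,2,3}`), is the claim on coordinate
vectors; both sides are multilinear. -/
def S_Br3 : Prop :=
  ∀ (n : ℕ) (g : Pt n → Matrix (Fin n) (Fin n) ℝ) (Ω : Set (Pt n)), IsMetricOn g Ω →
    ∀ t : ℕ → List (Fin n) → Pt n → ℝ, (∀ x ∈ Ω, KSAt g 3 (fun m l => t m l x) x) →
    ∀ x ∈ Ω, ∀ a b c u v w z, e7 (N3 g) x a b c u v w z
      + e1 (fun I => t 1 [I 0]) x a * e6 (N2 g) x b c u v w z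
      + e2 (fun I => t 2 [I 0, I 1]) x a b * e5 (N g) x c u v w z
      + e3 (fun I => t 3 [I 0, I 1, I 2]) x a b c * e4 (R4 g) x u v w z = 0

/-- **T3** (`t₃ = 0`).  Available: `S_Bi4`, `S_Frm`.  Proof.  Fix `a, b` and add the hypothesis
cyclically over `(c,u,v)`: the sums of `A`, `M`, `N` vanish (`S_Bi4`, `KO.sBi3`, `KO.sBi2`), so with
`θ = t₃(a,b,·)`: `θ(c) R(u,v,w,z) + θ(u) R(v,c,w,z) + θ(v) R(c,u,w,z) = 0`.  Suppose `θ ≠ 0`; Riesz: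
`θ = ⟨T,·⟩`, `T ≠ 0`, `e = T/√⟨T,T⟩`, frame `f` with `f 0 = e`.  For `(c,u,v) = (e,f 1,f 2)`:
`θ(e) R(f₁,f₂,w,z) = 0`, `θ(e) ≠ 0`: contradiction to `NSi` for the pair `f₁, f₂`. -/
def S_T3 : Prop :=
  ∀ (n : ℕ) (g : Pt n → Matrix (Fin n) (Fin n) ℝ) (Ω : Set (Pt n)) (t1 : TF n 1) (t2 : TF n 2)
    (t3 : TF n 3), 3 ≤ n → IsMetricOn g Ω →
    (∀ x ∈ Ω, ∀ a b c u v w z, e7 (N3 g) x a b c u v w z + e1 t1 x a * e6 (N2 g) x b c u v w z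
      + e2 t2 x a b * e5 (N g) x c u v w z + e3 t3 x a b c * e4 (R4 g) x u v w z = 0) →
    (∀ x ∈ Ω, NSi (ip g x) (e4 (R4 g) x)) → ∀ x ∈ Ω, ∀ a b c, e3 t3 x a b c = 0

/-- **Rc4** (Ricci identity for `R`).  Proof: `KO.sRic` for `R4 g` (rank 4; compare `KO/QR.lean`). -/
def S_Rc4 : Prop :=
  ∀ (n : ℕ) (g : Pt n → Matrix (Fin n) (Fin n) ℝ) (Ω : Set (Pt n)), IsMetricOn g Ω → ∀ p ∈ Ω,
    ∀ x y c d e f, act4 (Rv g p x y) (e4 (R4 g) p) c d e f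
      = e6 (N2 g) p x y c d e f - e6 (N2 g) p y x c d e f

/-- **RcD** (its derivative).  Available: `S_Rc4`, `S_CvP`.  Proof: `S_Rc4` holds at all points near
`p`; insert curves with vanishing covariant derivative along `z` for `x, y, c, d, e, f` and
differentiate.  Right side: `S_CvP` rank 6.  Left side: four terms like
`-R(Rv x y c, d, e, f)`; the curve `Rv g (p + t z) (x t) (y t) (c t)` has covariant derivative
`Nv g p z x y c` (`KO.sCvR`), so by `KO.sCvE` (rank 4) its derivative is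
`-(N(z; Rv x y c, d, e, f) + R(Nv z x y c, d, e, f))`. -/
def S_RcD : Prop :=
  ∀ (n : ℕ) (g : Pt n → Matrix (Fin n) (Fin n) ℝ) (Ω : Set (Pt n)), IsMetricOn g Ω → ∀ p ∈ Ω,
    ∀ z x y c d e f, e7 (N3 g) p z x y c d e f - e7 (N3 g) p z y x c d e f
      = act4 (Nv g p z x y) (e4 (R4 g) p) c d e f
        + act4 (Rv g p x y) (e5 (N g) p z) c d e f

/-- **Wlk** (`W(t₂(a,·))[N] = 0`).  Available: `S_Wkr`, `S_Rc4`, `S_CvP`.  Proof.  `S_Wkr` (with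
`Ro = Rv g x`) and `S_Rc4` give on `Ω` the identity
`(M(y,z;c,d,p,q) - M(z,y;c,d,p,q)) + (M(c,d;p,q,y,z) - M(d,c;p,q,y,z))
+ (M(p,q;y,z,c,d) - M(q,p;y,z,c,d)) = 0`.   (1)
Differentiate it at `x` along `a` (`S_CvP`, rank 6): the same with `A(a,·,·;…)` in place of `M`.
Insert `ks`: `A(a,y,z;…) = σ(a) M(y,z;…) - t₂(a,y) N(z;…)`; the terms with `σ(a)` give `σ(a)·(1) = 0`; the
rest is `-W(t₂(a,·))[N](y,z,c,d,p,q)`. -/
def S_Wlk : Prop :=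
  ∀ (n : ℕ) (g : Pt n → Matrix (Fin n) (Fin n) ℝ) (Ω : Set (Pt n)) (t1 : TF n 1) (t2 : TF n 2),
    KS3 g Ω t1 t2 → ∀ x ∈ Ω, ∀ a y z c d p q, WW (e2 t2 x a) (e5 (N g) x) y z c d p q = 0

/-- **Rns** (`R(x,y).N = 0` for `x, y ∈ ker t₁`).  Proof: Ricci identity (`KO.sRic`) for `N g` (rank 5):
`act5 (Rv g p x y) N (z,c,d,e,f) = A(x,y,z;c,d,e,f) - A(y,x,z;c,d,e,f)`, which by `ks` and
`t₁(x) = t₁(y) = 0` is `-(t₂(x,y) - t₂(y,x)) N(z;c,d,e,f)`.  `Rv g p x y` is skew (`KO.sSym`); `KO.sSkw`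
(rank 5): the factor is `0` or `N = 0` at `p`; in both cases the claim follows. -/
def S_Rns : Prop :=
  ∀ (n : ℕ) (g : Pt n → Matrix (Fin n) (Fin n) ℝ) (Ω : Set (Pt n)) (t1 : TF n 1) (t2 : TF n 2),
    KS3 g Ω t1 t2 → ∀ p ∈ Ω, ∀ x y, e1 t1 p x = 0 → e1 t1 p y = 0 →
      ∀ z c d e f, act5 (Rv g p x y) (e5 (N g) p) z c d e f = 0

/-! ## E. case B: `t₂ = 0` on an open set -/

/-- **Rec** (curvature operators annihilate recurrent tensor fields).  Proof.  At `p`, with curves of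
vanishing covariant derivative for `Y, v_j` along `X` (curve lemma `KO.sCrv` for `D g T`, all `δ = 0`,
`ev` of a tuple with a zero vector is `0`):
`ev (D g (D g T)) p (cons X (cons Y v)) = (D τ)(X,Y) ev T p v + τ(Y) ev (D g T) p (cons X v)
= ((D τ)(X,Y) + τ(X) τ(Y)) ev T p v` (`τ = e1 τ p`, `Dτ = e2 (D g τ) p`).  By `KO.sRic`
`-∑_j ev T p (update v j (Rv g p X Y (v j))) = ((Dτ)(X,Y) - (Dτ)(Y,X)) ev T p v`.  `Rv g p X Y` is skew;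
`KO.sSkw`: `(Dτ)(X,Y) = (Dτ)(Y,X)` or `T = 0` at `p`; in both cases the sum is `0`. -/
def S_Rec : Prop :=
  ∀ (n : ℕ) (g : Pt n → Matrix (Fin n) (Fin n) ℝ) (U : Set (Pt n)), IsMetricOn g U →
    ∀ (k : ℕ) (T : TF n k) (τ : TF n 1), Sm U T → Sm U τ →
    (∀ x ∈ U, ∀ (y : Pt n) (v : Fin k → Pt n),
      ev (D g T) x (Fin.cons y v) = e1 τ x y * ev T x v) →
    ∀ p ∈ U, ∀ (X Y : Pt n) (v : Fin k → Pt n),
      ∑ j, ev T p (Function.update v j (Rv g p X Y (v j))) = 0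

/-- **Cb1** (`R(x,y).R = 0`).  Available: `S_Rec`, `S_Rc4`, `S_Inv`, `S_Frm`.  Proof.  By `ks` with
`t₂ = 0` the tensor field `T = N2 g` (rank 6) satisfies the hypothesis of `S_Rec` with `τ = -t₁`
(a tuple `v : Fin 6 → Pt n` is `![v 0, …, v 5]`); its conclusion is `act6 (Rv g p x y) (e6 (N2 g) p) = 0`.
`S_Inv` with `B = ip g p`, `R = e4 (R4 g) p`, `Ro = Rv g p`, `M = e6 (N2 g) p` (`Eu` from `S_Frm`,
`n = (n-1) + 1`). -/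
def S_Cb1 : Prop :=
  ∀ (n : ℕ) (g : Pt n → Matrix (Fin n) (Fin n) ℝ) (U : Set (Pt n)) (t1 : TF n 1) (t2 : TF n 2),
    3 ≤ n → KS3 g U t1 t2 → (∀ x ∈ U, ∀ a b, e2 t2 x a b = 0) →
      ∀ p ∈ U, ∀ x y c d e f, act4 (Rv g p x y) (e4 (R4 g) p) c d e f = 0

/-- **Cb2** (semisymmetric with nonsingular curvature operator: locally symmetric).  Available:
`S_GenV`, `S_CvP`, `S_CIn`, `S_Dz`, `S_Frm`.  Proof.  At every point of `U` the data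
`Alg (ip g x) (n-1) (e4 (R4 g) x) (Rv g x)` are given; by `S_GenV` and linearity of `act4` in the
endomorphism `act4 (wd (ip g x) u v) R = 0` for all `u, v`.  Differentiate this at `p` along `X` with
curves of vanishing covariant derivative for `u,v,c,d,e,f` (`S_CvP`: rank 4 and `wd`):
`act4 (wd (ip g p) u v) (N(X;·)) = 0`.  `N(X;·)` is a curvature tensor (`KO.sBi2`), so
`N(X;·) = κ_X G0` by `S_CIn` (second part), and `N = 0` by `S_Dz`. -/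
def S_Cb2 : Prop :=
  ∀ (n : ℕ) (g : Pt n → Matrix (Fin n) (Fin n) ℝ) (U : Set (Pt n)), 3 ≤ n → IsMetricOn g U →
    (∀ x ∈ U, NSi (ip g x) (e4 (R4 g) x)) →
    (∀ p ∈ U, ∀ x y c d e f, act4 (Rv g p x y) (e4 (R4 g) p) c d e f = 0) →
    ∀ p ∈ U, ∀ z a b c d, e5 (N g) p z a b c d = 0

/-! ## F. case A: `t₂ ≠ 0` -/

/-- **Uni** (normalisation of a 1-form).  Proof.  `q(x) = ip g x (du g τ x) (du g τ x) > 0` on `U`
(`e1 τ x v = ip g x (du g τ x) v` by `KO.sUp` with `k = 0`, so `du g τ x ≠ 0`), and `q` is smooth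
(components: `(du g τ x) a = ∑_b (g x)⁻¹ a b τ ![b] x`).  `θ I x = τ I x / √(q x)`, `s = √(q x)`;
`du g θ x = (1/√q) du g τ x`. -/
def S_Uni : Prop :=
  ∀ (n : ℕ) (g : Pt n → Matrix (Fin n) (Fin n) ℝ) (U : Set (Pt n)), IsMetricOn g U →
    ∀ τ : TF n 1, Sm U τ → (∀ x ∈ U, ∃ v, e1 τ x v ≠ 0) →
    ∃ θ : TF n 1, Unit1 g U θ ∧ ∀ x ∈ U, ∃ s : ℝ, s ≠ 0 ∧ ∀ v, e1 τ x v = s * e1 θ x v

/-- **OrC** (orthogonal curves).  Available: `S_CvP`.  Proof.  Let `α, β₁, γ₁` be curves with vanishing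
covariant derivative through `a, b, c` (`S_CvP`).  Near `t = 0` the metric is positive definite at
`p + tX` and the vectors are `≠ 0` (continuity at `0`).  `β = β₁ - (⟨β₁,α⟩/⟨α,α⟩) α`: the coefficient has
value `0` and derivative `0` at `t = 0` (quotient rule, `S_CvP`), so by `KO.sCvb` `β` has value `b` and
vanishing covariant derivative.  `γ = γ₁ - (⟨γ₁,α⟩/⟨α,α⟩) α - (⟨γ₁,β⟩/⟨β,β⟩) β` the same. -/
def S_OrC : Prop :=
  ∀ (n : ℕ) (g : Pt n → Matrix (Fin n) (Fin n) ℝ) (Ω : Set (Pt n)), IsMetricOn g Ω → ∀ p ∈ Ω,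
    ∀ X a b c : Pt n, Orth g p a b c → a ≠ 0 → b ≠ 0 → c ≠ 0 →
    ∃ α β γ : ℝ → Pt n, Cv g p X α a 0 ∧ Cv g p X β b 0 ∧ Cv g p X γ c 0 ∧
      ∀ᶠ t in nhds (0 : ℝ), Orth g (p + t • X) (α t) (β t) (γ t) ∧ α t ≠ 0 ∧ β t ≠ 0 ∧ γ t ≠ 0

/-- **Ksm** (the coefficient `k` is smooth).  Available: `S_Frm`.  Proof.  Let `k(x)` be the second
coefficient chosen in `NF`.  (1) `NO.val`: for mutually orthogonal `z, a, b`
`FF(θ)(z;z,a,z,b) = 4θ(z) G0(z,a,z,b) + θ(a) G0(z,z,z,b) + θ(b) G0(z,a,z,z) = 0` and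
`TT(θ)(z;z,a,z,b) = θ(z)θ(a)θ(b)⟨z,z⟩` (the other terms contain `⟨a,b⟩`, `⟨a,z⟩` or `⟨z,b⟩`).
(2) Smoothness at `p ∈ U`: let `f` be a frame at `p` with `f 0 = du g θ p` (`S_Frm`), and consider the
constant vectors `z₀ = f₀ + f₁ + f₂`, `a₀ = f₀ - f₁`, `b₀ = f₀ + f₁ - 2f₂`, mutually orthogonal at `p`, with
`θ_p = 1` on each of them.  For `x ∈ U` let `A(x) = a₀ - (⟨a₀,z₀⟩/⟨z₀,z₀⟩) z₀`,
`C(x) = b₀ - (⟨b₀,z₀⟩/⟨z₀,z₀⟩) z₀ - (⟨b₀,A⟩/⟨A,A⟩) A` (inner products at `x`; near `p` the denominators are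
`≠ 0`): smooth near `p`, and `z₀, A, C` are mutually orthogonal.  By (1)
`k(x) q(x) = N(z₀;z₀,A,z₀,C)`, `q = ⟨z₀,z₀⟩θ(z₀)θ(A)θ(C)`, `q(p) = 3 ≠ 0`; both functions are smooth near
`p`. -/
def S_Ksm : Prop :=
  ∀ (n : ℕ) (g : Pt n → Matrix (Fin n) (Fin n) ℝ) (U : Set (Pt n)) (θ : TF n 1), 3 ≤ n →
    IsMetricOn g U → Unit1 g U θ → NF g U θ →
    ∃ k : Pt n → ℝ, NO g U θ k ∧ ∀ x ∈ U, ∃ κ : ℝ, ∀ z a b c d, e5 (N g) x z a b c d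
      = κ * FF (ip g x) (e1 θ x) z a b c d + k x * TT (ip g x) (e1 θ x) z a b c d

/-- **Kz1** (first derivative of `NO`).  Available: `S_CvP`, `S_OrC`.  Proof: `S_OrC` gives curves
`ζ, α, β` through `z, a, b`, mutually orthogonal near `t = 0`, so
`N(ζ;ζ,α,ζ,β) = k ⟨ζ,ζ⟩ θ(ζ)θ(α)θ(β)` at `x + tX` near `t = 0`; differentiate at `0` (`S_CvP` ranks 5 and
1, `⟨ζ,ζ⟩' = 0`, chain rule for `k(x + tX)`). -/
def S_Kz1 : Prop :=
  ∀ (n : ℕ) (g : Pt n → Matrix (Fin n) (Fin n) ℝ) (U : Set (Pt n)) (θ : TF n 1)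
    (k : Pt n → ℝ), IsMetricOn g U → Sm U θ → NO g U θ k → ∀ x ∈ U, ∀ X z a b,
    Orth g x z a b → z ≠ 0 → a ≠ 0 → b ≠ 0 →
    e6 (N2 g) x X z z a z b
      = fderiv ℝ k x X * (ip g x z z * (e1 θ x z * (e1 θ x a * e1 θ x b)))
        + k x * (ip g x z z * (e2 (D g θ) x X z * (e1 θ x a * e1 θ x b)
          + e1 θ x z * (e2 (D g θ) x X a * e1 θ x b + e1 θ x a * e2 (D g θ) x X b)))

/-- **Kz2** (second derivative: `k ≠ 0` implies `∇θ = 0`).  Available: `S_CvP`, `S_OrC`, `S_Kz1`,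
`S_Prp`, `S_Frm`.  Let `e = du g θ x`.  Proof.  (1) Let `a, b ≠ 0` be orthogonal to each other and to `e`,
so `θ(a) = θ(b) = 0`, `θ(e) = 1`.  Curves `ζ, α, β` through `e, a, b` from `S_OrC`, and `ξ` through `X` with
vanishing covariant derivative.  By `S_Kz1` at the points `x + tX` near `t = 0` (vector `ξ(t)`)
`M(ξ,ζ;ζ,α,ζ,β) = (dk)(ξ) ⟨ζ,ζ⟩ θ(ζ)θ(α)θ(β) + k ⟨ζ,ζ⟩ ((Dθ)(ξ,ζ)θ(α)θ(β)
+ θ(ζ)((Dθ)(ξ,α)θ(β) + θ(α)(Dθ)(ξ,β)))`.  Differentiate at `0`.  Left: `A(X,X,e;e,a,e,b)`.  Right: all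
factors are differentiable (`k` and `θ` are smooth); the products containing `θ(α)θ(β)` have derivative
`0`; `θ(α)' = (Dθ)(X,a)`, `θ(β)' = (Dθ)(X,b)`, so the right side is `2 k (Dθ)(X,a)(Dθ)(X,b)`.  By `ks`
`A(X,X,e;e,a,e,b) = σ(X) M(X,e;e,a,e,b) - t₂(X,X) N(e;e,a,e,b)`, and both vanish by `S_Kz1` and
`NO.val` (`θ(a) = θ(b) = 0`).  As `k ≠ 0`: `(Dθ)(X,a)(Dθ)(X,b) = 0`.  (2) For a unit vector `a ⊥ e` choose a
unit vector `b ⊥ e, a` (`S_Prp`); (1) for `(a,b)` and for `(a+b, a-b)`: `l_a l_b = 0` and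
`(l_a + l_b)(l_a - l_b) = 0`, `l = (Dθ)(X,·)`; so `l_a = 0`.  (3) `l(e) = 0`: `e1 θ x (du g θ x) = 1` on
`U`; differentiate along `X`: the curve `du g θ (x + tX)` has covariant derivative
`E = up g (D g θ) x ![X]` (`KO.sCvU` with `k = 0`), so by `KO.sCvE` (rank 1)
`0 = (Dθ)(X,e) + θ(E) = (Dθ)(X,e) + ⟨E,e⟩ = 2 (Dθ)(X,e)` (`KO.sUp`).  (4) `v = ⟨e,v⟩ e + v'`. -/
def S_Kz2 : Prop :=
  ∀ (n : ℕ) (g : Pt n → Matrix (Fin n) (Fin n) ℝ) (U : Set (Pt n)) (t1 : TF n 1) (t2 : TF n 2)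
    (θ : TF n 1) (k : Pt n → ℝ), 3 ≤ n → KS3 g U t1 t2 → Unit1 g U θ → NO g U θ k →
    ∀ x ∈ U, k x ≠ 0 → ∀ X v, e2 (D g θ) x X v = 0

/-- **Kz** (`k = 0`).  Available: `S_Ksm`, `S_Kz2`, `S_Frm`.  Proof.  `k` from `S_Ksm`; suppose
`k(p) ≠ 0`.  On the open set `{x ∈ U : k(x) ≠ 0}` `Dθ = 0` (`S_Kz2`; components by `KO.sLin`), so all
components of `D g (D g θ)` vanish at `p` (definition of `D`: the functions vanish near `p`).  Ricci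
identity (`KO.sRic`, rank 1): `θ(Rv g p X Y w) = 0`, i.e. `R(X,Y,w,e) = 0` for all `X, Y, w`, with
`e = du g θ p`; by `sw` and `a12` `R(e,w,X,Y) = 0`; contradiction to `NSi` for the pair `e, f₁` of a frame
with `f₀ = e` (`w = (0 1; -1 0)`). -/
def S_Kz : Prop :=
  ∀ (n : ℕ) (g : Pt n → Matrix (Fin n) (Fin n) ℝ) (U : Set (Pt n)) (t1 : TF n 1) (t2 : TF n 2)
    (θ : TF n 1), 3 ≤ n → KS3 g U t1 t2 → Unit1 g U θ → NF g U θ →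
    ∀ x ∈ U, ∃ κ : ℝ, ∀ z a b c d, e5 (N g) x z a b c d
      = κ * FF (ip g x) (e1 θ x) z a b c d

/-- **Om** (the smooth 1-form `ψ = κ θ`).  Proof.  `FF(φ)(z;z,p,z,p) = 4 φ(z) G0(z,p,z,p) =
4 φ(z) (⟨z,p⟩² - ⟨z,z⟩⟨p,p⟩)`.  For every `i : Fin n` choose `j ≠ i` (`n ≥ 2`) and put
`ψ_i(x) = N(bv i; bv i, bv j, bv i, bv j) / (4 (g_{ij}² - g_{ii} g_{jj}))`; the denominator is `≠ 0` as
`g x` is positive definite (`g_{jj} > 0` and `⟨u,u⟩ > 0` for `u = bv i - (g_{ij}/g_{jj}) bv j`).  Smooth on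
`U` (`KO.sSmo`), `ψ_i = κ θ_i`, so `e1 ψ x v = κ e1 θ x v`, and `FF` is linear in the form. -/
def S_Om : Prop :=
  ∀ (n : ℕ) (g : Pt n → Matrix (Fin n) (Fin n) ℝ) (U : Set (Pt n)) (θ : TF n 1), 3 ≤ n →
    IsMetricOn g U →
    (∀ x ∈ U, ∃ κ : ℝ, ∀ z a b c d, e5 (N g) x z a b c d
      = κ * FF (ip g x) (e1 θ x) z a b c d) →
    ∃ ψ : TF n 1, Sm U ψ ∧ ∀ x ∈ U, (∃ κ : ℝ, ∀ v, e1 ψ x v = κ * e1 θ x v) ∧
      ∀ z a b c d, e5 (N g) x z a b c d = FF (ip g x) (e1 ψ x) z a b c d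

/-- **Mf** (`∇²R` in terms of `∇ψ`).  Available: `S_CvP`.  Proof: insert curves with vanishing
covariant derivative and differentiate (`S_CvP`: rank 5, rank 1, inner products). -/
def S_Mf : Prop :=
  ∀ (n : ℕ) (g : Pt n → Matrix (Fin n) (Fin n) ℝ) (U : Set (Pt n)) (ψ : TF n 1),
    IsMetricOn g U → Sm U ψ →
    (∀ x ∈ U, ∀ z a b c d, e5 (N g) x z a b c d = FF (ip g x) (e1 ψ x) z a b c d) →
    ∀ x ∈ U, ∀ X z a b c d, e6 (N2 g) x X z a b c d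
      = FF (ip g x) (e2 (D g ψ) x X) z a b c d

/-- **Ca1** (first part of case A).  Available: `S_Uni`, `S_Wlk`, `S_Rns`, `S_Two`, `S_Pnt`,
`S_Frm`.  Proof.  `τ I x = ∑_a x₀ a * t2 ![a, I 0] x`, so `e1 τ x v = e2 t2 x x₀ v`, smooth; `S_Uni` gives
`θ` and `s ≠ 0`.  `W` is linear in the form, so `W(θ)[N] = 0` by `S_Wlk`.  At `x ∈ U` apply `S_Pnt` with
`e = du g θ x` (`e1 θ x = ip g x e` as functions), `σ = e1 t1 x`, `S_Rns`, `Alg` from `S_Frm` (`m = n-1`),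
`KO.sSym`, `KS3.ns`.  Last statement: `W(t₂(a,·))[N] = 0 = W(θ)[N]` and `N ≠ 0`, so by `S_Two`
`t₂(a,v) θ(e) = t₂(a,e) θ(v)`, `θ(e) = 1`: `c = t₂(a,e)`. -/
def S_Ca1 : Prop :=
  ∀ (n : ℕ) (g : Pt n → Matrix (Fin n) (Fin n) ℝ) (U : Set (Pt n)) (t1 : TF n 1) (t2 : TF n 2)
    (x₀ : Pt n), 3 ≤ n → KS3 g U t1 t2 →
    (∀ x ∈ U, ∃ z a b c d, e5 (N g) x z a b c d ≠ 0) → (∀ x ∈ U, ∃ v, e2 t2 x x₀ v ≠ 0) →
    ∃ θ : TF n 1, Unit1 g U θ ∧ NF g U θ ∧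
      ∀ x ∈ U, ∀ a, ∃ c : ℝ, ∀ v, e2 t2 x a v = c * e1 θ x v

/-- **Ca2** (case A is impossible).  Available: `S_Kz`, `S_Om`, `S_Mf`, `S_Rc4`, `S_RcD`, `S_FA`,
`S_FB`, `S_Prp`, `S_Frm`.  Proof.  Let `p ∈ U`, `e = du g θ p`.  `S_Kz`, `S_Om` give `ψ` with `N = FF(ψ)` on
`U` and `e1 ψ p = κ e1 θ p`, `κ ≠ 0` because `N ≠ 0`.  `S_Rc4` and `S_Mf`:
`act4 (Rv x y) R = FF(Dψ(x,·))(y;…) - FF(Dψ(y,·))(x;…)`, so by `S_FA` (`f = e2 (D g ψ) p`)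
`R = KN(P)`.  Riesz: `t₁ = ⟨s,·⟩`; `S_Prp`: a unit vector `z₀` orthogonal to `e` and `s`.  `S_RcD` with
`z = z₀` and `ks` (`t₁(z₀) = 0`): `act4 (Nv z₀ x y) R + act4 (Rv x y) (N(z₀;·)) = -t₂(z₀,x) N(y;·) +
t₂(z₀,y) N(x;·)`, and `t₂(z₀,·) = c θ = lam ψ`, `lam = c/κ`.  `S_FB` with `v = κ e`, `z = z₀`,
`No = Nv g p z₀` (`KO.sOpn`). -/
def S_Ca2 : Prop :=
  ∀ (n : ℕ) (g : Pt n → Matrix (Fin n) (Fin n) ℝ) (U : Set (Pt n)) (t1 : TF n 1) (t2 : TF n 2)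
    (θ : TF n 1), 3 ≤ n → KS3 g U t1 t2 →
    (∀ x ∈ U, ∃ z a b c d, e5 (N g) x z a b c d ≠ 0) → Unit1 g U θ → NF g U θ →
    (∀ x ∈ U, ∀ a, ∃ c : ℝ, ∀ v, e2 t2 x a v = c * e1 θ x v) → ∀ p ∈ U, False

/-! ## G. conclusion -/

/-- **Th3** (`∇R = 0`).  Available: `S_Cb1`, `S_Cb2`, `S_Ca1`, `S_Ca2`.  Proof.  Suppose `N ≠ 0` at a
point and let `U₀ = {x ∈ Ω : N ≠ 0}`, nonempty and open (continuity of the components).  If there are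
`q ∈ U₀` and `x₀` with `t₂(x₀,·) ≠ 0` at `q`, then `U = {x ∈ U₀ : t₂(x₀,·) ≠ 0}` is open, contains `q`, and
`KS3 g U t1 t2` (restriction): contradiction by `S_Ca1`, `S_Ca2`.  Otherwise `t₂ = 0` on `U₀`, and
`S_Cb1`, `S_Cb2` give `N = 0` on `U₀`, a contradiction. -/
def S_Th3 : Prop :=
  ∀ (n : ℕ) (g : Pt n → Matrix (Fin n) (Fin n) ℝ) (Ω : Set (Pt n)) (t1 : TF n 1) (t2 : TF n 2),
    3 ≤ n → KS3 g Ω t1 t2 → ∀ x ∈ Ω, ∀ z a b c d, e5 (N g) x z a b c d = 0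

/-- **En3** (the hand-in).  Available: `S_NsC`, `S_NsO`, `S_Br3`, `S_T3`, `S_Th3`.  Proof.
`Ω' = {x ∈ Ω : NonSing g x}` is open (`S_NsO`); on `Ω'` the equation holds (`S_Br3`), `NSi` (`S_NsC`),
`t₃ = 0` (`S_T3`), so `KS3 g Ω' t1 t2` with `t1 I = t 1 [I 0]`, `t2 I = t 2 [I 0, I 1]`; `S_Th3` gives
`N = 0` at `p`; the second part of `KO.sBrg`. -/
def S_En3 : Prop :=
  ∀ (n : ℕ) (g : Pt n → Matrix (Fin n) (Fin n) ℝ) (Ω : Set (Pt n)), 3 ≤ n → IsMetricOn g Ω →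
    ∀ t : ℕ → List (Fin n) → Pt n → ℝ, (∀ m l, ContDiffOn ℝ ∞ (t m l) Ω) →
    (∀ x ∈ Ω, KSAt g 3 (fun m l => t m l x) x) →
    ∀ p ∈ Ω, NonSing g p → ∀ a c b m q, nablaR g 1 a [c, b, m, q] p = 0

end

end Pool.Agent.Lib.MP_9d59e9_gt.KO3
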