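import Pool.Agent.Lib.MP_9d59e9_gt.KO3.Spec

/-!
# MP_9d59e9_gt, project KO3: Wlk (the Walker type identity for the second coefficient)
-/

set_option autoImplicit false

namespace Pool.Agent.Lib.MP_9d59e9_gt.KO3

open scoped BigOperators ContDiff Topology
open Set KO

private theorem Wlk_near {n : ℕ} {Ω : Set (Pt n)} (hO : IsOpen Ω) {p : Pt n} (hp : p ∈ Ω)
    (X : Pt n) : ∀ᶠ t in 𝓝 (0 : ℝ), p + t • X ∈ Ω := by
  have h1 : Continuous fun t : ℝ => p + t • X :=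
    continuous_const.add (continuous_id.smul continuous_const)
  have h2 : (fun t : ℝ => p + t • X) 0 ∈ Ω := by simpa using hp
  exact h1.continuousAt.eventually (hO.mem_nhds h2)

theorem tWlk (hWkr : S_Wkr) (hRc4 : S_Rc4) (hCvP : S_CvP) : S_Wlk := by
  intro n g Ω t1 t2 H p hp a y z c d f q
  have id1 : ∀ x ∈ Ω, ∀ y z c d f q,
      (e6 (N2 g) x y z c d f q - e6 (N2 g) x z y c d f q)
        + (e6 (N2 g) x c d f q y z - e6 (N2 g) x d c f q y z)
        + (e6 (N2 g) x f q y z c d - e6 (N2 g) x q f y z c d) = 0 := by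
    intro x hx y z c d f q
    have hS := sSym n g Ω H.met x hx
    have h1 := hWkr (Pt n) (ip g x) (e4 (R4 g) x) (Rv g x) (sOnb n g x (H.met.pos x hx)).2.1
      hS.1 hS.2.1 y z c d f q
    rw [hRc4 n g Ω H.met x hx y z c d f q, hRc4 n g Ω H.met x hx c d f q y z,
      hRc4 n g Ω H.met x hx f q y z c d] at h1
    exact h1
  obtain ⟨-, -, -, -, h6, -, -, hex⟩ := hCvP n g Ω H.met p hp a
  obtain ⟨vy, hy⟩ := hex y
  obtain ⟨vz, hz⟩ := hex z
  obtain ⟨vc, hc⟩ := hex c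
  obtain ⟨vd, hd⟩ := hex d
  obtain ⟨vf, hf⟩ := hex f
  obtain ⟨vq, hq⟩ := hex q
  obtain ⟨-, -, -, -, -, -, -, hsm, -⟩ := sSmo n g Ω H.met
  have key := (((h6 _ hsm _ _ _ _ _ _ _ _ _ _ _ _ hy hz hc hd hf hq).sub
      (h6 _ hsm _ _ _ _ _ _ _ _ _ _ _ _ hz hy hc hd hf hq)).add
      ((h6 _ hsm _ _ _ _ _ _ _ _ _ _ _ _ hc hd hf hq hy hz).sub
      (h6 _ hsm _ _ _ _ _ _ _ _ _ _ _ _ hd hc hf hq hy hz))).add
      ((h6 _ hsm _ _ _ _ _ _ _ _ _ _ _ _ hf hq hy hz hc hd).sub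
      (h6 _ hsm _ _ _ _ _ _ _ _ _ _ _ _ hq hf hy hz hc hd))
  have h0 := key.unique ((hasDerivAt_const (0 : ℝ) (0 : ℝ)).congr_of_eventuallyEq
    ((Wlk_near H.met.isOpen hp a).mono fun t ht => id1 _ ht _ _ _ _ _ _))
  have k1 := H.ks p hp a y z c d f q
  have k2 := H.ks p hp a z y c d f q
  have k3 := H.ks p hp a c d f q y z
  have k4 := H.ks p hp a d c f q y z
  have k5 := H.ks p hp a f q y z c d
  have k6 := H.ks p hp a q f y z c d
  have i0 := id1 p hp y z c d f q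
  unfold N3 at k1 k2 k3 k4 k5 k6
  unfold WW
  linear_combination k1 - k2 + k3 - k4 + k5 - k6 - h0 - e1 t1 p a * i0

end Pool.Agent.Lib.MP_9d59e9_gt.KO3
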